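import Pool.Agent.Lib.MP_8daebb_an.LH.BDef
import Pool.Agent.Lib.MP_8daebb_an.LG.Alg

open MeasureTheory Metric Set Filter Topology
open scoped RealInnerProductSpace NNReal
open Pool.Agent.Lib.MP_8daebb_an.LG

namespace Pool.Agent.Lib.MP_8daebb_an.LH

variable {m : ℕ} {ι : Type}

/-! BALG. Algebra of the oblique integrand and of the linear change of coordinates. -/

theorem Wb_sq (β q : E m) : Wb β q ^ 2 = Jb β q ^ 2 + ‖q‖ ^ 2 :=
  Real.sq_sqrt (by positivity)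

theorem Wb_nonneg_balg (β q : E m) : 0 ≤ Wb β q := Real.sqrt_nonneg _

theorem abs_Jb_le_balg (β q : E m) : |Jb β q| ≤ Wb β q :=
  Real.abs_le_sqrt (by nlinarith [sq_nonneg ‖q‖])

theorem norm_le_Wb_balg (β q : E m) : ‖q‖ ≤ Wb β q :=
  Real.le_sqrt_of_sq_le (by nlinarith [sq_nonneg (Jb β q)])

theorem Wb_lower (β q : E m) : 1 ≤ (1 + ‖β‖) * Wb β q := by
  have h1 := (abs_le.1 (abs_Jb_le_balg β q)).2
  have h2 := norm_le_Wb_balg β q
  have h3 := (abs_le.1 (abs_real_inner_le_norm β q)).1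
  have h4 : ‖β‖ * ‖q‖ ≤ ‖β‖ * Wb β q := mul_le_mul_of_nonneg_left h2 (norm_nonneg _)
  have h5 : Jb β q = 1 + ⟪β, q⟫ := rfl
  nlinarith

theorem Wb_pos (β q : E m) : 0 < Wb β q := by
  rcases (Wb_nonneg_balg β q).lt_or_eq with h | h
  · exact h
  · have h1 := Wb_lower β q
    rw [← h, mul_zero] at h1
    linarith

theorem abs_Jb_le (β q : E m) : |Jb β q| ≤ Wb β q := abs_Jb_le_balg β q

theorem norm_le_Wb (β q : E m) : ‖q‖ ≤ Wb β q := norm_le_Wb_balg β q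

theorem Wb_le_abs_balg (β q : E m) : Wb β q ≤ |Jb β q| + ‖q‖ := by
  refine Real.sqrt_le_iff.mpr ⟨by positivity, ?_⟩
  nlinarith [sq_abs (Jb β q), mul_nonneg (abs_nonneg (Jb β q)) (norm_nonneg q)]

theorem Wb_le (β q : E m) : Wb β q ≤ 1 + (‖β‖ + 1) * ‖q‖ := by
  have h1 := Wb_le_abs_balg β q
  have h2 : |Jb β q| ≤ 1 + ‖β‖ * ‖q‖ := by
    have h3 := abs_le.1 (abs_real_inner_le_norm β q)
    have h5 : Jb β q = 1 + ⟪β, q⟫ := rfl
    rw [abs_le]
    constructor <;> linarith [h3.1, h3.2]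
  nlinarith

theorem Fb_nonneg (β q : E m) : 0 ≤ Fb β q :=
  sub_nonneg.mpr (abs_le.1 (abs_Jb_le β q)).2

theorem Fb_mul_balg (β q : E m) : Fb β q * (Wb β q + Jb β q) = ‖q‖ ^ 2 := by
  have h := Wb_sq β q
  rw [Fb]
  linarith

theorem Fb_le_two_balg (β q : E m) : Fb β q ≤ 2 * Wb β q := by
  have h := (abs_le.1 (abs_Jb_le β q)).1
  rw [Fb]
  linarith

theorem Fb_le (β q : E m) : Fb β q ≤ 2 * (1 + ‖β‖) ^ 2 * ‖q‖ ^ 2 := by
  have hb := norm_nonneg β
  have hq := norm_nonneg q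
  have hF := Fb_nonneg β q
  rcases le_or_gt 0 (Jb β q) with hJ | hJ
  · have h1 := Wb_lower β q
    have h2 := Fb_mul_balg β q
    have h3 : Fb β q ≤ (1 + ‖β‖) * ‖q‖ ^ 2 := by
      calc Fb β q = Fb β q * 1 := (mul_one _).symm
        _ ≤ Fb β q * ((1 + ‖β‖) * Wb β q) := mul_le_mul_of_nonneg_left h1 hF
        _ ≤ Fb β q * ((1 + ‖β‖) * (Wb β q + Jb β q)) := by gcongr; linarith
        _ = (1 + ‖β‖) * (Fb β q * (Wb β q + Jb β q)) := by ring
        _ = _ := by rw [h2]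
    refine h3.trans (mul_le_mul_of_nonneg_right ?_ (by positivity))
    nlinarith
  · have h3 := (abs_le.1 (abs_real_inner_le_norm β q)).1
    have h5 : Jb β q = 1 + ⟪β, q⟫ := rfl
    have h6 : 1 ≤ ‖β‖ * ‖q‖ := by linarith
    have h7 : |Jb β q| ≤ ‖β‖ * ‖q‖ := by
      rw [abs_of_neg hJ]; linarith
    have h8 : Wb β q ≤ (1 + ‖β‖) * ‖q‖ := by
      have := Wb_le_abs_balg β q
      linarith
    have h9 : 1 ≤ (1 + ‖β‖) * ‖q‖ := by linarith
    calc Fb β q ≤ 2 * Wb β q := Fb_le_two_balg β q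
      _ ≤ 2 * ((1 + ‖β‖) * ‖q‖) := by linarith
      _ ≤ 2 * ((1 + ‖β‖) * ‖q‖) * ((1 + ‖β‖) * ‖q‖) :=
        le_mul_of_one_le_right (by positivity) h9
      _ = _ := by ring

theorem sq_le_Fb (β q : E m) : ‖q‖ ^ 2 ≤ 2 * Wb β q * Fb β q := by
  have h1 := (abs_le.1 (abs_Jb_le β q)).2
  have h2 := mul_le_mul_of_nonneg_left h1 (Fb_nonneg β q)
  have h3 := Fb_mul_balg β q
  linarith

theorem two_Fb_sub (β q : E m) : 2 * Fb β q - ‖q‖ ^ 2 / Wb β q = Fb β q ^ 2 / Wb β q := by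
  have h0 := (Wb_pos β q).ne'
  rw [← Fb_mul_balg β q]
  have h : Jb β q = Wb β q - Fb β q := by rw [Fb]; ring
  rw [h]
  field_simp
  ring

theorem inner_ab (β q : E m) : ⟪ab β q, q⟫ = Fb β q + Fb β q / Wb β q := by
  have h0 := (Wb_pos β q).ne'
  have h1 : ⟪β, q⟫ = Jb β q - 1 := by rw [Jb]; ring
  have h2 : ‖q‖ ^ 2 = Wb β q ^ 2 - Jb β q ^ 2 := by rw [Wb_sq]; ring
  rw [ab, inner_sub_left, real_inner_smul_left, inner_add_left, real_inner_smul_left,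
    real_inner_self_eq_norm_sq, h1, h2, Fb]
  field_simp
  ring

theorem ab_eq_balg (β q : E m) :
    ab β q = (Wb β q)⁻¹ • q - (Fb β q / Wb β q) • β := by
  have h0 := (Wb_pos β q).ne'
  have h1 : Fb β q / Wb β q = 1 - (Wb β q)⁻¹ * Jb β q := by
    rw [Fb]; field_simp
  rw [ab, h1, smul_add, smul_smul, sub_smul, one_smul]
  abel

theorem norm_ab_le (β q : E m) : ‖ab β q‖ ≤ 3 * (1 + ‖β‖) ^ 3 * ‖q‖ := by
  have h0 := Wb_pos β q
  have hb := norm_nonneg β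
  have hq := norm_nonneg q
  have hF := Fb_nonneg β q
  have h1 : (Wb β q)⁻¹ ≤ 1 + ‖β‖ := by
    rw [inv_le_iff_one_le_mul₀ h0]
    exact Wb_lower β q
  have h2 : Fb β q / Wb β q ≤ 2 * (1 + ‖β‖) ^ 2 * ‖q‖ := by
    rw [div_le_iff₀ h0]
    calc Fb β q ≤ 2 * (1 + ‖β‖) ^ 2 * ‖q‖ ^ 2 := Fb_le β q
      _ = 2 * (1 + ‖β‖) ^ 2 * ‖q‖ * ‖q‖ := by ring
      _ ≤ _ := mul_le_mul_of_nonneg_left (norm_le_Wb β q) (by positivity)
  rw [ab_eq_balg]
  calc _ ≤ ‖(Wb β q)⁻¹ • q‖ + ‖(Fb β q / Wb β q) • β‖ := norm_sub_le _ _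
    _ = (Wb β q)⁻¹ * ‖q‖ + Fb β q / Wb β q * ‖β‖ := by
      rw [norm_smul, norm_smul, Real.norm_eq_abs, Real.norm_eq_abs, abs_of_pos (inv_pos.mpr h0),
        abs_of_nonneg (div_nonneg hF h0.le)]
    _ ≤ (1 + ‖β‖) * ‖q‖ + 2 * (1 + ‖β‖) ^ 2 * ‖q‖ * ‖β‖ := by gcongr
    _ = ((1 + ‖β‖) + 2 * (1 + ‖β‖) ^ 2 * ‖β‖) * ‖q‖ := by ring
    _ ≤ _ := by
      refine mul_le_mul_of_nonneg_right ?_ hq
      nlinarith [mul_nonneg hb hb, mul_nonneg hb (mul_nonneg hb hb)]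

/-- The flux of the variation in the direction normal to the plane. -/
theorem normal_flux (β q : E m) :
    Jb β q • ab β q - Fb β q • β = (Wb β q)⁻¹ • (Jb β q • q - ‖q‖ ^ 2 • β) := by
  have h0 := (Wb_pos β q).ne'
  have h1 : (Wb β q)⁻¹ * ‖q‖ ^ 2 = Jb β q * (Fb β q / Wb β q) + Fb β q := by
    rw [← Fb_mul_balg β q]
    field_simp
    ring
  rw [ab_eq_balg, smul_sub, smul_sub, smul_smul, smul_smul, smul_smul, smul_smul, h1, add_smul,
    mul_comm (Jb β q) (Wb β q)⁻¹]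
  abel

theorem continuous_Jb (β : E m) : Continuous (Jb β) :=
  continuous_const.add (continuous_const.inner continuous_id)

theorem continuous_Wb (β : E m) : Continuous (Wb β) :=
  (((continuous_Jb β).pow 2).add (continuous_norm.pow 2)).sqrt

theorem continuous_Fb (β : E m) : Continuous (Fb β) :=
  (continuous_Wb β).sub (continuous_Jb β)

theorem continuous_ab (β : E m) : Continuous (ab β) :=
  (((continuous_Wb β).inv₀ fun q => (Wb_pos β q).ne').smul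
    (((continuous_Jb β).smul continuous_const).add continuous_id)).sub continuous_const

theorem TT_apply_balg (p v : E m) : TT p v = v - ((W p * (W p + 1))⁻¹ * ⟪p, v⟫) • p := by
  simp [TT, mul_smul]

theorem TI_apply_balg (p v : E m) : TI p v = v + ((W p + 1)⁻¹ * ⟪p, v⟫) • p := by
  simp [TI, mul_smul]

theorem norm_sq_eq_balg (p : E m) : ‖p‖ ^ 2 = W p ^ 2 - 1 := by
  rw [W_sq]; ring

theorem inner_TI_balg (p v : E m) : ⟪p, TI p v⟫ = W p * ⟪p, v⟫ := by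
  have h0 : W p + 1 ≠ 0 := by linarith [one_le_W p]
  rw [TI_apply_balg, inner_add_right, real_inner_smul_right, real_inner_self_eq_norm_sq,
    norm_sq_eq_balg]
  field_simp
  ring

theorem inner_TT_balg (p v : E m) : ⟪p, TT p v⟫ = (W p)⁻¹ * ⟪p, v⟫ := by
  have h0 : W p + 1 ≠ 0 := by linarith [one_le_W p]
  have h1 : W p ≠ 0 := by linarith [one_le_W p]
  rw [TT_apply_balg, inner_sub_right, real_inner_smul_right, real_inner_self_eq_norm_sq,
    norm_sq_eq_balg]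
  field_simp
  ring

theorem TT_TI (p v : E m) : TT p (TI p v) = v := by
  have h0 : W p + 1 ≠ 0 := by linarith [one_le_W p]
  have h1 : W p ≠ 0 := by linarith [one_le_W p]
  have h2 : (W p * (W p + 1))⁻¹ * (W p * ⟪p, v⟫) = (W p + 1)⁻¹ * ⟪p, v⟫ := by
    field_simp
  rw [TT_apply_balg, inner_TI_balg, h2, TI_apply_balg, add_sub_cancel_right]

theorem TI_TT (p v : E m) : TI p (TT p v) = v := by
  have h0 : W p + 1 ≠ 0 := by linarith [one_le_W p]
  have h1 : W p ≠ 0 := by linarith [one_le_W p]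
  have h2 : (W p + 1)⁻¹ * ((W p)⁻¹ * ⟪p, v⟫) = (W p * (W p + 1))⁻¹ * ⟪p, v⟫ := by
    field_simp
  rw [TI_apply_balg, inner_TT_balg, h2, TT_apply_balg, sub_add_cancel]

theorem sym_TT (p : E m) : Sym (TT p) := by
  intro x y
  rw [TT_apply_balg, TT_apply_balg, inner_sub_left, inner_sub_right, real_inner_smul_left,
    real_inner_smul_right, real_inner_comm p x]
  ring

theorem sym_TI (p : E m) : Sym (TI p) := by
  intro x y
  rw [TI_apply_balg, TI_apply_balg, inner_add_left, inner_add_right, real_inner_smul_left,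
    real_inner_smul_right, real_inner_comm p x]
  ring

theorem TI_TI_balg (p v : E m) : TI p (TI p v) = v + ⟪p, v⟫ • p := by
  have h0 : W p + 1 ≠ 0 := by linarith [one_le_W p]
  have h2 : (W p + 1)⁻¹ * ⟪p, v⟫ + (W p + 1)⁻¹ * (W p * ⟪p, v⟫) = ⟪p, v⟫ := by
    field_simp
    ring
  rw [TI_apply_balg p (TI p v), inner_TI_balg, TI_apply_balg, add_assoc, ← add_smul, h2]

theorem TI_self_balg (p : E m) : TI p p = W p • p := by
  have h0 : W p + 1 ≠ 0 := by linarith [one_le_W p]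
  have h2 : W p = 1 + (W p + 1)⁻¹ * (W p ^ 2 - 1) := by
    field_simp
    ring
  rw [TI_apply_balg, real_inner_self_eq_norm_sq, norm_sq_eq_balg]
  conv_rhs => rw [h2, add_smul, one_smul]

theorem norm_TI_sq_balg (p v : E m) : ‖TI p v‖ ^ 2 = ‖v‖ ^ 2 + ⟪p, v⟫ ^ 2 := by
  rw [← real_inner_self_eq_norm_sq, sym_TI p v (TI p v), TI_TI_balg, inner_add_right,
    real_inner_smul_right, real_inner_self_eq_norm_sq, real_inner_comm p v]
  ring

theorem norm_TT_le (p v : E m) : ‖TT p v‖ ≤ ‖v‖ := by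
  have h := norm_TI_sq_balg p (TT p v)
  rw [TI_TT] at h
  refine (pow_le_pow_iff_left₀ (norm_nonneg _) (norm_nonneg _) two_ne_zero).mp ?_
  nlinarith [sq_nonneg ⟪p, TT p v⟫]

theorem norm_TI_le (p v : E m) : ‖TI p v‖ ≤ W p * ‖v‖ := by
  have h0 := W_pos_alga p
  refine (pow_le_pow_iff_left₀ (norm_nonneg _) (by positivity) two_ne_zero).mp ?_
  have h1 : ⟪p, v⟫ ^ 2 ≤ (‖p‖ * ‖v‖) ^ 2 := by
    rw [← sq_abs]
    exact pow_le_pow_left₀ (abs_nonneg _) (abs_real_inner_le_norm p v) 2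
  rw [norm_TI_sq_balg, mul_pow, W_sq]
  nlinarith

theorem norm_TI_sq (p v : E m) : ‖TI p v‖ ^ 2 = ‖v‖ ^ 2 + ⟪p, v⟫ ^ 2 := norm_TI_sq_balg p v

theorem det_TT (p : E m) : (TT p).det = (W p)⁻¹ := by
  have h0 : W p + 1 ≠ 0 := by linarith [one_le_W p]
  have h1 : W p ≠ 0 := by linarith [one_le_W p]
  have h2 : ((TT p : E m →L[ℝ] E m) : E m →ₗ[ℝ] E m) = LinearMap.transvection
      (((-(W p * (W p + 1))⁻¹) • innerSL ℝ p : E m →L[ℝ] ℝ) : E m →ₗ[ℝ] ℝ) p := by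
    refine LinearMap.ext fun v => ?_
    rw [LinearMap.transvection.apply]
    change TT p v = v + ((-(W p * (W p + 1))⁻¹) * ⟪p, v⟫) • p
    rw [TT_apply_balg, neg_mul, neg_smul, sub_eq_add_neg]
  rw [ContinuousLinearMap.det, h2, LinearMap.transvection.det]
  change 1 + (-(W p * (W p + 1))⁻¹) * ⟪p, p⟫ = (W p)⁻¹
  rw [real_inner_self_eq_norm_sq, norm_sq_eq_balg]
  field_simp
  ring

theorem W_change (p q : E m) : W (p + W p • TI p q) = W p * Wb p q := by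
  have h0 := W_pos_alga p
  refine (pow_left_inj₀ (W_pos_alga _).le (mul_pos h0 (Wb_pos p q)).le two_ne_zero).mp ?_
  rw [W_sq, norm_add_sq_real, real_inner_smul_right, inner_TI_balg, norm_smul, mul_pow,
    norm_TI_sq, Real.norm_eq_abs, sq_abs, mul_pow, Wb_sq, Jb, norm_sq_eq_balg p]
  ring

theorem aa_change (p q : E m) : TI p (aa (p + W p • TI p q)) = ab p q + p := by
  have h0 := (W_pos_alga p).ne'
  have h1 := (Wb_pos p q).ne'
  have h2 : (W p * Wb p q)⁻¹ * W p = (Wb p q)⁻¹ := by field_simp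
  rw [aa, W_change, map_smul, map_add, map_smul, TI_self_balg, TI_TI_balg, ← smul_add, smul_smul,
    h2, ab, sub_add_cancel, Jb, add_smul, one_smul]
  congr 1
  abel

end Pool.Agent.Lib.MP_8daebb_an.LH
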