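import Pool.Agent.Lib.MP_8daebb_an.LH.GDef

open MeasureTheory Metric Set Filter Topology
open scoped RealInnerProductSpace NNReal
open Pool.Agent.Lib.MP_8daebb_an.LG

namespace Pool.Agent.Lib.MP_8daebb_an.LH

variable {m : ℕ} {ι : Type}

/-! BDEF. Oblique graphs `x ↦ (x + u(x) β, u(x))` and the linear change of coordinates. -/

/-- The Jacobian of the projection of an oblique graph of slope `q`. -/
noncomputable def Jb (β q : E m) : ℝ := 1 + ⟪β, q⟫

/-- The area element of an oblique graph of slope `q`. -/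
noncomputable def Wb (β q : E m) : ℝ := √(Jb β q ^ 2 + ‖q‖ ^ 2)

/-- The normalised area integrand. -/
noncomputable def Fb (β q : E m) : ℝ := Wb β q - Jb β q

/-- The gradient of the normalised area integrand. -/
noncomputable def ab (β q : E m) : E m := (Wb β q)⁻¹ • (Jb β q • β + q) - β

/-- Stationarity of oblique graphs. -/
def StatB (β : E m) (s : Finset ι) (u : ι → E m → ℝ) (Ω : Set (E m)) : Prop :=
  StatF (Fb β) (ab β) s u Ω

/-- The orthogonal projection of the point with oblique coordinates `w`, relative to `(c, z)`. -/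
noncomputable def yb (β c : E m) (z : ℝ) (w : E m × ℝ) : E m := w.1 - c + (w.2 - z) • β

/-- The profile of the cylinder of radius `r` along the graph of `f`. -/
noncomputable def pb (β c : E m) (z r : ℝ) (f : E m → ℝ) (x : E m) : ℝ :=
  max (1 - ‖yb β c z (x, f x)‖ ^ 2 / r ^ 2) 0

/-- The sheets stay in a cone over the plane of height `z` outside the ball of radius `r₀`. -/
def Pr (β : E m) (s : Finset ι) (u : ι → E m → ℝ) (c : E m) (z r₀ R : ℝ) : Prop :=
  ∀ i ∈ s, ∀ x ∈ ball c R, |u i x - z| * (‖β‖ + 1) ≤ max ‖x - c‖ r₀ / 2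

noncomputable def dB (β : E m) (s : Finset ι) (u : ι → E m → ℝ) (c : E m) (z R r : ℝ) : ℝ :=
  r ^ 2 / r ^ m * ∫ x in ball c R, ∑ i ∈ s, pb β c z r (u i) x ^ 3 * (2 * Fb β (gradient (u i) x))

noncomputable def tB (β : E m) (s : Finset ι) (u : ι → E m → ℝ) (c : E m) (z R r : ℝ) : ℝ :=
  r ^ 2 / r ^ m * ∫ x in ball c R, ∑ i ∈ s,
    pb β c z r (u i) x ^ 3 * (‖gradient (u i) x‖ ^ 2 / Wb β (gradient (u i) x))

noncomputable def rB (β : E m) (s : Finset ι) (u : ι → E m → ℝ) (c : E m) (z R r : ℝ) : ℝ :=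
  2 / r ^ m * ∫ x in ball c R, ∑ i ∈ s, 3 * pb β c z r (u i) x ^ 2 *
    (⟪yb β c z (x, u i x), gradient (u i) x⟫ ^ 2 / Wb β (gradient (u i) x))

noncomputable def hB (β : E m) (s : Finset ι) (u : ι → E m → ℝ) (c : E m) (z R r : ℝ) : ℝ :=
  2 / r ^ m * ∫ x in ball c R, ∑ i ∈ s, 3 * pb β c z r (u i) x ^ 2 *
    ((u i x - z) ^ 2 * Jb β (gradient (u i) x))

noncomputable def t0B (β : E m) (s : Finset ι) (u : ι → E m → ℝ) (c : E m) (z R r : ℝ) : ℝ :=
  2 / r ^ m * ∫ x in ball c R, ∑ i ∈ s, 3 * pb β c z r (u i) x ^ 2 *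
    ((u i x - z) * ⟪yb β c z (x, u i x), gradient (u i) x⟫)

noncomputable def HB (β : E m) (s : Finset ι) (u : ι → E m → ℝ) (c : E m) (z R r : ℝ) : ℝ :=
  2 / r ^ m * ∫ x in ball c R, ∑ i ∈ s, 3 * pb β c z r (u i) x ^ 2 * (u i x - z) ^ 2

noncomputable def eB (β : E m) (s : Finset ι) (u : ι → E m → ℝ) (c : E m) (z R r : ℝ) : ℝ :=
  r ^ 2 / r ^ m * ∫ x in ball c R, ∑ i ∈ s, 3 * pb β c z r (u i) x ^ 2 * Fb β (gradient (u i) x)

/-- The linear map from orthonormal coordinates of the plane of slope `p` to horizontal ones. -/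
noncomputable def TT (p : E m) : E m →L[ℝ] E m :=
  ContinuousLinearMap.id ℝ (E m) - (W p * (W p + 1))⁻¹ • (innerSL ℝ p).smulRight p

/-- The inverse of `TT p`. -/
noncomputable def TI (p : E m) : E m →L[ℝ] E m :=
  ContinuousLinearMap.id ℝ (E m) + (W p + 1)⁻¹ • (innerSL ℝ p).smulRight p

/-- The height of the graph of `f` over the plane of slope `p`, in oblique coordinates. -/
noncomputable def lc (p c : E m) (z : ℝ) (f : E m → ℝ) (x : E m) : ℝ :=
  (f (c + TT p x) - z - ⟪p, TT p x⟫) / W p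

end Pool.Agent.Lib.MP_8daebb_an.LH
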