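import Pool.Agent.Lib.MP_8daebb_an.LH.GDef
import Pool.Agent.Lib.MP_8daebb_an.LG.Weak
import Pool.Agent.Lib.MP_8daebb_an.LG.LipD
import Pool.Agent.Lib.MP_8daebb_an.LG.AlgA

open MeasureTheory Metric Set Filter Topology
open scoped RealInnerProductSpace NNReal
open Pool.Agent.Lib.MP_8daebb_an.LG

namespace Pool.Agent.Lib.MP_8daebb_an.LH

variable {m : ℕ} {ι : Type}

/-! GALG. Consequences of the axioms of an integrand. -/

variable {L : ℝ≥0} (I : Intg m L)

theorem le_of_sq_le_sq_galg {a b : ℝ} (h : a ^ 2 ≤ b ^ 2) (hb : 0 ≤ b) : a ≤ b :=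
  (abs_le_of_sq_le_sq' h hb).2

theorem Intg.hasDerivAt_a_galg (p q : E m) (t : ℝ) :
    HasDerivAt (fun s : ℝ => I.a (p + s • q)) (I.A (p + t • q) q) t :=
  (I.da (p + t • q)).comp_hasDerivAt t (hasDerivAt_line_alga p q t)

theorem Intg.Λ_pos : 0 < I.Λ := by
  exact lt_of_lt_of_le one_pos I.one_le

theorem Intg.contDiff_F : ContDiff ℝ 1 I.F := by
  have hd : ∀ p, HasFDerivAt I.F (InnerProductSpace.toDual ℝ (E m) (I.a p)) p := fun p =>
    (I.dF p).hasFDerivAt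
  refine contDiff_one_iff_fderiv.2 ⟨fun p => (hd p).differentiableAt, ?_⟩
  have e : fderiv ℝ I.F = fun p => InnerProductSpace.toDual ℝ (E m) (I.a p) :=
    funext fun p => (hd p).fderiv
  rw [e]
  exact (InnerProductSpace.toDual ℝ (E m)).continuous.comp I.smooth.continuous

theorem Intg.continuous_F : Continuous I.F := by
  exact I.contDiff_F.continuous

theorem Intg.continuous_a : Continuous I.a := by
  exact I.smooth.continuous

theorem Intg.continuous_A : Continuous I.A := by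
  have h : LipschitzWith ⟨I.Λ, I.Λ_pos.le⟩ I.A := LipschitzWith.of_dist_le_mul fun p q => by
    rw [dist_eq_norm, dist_eq_norm]
    exact I.A_lip p q
  exact h.continuous

theorem Intg.continuous_ta : Continuous I.ta := by
  have h : LipschitzWith ⟨I.Λ, I.Λ_pos.le⟩ I.ta := LipschitzWith.of_dist_le_mul fun p q => by
    rw [dist_eq_norm, dist_eq_norm]
    exact I.ta_lip p q
  exact h.continuous

theorem Intg.fderiv_F (p q : E m) : fderiv ℝ I.F p q = ⟪I.a p, q⟫ := by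
  rw [(I.dF p).hasFDerivAt.fderiv]
  rfl

theorem Intg.fderiv_a (p : E m) : fderiv ℝ I.a p = I.A p := by
  exact (I.da p).fderiv

theorem Intg.norm_A_le (p q : E m) : ‖I.A p q‖ ≤ I.Λ * ‖q‖ := by
  exact ((I.A p).le_opNorm q).trans (mul_le_mul_of_nonneg_right (I.A_norm p) (norm_nonneg q))

theorem Intg.A_sub_self (p q : E m) : ‖I.A p q - q‖ ≤ I.Λ * ‖p‖ * ‖q‖ := by
  have h := (I.A p - I.A 0).le_opNorm q
  have h1 := I.A_lip p 0
  rw [sub_zero] at h1
  rw [sub_apply, I.A_zero, ContinuousLinearMap.id_apply, ← I.A_zero] at h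
  exact h.trans (mul_le_mul_of_nonneg_right h1 (norm_nonneg q))

theorem Intg.A_lip' (p p' q : E m) : ‖I.A p q - I.A p' q‖ ≤ I.Λ * ‖p - p'‖ * ‖q‖ := by
  have h := (I.A p - I.A p').le_opNorm q
  rw [sub_apply] at h
  exact h.trans (mul_le_mul_of_nonneg_right (I.A_lip p p') (norm_nonneg q))

theorem Intg.a_lip (p q : E m) : ‖I.a p - I.a q‖ ≤ I.Λ * ‖p - q‖ := by
  have h := mvt_alga (C := I.Λ * ‖p - q‖) (fun t => I.hasDerivAt_a_galg q (p - q) t)
    (fun t _ _ => I.norm_A_le _ _)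
  simpa using h

theorem Intg.norm_a_le (p : E m) : ‖I.a p‖ ≤ I.Λ * ‖p‖ := by
  have h := I.a_lip p 0
  rwa [I.a_zero, sub_zero, sub_zero] at h

theorem Intg.a_taylor (p q : E m) : ‖I.a (p + q) - I.a p - I.A p q‖ ≤ I.Λ * ‖q‖ ^ 2 := by
  have h := mvt_alga (C := I.Λ * ‖q‖ ^ 2) (fun t => (I.hasDerivAt_a_galg p q t).sub
    (hasDerivAt_line_alga 0 (I.A p q) t)) (fun t h0 h1 => by
      refine (I.A_lip' _ _ _).trans ?_
      rw [add_sub_cancel_left, norm_smul, Real.norm_eq_abs, abs_of_nonneg h0]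
      have h2 : 0 ≤ I.Λ * ‖q‖ ^ 2 := mul_nonneg I.Λ_pos.le (sq_nonneg _)
      nlinarith [mul_le_mul_of_nonneg_right h1 h2])
  have e : I.a (p + q) - I.a p - I.A p q = I.a (p + q) - I.A p q - I.a p := by abel
  rw [e]
  simpa using h

theorem Intg.F_taylor (p q : E m) :
    |I.F (p + q) - I.F p - ⟪I.a p, q⟫ - ⟪I.A p q, q⟫ / 2| ≤ I.Λ * ‖q‖ ^ 3 := by
  have hd : ∀ t : ℝ, HasDerivAt
      (fun s : ℝ => I.F (p + s • q) - s * ⟪I.a p, q⟫ - s ^ 2 * (⟪I.A p q, q⟫ / 2))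
      ⟪I.a (p + t • q) - I.a p - I.A p (t • q), q⟫ t := by
    intro t
    have h1 := (I.dF (p + t • q)).hasFDerivAt.comp_hasDerivAt t (hasDerivAt_line_alga p q t)
    have h2 := (hasDerivAt_id t).mul_const ⟪I.a p, q⟫
    have h3 := (hasDerivAt_pow 2 t).mul_const (⟪I.A p q, q⟫ / 2)
    refine ((h1.sub h2).sub h3).congr_deriv ?_
    rw [inner_sub_left, inner_sub_left, map_smul, real_inner_smul_left,
      InnerProductSpace.toDual_apply_apply]
    push_cast
    ring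
  have h := mvt_alga (C := I.Λ * ‖q‖ ^ 3) hd (fun t h0 h1 => by
    refine (norm_inner_le_norm (𝕜 := ℝ) _ _).trans ?_
    have h2 := I.a_taylor p (t • q)
    rw [norm_smul, Real.norm_eq_abs, abs_of_nonneg h0] at h2
    have h3 : (t * ‖q‖) ^ 2 ≤ ‖q‖ ^ 2 :=
      pow_le_pow_left₀ (by positivity) (mul_le_of_le_one_left (norm_nonneg _) h1) 2
    have h4 := h2.trans (mul_le_mul_of_nonneg_left h3 I.Λ_pos.le)
    nlinarith [mul_le_mul_of_nonneg_right h4 (norm_nonneg q)])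
  rw [Real.norm_eq_abs] at h
  convert h using 2
  simp only [one_smul, zero_smul, add_zero]
  ring

theorem Intg.a_mono {p q : E m} (hp : ‖p‖ ≤ L + 1) (hq : ‖q‖ ≤ L + 1) :
    ‖p - q‖ ^ 2 ≤ I.Λ * ⟪I.a p - I.a q, p - q⟫ := by
  rw [← I.ta_eq p hp, ← I.ta_eq q hq]
  exact I.ta_mono p q

theorem Intg.ta_zero : I.ta 0 = 0 := by
  rw [I.ta_eq 0 (by rw [norm_zero]; positivity), I.a_zero]

theorem Intg.ta_taylor {p : E m} (hp : ‖p‖ ≤ 1 / 2) (q : E m) :
    ‖I.ta (p + q) - I.a p - I.A p q‖ ≤ 4 * I.Λ * ‖q‖ ^ 2 := by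
  have hL : (0 : ℝ) ≤ L := L.coe_nonneg
  have hΛ := I.Λ_pos
  rcases le_total ‖q‖ (1 / 2) with h | h
  · rw [I.ta_eq _ (show ‖p + q‖ ≤ L + 1 by linarith [norm_add_le p q])]
    refine (I.a_taylor p q).trans ?_
    nlinarith [mul_nonneg hΛ.le (sq_nonneg ‖q‖)]
  · have h1 := I.ta_lip (p + q) p
    rw [add_sub_cancel_left, I.ta_eq p (show ‖p‖ ≤ L + 1 by linarith)] at h1
    have h2 := I.norm_A_le p q
    refine (norm_sub_le _ _).trans ?_
    have h3 : 0 ≤ I.Λ * ‖q‖ := mul_nonneg hΛ.le (norm_nonneg q)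
    nlinarith [mul_le_mul_of_nonneg_left h h3]

theorem Intg.ta_contract (p q : E m) :
    ‖(p - (I.Λ ^ 3)⁻¹ • I.ta p) - (q - (I.Λ ^ 3)⁻¹ • I.ta q)‖ ≤
      (1 - (2 * I.Λ ^ 4)⁻¹) * ‖p - q‖ := by
  have h1 := I.one_le
  have hΛ := I.Λ_pos
  have hl := I.ta_lip p q
  have hm := I.ta_mono p q
  have e : (p - (I.Λ ^ 3)⁻¹ • I.ta p) - (q - (I.Λ ^ 3)⁻¹ • I.ta q) =
      (p - q) - (I.Λ ^ 3)⁻¹ • (I.ta p - I.ta q) := by
    rw [smul_sub]
    abel
  rw [e]
  generalize I.ta p - I.ta q = T at *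
  generalize p - q = D at *
  generalize I.Λ = Λ at *
  have k0 : (2 * Λ ^ 4)⁻¹ ≤ 1 :=
    inv_le_one_of_one_le₀ (by nlinarith [one_le_pow₀ (n := 4) h1])
  refine le_of_sq_le_sq_galg ?_ (mul_nonneg (by linarith) (norm_nonneg _))
  rw [mul_pow, norm_sub_sq_real, norm_smul, real_inner_smul_right, real_inner_comm,
    Real.norm_of_nonneg (by positivity), mul_pow]
  have a1 : ‖T‖ ^ 2 ≤ Λ ^ 2 * ‖D‖ ^ 2 := by
    rw [← mul_pow]
    exact pow_le_pow_left₀ (norm_nonneg _) hl 2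
  have a2 : ((Λ ^ 3)⁻¹) ^ 2 * ‖T‖ ^ 2 ≤ (Λ ^ 4)⁻¹ * ‖D‖ ^ 2 := by
    refine (mul_le_mul_of_nonneg_left a1 (by positivity)).trans (le_of_eq ?_)
    field_simp
  have a3 : (Λ ^ 4)⁻¹ * ‖D‖ ^ 2 ≤ (Λ ^ 3)⁻¹ * ⟪T, D⟫ := by
    refine (mul_le_mul_of_nonneg_left hm (by positivity)).trans (le_of_eq ?_)
    field_simp
  have a4 : (2 * Λ ^ 4)⁻¹ = (Λ ^ 4)⁻¹ / 2 := by
    field_simp
  rw [a4]
  nlinarith [mul_nonneg (sq_nonneg ((Λ ^ 4)⁻¹ / 2)) (sq_nonneg ‖D‖)]

theorem Intg.memLp_ta {Ξ : E m → E m} {μ : Measure (E m)} (h : MemLp Ξ 2 μ) :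
    MemLp (fun x => I.ta (Ξ x)) 2 μ := by
  refine h.of_le_mul (c := I.Λ) (I.continuous_ta.comp_aestronglyMeasurable h.1)
    (Eventually.of_forall fun x => ?_)
  have h1 := I.ta_lip (Ξ x) 0
  rwa [I.ta_zero, sub_zero, sub_zero] at h1

theorem mu_le (p x : E m) : mu I p x ≤ I.Λ := by
  have hΛ := I.Λ_pos
  refine div_le_of_le_mul₀ (by positivity) hΛ.le ((real_inner_le_norm _ _).trans ?_)
  nlinarith [mul_le_mul_of_nonneg_right (I.norm_A_le p x) (norm_nonneg x)]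

theorem mu_nonneg (p x : E m) : 0 ≤ mu I p x := by
  exact div_nonneg (I.A_pos p x) (by positivity)

theorem mu_ge {p : E m} (h : ‖p‖ ≤ L + 1) {x : E m} (hx : x ≠ 0) : 1 ≤ I.Λ * mu I p x := by
  have h0 : 0 < ‖x‖ := norm_pos_iff.2 hx
  rw [mu, ← mul_div_assoc, one_le_div (by positivity)]
  exact I.A_coer p x h

theorem mu_sub_one (p : E m) {x : E m} (hx : x ≠ 0) : |mu I p x - 1| ≤ I.Λ * ‖p‖ := by
  have h0 : 0 < ‖x‖ := norm_pos_iff.2 hx
  have e : mu I p x - 1 = ⟪I.A p x - x, x⟫ / ‖x‖ ^ 2 := by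
    rw [mu, inner_sub_left, real_inner_self_eq_norm_sq, sub_div, div_self (by positivity)]
  rw [e, abs_div, abs_of_pos (by positivity : 0 < ‖x‖ ^ 2), div_le_iff₀ (by positivity)]
  refine (abs_real_inner_le_norm _ _).trans ?_
  nlinarith [mul_le_mul_of_nonneg_right (I.A_sub_self p x) h0.le]

theorem mu_lip (p p' x : E m) : |mu I p x - mu I p' x| ≤ I.Λ * ‖p - p'‖ := by
  have hΛ := I.Λ_pos
  rw [mu, mu, ← sub_div, ← inner_sub_left, abs_div, abs_of_nonneg (by positivity : 0 ≤ ‖x‖ ^ 2)]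
  refine div_le_of_le_mul₀ (by positivity) (by positivity) ?_
  refine (abs_real_inner_le_norm _ _).trans ?_
  nlinarith [mul_le_mul_of_nonneg_right (I.A_lip' p p' x) (norm_nonneg x)]

theorem measurable_mu : Measurable fun z : E m × E m => mu I z.1 z.2 := by
  have h : Continuous fun z : E m × E m => I.A z.1 z.2 :=
    (I.continuous_A.comp continuous_fst).clm_apply continuous_snd
  exact (h.inner continuous_snd).measurable.div (continuous_snd.norm.pow 2).measurable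

/-- An affine vector field with trace free linear part is divergence free. -/
theorem divFree_affine (p c b : E m) (S : E m →L[ℝ] E m) (h : trA I p S = 0) (Ω : Set (E m)) :
    DivFree (fun y => b + I.A p (S (y - c))) Ω := by
  intro ζ h1 h2 _
  have hd : ∀ x, HasFDerivAt (fun y => b + ((I.A p).comp S) (y - c))
      ((I.A p).comp S) x := fun x => by
    have := (((I.A p).comp S).hasFDerivAt.comp x
      ((hasFDerivAt_id x).sub_const c)).const_add b
    simpa using this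
  have hC : ContDiff ℝ 1 (fun y => b + ((I.A p).comp S) (y - c)) :=
    contDiff_const.add (((I.A p).comp S).contDiff.comp (contDiff_id.sub contDiff_const))
  have h0 := integral_dv_eq_zero (locLip_smul h1 hC.locallyLipschitz) (h2.smul_right)
  rw [← h0]
  refine integral_congr_ae ?_
  filter_upwards [locLip_ae_diff h1] with x hx
  have ht : trS ((I.A p).comp S) = 0 := by
    rw [← h]
    simp only [trS, trA, ContinuousLinearMap.comp_apply]
  rw [dv_smul hx (hd x).differentiableAt, dv, (hd x).fderiv, ht, mul_zero, add_zero,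
    real_inner_comm, ContinuousLinearMap.comp_apply]

end Pool.Agent.Lib.MP_8daebb_an.LH
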