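import Pool.Agent.Lib.MP_8daebb_an.LH.BAlg
import Pool.Agent.Lib.MP_8daebb_an.LH.GAlg

open MeasureTheory Metric Set Filter Topology
open scoped RealInnerProductSpace NNReal
open Pool.Agent.Lib.MP_8daebb_an.LG

namespace Pool.Agent.Lib.MP_8daebb_an.LH

variable {m : ℕ} {ι : Type}

/-! BINST. The oblique area integrand satisfies the axioms. -/

/-- The horizontal slope attached to the oblique slope `q`. -/
noncomputable def Pbinst (β q : E m) : E m := β + W β • TI β q

/-- The derivative of the oblique flux. -/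
noncomputable def Abinst (β q : E m) : E m →L[ℝ] E m :=
  (TI β).comp ((fderiv ℝ aa (Pbinst β q)).comp (W β • TI β))

theorem ab_eq_binst (β : E m) : ab β = fun q => TI β (aa (Pbinst β q)) - β := by
  funext q
  rw [Pbinst, aa_change, add_sub_cancel_right]

theorem Fb_eq_binst (β : E m) :
    Fb β = fun q => (W β)⁻¹ * W (Pbinst β q) - (1 + innerSL ℝ β q) := by
  funext q
  have h0 := (W_pos_alga β).ne'
  rw [Pbinst, W_change, Fb, Jb, innerSL_apply_apply, ← mul_assoc, inv_mul_cancel₀ h0, one_mul]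

theorem hasFDerivAt_P_binst (β q : E m) : HasFDerivAt (Pbinst β) (W β • TI β) q :=
  ((W β • TI β).hasFDerivAt).const_add β

theorem contDiff_P_binst (β : E m) : ContDiff ℝ ⊤ (Pbinst β) :=
  contDiff_const.add (W β • TI β).contDiff

theorem P_sub_binst (β p q : E m) : Pbinst β p - Pbinst β q = W β • TI β (p - q) := by
  rw [Pbinst, Pbinst, map_sub, smul_sub]
  abel

theorem A_apply_binst (β q v : E m) :
    Abinst β q v = W β • TI β (AA (Pbinst β q) (TI β v)) := by
  rw [Abinst, ContinuousLinearMap.comp_apply, ContinuousLinearMap.comp_apply, fderiv_aa,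
    smul_apply, AA_smul, map_smul]

theorem A_inner_binst (β q v w : E m) :
    ⟪Abinst β q v, w⟫ = W β * ⟪AA (Pbinst β q) (TI β v), TI β w⟫ := by
  rw [A_apply_binst, real_inner_smul_left, sym_TI]

theorem da_binst (β q : E m) : HasFDerivAt (ab β) (Abinst β q) q := by
  rw [ab_eq_binst]
  have h1 : HasFDerivAt aa (fderiv ℝ aa (Pbinst β q)) (Pbinst β q) :=
    (contDiff_aa.differentiable (by simp) _).hasFDerivAt
  exact ((TI β).hasFDerivAt.comp q (h1.comp q (hasFDerivAt_P_binst β q))).sub_const β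

theorem dF_binst (β q : E m) : HasGradientAt (Fb β) (ab β q) q := by
  rw [hasGradientAt_iff_hasFDerivAt, Fb_eq_binst]
  have h0 := (W_pos_alga β).ne'
  have h1 : HasFDerivAt W (fderiv ℝ W (Pbinst β q)) (Pbinst β q) :=
    (contDiff_W.differentiable (by simp) _).hasFDerivAt
  have h2 := ((h1.comp q (hasFDerivAt_P_binst β q)).const_mul (W β)⁻¹).sub
    ((innerSL ℝ β).hasFDerivAt.const_add 1)
  refine h2.congr_fderiv ?_
  ext v
  rw [InnerProductSpace.toDual_apply_apply, ab_eq_binst, inner_sub_left, sym_TI,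
    sub_apply, smul_apply, ContinuousLinearMap.comp_apply,
    fderiv_W, smul_apply, real_inner_smul_right, innerSL_apply_apply,
    smul_eq_mul, ← mul_assoc, inv_mul_cancel₀ h0, one_mul]

theorem norm_le_TI_binst (β v : E m) : ‖v‖ ^ 2 ≤ ‖TI β v‖ ^ 2 := by
  rw [norm_TI_sq]
  nlinarith [sq_nonneg ⟪β, v⟫]

theorem AA_TI_binst (β v : E m) : AA β (TI β v) = (W β)⁻¹ • TT β v := by
  have h0 := W_pos_alga β
  have h1 := W_sq β
  have e1 : TI β v = v + ((W β + 1)⁻¹ * ⟪β, v⟫) • β := by
    simp [TI, smul_smul]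
  have e2 : TT β v = v - ((W β * (W β + 1))⁻¹ * ⟪β, v⟫) • β := by
    simp [TT, smul_smul]
  have e3 : ⟪β, TI β v⟫ = W β * ⟪β, v⟫ := by
    rw [e1, inner_add_right, real_inner_smul_right, real_inner_self_eq_norm_sq]
    have : ‖β‖ ^ 2 = W β ^ 2 - 1 := by linarith
    rw [this]
    field_simp
    ring
  rw [AA, e3, e1, e2, smul_add, smul_sub, smul_smul, smul_smul, add_sub_assoc, ← sub_smul,
    sub_eq_add_neg (_ • v), ← neg_smul]
  congr 2
  field_simp
  ring

theorem A_zero_binst (β : E m) : Abinst β 0 = ContinuousLinearMap.id ℝ (E m) := by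
  have h0 := (W_pos_alga β).ne'
  refine ContinuousLinearMap.ext fun v => ?_
  rw [A_apply_binst, Pbinst, map_zero, smul_zero, add_zero, AA_TI_binst, map_smul, TI_TT,
    smul_smul, mul_inv_cancel₀ h0, one_smul, ContinuousLinearMap.id_apply]

theorem norm_P_sub_binst (β p q : E m) : ‖Pbinst β p - Pbinst β q‖ ≤ W β ^ 2 * ‖p - q‖ := by
  have h0 := W_pos_alga β
  rw [P_sub_binst, norm_smul, Real.norm_of_nonneg h0.le, sq, mul_assoc]
  exact mul_le_mul_of_nonneg_left (norm_TI_le β _) h0.le

theorem norm_P_le_binst (β : E m) {q : E m} {K : ℝ} (h : ‖q‖ ≤ K) :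
    ‖Pbinst β q‖ ≤ ‖β‖ + W β ^ 2 * K := by
  have h1 := norm_P_sub_binst β q 0
  have e : Pbinst β 0 = β := by rw [Pbinst, map_zero, smul_zero, add_zero]
  rw [e, sub_zero] at h1
  have h2 := norm_add_le (Pbinst β q - β) β
  rw [sub_add_cancel] at h2
  have h3 := mul_le_mul_of_nonneg_left h (sq_nonneg (W β))
  linarith

theorem A_norm_binst (β q : E m) : ‖Abinst β q‖ ≤ W β ^ 3 := by
  have h0 := W_pos_alga β
  refine ContinuousLinearMap.opNorm_le_bound _ (by positivity) fun v => ?_
  rw [A_apply_binst, norm_smul, Real.norm_of_nonneg h0.le]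
  have h1 := norm_TI_le β (AA (Pbinst β q) (TI β v))
  have h2 := (norm_AA_le (Pbinst β q) (TI β v)).trans (norm_TI_le β v)
  have h3 := h1.trans (mul_le_mul_of_nonneg_left h2 h0.le)
  refine (mul_le_mul_of_nonneg_left h3 h0.le).trans (le_of_eq ?_)
  ring

theorem A_lip_binst (β p q : E m) : ‖Abinst β p - Abinst β q‖ ≤ 6 * W β ^ 5 * ‖p - q‖ := by
  have h0 := W_pos_alga β
  refine ContinuousLinearMap.opNorm_le_bound _ (by positivity) fun v => ?_
  rw [sub_apply, A_apply_binst, A_apply_binst, ← smul_sub, ← map_sub,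
    norm_smul, Real.norm_of_nonneg h0.le]
  have h1 := norm_TI_le β (AA (Pbinst β p) (TI β v) - AA (Pbinst β q) (TI β v))
  have h2 := AA_lip (Pbinst β p) (Pbinst β q) (TI β v)
  have h3 : 6 * ‖Pbinst β p - Pbinst β q‖ * ‖TI β v‖ ≤ 6 * (W β ^ 2 * ‖p - q‖) * (W β * ‖v‖) :=
    mul_le_mul (mul_le_mul_of_nonneg_left (norm_P_sub_binst β p q) (by norm_num))
      (norm_TI_le β v) (norm_nonneg _) (by positivity)
  have h4 := h1.trans (mul_le_mul_of_nonneg_left (h2.trans h3) h0.le)
  refine (mul_le_mul_of_nonneg_left h4 h0.le).trans (le_of_eq ?_)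
  ring

theorem AA_nonneg_binst (p x : E m) : 0 ≤ ⟪AA p x, x⟫ := by
  have w1 := one_le_WL ‖p‖
  exact nonneg_of_mul_nonneg_right ((sq_nonneg _).trans (AA_coercive le_rfl x)) (by positivity)

theorem exists_intg (β : E m) (L : ℝ≥0) : ∃ I : Intg m L, I.F = Fb β ∧ I.a = ab β := by
  have h0 := W_pos_alga β
  have h1 := one_le_W β
  obtain ⟨K, hK⟩ : ∃ K : ℝ, K = ‖β‖ + W β ^ 2 * (L + 1) := ⟨_, rfl⟩
  have w1 := one_le_WL K
  have w3 : 1 ≤ WL K ^ 3 := one_le_pow₀ w1
  have h5 : 1 ≤ W β ^ 5 := one_le_pow₀ h1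
  have h35 : W β ^ 3 ≤ W β ^ 5 := pow_le_pow_right₀ h1 (by norm_num)
  refine ⟨{ F := Fb β
            a := ab β
            A := Abinst β
            ta := fun q => TI β (ta K (Pbinst β q)) - β
            Λ := 6 * W β ^ 5 + WL K ^ 3
            one_le := by linarith
            dF := dF_binst β
            da := da_binst β
            smooth := ?_
            a_zero := ?_
            A_zero := A_zero_binst β
            A_symm := ?_
            A_norm := fun p => (A_norm_binst β p).trans (by linarith)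
            A_lip := fun p q => (A_lip_binst β p q).trans
              (mul_le_mul_of_nonneg_right (by linarith) (norm_nonneg _))
            A_pos := ?_
            A_coer := ?_
            ta_eq := ?_
            ta_lip := ?_
            ta_mono := ?_ }, rfl, rfl⟩
  · rw [ab_eq_binst]
    exact (((TI β).contDiff.comp (contDiff_aa.comp (contDiff_P_binst β))).sub
      contDiff_const).of_le le_top
  · have h := norm_ab_le β 0
    rw [norm_zero, mul_zero] at h
    exact norm_le_zero_iff.1 h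
  · intro p x y
    rw [real_inner_comm (Abinst β p y) x, A_inner_binst, A_inner_binst, AA_symm,
      real_inner_comm (TI β x)]
  · intro p q
    rw [A_inner_binst]
    exact mul_nonneg h0.le (AA_nonneg_binst _ _)
  · intro p q hp
    have hP : ‖Pbinst β p‖ ≤ K := hK ▸ norm_P_le_binst β hp
    have a1 := (norm_le_TI_binst β q).trans (AA_coercive hP (TI β q))
    have a2 := AA_nonneg_binst (Pbinst β p) (TI β q)
    rw [A_inner_binst]
    refine a1.trans (mul_le_mul (by linarith) (le_mul_of_one_le_left a2 h1) a2 (by positivity))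
  · intro p hp
    have hP : ‖Pbinst β p‖ ≤ K := hK ▸ norm_P_le_binst β hp
    rw [ab_eq_binst]
    simp only [LG.ta_eq hP]
  · intro p q
    rw [sub_sub_sub_cancel_right, ← map_sub]
    have a1 := (LG.ta_lip K (Pbinst β p) (Pbinst β q)).trans
      (mul_le_mul_of_nonneg_left (norm_P_sub_binst β p q) (by norm_num))
    have a2 := (norm_TI_le β _).trans (mul_le_mul_of_nonneg_left a1 h0.le)
    refine a2.trans ?_
    have a3 : W β * (2 * (W β ^ 2 * ‖p - q‖)) = 2 * W β ^ 3 * ‖p - q‖ := by ring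
    rw [a3]
    exact mul_le_mul_of_nonneg_right (by linarith) (norm_nonneg _)
  · intro p q
    rw [sub_sub_sub_cancel_right, ← map_sub, sym_TI]
    have a1 := LG.ta_mono K (Pbinst β p) (Pbinst β q)
    rw [P_sub_binst, real_inner_smul_right, norm_smul, Real.norm_of_nonneg h0.le, mul_pow] at a1
    have a2 := norm_le_TI_binst β (p - q)
    generalize ⟪ta K (Pbinst β p) - ta K (Pbinst β q), TI β (p - q)⟫ = s at *
    generalize ‖TI β (p - q)‖ ^ 2 = t at *
    have a3 : 0 ≤ t := (sq_nonneg _).trans a2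
    have a4 : W β * t ≤ WL K ^ 3 * s := by
      refine le_of_mul_le_mul_left ?_ h0
      nlinarith
    have a5 : t ≤ WL K ^ 3 * s := (le_mul_of_one_le_left a3 h1).trans a4
    have a6 : 0 ≤ s := nonneg_of_mul_nonneg_right (a3.trans a5) (by positivity)
    exact a2.trans (a5.trans (mul_le_mul_of_nonneg_right (by linarith) a6))

end Pool.Agent.Lib.MP_8daebb_an.LH
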