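import Pool.Agent.Lib.MP_8daebb_an.LH.GK2A
import Pool.Agent.Lib.MP_8daebb_an.LG.K2

open MeasureTheory Metric Set Filter Topology
open scoped RealInnerProductSpace NNReal
open Pool.Agent.Lib.MP_8daebb_an.LG

namespace Pool.Agent.Lib.MP_8daebb_an.LH

variable {m : ℕ} {ι : Type}

/-! GK2. The derivative of the energy. -/

section
variable {L : ℝ≥0} (I : Intg m L)

theorem abs_div_mu_gk2 {p x : E m} (hp : ‖p‖ ≤ 1 / 4) {a b : ℝ} (hb : 0 ≤ b) (h : |a| ≤ b) :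
    |a / mu I p x| ≤ I.Λ * b := by
  have hΛ := I.Λ_pos
  by_cases hx : x = 0
  · subst hx
    have : mu I p (0 : E m) = 0 := by simp [mu]
    rw [this, div_zero, abs_zero]
    positivity
  · have hL := L.coe_nonneg
    have h1 := mu_ge I (p := p) (by linarith) hx
    have h2 : 0 < mu I p x := by
      by_contra h2
      have h3 : I.Λ * mu I p x ≤ 0 := mul_nonpos_of_nonneg_of_nonpos hΛ.le (not_lt.1 h2)
      linarith
    rw [abs_div, abs_of_pos h2, div_le_iff₀ h2]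
    nlinarith [abs_nonneg a]

theorem abs_inner_A_gk2 (p q x : E m) : |⟪I.A p q, x⟫| ≤ I.Λ * ‖q‖ * ‖x‖ :=
  (abs_real_inner_le_norm _ _).trans
    (mul_le_mul_of_nonneg_right (I.norm_A_le p q) (norm_nonneg _))

theorem meas_A_gk2 {Ψ w : E m → E m} (hΨ : Measurable Ψ) (hw : Measurable w) :
    Measurable fun x => I.A (Ψ x) (w x) := by
  have h0 : Continuous fun z : E m × E m => I.A z.1 z.2 :=
    (I.continuous_A.comp continuous_fst).clm_apply continuous_snd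
  have h2 : Measurable fun x => (Ψ x, w x) := hΨ.prodMk hw
  have h3 := h0.measurable.comp h2
  simpa only [Function.comp_def] using h3

theorem meas_mu_gk2 {Ψ : E m → E m} (hΨ : Measurable Ψ) : Measurable fun x => mu I (Ψ x) x := by
  have h2 : Measurable fun x => (Ψ x, x) := hΨ.prodMk measurable_id
  have h3 := (measurable_mu I).comp h2
  simpa only [Function.comp_def] using h3

theorem meas_rad_gk2 [Fintype ι] {Ψ : E m → E m} {w : ι → E m → E m} (hΨ : Measurable Ψ)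
    (hw : ∀ i, Measurable (w i)) :
    Measurable fun x => ∑ i, ⟪I.A (Ψ x) (w i x), x⟫ ^ 2 / mu I (Ψ x) x := by
  refine Finset.measurable_sum _ fun i _ => ?_
  have h1 : Measurable fun x => ⟪I.A (Ψ x) (w i x), x⟫ :=
    (meas_A_gk2 I hΨ (hw i)).inner measurable_id
  exact (h1.pow_const 2).div (meas_mu_gk2 I hΨ)

theorem bound_rad_gk2 [Fintype ι] {p x : E m} {w : ι → E m} {M : ℝ} (hp : ‖p‖ ≤ 1 / 4)
    (hx : ‖x‖ ≤ 1) (hw : ∀ i, ‖w i‖ ≤ M) :
    |∑ i, ⟪I.A p (w i), x⟫ ^ 2 / mu I p x| ≤ ∑ _i : ι, I.Λ * (I.Λ * M) ^ 2 := by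
  refine (Finset.abs_sum_le_sum_abs _ _).trans (Finset.sum_le_sum fun i _ => ?_)
  refine abs_div_mu_gk2 I hp (sq_nonneg _) ?_
  have hΛ := I.Λ_pos
  have h1 := abs_inner_A_gk2 I p (w i) x
  have h2 : ‖w i‖ * ‖x‖ ≤ M := by
    have := hw i
    have h0 := norm_nonneg (w i)
    nlinarith [norm_nonneg x]
  have h3 : I.Λ * ‖w i‖ * ‖x‖ ≤ I.Λ * M := by
    rw [mul_assoc]
    exact mul_le_mul_of_nonneg_left h2 hΛ.le
  rw [abs_pow]
  exact pow_le_pow_left₀ (abs_nonneg _) (h1.trans h3) 2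

theorem rad_sub_gk2 {p x a b : E m} {r : ℝ} (hp : ‖p‖ ≤ 1 / 4) (hx : ‖x‖ ≤ r) :
    |⟪I.A p (a - b), x⟫ ^ 2 / mu I p x - ⟪I.A p a, x⟫ ^ 2 / mu I p x| ≤
      2 * I.Λ ^ 3 * r ^ 2 * (‖b‖ * ‖a‖ + ‖b‖ ^ 2) := by
  rw [← sub_div]
  have hΛ := I.Λ_pos
  have h1 := abs_inner_A_gk2 I p a x
  have h2 := abs_inner_A_gk2 I p b x
  have ha := norm_nonneg a
  have hb := norm_nonneg b
  have hx0 := norm_nonneg x
  have hr : 0 ≤ r := hx0.trans hx
  have h1' : |⟪I.A p a, x⟫| ≤ ‖a‖ * (I.Λ * r) :=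
    h1.trans ((mul_le_mul_of_nonneg_left hx (by positivity)).trans (le_of_eq (by ring)))
  have h2' : |⟪I.A p b, x⟫| ≤ ‖b‖ * (I.Λ * r) :=
    h2.trans ((mul_le_mul_of_nonneg_left hx (by positivity)).trans (le_of_eq (by ring)))
  have key : |⟪I.A p (a - b), x⟫ ^ 2 - ⟪I.A p a, x⟫ ^ 2| ≤
      2 * (I.Λ * r) ^ 2 * (‖b‖ * ‖a‖ + ‖b‖ ^ 2) := by
    rw [map_sub, inner_sub_left]
    have hR : 0 ≤ I.Λ * r := by positivity
    generalize I.Λ * r = R at *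
    set s := ⟪I.A p a, x⟫
    set t := ⟪I.A p b, x⟫
    have e : (s - t) ^ 2 - s ^ 2 = t ^ 2 - 2 * (s * t) := by ring
    rw [e]
    have h3 : |s * t| ≤ ‖a‖ * R * (‖b‖ * R) := by
      rw [abs_mul]
      exact mul_le_mul h1' h2' (abs_nonneg _) (by positivity)
    have h4 : |t ^ 2| ≤ (‖b‖ * R) ^ 2 := by
      rw [abs_pow]
      exact pow_le_pow_left₀ (abs_nonneg _) h2' 2
    have h5 : |t ^ 2 - 2 * (s * t)| ≤ |t ^ 2| + 2 * |s * t| := by
      have := abs_sub (t ^ 2) (2 * (s * t))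
      rwa [abs_mul 2, abs_two] at this
    have h6 : 0 ≤ (‖b‖ * R) ^ 2 := sq_nonneg _
    nlinarith
  exact (abs_div_mu_gk2 I (x := x) hp (by positivity) key).trans (le_of_eq (by ring))

end

section
variable [Fintype ι] [Nonempty ι] {L : ℝ≥0} {I : Intg m L} {u : ι → E m → ℝ} {Ψ g : E m → E m}
  {r ρ CP δ D : ℝ}

theorem Centre.diff_gk2 (h : Centre I u Ψ g r ρ CP δ D) {φ f₁ f₂ : E m → ℝ} {A B M₁ M₂ : ℝ}
    (hφc : Continuous φ) (hφ0 : ∀ x, x ∉ ball (0 : E m) r → φ x = 0) (hφ : ∀ x, |φ x| ≤ A)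
    (hB : 0 ≤ B) (hm₁ : Measurable f₁) (hm₂ : Measurable f₂)
    (hb₁ : ∀ᵐ x, x ∈ ball (0 : E m) r → |f₁ x| ≤ M₁)
    (hb₂ : ∀ᵐ x, x ∈ ball (0 : E m) r → |f₂ x| ≤ M₂)
    (hf : ∀ᵐ x, x ∈ ball (0 : E m) r → |f₁ x - f₂ x| ≤ B * er u g r x) :
    |(∫ x, φ x * f₁ x) - ∫ x, φ x * f₂ x| ≤ A * B * ∫ x in ball 0 r, er u g r x := by
  have i₁ := int_cut h.r_pos hφc hφ0 hm₁.aestronglyMeasurable hb₁
  have i₂ := int_cut h.r_pos hφc hφ0 hm₂.aestronglyMeasurable hb₂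
  rw [← integral_sub i₁ i₂]
  have e : (fun x => φ x * f₁ x - φ x * f₂ x) = fun x => φ x * (f₁ x - f₂ x) := by
    funext x
    ring
  rw [e]
  exact h.abs_int_le hφ0 hφ hB hf

omit [Nonempty ι] in
theorem Centre.small_gk2 (h : Centre I u Ψ g r ρ CP δ D) {x : E m} (hx : x ∈ ball (0 : E m) r) :
    ‖Ψ x‖ ≤ 1 / 4 ∧ ‖x‖ ≤ r ∧ ‖x‖ ≤ 1 := by
  have h1 := h.small x hx
  have h2 := h.r_le
  have h3 : ‖x‖ < r := mem_ball_zero_iff.mp hx
  exact ⟨by linarith, h3.le, by linarith⟩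

omit [Nonempty ι] in
theorem Centre.q_le_gk2 (h : Centre I u Ψ g r ρ CP δ D) {x : E m} (hx : x ∈ ball (0 : E m) r)
    (i : ι) : ‖gradient (u i) x - Ψ x‖ ≤ L + 1 := by
  have h1 := norm_grad_le (h.lip i) x
  have h2 := (h.small_gk2 hx).1
  have h3 := norm_sub_le (gradient (u i) x) (Ψ x)
  linarith

omit [Nonempty ι] in
theorem Centre.meas_qC_gk2 (h : Centre I u Ψ g r ρ CP δ D) : Measurable (qC I u Ψ) := by
  have hΨ : Measurable Ψ := h.lipΨ.continuous.measurable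
  unfold qC
  refine Finset.measurable_sum _ fun i _ => ?_
  have hq : Measurable fun x => gradient (u i) x - Ψ x := (meas_grad _).sub hΨ
  exact (meas_A_gk2 I hΨ hq).inner hq

omit [Nonempty ι] in
theorem Centre.bd_qC_gk2 (h : Centre I u Ψ g r ρ CP δ D) :
    ∀ᵐ x, x ∈ ball (0 : E m) r → |qC I u Ψ x| ≤ ∑ _i : ι, I.Λ * ((L : ℝ) + 1) * (L + 1) := by
  refine Eventually.of_forall fun x hx => ?_
  unfold qC
  refine (Finset.abs_sum_le_sum_abs _ _).trans (Finset.sum_le_sum fun i _ => ?_)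
  have h1 := h.q_le_gk2 hx i
  have hΛ := I.Λ_pos
  exact (abs_inner_A_gk2 I _ _ _).trans
    (mul_le_mul (mul_le_mul_of_nonneg_left h1 hΛ.le) h1 (norm_nonneg _) (by positivity))

theorem Centre.bd_qI_gk2 (h : Centre I u Ψ g r ρ CP δ D) :
    ∀ᵐ x, x ∈ ball (0 : E m) r → |qI I u x| ≤ I.Λ * ∑ _i : ι, (2 * (L : ℝ)) ^ 2 := by
  refine Eventually.of_forall fun x _ => ?_
  obtain ⟨h0, h1, -⟩ := qI_bounds I h.lip x
  rw [abs_of_nonneg h0]
  refine h1.trans (mul_le_mul_of_nonneg_left (Finset.sum_le_sum fun i _ => ?_) I.Λ_pos.le)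
  have h2 := norm_grad_le (lip_vv h.lip i) x
  rw [sub_zero]
  refine pow_le_pow_left₀ (norm_nonneg _) ?_ 2
  simpa using h2

theorem Centre.rad_diff_gk2 (h : Centre I u Ψ g r ρ CP δ D) :
    |(∫ x, om 0 r x * ∑ i, ⟪I.A (Ψ x) (gradient (u i) x - Ψ x), x⟫ ^ 2 / mu I (Ψ x) x) -
        ∫ x, om 0 r x * ∑ i, ⟪I.A (Ψ x) (gradient (vv u i) x), x⟫ ^ 2 / mu I (Ψ x) x| ≤
      3 * (2 * I.Λ ^ 3 * r ^ 2) * ∫ x in ball 0 r, er u g r x := by
  have hΨ : Measurable Ψ := h.lipΨ.continuous.measurable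
  have hΛ := I.Λ_pos
  refine h.diff_gk2 (M₁ := ∑ _i : ι, I.Λ * (I.Λ * ((L : ℝ) + 1)) ^ 2)
    (M₂ := ∑ _i : ι, I.Λ * (I.Λ * (2 * (L : ℝ))) ^ 2)
    (contDiff_om 0 r).continuous (fun x hx => ?_) (fun x => ?_) (by positivity)
    (meas_rad_gk2 I (w := fun i x => gradient (u i) x - Ψ x) hΨ fun i => (meas_grad _).sub hΨ)
    (meas_rad_gk2 I (w := fun i x => gradient (vv u i) x) hΨ fun i => meas_grad _) ?_ ?_ ?_
  · simp [om, pr_eq_zero h.r_pos hx]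
  · rw [abs_of_nonneg (om_nonneg _ _ _)]
    exact om_le _ _ _
  · refine Eventually.of_forall fun x hx => ?_
    exact bound_rad_gk2 I (w := fun i => gradient (u i) x - Ψ x) (h.small_gk2 hx).1
      (h.small_gk2 hx).2.2 (h.q_le_gk2 hx)
  · refine Eventually.of_forall fun x hx => ?_
    refine bound_rad_gk2 I (w := fun i => gradient (vv u i) x) (h.small_gk2 hx).1
      (h.small_gk2 hx).2.2 fun i => ?_
    simpa using norm_grad_le (lip_vv h.lip i) x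
  · filter_upwards [h.ae_facts] with x hx hxb
    obtain ⟨-, -, h3⟩ := hx hxb
    rw [← Finset.sum_sub_distrib]
    refine (Finset.abs_sum_le_sum_abs _ _).trans ?_
    unfold er
    rw [Finset.mul_sum]
    refine Finset.sum_le_sum fun i _ => ?_
    rw [h3 i]
    refine (rad_sub_gk2 I (h.small_gk2 hxb).1 (h.small_gk2 hxb).2.1).trans ?_
    exact mul_le_mul_of_nonneg_left (er_ge_k2 h.r_pos x i).1 (by positivity)

theorem Centre.q_diff_gk2 (h : Centre I u Ψ g r ρ CP δ D) {φ : E m → ℝ} {A : ℝ}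
    (hφc : Continuous φ) (hφ0 : ∀ x, x ∉ ball (0 : E m) r → φ x = 0) (hφ : ∀ x, |φ x| ≤ A) :
    |(∫ x, φ x * qI I u x) - ∫ x, φ x * qC I u Ψ x| ≤
      A * ((2 * L + 2) * I.Λ) * ∫ x in ball 0 r, er u g r x :=
  h.diff_gk2 hφc hφ0 hφ (mul_nonneg (by positivity) I.Λ_pos.le) (meas_qI I u) h.meas_qC_gk2
    h.bd_qI_gk2 h.bd_qC_gk2 h.qI_sub

theorem Centre.cube_gk2 (h : Centre I u Ψ g r ρ CP δ D) :
    ∫ x in ball 0 r, ∑ i, ‖gradient (u i) x - Ψ x‖ ^ 3 ≤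
      4 * (L + 1) * ∫ x in ball 0 r, er u g r x := by
  rw [← integral_const_mul]
  refine integral_mono_of_nonneg (Eventually.of_forall fun x => ?_) (h.er_int.const_mul _) ?_
  · exact Finset.sum_nonneg fun i _ => by positivity
  · rw [EventuallyLE, ae_restrict_iff' measurableSet_ball]
    filter_upwards [h.ae_facts] with x hx hxb
    obtain ⟨h1, -, h3⟩ := hx hxb
    unfold er
    rw [Finset.mul_sum]
    refine Finset.sum_le_sum fun i _ => ?_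
    rw [h3 i]
    have hL : (1 : ℝ) ≤ L + 1 := by
      have := L.coe_nonneg
      linarith
    refine (cube_sub_k2 hL h1).trans ?_
    exact mul_le_mul_of_nonneg_left (er_ge_k2 h.r_pos x i).2 (by positivity)

end

theorem key2 [Fintype ι] [Nonempty ι] {L : ℝ≥0} (I : Intg m L) {CP : ℝ} (hCP : 0 ≤ CP) : ∃ C > 0,
    ∀ (u : ι → E m → ℝ) (Ψ g : E m → E m) (r ρ δ D : ℝ), Centre I u Ψ g r ρ CP δ D →
      2 * rI I u Ψ r - C * r * dI I u r - C * δ * (r ^ 2 / r ^ m * D) ≤ dI1 I u r := by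
  obtain ⟨C, hC, hk⟩ := key2a (ι := ι) I
  obtain ⟨Ce, hCe, he⟩ := er_bound (ι := ι) I hCP
  have hΛ := I.Λ_pos
  refine ⟨C + (48 + (8 + (m : ℝ) + C) * ((2 * L + 2) * I.Λ) + C * (4 * (L + 1))) *
    (I.Λ ^ 3 * Ce), by positivity, fun u Ψ g r ρ δ D h => ?_⟩
  have hr := h.r_pos
  have hr1 : r ≤ 1 := h.r_le.trans (by norm_num)
  have hc : 0 < r ^ 2 / r ^ m := by positivity
  have hB' : 0 ≤ ∫ x, chi 0 r x * qI I u x :=
    integral_nonneg fun x => mul_nonneg (chi_nonneg _ _ _) (qI_bounds I h.lip x).1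
  have hE0 : 0 ≤ ∫ x in ball 0 r, er u g r x := integral_nonneg fun x => er_nonneg hr x
  have hE1 : ∫ x in ball 0 r, er u g r x ≤ I.Λ ^ 3 * ∫ x in ball 0 r, er u g r x :=
    le_mul_of_one_le_left hE0 (one_le_pow₀ I.one_le)
  have hB := h.q_diff_gk2 (φ := chi 0 r) (A := 1) (contDiff_chi 0 r).continuous
    (fun x hx => by simp [chi, pr_eq_zero hr hx])
    (fun x => by
      rw [abs_of_nonneg (chi_nonneg _ _ _)]
      exact chi_le_one _ _ _)
  have hG := h.q_diff_gk2 (φ := fun x => 2 * (‖x‖ ^ 2 / r ^ 2) * om 0 r x) (A := 6)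
    ((continuous_const.mul ((continuous_norm.pow 2).div_const _)).mul
      (contDiff_om 0 r).continuous)
    (fun x hx => by simp [om, pr_eq_zero hr hx])
    (fun x => by
      by_cases hx : x ∈ ball (0 : E m) r
      · have h1 : ‖x‖ ^ 2 / r ^ 2 ≤ 1 := by
          rw [div_le_one (by positivity)]
          exact pow_le_pow_left₀ (norm_nonneg _) (h.small_gk2 hx).2.1 2
        have h2 : 0 ≤ ‖x‖ ^ 2 / r ^ 2 := by positivity
        have h3 := om_nonneg 0 r x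
        have h4 := om_le 0 r x
        rw [abs_of_nonneg (by positivity)]
        nlinarith
      · simp [om, pr_eq_zero hr hx])
  have hE : I.Λ ^ 3 * ∫ x in ball 0 r, er u g r x ≤ I.Λ ^ 3 * Ce * δ * D :=
    (mul_le_mul_of_nonneg_left (he u Ψ g r ρ δ D h) (by positivity)).trans (le_of_eq (by ring))
  have hA : 3 * (2 * I.Λ ^ 3 * r ^ 2) * ∫ x in ball 0 r, er u g r x ≤
      3 * (4 * r ^ 2) * (I.Λ ^ 3 * ∫ x in ball 0 r, er u g r x) := by
    have h0 : 0 ≤ r ^ 2 * (I.Λ ^ 3 * ∫ x in ball 0 r, er u g r x) := by positivity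
    linarith
  have key := arith_k2 (Nat.cast_nonneg m) hC (by positivity) (by positivity)
    (by positivity : 0 < I.Λ ^ 3 * Ce) hr hr1 hc
    (mul_nonneg h.δ_pos.le h.D_nonneg) hB' (hE0.trans hE1) hE (hk CP u Ψ g r ρ δ D h)
    (h.rad_diff_gk2.trans hA) (hB.trans (mul_le_mul_of_nonneg_left hE1 (by positivity)))
    (hG.trans (mul_le_mul_of_nonneg_left hE1 (by positivity)))
    (h.cube_gk2.trans (mul_le_mul_of_nonneg_left hE1 (by positivity)))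
  have e : 2 * rI I u Ψ r = r ^ 2 / r ^ m * (4 / r ^ 2 *
      ∫ x, om 0 r x * ∑ i, ⟪I.A (Ψ x) (gradient (vv u i) x), x⟫ ^ 2 / mu I (Ψ x) x) := by
    unfold rI
    field_simp
    ring
  rw [e]
  unfold dI1 dI
  exact key

end Pool.Agent.Lib.MP_8daebb_an.LH
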