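import Pool.Agent.Lib.MP_8daebb_an.LH.GAlg
import Pool.Agent.Lib.MP_8daebb_an.LG.StatB

open MeasureTheory Metric Set Filter Topology
open scoped RealInnerProductSpace NNReal
open Pool.Agent.Lib.MP_8daebb_an.LG

namespace Pool.Agent.Lib.MP_8daebb_an.LH

variable {m : ℕ} {ι : Type}

/-! GSTAT. Basic properties of stationary families. -/

variable {s : Finset ι} {u : ι → E m → ℝ} {Ω : Set (E m)} {L : ℝ≥0} {F : E m → ℝ}
  {a : E m → E m}

theorem flux_gstat (F : E m → ℝ) (a : E m → E m) (p e g : E m) :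
    F p * ⟪e, g⟫ - ⟪p, e⟫ * ⟪a p, g⟫ = ⟪F p • e - ⟪p, e⟫ • a p, g⟫ := by
  simp only [inner_sub_left, real_inner_smul_left]

theorem StatF.mono (h : StatF F a s u Ω) {Ω' : Set (E m)} (h' : Ω' ⊆ Ω) : StatF F a s u Ω' :=
  fun ψ hψ K hK hKΩ h0 => h ψ hψ K hK (hKΩ.trans h') h0

theorem StatF.split [DecidableEq ι] (h : StatF F a s u Ω) (hL : ∀ i, LipschitzWith L (u i))
    {J : Finset ι} (hJ : J ⊆ s) (hsep : ∀ i ∈ J, ∀ j ∈ s \ J, ∀ x ∈ Ω, u i x ≠ u j x) :
    StatF F a J u Ω := by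
  intro ψ hψ K hK hKΩ h0
  have hev : ∀ᶠ δ in 𝓝[>] (0 : ℝ), ∀ i ∈ J, ∀ j ∈ s \ J, ∀ x ∈ K, δ ≤ |u i x - u j x| := by
    rw [Finset.eventually_all]
    intro i hi
    rw [Finset.eventually_all]
    intro j hj
    obtain ⟨a, ha, hle⟩ := hK.exists_forall_le' (f := fun x => |u i x - u j x|) (a := 0)
      (((hL i).continuous.sub (hL j).continuous).abs.continuousOn)
      (fun x hx => abs_pos.2 (sub_ne_zero.2 (hsep i hi j hj x (hKΩ hx))))
    filter_upwards [Ioo_mem_nhdsGT ha] with δ hδ x hx using hδ.2.le.trans (hle x hx)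
  obtain ⟨δ, hδ, hδ0⟩ := (hev.and self_mem_nhdsWithin).exists
  have hδ0 : 0 < δ := hδ0
  let φ : E m × ℝ → ℝ := fun q => ∏ j ∈ s \ J, min 1 (|q.2 - u j q.1| / δ)
  have hφ : LocallyLipschitz φ := by
    refine locLip_prod_statb _ fun j _ => ?_
    have h1 : LocallyLipschitz fun q : E m × ℝ => |q.2 - u j q.1| :=
      lipschitzWith_one_norm.locallyLipschitz.comp (locLip_sub_statb (hL j).locallyLipschitz)
    exact (locLip_cmul_statb h1 δ).const_min 1
  have e1 : ∀ i ∈ J, (fun y => ψ (y, u i y) * φ (y, u i y)) = fun y => ψ (y, u i y) := by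
    intro i hi
    funext y
    by_cases hy : y ∈ K
    · have : φ (y, u i y) = 1 :=
        Finset.prod_eq_one fun j hj => min_eq_left ((one_le_div hδ0).2 (hδ i hi j hj y hy))
      rw [this, mul_one]
    · rw [h0 i hi y hy, zero_mul]
  have e2 : ∀ j ∈ s \ J, (fun y => ψ (y, u j y) * φ (y, u j y)) = fun _ => (0 : ℝ) := by
    intro j hj
    funext y
    have : φ (y, u j y) = 0 := Finset.prod_eq_zero hj (by simp)
    rw [this, mul_zero]
  have key := h (fun q => ψ q * φ q) (locLip_mul hψ hφ) K hK hKΩ (fun i hi x hx => by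
    by_cases hiJ : i ∈ J
    · rw [h0 i hiJ x hx, zero_mul]
    · exact congrFun (e2 i (Finset.mem_sdiff.2 ⟨hi, hiJ⟩)) x)
  have red : ∀ T : E m → E m, ∑ i ∈ s, ∫ x, ⟪T (gradient (u i) x),
      gradient (fun y => ψ (y, u i y) * φ (y, u i y)) x⟫ =
      ∑ i ∈ J, ∫ x, ⟪T (gradient (u i) x), gradient (fun y => ψ (y, u i y)) x⟫ := by
    intro T
    rw [← Finset.sum_sdiff hJ, Finset.sum_eq_zero, zero_add]
    · exact Finset.sum_congr rfl fun i hi => by rw [e1 i hi]
    · intro j hj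
      rw [e2 j hj]
      simp
  simp only [flux_gstat] at key ⊢
  exact ⟨(red a).symm.trans key.1,
    fun e => (red fun p => F p • e - ⟪p, e⟫ • a p).symm.trans (key.2 e)⟩

theorem StatF.scale {x₀ : E m} {R : ℝ} (h : StatF F a s u (ball x₀ R))
    (hL : ∀ i, LipschitzWith L (u i)) (z₀ : ℝ) {l : ℝ} (hl : 0 < l) :
    StatF F a s (fun i x => (u i (x₀ + l • x) - z₀) / l) (ball 0 (R / l)) := by
  have _ := hL
  intro ψ hψ K hK hKΩ h0
  have c1 : ∀ y : E m, x₀ + l • l⁻¹ • (y - x₀) = y := fun y => by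
    rw [smul_inv_smul₀ hl.ne']; abel
  have c2 : ∀ x : E m, l⁻¹ • (x₀ + l • x - x₀) = x := fun x => by
    rw [add_sub_cancel_left, inv_smul_smul₀ hl.ne']
  have hA : LocallyLipschitz fun q : E m × ℝ => (l⁻¹ • (q.1 - x₀), (q.2 - z₀) / l) := by
    have : ContDiff ℝ 1 fun q : E m × ℝ => (l⁻¹ • (q.1 - x₀), (q.2 - z₀) / l) := by fun_prop
    exact this.locallyLipschitz
  have key := h (fun q => ψ (l⁻¹ • (q.1 - x₀), (q.2 - z₀) / l)) (hψ.comp hA)
    ((fun x => x₀ + l • x) '' K) (hK.image (by fun_prop)) ?_ ?_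
  · have red : ∀ T : E m → E m, ∑ i ∈ s, ∫ x,
        ⟪T (gradient (fun x => (u i (x₀ + l • x) - z₀) / l) x),
          gradient (fun y => ψ (y, (u i (x₀ + l • y) - z₀) / l)) x⟫ =
        (l ^ m)⁻¹ * l * ∑ i ∈ s, ∫ x, ⟪T (gradient (u i) x),
          gradient (fun y => ψ (l⁻¹ • (y - x₀), (u i y - z₀) / l)) x⟫ := by
      intro T
      rw [Finset.mul_sum]
      refine Finset.sum_congr rfl fun i _ => ?_
      have e : (fun y => ψ (l⁻¹ • (y - x₀), (u i y - z₀) / l)) = fun y =>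
          (fun x => ψ (x, (u i (x₀ + l • x) - z₀) / l)) (l⁻¹ • (y - x₀)) := by
        funext y; simp only [c1]
      rw [e, mul_assoc, ← integral_const_mul, ← smul_eq_mul, ← int_scale _ x₀ hl]
      congr 1
      funext x
      rw [grad_scale _ _ _ hl,
        grad_unscale (fun x => ψ (x, (u i (x₀ + l • x) - z₀) / l)) x₀ hl, c2, inner_smul_right,
        ← mul_assoc, mul_inv_cancel₀ hl.ne', one_mul]
    simp only [flux_gstat] at key ⊢
    exact ⟨(red a).trans (by rw [key.1, mul_zero]),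
      fun e => (red fun p => F p • e - ⟪p, e⟫ • a p).trans (by rw [key.2 e, mul_zero])⟩
  · rintro _ ⟨x, hx, rfl⟩
    have := hKΩ hx
    rw [mem_ball_zero_iff, lt_div_iff₀ hl] at this
    rw [mem_ball_iff_norm, add_sub_cancel_left, norm_smul, Real.norm_of_nonneg hl.le]
    linarith
  · intro i hi y hy
    have := h0 i hi (l⁻¹ • (y - x₀)) fun hk => hy ⟨_, hk, c1 y⟩
    simpa only [c1] using this

theorem int_comp_gstat {T : E m → E m} (hT : Continuous T) {v : E m → ℝ}
    (hv : LipschitzWith L v) {f : E m → ℝ} (hf : LocallyLipschitz f) (hc : HasCompactSupport f) :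
    Integrable fun x => ⟪T (gradient v x), gradient f x⟫ := by
  obtain ⟨C, hC⟩ := (isCompact_closedBall (0 : E m) L).exists_bound_of_continuousOn
    hT.continuousOn
  exact int_inner_statb (T := fun x => T (gradient v x)) (C := C)
    (hT.measurable.comp (meas_grad v))
    (fun x => hC _ (mem_closedBall_zero_iff.2 (norm_grad_le hv x))) hf hc

theorem StatF.inner (h : StatF F a s u Ω) (hF : Continuous F) (ha : Continuous a)
    (hL : ∀ i, LipschitzWith L (u i)) {Y : E m → E m}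
    (hY : LocallyLipschitz Y) (hc : HasCompactSupport Y) (hs : tsupport Y ⊆ Ω) :
    ∑ i ∈ s, ∫ x, (F (gradient (u i) x) * dv Y x -
      ⟪fderiv ℝ Y x (a (gradient (u i) x)), gradient (u i) x⟫) = 0 := by
  have hb : ∀ b, LocallyLipschitz fun x => ⟪Y x, eb b⟫ := fun b =>
    locLip_inner hY (LipschitzWith.const (eb b)).locallyLipschitz
  have hcb : ∀ b, HasCompactSupport fun x => ⟪Y x, eb b⟫ := fun b =>
    hc.comp_left (g := fun v : E m => ⟪v, eb b⟫) (inner_zero_left _)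
  have key : ∀ b, ∑ i ∈ s, ∫ x, ⟪F (gradient (u i) x) • eb b -
      ⟪gradient (u i) x, eb b⟫ • a (gradient (u i) x),
      gradient (fun y => ⟪Y y, eb b⟫) x⟫ = 0 := fun b => by
    have := (h (fun q => ⟪Y q.1, eb b⟫) (locLip_fst_statb (hb b)) _ hc hs (fun i _ x hx => by
      rw [image_eq_zero_of_notMem_tsupport hx, inner_zero_left])).2 (eb b)
    simpa only [flux_gstat] using this
  have e : ∀ i, ∫ x, (F (gradient (u i) x) * dv Y x -
      ⟪fderiv ℝ Y x (a (gradient (u i) x)), gradient (u i) x⟫) =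
      ∑ b, ∫ x, ⟪F (gradient (u i) x) • eb b -
        ⟪gradient (u i) x, eb b⟫ • a (gradient (u i) x),
        gradient (fun y => ⟪Y y, eb b⟫) x⟫ := by
    intro i
    rw [← integral_finsetSum]
    · refine integral_congr_ae ?_
      filter_upwards [locLip_ae_diff hY] with x hx
      have e1 : ∀ b v, ⟪v, gradient (fun y => ⟪Y y, eb b⟫) x⟫ = ⟪fderiv ℝ Y x v, eb b⟫ := by
        intro b v
        rw [real_inner_comm, inner_grad, fderiv_inner_apply ℝ hx (differentiableAt_const _)]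
        simp
      simp only [e1, map_sub, map_smul, inner_sub_left, real_inner_smul_left,
        Finset.sum_sub_distrib, dv, trS, Finset.mul_sum]
      congr 1
      rw [← sum_inner_eb]
      exact Finset.sum_congr rfl fun b _ => by ring
    · intro b _
      exact int_comp_gstat (T := fun p => F p • eb b - ⟪p, eb b⟫ • a p) (by fun_prop) (hL i)
        (hb b) (hcb b)
  simp only [e]
  rw [Finset.sum_comm]
  exact Finset.sum_eq_zero fun b _ => key b

theorem StatF.outer (h : StatF F a s u Ω) {χ f : E m → ℝ} {θ : ℝ → ℝ} (hχ : LocallyLipschitz χ)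
    (hc : HasCompactSupport χ) (hs : tsupport χ ⊆ Ω) (hf : LocallyLipschitz f)
    (hθ : LocallyLipschitz θ) :
    ∑ i ∈ s, ∫ x, ⟪a (gradient (u i) x), gradient (fun y => χ y * θ (u i y - f y)) x⟫ = 0 :=
  (h (fun q => χ q.1 * θ (q.2 - f q.1))
    (locLip_mul (locLip_fst_statb hχ) (hθ.comp (locLip_sub_statb hf))) _ hc hs
    (fun i _ x hx => by rw [image_eq_zero_of_notMem_tsupport hx, zero_mul])).1

theorem StatF.divFree_Xi [Fintype ι] {I : Intg m L} (h : StatF I.F I.a Finset.univ u Ω)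
    (hL : ∀ i, LipschitzWith L (u i)) : DivFree (Xi I u) Ω := by
  intro ζ hζ hc hs
  have key := (h (fun q => ζ q.1) (locLip_fst_statb hζ) _ hc hs
    (fun i _ x hx => image_eq_zero_of_notMem_tsupport hx)).1
  simp only [Xi, real_inner_smul_left, sum_inner]
  rw [integral_const_mul, integral_finsetSum _ fun i _ =>
    int_comp_gstat I.continuous_a (hL i) hζ hc]
  exact mul_eq_zero_of_right _ key

theorem meas_Xi [Fintype ι] (I : Intg m L) (u : ι → E m → ℝ) : Measurable (Xi I u) :=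
  (Finset.measurable_sum _ fun i _ =>
    I.continuous_a.measurable.comp (meas_grad (u i))).const_smul (Fintype.card ι : ℝ)⁻¹

theorem norm_Xi_le [Fintype ι] (I : Intg m L) (hL : ∀ i, LipschitzWith L (u i)) (x : E m) :
    ‖Xi I u x‖ ≤ I.Λ * L := by
  have h0 : 0 ≤ I.Λ * L := mul_nonneg I.Λ_pos.le L.2
  rw [Xi, norm_smul, norm_inv, Real.norm_natCast]
  have h1 : ‖∑ i, I.a (gradient (u i) x)‖ ≤ Fintype.card ι * (I.Λ * L) := by
    refine (norm_sum_le _ _).trans ?_
    simpa using Finset.sum_le_card_nsmul Finset.univ _ (I.Λ * L) fun i _ =>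
      (I.norm_a_le (gradient (u i) x)).trans
        (mul_le_mul_of_nonneg_left (norm_grad_le (hL i) x) I.Λ_pos.le)
  refine (mul_le_mul_of_nonneg_left h1 (by positivity)).trans ?_
  rw [← mul_assoc]
  exact mul_le_of_le_one_left h0 inv_mul_le_one

theorem ae_Xi_sub [Fintype ι] [Nonempty ι] (I : Intg m L) (hL : ∀ i, LipschitzWith L (u i)) :
    ∀ᵐ x, ‖Xi I u x - I.ta (gradient (wav u) x)‖ ^ 2 ≤
        I.Λ ^ 2 * ∑ i, ‖gradient (vv u i) x - 0‖ ^ 2 ∧
      ‖Xi I u x - I.ta (gradient (wav u) x)‖ ^ 2 ≤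
        2 * L * I.Λ ^ 2 * ∑ i, ‖gradient (vv u i) x - 0‖ ^ 3 := by
  filter_upwards [ae_grad_vv hL] with x ⟨_, _, _, _, hu, hv⟩
  have hn : (Fintype.card ι : ℝ) ≠ 0 := by exact_mod_cast Fintype.card_ne_zero
  have hp : ‖gradient (wav u) x‖ ≤ (L : ℝ) + 1 := (norm_grad_le (lip_wav hL) x).trans (by linarith)
  have hq : ∀ i, ‖gradient (vv u i) x‖ ≤ 2 * L := fun i => by
    simpa using norm_grad_le (lip_vv hL i) x
  rw [I.ta_eq _ hp]
  simp only [sub_zero]
  set p := gradient (wav u) x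
  have e1 : Xi I u x - I.a p =
      (Fintype.card ι : ℝ)⁻¹ • ∑ i, (I.a (p + gradient (vv u i) x) - I.a p) := by
    rw [Xi, Finset.sum_sub_distrib, smul_sub, Finset.sum_const, Finset.card_univ,
      ← Nat.cast_smul_eq_nsmul ℝ, inv_smul_smul₀ hn]
    simp only [hu]
  have e2 : Xi I u x - I.a p = (Fintype.card ι : ℝ)⁻¹ •
      ∑ i, (I.a (p + gradient (vv u i) x) - I.a p - I.A p (gradient (vv u i) x)) := by
    rw [e1, Finset.sum_sub_distrib (g := fun i => I.A p (gradient (vv u i) x)), ← map_sum, hv]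
    simp
  constructor
  · rw [e1, Finset.mul_sum]
    refine (avg_sq_statb _).trans (Finset.sum_le_sum fun i _ => ?_)
    refine (pow_le_pow_left₀ (norm_nonneg _) (I.a_lip _ _) 2).trans (le_of_eq ?_)
    rw [add_sub_cancel_left, mul_pow]
  · rw [e2, Finset.mul_sum]
    refine (avg_sq_statb _).trans (Finset.sum_le_sum fun i _ => ?_)
    refine (pow_le_pow_left₀ (norm_nonneg _) (I.a_taylor _ _) 2).trans ?_
    have h3 : 0 ≤ I.Λ ^ 2 * ‖gradient (vv u i) x‖ ^ 3 := by positivity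
    nlinarith [mul_le_mul_of_nonneg_right (hq i) h3]

theorem pre_gstat (c : E m) {l : ℝ} (hl : 0 < l) (r : ℝ) :
    (fun y : E m => (0 : E m) + l • y) ⁻¹' ball (l • c) (l * r) = ball c r := by
  ext y
  rw [mem_preimage, mem_ball_iff_norm, zero_add, ← smul_sub, norm_smul,
    Real.norm_of_nonneg hl.le, mem_ball_iff_norm, mul_lt_mul_iff_right₀ hl]

theorem setInt_gstat (G : E m → ℝ) (c : E m) {l : ℝ} (hl : 0 < l) (r : ℝ) :
    ∫ y in ball c r, G ((0 : E m) + l • y) = (∫ x in ball (l • c) (l * r), G x) / l ^ m := by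
  rw [← (emb_scal (0 : E m) hl).integral_map, ← pre_gstat c hl r,
    ← (emb_scal (0 : E m) hl).restrict_map, map_scal (0 : E m) hl, Measure.restrict_smul,
    integral_smul_measure, ENNReal.toReal_ofReal (by positivity), smul_eq_mul, div_eq_inv_mul]

theorem En_gstat (s : Finset ι) (u : ι → E m → ℝ) (p c : E m) {l : ℝ} (hl : 0 < l) (r : ℝ) :
    En s (fun i y => (u i ((0 : E m) + l • y) - 0) / l) p c r =
        En s u p (l • c) (l * r) / l ^ m ∧
      En3 s (fun i y => (u i ((0 : E m) + l • y) - 0) / l) p c r =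
        En3 s u p (l • c) (l * r) / l ^ m := by
  unfold En En3
  simp only [grad_scale _ (0 : E m) 0 hl]
  exact ⟨setInt_gstat (fun x => ∑ i ∈ s, ‖gradient (u i) x - p‖ ^ 2) c hl r,
    setInt_gstat (fun x => ∑ i ∈ s, ‖gradient (u i) x - p‖ ^ 3) c hl r⟩

theorem TGH.scale [Fintype ι] {γ p₀ C Λ R : ℝ} (h : TGH γ p₀ C Λ u (ball 0 R)) {l : ℝ}
    (hl : 0 < l) (hlR : 2 * l ≤ R) :
    TGH γ p₀ C Λ (fun i y => (u i ((0 : E m) + l • y) - 0) / l) (ball 0 2) := by
  intro c p r η hr hη hp hb hE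
  have hlm : 0 < l ^ m := by positivity
  rw [(En_gstat _ u p c hl _).1, div_le_iff₀ hlm] at hE
  rw [(En_gstat _ u p c hl _).2, div_le_iff₀ hlm]
  have e : Λ * (l * r) = l * (Λ * r) := by ring
  have key := h (l • c) p (l * r) η (mul_pos hl hr) hη hp ?_ ?_
  · refine key.trans (le_of_eq ?_)
    rw [mul_pow]
    ring
  · intro x hx
    have h1 : l⁻¹ • x ∈ ball c (Λ * r) := by
      rw [← pre_gstat c hl, mem_preimage, zero_add, smul_inv_smul₀ hl.ne', ← e]
      exact hx
    have h2 := mem_ball_zero_iff.1 (hb h1)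
    rw [norm_smul, norm_inv, Real.norm_of_nonneg hl.le, inv_mul_lt_iff₀ hl] at h2
    rw [mem_ball_zero_iff]
    linarith
  · rw [e, mul_pow]
    refine hE.trans (le_of_eq ?_)
    ring

end Pool.Agent.Lib.MP_8daebb_an.LH
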