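import Pool.Agent.Lib.MP_8daebb_an.LH.GKE
import Pool.Agent.Lib.MP_8daebb_an.LH.GStat
import Pool.Agent.Lib.MP_8daebb_an.LG.K3

open MeasureTheory Metric Set Filter Topology
open scoped RealInnerProductSpace NNReal
open Pool.Agent.Lib.MP_8daebb_an.LG

namespace Pool.Agent.Lib.MP_8daebb_an.LH

variable {m : ℕ} {ι : Type}

/-! GK3. The outer variation and the Cauchy-Schwarz inequality. -/

section
variable [Fintype ι] [Nonempty ι] {L : ℝ≥0} {I : Intg m L} {u : ι → E m → ℝ} {Ψ g : E m → E m}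
  {r ρ CP δ D : ℝ}

theorem continuous_AA_gk3 (I : Intg m L) : Continuous fun z : E m × E m => I.A z.1 z.2 :=
  (I.continuous_A.comp continuous_fst).clm_apply continuous_snd

omit [Fintype ι] [Nonempty ι] in
theorem norm_a_gk3 (I : Intg m L) (hL : ∀ i, LipschitzWith L (u i)) (i : ι) (x : E m) :
    ‖I.a (gradient (u i) x)‖ ≤ I.Λ * L :=
  (I.norm_a_le _).trans (mul_le_mul_of_nonneg_left (norm_grad_le (hL i) x) I.Λ_pos.le)

omit [Nonempty ι] in
theorem meas_b_gk3 (hΨ : Continuous Ψ) (i : ι) :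
    Measurable fun x => ⟪I.A (Ψ x) (gradient (vv u i) x), x⟫ :=
  ((continuous_AA_gk3 I).measurable.comp (hΨ.measurable.prodMk (meas_grad _))).inner measurable_id

omit [Nonempty ι] in
theorem abs_b_le_gk3 (i : ι) {x : E m} (hx : x ∈ ball (0 : E m) r) :
    |⟪I.A (Ψ x) (gradient (vv u i) x), x⟫| ≤ I.Λ * ‖gradient (vv u i) x‖ * r :=
  (abs_real_inner_le_norm _ _).trans
    (mul_le_mul (I.norm_A_le _ _) (mem_ball_zero_iff.mp hx).le (norm_nonneg _)
      (mul_nonneg I.Λ_pos.le (norm_nonneg _)))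

theorem int_T_gk3 (h : Centre I u Ψ g r ρ CP δ D) : Integrable fun x =>
    om 0 r x * ∑ i, vv u i x * ⟪I.A (Ψ x) (gradient (vv u i) x), x⟫ := by
  have hr := h.r_pos
  refine int_cut hr (contDiff_om 0 r).continuous (om_zero_k3 hr)
    (Finset.measurable_sum _ fun i _ => (lip_vv h.lip i).continuous.measurable.mul
      (meas_b_gk3 h.lipΨ.continuous i)).aestronglyMeasurable
    (C := ∑ _i : ι, 2 * L * r * (I.Λ * (2 * L) * r)) (ae_of_all _ fun x hx => ?_)
  refine (Finset.abs_sum_le_sum_abs _ _).trans (Finset.sum_le_sum fun i _ => ?_)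
  rw [abs_mul]
  exact mul_le_mul (h.abs_vv i hx) ((abs_b_le_gk3 i hx).trans
    (mul_le_mul_of_nonneg_right (mul_le_mul_of_nonneg_left (grad_vv_le_k3 h.lip i x) I.Λ_pos.le)
      hr.le)) (abs_nonneg _) (by positivity)

theorem int_q_gk3 (h : Centre I u Ψ g r ρ CP δ D) : Integrable fun x => chi 0 r x * qI I u x := by
  have hr := h.r_pos
  refine int_cut hr (contDiff_chi 0 r).continuous (chi_zero_k3 hr)
    (meas_qI I u).aestronglyMeasurable (C := I.Λ * ∑ _i : ι, (2 * (L : ℝ)) ^ 2)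
    (ae_of_all _ fun x _ => ?_)
  obtain ⟨h0, h1, -⟩ := qI_bounds I h.lip x
  rw [abs_of_nonneg h0]
  refine h1.trans (mul_le_mul_of_nonneg_left (Finset.sum_le_sum fun i _ => ?_) I.Λ_pos.le)
  rw [sub_zero]
  exact pow_le_pow_left₀ (norm_nonneg _) (grad_vv_le_k3 h.lip i x) 2

theorem int_A1_gk3 (h : Centre I u Ψ g r ρ CP δ D) (i : ι) : Integrable fun x =>
    chi 0 r x * ⟪I.a (gradient (u i) x), gradient (vv u i) x⟫ := by
  have hr := h.r_pos
  refine int_cut hr (contDiff_chi 0 r).continuous (chi_zero_k3 hr)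
    ((I.continuous_a.measurable.comp (meas_grad _)).inner
      (meas_grad _)).aestronglyMeasurable (C := I.Λ * L * (2 * L)) (ae_of_all _ fun x _ => ?_)
  exact (abs_real_inner_le_norm _ _).trans
    (mul_le_mul (norm_a_gk3 I h.lip i x) (grad_vv_le_k3 h.lip i x) (norm_nonneg _)
      (mul_nonneg I.Λ_pos.le L.coe_nonneg))

theorem int_A2_gk3 (h : Centre I u Ψ g r ρ CP δ D) (i : ι) : Integrable fun x =>
    om 0 r x * (vv u i x * ⟪I.a (gradient (u i) x), x⟫) := by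
  have hr := h.r_pos
  refine int_cut hr (contDiff_om 0 r).continuous (om_zero_k3 hr)
    ((lip_vv h.lip i).continuous.measurable.mul
      ((I.continuous_a.measurable.comp (meas_grad _)).inner
        measurable_id)).aestronglyMeasurable
    (C := 2 * L * r * (I.Λ * L * r)) (ae_of_all _ fun x hx => ?_)
  rw [abs_mul]
  exact mul_le_mul (h.abs_vv i hx) ((abs_real_inner_le_norm _ _).trans
    (mul_le_mul (norm_a_gk3 I h.lip i x) (mem_ball_zero_iff.mp hx).le (norm_nonneg _)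
      (mul_nonneg I.Λ_pos.le L.coe_nonneg)))
    (abs_nonneg _) (by positivity)

/-- The outer variation identity. -/
theorem outer_gk3 (h : Centre I u Ψ g r ρ CP δ D) :
    r ^ 2 * ∫ x, chi 0 r x * ∑ i, ⟪I.a (gradient (u i) x), gradient (vv u i) x⟫ =
      2 * ∫ x, om 0 r x * ∑ i, vv u i x * ⟪I.a (gradient (u i) x), x⟫ := by
  have hr := h.r_pos
  have hc : HasCompactSupport (chi (0 : E m) r) :=
    (isCompact_closedBall 0 r).of_isClosed_subset (isClosed_tsupport _) (tsupport_chi hr)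
  have h0 := h.stat.outer (χ := chi 0 r) (f := wav u) (θ := id)
    (contDiff_chi 0 r).locallyLipschitz hc
    ((tsupport_chi hr).trans (closedBall_subset_ball h.lt)) (lip_wav h.lip).locallyLipschitz
    LocallyLipschitz.id
  have h1 : ∀ i, ∫ x, ⟪I.a (gradient (u i) x),
      gradient (fun y => chi 0 r y * id (u i y - wav u y)) x⟫ =
      (∫ x, chi 0 r x * ⟪I.a (gradient (u i) x), gradient (vv u i) x⟫) -
        2 / r ^ 2 * ∫ x, om 0 r x * (vv u i x * ⟪I.a (gradient (u i) x), x⟫) := by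
    intro i
    rw [← integral_const_mul, ← integral_sub (int_A1_gk3 h i) ((int_A2_gk3 h i).const_mul _)]
    refine integral_congr_ae ?_
    filter_upwards [locLip_ae_diff (lip_vv h.lip i).locallyLipschitz] with x hx
    change ⟪I.a (gradient (u i) x), gradient (fun y => chi 0 r y * vv u i y) x⟫ = _
    rw [grad_mul ((contDiff_chi 0 r).differentiable (by norm_num) x) hx, grad_chi, sub_zero,
      inner_add_right, inner_smul_right, inner_smul_right, inner_smul_right]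
    ring
  simp only [h1, Finset.sum_sub_distrib, ← Finset.mul_sum] at h0
  simp only [Finset.mul_sum]
  rw [integral_finsetSum _ fun i _ => int_A1_gk3 h i, integral_finsetSum _ fun i _ => int_A2_gk3 h i]
  rw [sub_eq_zero.mp h0]
  field_simp

theorem A1_sub_gk3 (h : Centre I u Ψ g r ρ CP δ D) : ∀ᵐ x, x ∈ ball (0 : E m) r →
    |∑ i, ⟪I.a (gradient (u i) x), gradient (vv u i) x⟫ - qI I u x| ≤ I.Λ * er u g r x := by
  filter_upwards [ae_grad_vv h.lip] with x ⟨_, _, _, _, h5, h6⟩ _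
  have e0 : ∑ i, ⟪I.a (gradient (wav u) x), gradient (vv u i) x⟫ = 0 := by
    rw [← inner_sum, h6, inner_zero_right]
  have e : ∑ i, ⟪I.a (gradient (u i) x), gradient (vv u i) x⟫ - qI I u x =
      ∑ i, ⟪I.a (gradient (wav u) x + gradient (vv u i) x) - I.a (gradient (wav u) x) -
        I.A (gradient (wav u) x) (gradient (vv u i) x), gradient (vv u i) x⟫ := by
    simp only [inner_sub_left, Finset.sum_sub_distrib, e0, sub_zero, qI, ← h5]
  rw [e]
  refine (Finset.abs_sum_le_sum_abs _ _).trans ?_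
  refine le_trans ?_ (mul_le_mul_of_nonneg_left (er_terms_k3 (g := g) h.r_pos x).1 I.Λ_pos.le)
  rw [Finset.mul_sum]
  refine Finset.sum_le_sum fun i _ => (abs_real_inner_le_norm _ _).trans ?_
  calc _ ≤ I.Λ * ‖gradient (vv u i) x‖ ^ 2 * ‖gradient (vv u i) x‖ :=
        mul_le_mul_of_nonneg_right (I.a_taylor _ _) (norm_nonneg _)
    _ = _ := by ring

theorem A2_sub_gk3 (h : Centre I u Ψ g r ρ CP δ D) : ∀ᵐ x, x ∈ ball (0 : E m) r →
    |∑ i, vv u i x * ⟪I.A (Ψ x) (gradient (vv u i) x), x⟫ -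
      ∑ i, vv u i x * ⟪I.a (gradient (u i) x), x⟫| ≤
      I.Λ * (2 * L + 1) * r ^ 2 * er u g r x := by
  have hr := h.r_pos
  have hΛ := I.Λ_pos
  filter_upwards [ae_grad_vv h.lip, h.ae_facts] with x ⟨_, _, _, _, h5, _⟩ hf hx
  obtain ⟨-, hg, -⟩ := hf hx
  have e0 : ∑ i, vv u i x * ⟪I.a (gradient (wav u) x), x⟫ = 0 := by
    rw [← Finset.sum_mul, sum_vv, zero_mul]
  have e : ∑ i, vv u i x * ⟪I.A (Ψ x) (gradient (vv u i) x), x⟫ -
      ∑ i, vv u i x * ⟪I.a (gradient (u i) x), x⟫ =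
      ∑ i, vv u i x * ⟪(I.A (Ψ x) (gradient (vv u i) x) -
        I.A (gradient (wav u) x) (gradient (vv u i) x)) -
        (I.a (gradient (wav u) x + gradient (vv u i) x) - I.a (gradient (wav u) x) -
        I.A (gradient (wav u) x) (gradient (vv u i) x)), x⟫ := by
    simp only [inner_sub_left, mul_sub, Finset.sum_sub_distrib, e0, ← h5]
    ring
  rw [e]
  refine (Finset.abs_sum_le_sum_abs _ _).trans ?_
  refine le_trans ?_ (mul_le_mul_of_nonneg_left (er_terms_k3 (g := g) hr x).2 (by positivity))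
  rw [Finset.mul_sum]
  refine Finset.sum_le_sum fun i _ => ?_
  have h1 := I.A_lip' (Ψ x) (gradient (wav u) x) (gradient (vv u i) x)
  rw [hg] at h1
  have h2 := I.a_taylor (gradient (wav u) x) (gradient (vv u i) x)
  have h3 := grad_vv_le_k3 h.lip i x
  have h4 : I.Λ * ‖g x‖ * ‖gradient (vv u i) x‖ ≤ I.Λ * ‖g x‖ * (2 * L) :=
    mul_le_mul_of_nonneg_left h3 (by positivity)
  have h7 := ((norm_sub_le _ _).trans (add_le_add (h1.trans h4) h2))
  rw [abs_mul]
  calc _ ≤ |vv u i x| * ((I.Λ * ‖g x‖ * (2 * L) + I.Λ * ‖gradient (vv u i) x‖ ^ 2) * r) :=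
        mul_le_mul_of_nonneg_left ((abs_real_inner_le_norm _ _).trans
          (mul_le_mul h7 (mem_ball_zero_iff.mp hx).le (norm_nonneg _) (by positivity)))
          (abs_nonneg _)
    _ = I.Λ * r ^ 2 * (|vv u i x| / r * ‖gradient (vv u i) x‖ ^ 2 +
          2 * L * (|vv u i x| / r * ‖g x‖)) := by
        field_simp
        ring
    _ ≤ _ := by
        have a1 : 0 ≤ |vv u i x| / r * ‖gradient (vv u i) x‖ ^ 2 := by positivity
        have a2 : 0 ≤ |vv u i x| / r * ‖g x‖ := by positivity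
        have a3 : 0 ≤ I.Λ * r ^ 2 * (2 * L * (|vv u i x| / r * ‖gradient (vv u i) x‖ ^ 2) +
          |vv u i x| / r * ‖g x‖) := by positivity
        nlinarith

theorem quot_le_gk3 (h : Centre I u Ψ g r ρ CP δ D) (i : ι) {x : E m}
    (hx : x ∈ ball (0 : E m) r) : ⟪I.A (Ψ x) (gradient (vv u i) x), x⟫ ^ 2 / mu I (Ψ x) x ≤
      I.Λ ^ 3 * r ^ 2 * ‖gradient (vv u i) x‖ ^ 2 := by
  have hΛ := I.Λ_pos
  by_cases h0 : x = 0
  · subst h0
    simp only [inner_zero_right, ne_eq, OfNat.ofNat_ne_zero, not_false_eq_true, zero_pow, zero_div]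
    positivity
  have hL0 : (0 : ℝ) ≤ L := L.coe_nonneg
  have h3 := mu_ge I (p := Ψ x) ((h.small x hx).trans (h.r_le.trans (by linarith))) h0
  have h2 : 0 < mu I (Ψ x) x := by
    rcases (mu_nonneg I (Ψ x) x).eq_or_lt with h | h
    · rw [← h] at h3
      norm_num at h3
    · exact h
  have h4 : ⟪I.A (Ψ x) (gradient (vv u i) x), x⟫ ^ 2 ≤ (I.Λ * ‖gradient (vv u i) x‖ * r) ^ 2 := by
    rw [← sq_abs]
    exact pow_le_pow_left₀ (abs_nonneg _) (abs_b_le_gk3 i hx) 2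
  rw [div_le_iff₀ h2]
  have h5 : 0 ≤ (I.Λ * ‖gradient (vv u i) x‖ * r) ^ 2 := by positivity
  calc _ ≤ (I.Λ * ‖gradient (vv u i) x‖ * r) ^ 2 * (I.Λ * mu I (Ψ x) x) :=
        h4.trans (le_mul_of_one_le_right h5 h3)
    _ = _ := by ring

theorem int_R_gk3 (h : Centre I u Ψ g r ρ CP δ D) : Integrable fun x =>
    om 0 r x * ∑ i, ⟪I.A (Ψ x) (gradient (vv u i) x), x⟫ ^ 2 / mu I (Ψ x) x := by
  have hr := h.r_pos
  have hΛ := I.Λ_pos
  refine int_cut hr (contDiff_om 0 r).continuous (om_zero_k3 hr)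
    (Finset.measurable_sum _ fun i _ => ((meas_b_gk3 h.lipΨ.continuous i).pow_const 2).div
      ((measurable_mu I).comp (h.lipΨ.continuous.measurable.prodMk measurable_id))).aestronglyMeasurable
    (C := ∑ _i : ι, I.Λ ^ 3 * r ^ 2 * (2 * L) ^ 2) (ae_of_all _ fun x hx => ?_)
  rw [abs_of_nonneg (Finset.sum_nonneg fun i _ => div_nonneg (sq_nonneg _) (mu_nonneg I _ _))]
  refine Finset.sum_le_sum fun i _ => (quot_le_gk3 h i hx).trans ?_
  exact mul_le_mul_of_nonneg_left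
    (pow_le_pow_left₀ (norm_nonneg _) (grad_vv_le_k3 h.lip i x) 2) (by positivity)

theorem sum_sq_le_gk3 (h : Centre I u Ψ g r ρ CP δ D) {x : E m} (hx : x ∈ ball (0 : E m) r) :
    ∑ i, vv u i x ^ 2 ≤ ∑ _i : ι, (2 * L * r) ^ 2 :=
  Finset.sum_le_sum fun i _ => by
    rw [← sq_abs]
    exact pow_le_pow_left₀ (abs_nonneg _) (h.abs_vv i hx) 2

theorem int_H_gk3 (h : Centre I u Ψ g r ρ CP δ D) : Integrable fun x =>
    om 0 r x * (mu I (Ψ x) x * ∑ i, vv u i x ^ 2) := by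
  have hr := h.r_pos
  refine int_cut hr (contDiff_om 0 r).continuous (om_zero_k3 hr)
    (((measurable_mu I).comp (h.lipΨ.continuous.measurable.prodMk measurable_id)).mul
      (Finset.measurable_sum _ fun i _ =>
        (lip_vv h.lip i).continuous.measurable.pow_const 2)).aestronglyMeasurable
    (C := I.Λ * ∑ _i : ι, (2 * L * r) ^ 2) (ae_of_all _ fun x hx => ?_)
  have h0 : 0 ≤ ∑ i, vv u i x ^ 2 := Finset.sum_nonneg fun i _ => sq_nonneg _
  rw [abs_of_nonneg (mul_nonneg (mu_nonneg I _ _) h0)]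
  exact mul_le_mul (mu_le I _ _) (sum_sq_le_gk3 h hx) h0 I.Λ_pos.le

theorem int_k_gk3 (h : Centre I u Ψ g r ρ CP δ D) : Integrable fun x => om 0 r x * kI I u x := by
  have hr := h.r_pos
  refine int_cut hr (contDiff_om 0 r).continuous (om_zero_k3 hr)
    (meas_kI I h.lip).aestronglyMeasurable (C := I.Λ * ∑ _i : ι, (2 * L * r) ^ 2)
    (ae_of_all _ fun x hx => ?_)
  obtain ⟨h0, h1⟩ := kI_bounds (u := u) I x
  rw [abs_of_nonneg h0]
  simp only [sub_zero] at h1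
  exact h1.trans (mul_le_mul_of_nonneg_left (sum_sq_le_gk3 h hx) I.Λ_pos.le)

theorem quad_nonneg_gk3 {p : E m} (hp : ‖p‖ ≤ L + 1) (q x : E m) (v t : ℝ) :
    0 ≤ mu I p x * v ^ 2 * (t * t) + -2 * (v * ⟪q, x⟫) * t + ⟪q, x⟫ ^ 2 / mu I p x := by
  by_cases h0 : x = 0
  · subst h0
    simp [mu]
  have h1 := mu_ge I hp h0
  have h2 : 0 < mu I p x := by
    rcases (mu_nonneg I p x).eq_or_lt with h | h
    · rw [← h] at h1
      norm_num at h1
    · exact h
  have : mu I p x * v ^ 2 * (t * t) + -2 * (v * ⟪q, x⟫) * t + ⟪q, x⟫ ^ 2 / mu I p x =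
      (mu I p x * v * t - ⟪q, x⟫) ^ 2 / mu I p x := by
    field_simp
    ring
  rw [this]
  positivity

/-- The Cauchy-Schwarz inequality. -/
theorem cs_gk3 (h : Centre I u Ψ g r ρ CP δ D) :
    (∫ x, om 0 r x * ∑ i, vv u i x * ⟪I.A (Ψ x) (gradient (vv u i) x), x⟫) ^ 2 ≤
      (∫ x, om 0 r x * (mu I (Ψ x) x * ∑ i, vv u i x ^ 2)) *
        ∫ x, om 0 r x * ∑ i, ⟪I.A (Ψ x) (gradient (vv u i) x), x⟫ ^ 2 / mu I (Ψ x) x := by
  have key : ∀ t : ℝ, 0 ≤ (∫ x, om 0 r x * (mu I (Ψ x) x * ∑ i, vv u i x ^ 2)) * (t * t) +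
      (-2 * ∫ x, om 0 r x * ∑ i, vv u i x * ⟪I.A (Ψ x) (gradient (vv u i) x), x⟫) * t +
      ∫ x, om 0 r x * ∑ i, ⟪I.A (Ψ x) (gradient (vv u i) x), x⟫ ^ 2 / mu I (Ψ x) x := by
    intro t
    have i1 := (int_H_gk3 h).mul_const (t * t)
    have i2 := ((int_T_gk3 h).const_mul (-2)).mul_const t
    have i12 : Integrable fun x => om 0 r x * (mu I (Ψ x) x * ∑ i, vv u i x ^ 2) * (t * t) +
        -2 * (om 0 r x * ∑ i, vv u i x * ⟪I.A (Ψ x) (gradient (vv u i) x), x⟫) * t := i1.add i2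
    rw [← integral_const_mul, ← integral_mul_const, ← integral_mul_const, ← integral_add i1 i2,
      ← integral_add i12 (int_R_gk3 h)]
    refine integral_nonneg fun x => ?_
    by_cases hx : x ∈ ball (0 : E m) r
    swap
    · simp [om_zero_k3 h.r_pos x hx]
    have hL0 : (0 : ℝ) ≤ L := L.coe_nonneg
    have hp : ‖Ψ x‖ ≤ L + 1 := (h.small x hx).trans (h.r_le.trans (by linarith))
    have h1 : 0 ≤ om 0 r x * ∑ i, (mu I (Ψ x) x * vv u i x ^ 2 * (t * t) +
        -2 * (vv u i x * ⟪I.A (Ψ x) (gradient (vv u i) x), x⟫) * t +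
        ⟪I.A (Ψ x) (gradient (vv u i) x), x⟫ ^ 2 / mu I (Ψ x) x) :=
      mul_nonneg (om_nonneg _ _ _) (Finset.sum_nonneg fun i _ => quad_nonneg_gk3 hp _ _ _ _)
    simp only [Finset.sum_add_distrib, ← Finset.sum_mul, ← Finset.mul_sum] at h1
    refine h1.trans_eq ?_
    ring
  have := discrim_le_zero key
  rw [discrim] at this
  nlinarith

end

theorem key3a [Fintype ι] [Nonempty ι] {L : ℝ≥0} (I : Intg m L) {CP : ℝ} (hCP : 0 ≤ CP) : ∃ C > 0,
    ∀ (u : ι → E m → ℝ) (Ψ g : E m → E m) (r ρ δ D : ℝ), Centre I u Ψ g r ρ CP δ D →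
      |UI I u Ψ r - dI I u r| ≤ C * δ * (r ^ 2 / r ^ m * D) := by
  obtain ⟨C0, hC0, hb⟩ := er_bound (ι := ι) I hCP
  have hΛ := I.Λ_pos
  refine ⟨(6 * (2 * L + 1) + 1) * I.Λ * C0, by positivity, fun u Ψ g r ρ δ D h => ?_⟩
  have hr := h.r_pos
  have hE := hb u Ψ g r ρ δ D h
  have h1 := h.abs_int_le (A := 1) (chi_zero_k3 hr)
    (fun x => by rw [abs_of_nonneg (chi_nonneg _ _ _)]; exact chi_le_one _ _ _) hΛ.le
    (A1_sub_gk3 h)
  have h2 := h.abs_int_le (A := 3) (om_zero_k3 hr)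
    (fun x => by rw [abs_of_nonneg (om_nonneg _ _ _)]; exact om_le _ _ _) (by positivity)
    (A2_sub_gk3 h)
  have i1 : Integrable fun x =>
      chi 0 r x * ∑ i, ⟪I.a (gradient (u i) x), gradient (vv u i) x⟫ := by
    simp only [Finset.mul_sum]
    exact integrable_finsetSum _ fun i _ => int_A1_gk3 h i
  have i2 : Integrable fun x => om 0 r x * ∑ i, vv u i x * ⟪I.a (gradient (u i) x), x⟫ := by
    simp only [Finset.mul_sum]
    exact integrable_finsetSum _ fun i _ => int_A2_gk3 h i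
  simp only [mul_sub] at h1 h2
  rw [integral_sub i1 (int_q_gk3 h)] at h1
  rw [integral_sub (int_T_gk3 h) i2] at h2
  have h0 := outer_gk3 h
  unfold UI dI
  set A1 := ∫ x, chi 0 r x * ∑ i, ⟪I.a (gradient (u i) x), gradient (vv u i) x⟫
  set A2 := ∫ x, om 0 r x * ∑ i, vv u i x * ⟪I.a (gradient (u i) x), x⟫
  set T := ∫ x, om 0 r x * ∑ i, vv u i x * ⟪I.A (Ψ x) (gradient (vv u i) x), x⟫
  set Q := ∫ x, chi 0 r x * qI I u x
  set X := ∫ x in ball 0 r, er u g r x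
  have e : 2 / r ^ m * T - r ^ 2 / r ^ m * Q = (2 * (T - A2) + r ^ 2 * (A1 - Q)) / r ^ m := by
    field_simp
    linarith
  have hm : 0 < r ^ m := by positivity
  have h3 : |2 * (T - A2) + r ^ 2 * (A1 - Q)| ≤ (6 * (2 * L + 1) + 1) * I.Λ * r ^ 2 * X := by
    refine (abs_add_le _ _).trans ?_
    rw [abs_mul, abs_mul, abs_of_pos (by positivity : (0 : ℝ) < r ^ 2), abs_two]
    have := mul_le_mul_of_nonneg_left h1 (by positivity : (0 : ℝ) ≤ r ^ 2)
    nlinarith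
  rw [e, abs_div, abs_of_pos hm, div_le_iff₀ hm]
  refine h3.trans ?_
  calc _ ≤ (6 * (2 * L + 1) + 1) * I.Λ * r ^ 2 * (C0 * δ * D) :=
        mul_le_mul_of_nonneg_left hE (by positivity)
    _ = _ := by field_simp

theorem key3b [Fintype ι] [Nonempty ι] {L : ℝ≥0} (I : Intg m L) {CP : ℝ} (hCP : 0 ≤ CP) : ∃ C > 0,
    ∀ (u : ι → E m → ℝ) (Ψ g : E m → E m) (r ρ δ D : ℝ), Centre I u Ψ g r ρ CP δ D →
      UI I u Ψ r ^ 2 ≤ (hI I u r + C * δ * (r ^ 2 / r ^ m * D)) * rI I u Ψ r ∧ 0 ≤ rI I u Ψ r ∧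
        rI I u Ψ r ≤ C * (r ^ 2 / r ^ m * D) := by
  obtain ⟨C0, hC0, hb⟩ := er_bound (ι := ι) I hCP
  have hΛ := I.Λ_pos
  refine ⟨12 * L * I.Λ * C0 + 6 * I.Λ ^ 3, by positivity, fun u Ψ g r ρ δ D h => ?_⟩
  have hr := h.r_pos
  have hδ := h.δ_pos
  have hD := h.D_nonneg
  have hm : 0 < r ^ m := by positivity
  have hE := hb u Ψ g r ρ δ D h
  have h1 := h.abs_int_le (A := 3) (om_zero_k3 hr)
    (fun x => by rw [abs_of_nonneg (om_nonneg _ _ _)]; exact om_le _ _ _) (by positivity)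
    h.kI_sub
  simp only [mul_sub] at h1
  rw [integral_sub (int_k_gk3 h) (int_H_gk3 h)] at h1
  have h2 := cs_gk3 h
  have h3 : 0 ≤ ∫ x, om 0 r x * ∑ i, ⟪I.A (Ψ x) (gradient (vv u i) x), x⟫ ^ 2 / mu I (Ψ x) x :=
    integral_nonneg fun x => mul_nonneg (om_nonneg _ _ _)
      (Finset.sum_nonneg fun i _ => div_nonneg (sq_nonneg _) (mu_nonneg I _ _))
  have h4 : ∫ x, om 0 r x * ∑ i, ⟪I.A (Ψ x) (gradient (vv u i) x), x⟫ ^ 2 / mu I (Ψ x) x ≤
      3 * I.Λ ^ 3 * r ^ 2 * D := by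
    have i0 := (integrable_indicator_iff measurableSet_ball).mpr
      (intOn_En (s := Finset.univ) (lip_vv h.lip) 0 0 r 2)
    calc _ ≤ ∫ x, 3 * I.Λ ^ 3 * r ^ 2 * (ball (0 : E m) r).indicator
            (fun x => ∑ i, ‖gradient (vv u i) x - 0‖ ^ 2) x := by
          refine integral_mono (int_R_gk3 h) (i0.const_mul _) fun x => ?_
          by_cases hx : x ∈ ball (0 : E m) r
          · simp only [indicator_of_mem hx, sub_zero]
            calc _ ≤ 3 * ∑ i, I.Λ ^ 3 * r ^ 2 * ‖gradient (vv u i) x‖ ^ 2 :=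
                  mul_le_mul (om_le _ _ _) (Finset.sum_le_sum fun i _ => quot_le_gk3 h i hx)
                    (Finset.sum_nonneg fun i _ => div_nonneg (sq_nonneg _) (mu_nonneg I _ _))
                    (by norm_num)
              _ = _ := by
                  rw [← Finset.mul_sum]
                  ring
          · simp only [indicator_of_notMem hx, om_zero_k3 hr x hx, zero_mul, mul_zero, le_refl]
      _ = 3 * I.Λ ^ 3 * r ^ 2 * DD u r := by
          rw [integral_const_mul, integral_indicator measurableSet_ball]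
          rfl
      _ ≤ _ := mul_le_mul_of_nonneg_left h.v2 (by positivity)
  unfold UI hI rI
  set T := ∫ x, om 0 r x * ∑ i, vv u i x * ⟪I.A (Ψ x) (gradient (vv u i) x), x⟫
  set H := ∫ x, om 0 r x * (mu I (Ψ x) x * ∑ i, vv u i x ^ 2)
  set K := ∫ x, om 0 r x * kI I u x
  set R := ∫ x, om 0 r x * ∑ i, ⟪I.A (Ψ x) (gradient (vv u i) x), x⟫ ^ 2 / mu I (Ψ x) x
  set X := ∫ x in ball 0 r, er u g r x
  have h5 : H ≤ K + 6 * L * I.Λ * r ^ 2 * (C0 * δ * D) := by
    have a1 := (abs_le.mp h1).1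
    have a2 : 3 * (2 * L * I.Λ * r ^ 2) * X ≤ 3 * (2 * L * I.Λ * r ^ 2) * (C0 * δ * D) :=
      mul_le_mul_of_nonneg_left hE (by positivity)
    linarith
  have h6 : 0 ≤ 2 / r ^ m * R := by positivity
  refine ⟨?_, h6, ?_⟩
  · have h7 : 2 / r ^ m * H ≤
        2 / r ^ m * K + (12 * L * I.Λ * C0 + 6 * I.Λ ^ 3) * δ * (r ^ 2 / r ^ m * D) := by
      have a1 := mul_le_mul_of_nonneg_left h5 (by positivity : 0 ≤ 2 / r ^ m)
      have a2 : 2 / r ^ m * (K + 6 * L * I.Λ * r ^ 2 * (C0 * δ * D)) =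
          2 / r ^ m * K + 12 * L * I.Λ * C0 * δ * (r ^ 2 / r ^ m * D) := by ring
      have a3 : 0 ≤ 6 * I.Λ ^ 3 * δ * (r ^ 2 / r ^ m * D) := by positivity
      linarith
    calc (2 / r ^ m * T) ^ 2 = (2 / r ^ m) ^ 2 * T ^ 2 := by ring
      _ ≤ (2 / r ^ m) ^ 2 * (H * R) := mul_le_mul_of_nonneg_left h2 (by positivity)
      _ = 2 / r ^ m * H * (2 / r ^ m * R) := by ring
      _ ≤ _ := mul_le_mul_of_nonneg_right h7 h6
  · have a1 := mul_le_mul_of_nonneg_left h4 (by positivity : 0 ≤ 2 / r ^ m)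
    have a2 : 2 / r ^ m * (3 * I.Λ ^ 3 * r ^ 2 * D) = 6 * I.Λ ^ 3 * (r ^ 2 / r ^ m * D) := by ring
    have a3 : 0 ≤ 12 * L * I.Λ * C0 * (r ^ 2 / r ^ m * D) := by positivity
    linarith

end Pool.Agent.Lib.MP_8daebb_an.LH
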