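import Pool.Agent.Lib.MP_8daebb_an.LH.GStat
import Pool.Agent.Lib.MP_8daebb_an.LG.Poin
import Pool.Agent.Lib.MP_8daebb_an.LG.Decay

open MeasureTheory Metric Set Filter Topology
open scoped RealInnerProductSpace NNReal
open Pool.Agent.Lib.MP_8daebb_an.LG

namespace Pool.Agent.Lib.MP_8daebb_an.LH

variable {m : ℕ} {ι : Type}

/-! GDECAY. Flatness and infinite order vanishing of the separation. -/

theorem young_gdecay {χ o g A J v M r : ℝ} (hr : 0 < r) (hχ : 0 ≤ χ) (hM : 0 < M)
    (ho : o ^ 2 ≤ 9 * χ) (hA : g ^ 2 ≤ M * A) (hJ : |J| ≤ M * g * (2 * o / r)) :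
    χ * g ^ 2 ≤ 2 * M * (χ * A + v * J) + 36 * M ^ 4 / r ^ 2 * v ^ 2 := by
  have h1 := young_decay (I := A / M) (J := J / M) (v := v) (g := g) (M := M ^ 2) hr hχ
    (by positivity) ho (hA.trans (le_of_eq (by field_simp))) (by
      rw [abs_div, abs_of_pos hM, div_le_iff₀ hM]
      exact hJ.trans (le_of_eq (by ring)))
  refine h1.trans (le_of_eq ?_)
  field_simp

variable [Fintype ι] [Nonempty ι] {L : ℝ≥0} (I : Intg m L) {u : ι → E m → ℝ} {R : ℝ}

/-- The integrand of the vertical equation tested with the height over `f`. -/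
noncomputable def F_gdecay (u : ι → E m → ℝ) (f : E m → ℝ) (r : ℝ) (i : ι) (x : E m) : ℝ :=
  ⟪I.a (gradient (u i) x), gradient (fun y => chi 0 r y * id (u i y - f y)) x⟫

omit [Fintype ι] [Nonempty ι] in
theorem int_F_gdecay (hL : ∀ i, LipschitzWith L (u i)) {f : E m → ℝ} (hf : LipschitzWith L f)
    {r : ℝ} (hr : 0 < r) (i : ι) : Integrable (F_gdecay I u f r i) := by
  have h1 : LocallyLipschitz fun y => chi (0 : E m) r y * id (u i y - f y) :=
    locLip_mul (contDiff_chi 0 r).locallyLipschitz ((hL i).sub hf).locallyLipschitz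
  have h2 : tsupport (fun y => chi (0 : E m) r y * id (u i y - f y)) ⊆ closedBall 0 r :=
    (tsupport_mul_subset_left (f := chi (0 : E m) r)).trans (tsupport_chi hr)
  have h3 : HasCompactSupport fun y => chi (0 : E m) r y * id (u i y - f y) :=
    (isCompact_closedBall 0 r).of_isClosed_subset (isClosed_tsupport _) h2
  obtain ⟨K, hK⟩ := locLip_compact h1 h3
  have hΛ := I.Λ_pos
  refine int_of_compact (C := I.Λ * L * K) ?_ (isCompact_closedBall 0 r)
    (.of_forall fun x _ => ?_) (.of_forall fun x hx => ?_)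
  · exact ((I.continuous_a.measurable.comp (meas_grad _)).inner
      (meas_grad _)).aestronglyMeasurable
  · refine (norm_inner_le_norm _ _).trans ?_
    exact mul_le_mul ((I.norm_a_le _).trans
      (mul_le_mul_of_nonneg_left (norm_grad_le (hL i) x) hΛ.le)) (norm_grad_le hK x)
      (norm_nonneg _) (by positivity)
  · rw [F_gdecay, grad_eq_zero_of_notMem fun h4 => hx (h2 h4), inner_zero_right]

omit [Nonempty ι] in
theorem ae_F_gdecay (hL : ∀ i, LipschitzWith L (u i)) {f : E m → ℝ} (hf : LipschitzWith L f)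
    (hz : ∀ᵐ x : E m, ∀ (c : ℝ) (w : E m), ∑ i, ⟪I.a (gradient f x),
      c • gradient (fun y => u i y - f y) x + (u i x - f x) • w⟫ = 0)
    {r : ℝ} (hr : 0 < r) : ∀ᵐ x : E m,
    chi 0 r x * ∑ i, ‖gradient (fun y => u i y - f y) x - 0‖ ^ 2 ≤
      2 * I.Λ * ∑ i, F_gdecay I u f r i x +
      36 * I.Λ ^ 4 / r ^ 2 * (ball 0 r).indicator (fun y => ∑ i, (u i y - f y - 0) ^ 2) x := by
  have hd : ∀ᵐ x : E m, ∀ i, DifferentiableAt ℝ (u i) x :=
    eventually_all.2 fun i => (hL i).ae_differentiableAt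
  filter_upwards [hd, hf.ae_differentiableAt (μ := volume), hz] with x h1 h2 h3
  have hχ : DifferentiableAt ℝ (chi (0 : E m) r) x :=
    (contDiff_chi 0 r).differentiable one_ne_zero x
  have h7 : ∀ i, F_gdecay I u f r i x = ⟪I.a (gradient (u i) x),
      chi 0 r x • gradient (fun y => u i y - f y) x + (u i x - f x) • gradient (chi 0 r) x⟫ :=
    fun i => by
      rw [← grad_mul (g := fun y => u i y - f y) hχ ((h1 i).sub h2)]
      rfl
  have h9 : ∑ i, F_gdecay I u f r i x = ∑ i,
      (chi 0 r x * ⟪I.a (gradient (u i) x) - I.a (gradient f x),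
          gradient (fun y => u i y - f y) x⟫ +
        (u i x - f x) * ⟪I.a (gradient (u i) x) - I.a (gradient f x), gradient (chi 0 r) x⟫) := by
    rw [← sub_zero (∑ i, F_gdecay I u f r i x), ← h3 (chi 0 r x) (gradient (chi 0 r) x),
      ← Finset.sum_sub_distrib]
    refine Finset.sum_congr rfl fun i _ => ?_
    rw [h7, ← inner_sub_left, inner_add_right, real_inner_smul_right, real_inner_smul_right]
  rw [h9]
  have hΛ := I.Λ_pos
  by_cases hx : x ∈ ball (0 : E m) r
  · rw [indicator_of_mem hx, Finset.mul_sum, Finset.mul_sum, Finset.mul_sum,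
      ← Finset.sum_add_distrib]
    refine Finset.sum_le_sum fun i _ => ?_
    rw [sub_zero, sub_zero, grad_sub (h1 i) h2]
    refine young_gdecay hr (chi_nonneg _ _ _) hΛ (om_sq_le 0 r x) ?_ ?_
    · exact I.a_mono ((norm_grad_le (hL i) x).trans (by linarith))
        ((norm_grad_le hf x).trans (by linarith))
    · refine (abs_real_inner_le_norm _ _).trans ?_
      exact mul_le_mul (I.a_lip _ _) (norm_grad_chi_decay hr x) (norm_nonneg _) (by positivity)
  · have k1 : gradient (chi (0 : E m) r) x = 0 := by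
      rw [grad_chi, om_zero_decay hr hx]
      simp
    simp [indicator_of_notMem hx, chi_zero_decay hr hx, k1]

omit [Nonempty ι] in
/-- The Caccioppoli inequality for the height over `f`. -/
theorem cacc_gdecay (hL : ∀ i, LipschitzWith L (u i)) {f : E m → ℝ} (hf : LipschitzWith L f)
    (hz : ∀ᵐ x : E m, ∀ (c : ℝ) (w : E m), ∑ i, ⟪I.a (gradient f x),
      c • gradient (fun y => u i y - f y) x + (u i x - f x) • w⟫ = 0)
    (h : StatF I.F I.a Finset.univ u (ball 0 R)) {t : ℝ} (ht : 0 < t) (htR : 2 * t ≤ R) :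
    En Finset.univ (fun i y => u i y - f y) 0 0 t ≤
      432 * I.Λ ^ 4 / t ^ 2 * Ht Finset.univ (fun i y => u i y - f y) 0 0 (3 / 2 * t) := by
  have hr : 0 < 3 / 2 * t := by positivity
  have hv : ∀ i, LipschitzWith (L + L) fun y => u i y - f y := fun i => (hL i).sub hf
  have h1 : ∑ i, ∫ x, F_gdecay I u f (3 / 2 * t) i x = 0 :=
    h.outer (θ := id) (contDiff_chi 0 (3 / 2 * t)).locallyLipschitz
      ((isCompact_closedBall 0 _).of_isClosed_subset (isClosed_tsupport _) (tsupport_chi hr))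
      ((tsupport_chi hr).trans (closedBall_subset_ball (by linarith)))
      hf.locallyLipschitz LipschitzWith.id.locallyLipschitz
  have h2 : Integrable fun x => ∑ i, F_gdecay I u f (3 / 2 * t) i x :=
    integrable_finsetSum _ fun i _ => int_F_gdecay I hL hf hr i
  rw [← integral_finsetSum _ fun i _ => int_F_gdecay I hL hf hr i] at h1
  have h3 : Integrable ((ball (0 : E m) (3 / 2 * t)).indicator
      fun y => ∑ i, (u i y - f y - 0) ^ 2) :=
    (integrable_indicator_iff measurableSet_ball).2 (intOn_Ht hv 0 0 _)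
  have h4 : Integrable ((ball (0 : E m) t).indicator
      fun x => ∑ i, ‖gradient (fun y => u i y - f y) x - 0‖ ^ 2) :=
    (integrable_indicator_iff measurableSet_ball).2 (intOn_En hv 0 0 t 2)
  have h5 := integral_mono_ae h4 (((h2.const_mul (2 * I.Λ)).add
    (h3.const_mul (36 * I.Λ ^ 4 / (3 / 2 * t) ^ 2))).const_mul 27) (by
      filter_upwards [ae_F_gdecay I hL hf hz hr] with x hx
      refine le_trans ?_ (mul_le_mul_of_nonneg_left hx (by norm_num))
      have k1 : 0 ≤ ∑ i, ‖gradient (fun y => u i y - f y) x - 0‖ ^ 2 := by positivity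
      by_cases k2 : x ∈ ball (0 : E m) t
      · rw [indicator_of_mem k2]
        have k3 : (1 : ℝ) / 3 ≤ pr 0 (3 / 2 * t) x :=
          pr_ge hr (by norm_num) (by norm_num) (by
            have k4 : (1 - 1 / 3) * (3 / 2 * t) = t := by ring
            rwa [k4])
        have k4 : ((1 : ℝ) / 3) ^ 3 ≤ chi 0 (3 / 2 * t) x := pow_le_pow_left₀ (by norm_num) k3 3
        nlinarith
      · rw [indicator_of_notMem k2]
        have := chi_nonneg (0 : E m) (3 / 2 * t) x
        positivity)
  rw [integral_indicator measurableSet_ball, integral_const_mul] at h5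
  simp only [Pi.add_apply] at h5
  rw [integral_add (h2.const_mul _) (h3.const_mul _), integral_const_mul, integral_const_mul, h1,
    integral_indicator measurableSet_ball] at h5
  refine le_trans h5 (le_of_eq ?_)
  rw [Ht]
  field_simp
  ring

omit [Nonempty ι] in
theorem En_le_gdecay (hL : ∀ i, LipschitzWith L (u i))
    (h : StatF I.F I.a Finset.univ u (ball 0 R)) {t c : ℝ} (ht : 0 < t) (htR : 2 * t ≤ R)
    (hc : 0 ≤ c) (hc1 : c ≤ 1) (hu : ∀ i, ∀ x ∈ ball (0 : E m) (3 / 2 * t), |u i x| ≤ c * (2 * t)) :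
    En Finset.univ u 0 0 t / t ^ m ≤
      1728 * I.Λ ^ 4 * Fintype.card ι * vb m * (3 / 2) ^ m * c := by
  have hr : 0 < 3 / 2 * t := by positivity
  have h1 := cacc_gdecay I hL (f := fun _ => 0) ((LipschitzWith.const 0).weaken bot_le)
    (.of_forall fun x c w => by simp [I.a_zero]) h ht htR
  simp only [sub_zero] at h1
  have h2 := norm_setIntegral_le_of_norm_le_const (μ := volume) (s := ball (0 : E m) (3 / 2 * t))
    (f := fun x => ∑ i, (u i x - 0) ^ 2) (C := Fintype.card ι * (c * (2 * t) ^ 2))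
    measure_ball_lt_top (fun x hx => by
      rw [Real.norm_of_nonneg (by positivity)]
      refine (Finset.sum_le_card_nsmul _ _ (c * (2 * t) ^ 2) fun i _ => ?_).trans (by simp)
      rw [sub_zero, ← sq_abs]
      refine (pow_le_pow_left₀ (abs_nonneg _) (hu i x hx) 2).trans ?_
      rw [mul_pow]
      exact mul_le_mul_of_nonneg_right (by nlinarith) (by positivity))
  rw [vol_ball _ hr] at h2
  have h3 : Ht Finset.univ u 0 0 (3 / 2 * t) ≤ _ := (le_abs_self _).trans h2
  have hΛ := I.Λ_pos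
  rw [div_le_iff₀ (by positivity)]
  refine h1.trans ((mul_le_mul_of_nonneg_left h3 (by positivity)).trans (le_of_eq ?_))
  rw [mul_pow (3 / 2) t m]
  field_simp
  ring

theorem flat_energy (hL : ∀ i, LipschitzWith L (u i)) (hR : 0 < R)
    (h : StatF I.F I.a Finset.univ u (ball 0 R)) (h0 : ∀ i, u i 0 = 0)
    (hp : ∀ i, HasGradientAt (u i) 0 0) :
    Tendsto (fun t : ℝ => En Finset.univ u 0 0 t / t ^ m) (𝓝[>] 0) (𝓝 0) := by
  have hΛ := I.Λ_pos
  have hv := vb_pos m
  have hA : (0 : ℝ) ≤ 1728 * I.Λ ^ 4 * Fintype.card ι * vb m * (3 / 2) ^ m := by positivity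
  generalize hB : 1728 * I.Λ ^ 4 * Fintype.card ι * vb m * (3 / 2) ^ m = A at hA
  rw [Metric.tendsto_nhdsWithin_nhds]
  intro ε hε
  have hc : 0 < min (ε / (A + 1)) 1 := by positivity
  have h1 : ∀ᶠ x in 𝓝 (0 : E m), ∀ i, |u i x| ≤ min (ε / (A + 1)) 1 * ‖x‖ := by
    rw [eventually_all]
    intro i
    have h2 := (hasFDerivAt_iff_isLittleO_nhds_zero.1 (hp i).hasFDerivAt).def hc
    filter_upwards [h2] with x hx
    simpa [h0 i] using hx
  obtain ⟨δ, hδ, h2⟩ := Metric.eventually_nhds_iff.1 h1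
  refine ⟨min δ R / 2, by positivity, fun t ht h3 => ?_⟩
  have ht' : 0 < t := ht
  rw [Real.dist_eq, sub_zero, abs_of_pos ht'] at h3
  have h4 : 2 * t < δ := by linarith [min_le_left δ R]
  have h5 : 2 * t < R := by linarith [min_le_right δ R]
  have h6 := En_le_gdecay I hL h ht' h5.le hc.le (min_le_right _ _) (fun i x hx => by
    have h7 : ‖x‖ < 3 / 2 * t := mem_ball_zero_iff.1 hx
    exact (h2 (by rw [dist_zero_right]; linarith) i).trans
      (mul_le_mul_of_nonneg_left (by linarith) hc.le))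
  rw [hB] at h6
  rw [Real.dist_eq, sub_zero,
    abs_of_nonneg (div_nonneg (En_nonneg _ _ _ _ _) (by positivity))]
  refine (h6.trans (mul_le_mul_of_nonneg_left (min_le_left _ _) hA)).trans_lt ?_
  rw [mul_div_assoc', div_lt_iff₀ (by positivity)]
  nlinarith

theorem cacc_vv : ∃ C > 0, ∀ (u : ι → E m → ℝ) (R t : ℝ),
    (∀ i, LipschitzWith L (u i)) → StatF I.F I.a Finset.univ u (ball 0 R) → 0 < t → 2 * t ≤ R →
      DD u t ≤ C / t ^ 2 * Ht Finset.univ (vv u) 0 0 (3 / 2 * t) := by
  have hΛ := I.Λ_pos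
  refine ⟨432 * I.Λ ^ 4, by positivity, fun u R t hL h ht htR => ?_⟩
  refine cacc_gdecay I hL (lip_wav hL) ?_ h ht htR
  filter_upwards [ae_grad_vv hL] with x ⟨_, _, _, _, _, h6⟩ c w
  have h7 : ∑ i, gradient (fun y => u i y - wav u y) x = 0 := h6
  have h8 : ∑ i, (u i x - wav u x) = 0 := sum_vv u x
  rw [← inner_sum, Finset.sum_add_distrib, ← Finset.smul_sum, ← Finset.sum_smul, h7, h8]
  simp

theorem infinite_order (hL : ∀ i, LipschitzWith L (u i)) (hR : 0 < R)
    (h : StatF I.F I.a Finset.univ u (ball 0 R))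
    (hd : Tendsto (fun r : ℝ => volume.real ({x | ∃ i j, u i x ≠ u j x} ∩ ball 0 r) / r ^ m)
      (𝓝[>] 0) (𝓝 0)) (k : ℕ) : ∃ C : ℝ, ∀ t ∈ Ioc (0 : ℝ) 1, DD u t ≤ C * t ^ k := by
  obtain ⟨C, hC, h1⟩ := cacc_vv (ι := ι) I
  have hκ : 0 < 1 / (2 ^ k * C) := by positivity
  obtain ⟨η, hη, h2⟩ := poincare_small m hκ
  obtain ⟨δ, hδ, h3⟩ := Metric.tendsto_nhdsWithin_nhds.1 hd (η / 2 ^ m) (by positivity)
  refine dyadic_decay (DD_mono hL) (fun t => En_nonneg _ _ _ _ _)
    (t₀ := min δ R / 4) (by positivity) k fun t ht h4 => ?_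
  have h5 : 2 * t < δ := by linarith [min_le_left δ R]
  have h6 : 2 * t ≤ R := by linarith [min_le_right δ R]
  have hr : 0 < 2 * t := by positivity
  have h7 := h3 (x := 2 * t) hr (by rwa [Real.dist_eq, sub_zero, abs_of_pos hr])
  rw [Real.dist_eq, sub_zero] at h7
  have h8 := (le_abs_self _).trans_lt h7
  rw [div_lt_iff₀ (by positivity)] at h8
  have h9 : η / 2 ^ m * (2 * t) ^ m = η * t ^ m := by
    rw [mul_pow]
    field_simp
  rw [h9] at h8
  have h10 := Ht_le_decay hL (a := 1 / (2 ^ k * C) * t ^ 2) (t := t) fun i =>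
    h2 _ _ (lip_vv hL i) 0 t ht (le_trans (measureReal_mono
      (inter_subset_inter_left _ (vv_ne_decay u i))
      ((measure_mono inter_subset_right).trans_lt measure_ball_lt_top).ne) h8.le)
  have h11 := (h1 u R t hL h ht h6).trans (mul_le_mul_of_nonneg_left h10 (by positivity))
  refine (mul_le_mul_of_nonneg_left h11 (by positivity)).trans (le_of_eq ?_)
  field_simp

end Pool.Agent.Lib.MP_8daebb_an.LH
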