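import Pool.Agent.Lib.MP_8daebb_an.LH.GCenR
import Pool.Agent.Lib.MP_8daebb_an.LH.GKR
import Pool.Agent.Lib.MP_8daebb_an.LH.GSett
import Pool.Agent.Lib.MP_8daebb_an.LH.GSI
import Pool.Agent.Lib.MP_8daebb_an.LG.OdeB

open MeasureTheory Metric Set Filter Topology
open scoped RealInnerProductSpace NNReal ContDiff
open Pool.Agent.Lib.MP_8daebb_an.LG

namespace Pool.Agent.Lib.MP_8daebb_an.LH

variable {m : ℕ} {ι : Type}

/-! GMAIN. Assembly for an abstract integrand. -/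

theorem setting_vanish [Fintype ι] [Nonempty ι] (hm : 0 < m) {L : ℝ≥0} (I : Intg m L)
    {γ p₀ C₀ Λ : ℝ} (hγ : 0 < γ) (hγ1 : γ ≤ 1) (hp₀ : 0 < p₀) (hC₀ : 0 < C₀) (hΛ : 1 ≤ Λ) :
    ∃ ε > 0, ∀ u : ι → E m → ℝ, Setting I ε u → TGH γ p₀ C₀ Λ u (ball 0 2) →
      ∃ r > 0, DD u r = 0 := by
  obtain ⟨ε₀, hε₀, r₀, hr₀, C₁, hC₁, CP, hCP, hcen⟩ :=
    centre_exists (ι := ι) I hγ hγ1 hp₀ hC₀ hΛ
  obtain ⟨C₂, hC₂, hkey⟩ := key_all (ι := ι) I hCP.le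
  obtain ⟨CQ, hCQ, hHt⟩ := Ht_le_DD (ι := ι) m
  refine ⟨ε₀, hε₀, fun u hu htg => ?_⟩
  have hW : 0 < I.Λ := I.Λ_pos
  set C : ℝ := I.Λ + 6 * I.Λ * CQ + C₂ + C₂ * C₁ with hCdef
  have hCC : 0 < C₂ * C₁ := by positivity
  have hCQ' : 0 < 6 * I.Λ * CQ := by positivity
  have hC : 0 < C := by positivity
  have hD0 : ∀ t, 0 ≤ DD u t := fun t => En_nonneg _ _ _ _ _
  refine odeB m hC (half_pos hγ) (by linarith) hε₀ hr₀ (D := DD u) (d := dI I u) (h := hI I u)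
    (d1 := dI1 I u) (h1 := hI1 I u) (DD_mono hu.lip) (DD_cont hm hu.lip) hD0
    (fun r hr => ⟨dI_deriv I hu.lip hr, hI_deriv I hu.lip hr⟩) ?_ ?_ hu.dec hu.inf ?_
  · intro r hr η hη
    refine (DD_le_dI I hu.lip hr.1 hη.1 hη.2).trans ?_
    have := dI_nonneg I hu.lip hr.1
    have h2 : I.Λ ≤ C := by rw [hCdef]; linarith
    gcongr
  · intro r hr
    refine ⟨dI_nonneg I hu.lip hr.1, hI_nonneg I hr.1, ?_⟩
    have h1 := hI_le_Ht I hu.lip hr.1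
    have h2 := hHt L I u ε₀ hu r hr.1 (by linarith [hr.2])
    have hr0 := hr.1
    have h3 : 6 * I.Λ * CQ ≤ C := by rw [hCdef]; linarith
    have h4 : 0 ≤ r ^ 2 / r ^ m * DD u r := by have := hD0 r; positivity
    calc hI I u r ≤ 6 * I.Λ / r ^ m * (CQ * r ^ 2 * DD u r) := h1.trans (by gcongr)
      _ = 6 * I.Λ * CQ * (r ^ 2 / r ^ m * DD u r) := by ring
      _ ≤ C * (r ^ 2 / r ^ m * DD u r) := by gcongr
  · intro r l hl hlr hr hg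
    have hr0 : 0 < r := hl.trans_le hlr
    obtain ⟨Ψ, g, hc⟩ := hcen u ε₀ hε₀ le_rfl hu htg r l hl hlr hr hg
    have hA : 0 ≤ r ^ 2 / r ^ m * DD u (r + 3 * l) := by have := hD0 (r + 3 * l); positivity
    refine (hkey u Ψ g r (r + l) _ _ hc).mono ?_ ?_ hr0.le (dI_nonneg I hu.lip hr0)
      (hI_nonneg I hr0) hA
    · rw [hCdef]; linarith
    · have h3 : C₂ * C₁ ≤ C := by rw [hCdef]; linarith
      have h5 : 0 ≤ l ^ (γ / 2) := by positivity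
      calc C₂ * (C₁ * l ^ (γ / 2)) * (r ^ 2 / r ^ m * DD u (r + 3 * l))
          = C₂ * C₁ * l ^ (γ / 2) * (r ^ 2 / r ^ m * DD u (r + 3 * l)) := by ring
        _ ≤ C * l ^ (γ / 2) * (r ^ 2 / r ^ m * DD u (r + 3 * l)) := by gcongr

theorem horizontal [Fintype ι] [Nonempty ι] {L : ℝ≥0} (I : Intg m L) {γ p₀ C₀ Λ : ℝ} (hγ : 0 < γ)
    (hγ1 : γ ≤ 1) (hp₀ : 0 < p₀) (hC₀ : 0 < C₀) (hΛ : 1 ≤ Λ) {u : ι → E m → ℝ} {R : ℝ}
    (hL : ∀ i, LipschitzWith L (u i)) (hR : 0 < R) (h : StatF I.F I.a Finset.univ u (ball 0 R))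
    (htg : TGH γ p₀ C₀ Λ u (ball 0 R)) (h0 : ∀ i, u i 0 = 0) (hp : ∀ i, HasGradientAt (u i) 0 0)
    (hd : Tendsto (fun r : ℝ => volume.real ({x | ∃ i j, u i x ≠ u j x} ∩ ball 0 r) / r ^ m)
      (𝓝[>] 0) (𝓝 0)) :
    (∃ r > 0, ∀ x ∈ ball (0 : E m) r, ∀ i j, u i x = u j x) ∧
      ∃ r > 0, ∀ i, ContDiffOn ℝ ∞ (u i) (ball 0 r) := by
  suffices H : ∃ r > 0, ∀ x ∈ ball (0 : E m) r, ∀ i j, u i x = u j x from
    ⟨H, smooth_horizontal I hL hR h h0 hp H⟩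
  rcases Nat.eq_zero_or_pos m with rfl | hm
  · refine ⟨1, one_pos, fun x _ i j => ?_⟩
    have hx : x = 0 := Subsingleton.elim _ _
    rw [hx, h0, h0]
  obtain ⟨ε, hε, hv⟩ := setting_vanish (ι := ι) hm I hγ hγ1 hp₀ hC₀ hΛ
  obtain ⟨l, hl, hlR, hs⟩ := exists_setting I hL hR h h0 hp hd hε
  obtain ⟨r, hr, hD⟩ := hv _ hs (htg.scale hl hlR)
  obtain ⟨r', hr', he⟩ := eq_of_DD_eq_zero hs hr hD
  refine ⟨l * r', by positivity, fun x hx i j => ?_⟩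
  have hy : l⁻¹ • x ∈ ball (0 : E m) r' := by
    rw [mem_ball_zero_iff] at hx ⊢
    rw [norm_smul, Real.norm_eq_abs, abs_of_pos (inv_pos.2 hl), inv_mul_lt_iff₀ hl]
    exact hx
  have := he _ hy i j
  simp only [smul_smul, mul_inv_cancel₀ hl.ne', one_smul, zero_add, sub_zero] at this
  exact (div_left_inj' hl.ne').1 this

end Pool.Agent.Lib.MP_8daebb_an.LH
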