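import Pool.Agent.Lib.MP_8daebb_an.LH.BTG
import Pool.Agent.Lib.MP_8daebb_an.LH.BInst
import Pool.Agent.Lib.MP_8daebb_an.LH.GMain

open MeasureTheory Metric Set Filter Topology
open scoped RealInnerProductSpace NNReal ContDiff
open Pool.Agent.Lib.MP_8daebb_an.LG

namespace Pool.Agent.Lib.MP_8daebb_an.LH

variable {m : ℕ} {ι : Type}

/-! BFIN. The theorem for an arbitrary slope of the tangent plane. -/

theorem bfin_back (p : E m) (f : E m → ℝ) (x : E m) :
    f x = W p * lc p 0 0 f (TI p x) + ⟪p, x⟫ := by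
  have hW : W p ≠ 0 := (W_pos_alga p).ne'
  simp only [lc, zero_add, sub_zero, TT_TI]
  field_simp
  ring

theorem bfin_grad {p : E m} {f : E m → ℝ} (hf : HasGradientAt f p 0) :
    HasGradientAt (lc p 0 0 f) 0 0 := by
  have h1 : HasFDerivAt f (InnerProductSpace.toDual ℝ (E m) p) (TT p 0) := by
    rw [map_zero]; exact hf.hasFDerivAt
  have h2 : HasFDerivAt (fun x => f (TT p x))
      ((InnerProductSpace.toDual ℝ (E m) p).comp (TT p)) 0 :=
    h1.comp (0 : E m) (TT p).hasFDerivAt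
  have h3 : HasFDerivAt (fun x => ⟪p, TT p x⟫)
      ((InnerProductSpace.toDual ℝ (E m) p).comp (TT p)) 0 :=
    ((InnerProductSpace.toDual ℝ (E m) p).comp (TT p)).hasFDerivAt
  have h4 := (h2.sub h3).mul_const (W p)⁻¹
  rw [sub_self, smul_zero] at h4
  have h5 : lc p 0 0 f = fun x => (f (TT p x) - ⟪p, TT p x⟫) * (W p)⁻¹ := by
    funext x
    simp only [lc, zero_add, sub_zero, div_eq_mul_inv]
  rw [hasGradientAt_iff_hasFDerivAt, map_zero, h5]
  exact h4

theorem bfin_vol (p : E m) (u : ι → E m → ℝ) (r : ℝ) :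
    volume.real ({x | ∃ i j, lc p 0 0 (u i) x ≠ lc p 0 0 (u j) x} ∩ ball 0 r) ≤
      W p * volume.real ({x | ∃ i j, u i x ≠ u j x} ∩ ball (0 : E m) r) := by
  have hW := W_pos_alga p
  have hsub : {x | ∃ i j, lc p 0 0 (u i) x ≠ lc p 0 0 (u j) x} ∩ ball 0 r ⊆
      {x | 0 + TT p x ∈ {x | ∃ i j, u i x ≠ u j x} ∩ ball (0 : E m) r} := by
    rintro x ⟨⟨i, j, hij⟩, hx⟩
    refine ⟨⟨i, j, fun he => hij ?_⟩, ?_⟩
    · simp only [lc, he]
    · rw [zero_add, mem_ball_zero_iff]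
      exact (norm_TT_le p x).trans_lt (mem_ball_zero_iff.1 hx)
  have hfin : volume ({x | ∃ i j, u i x ≠ u j x} ∩ ball (0 : E m) r) ≠ ⊤ :=
    ((measure_mono inter_subset_right).trans_lt measure_ball_lt_top).ne
  have h1 := measure_mono (μ := volume) hsub
  rw [vol_lc] at h1
  have h2 := ENNReal.toReal_mono (ENNReal.mul_ne_top ENNReal.ofReal_ne_top hfin) h1
  rw [ENNReal.toReal_mul, ENNReal.toReal_ofReal hW.le] at h2
  exact h2

theorem general [Fintype ι] [Nonempty ι] {L : ℝ≥0} {u : ι → E m → ℝ} {R : ℝ} {p : E m}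
    (hL : ∀ i, LipschitzWith L (u i)) (hR : 0 < R) (h : Stat Finset.univ u (ball 0 R))
    (h0 : ∀ i, u i 0 = 0) (hp : ∀ i, HasGradientAt (u i) p 0)
    (hd : Tendsto (fun r : ℝ => volume.real ({x | ∃ i j, u i x ≠ u j x} ∩ ball 0 r) / r ^ m)
      (𝓝[>] 0) (𝓝 0)) :
    ∃ r > 0, ∃ w : E m → ℝ, ContDiffOn ℝ ∞ w (ball 0 r) ∧ ∀ i, EqOn (u i) w (ball 0 r) := by
  have hW := W_pos_alga p
  have hpL : ‖p‖ ≤ L := by
    obtain ⟨i⟩ := ‹Nonempty ι›
    have := norm_grad_le (hL i) 0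
    rwa [(hp i).gradient] at this
  obtain ⟨I, hF, ha⟩ := exists_intg p (2 * L)
  obtain ⟨γ, hγ, hγ1, p₁, hp₁, C, hC, Λ, hΛ, htg⟩ := tgh_lc (ι := ι) m L
  have hst : StatF I.F I.a Finset.univ (fun i => lc p 0 0 (u i)) (ball 0 R) := by
    rw [hF, ha]
    refine stat_lc hL h p 0 0 fun x hx => ?_
    rw [zero_add, mem_ball_zero_iff]
    exact (norm_TT_le p x).trans_lt (mem_ball_zero_iff.1 hx)
  have hd' : Tendsto (fun r : ℝ => volume.real
      ({x | ∃ i j, lc p 0 0 (u i) x ≠ lc p 0 0 (u j) x} ∩ ball 0 r) / r ^ m) (𝓝[>] 0) (𝓝 0) := by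
    have h1 := hd.const_mul (W p)
    rw [mul_zero] at h1
    refine squeeze_zero' ?_ ?_ h1
    · filter_upwards [self_mem_nhdsWithin] with r hr
      have hr' : 0 < r := hr
      exact div_nonneg measureReal_nonneg (by positivity)
    · filter_upwards [self_mem_nhdsWithin] with r hr
      have hr' : 0 < r := hr
      rw [← mul_div_assoc]
      exact div_le_div_of_nonneg_right (bfin_vol p u r) (by positivity)
  obtain ⟨⟨r₁, hr₁, he⟩, r₂, hr₂, hs⟩ := horizontal I hγ hγ1 hp₁ hC hΛ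
    (fun i => lip_lc (hL i) hpL 0 0) hR hst (htg u p R hL hpL h)
    (fun i => by simp [lc, h0 i]) (fun i => bfin_grad (hp i)) hd'
  obtain ⟨i₀⟩ := ‹Nonempty ι›
  have hmem : ∀ {ρ : ℝ}, min r₁ r₂ ≤ ρ → ∀ x ∈ ball (0 : E m) (min r₁ r₂ / W p),
      TI p x ∈ ball (0 : E m) ρ := by
    intro ρ hρ x hx
    rw [mem_ball_zero_iff] at hx ⊢
    have h1 := norm_TI_le p x
    have h2 : W p * ‖x‖ < min r₁ r₂ := by
      rw [lt_div_iff₀ hW] at hx; linarith
    linarith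
  refine ⟨min r₁ r₂ / W p, div_pos (lt_min hr₁ hr₂) hW,
    fun x => W p * lc p 0 0 (u i₀) (TI p x) + ⟪p, x⟫, ?_, fun i x hx => ?_⟩
  · refine ContDiffOn.add (contDiffOn_const.mul ?_) ?_
    · exact (hs i₀).comp (TI p).contDiff.contDiffOn (hmem (min_le_right _ _))
    · exact (contDiff_const.inner ℝ contDiff_id).contDiffOn
  · have h1 := he _ (hmem (min_le_left _ _) x hx) i i₀
    have h2 := bfin_back p (u i) x
    simp only at h1 ⊢
    rw [h2, h1]

end Pool.Agent.Lib.MP_8daebb_an.LH
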