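import Pool.Agent.Lib.MP_8daebb_an.LH.BNL
import Pool.Agent.Lib.MP_8daebb_an.LG.Freq

open MeasureTheory Metric Set Filter Topology
open scoped RealInnerProductSpace NNReal
open Pool.Agent.Lib.MP_8daebb_an.LG

namespace Pool.Agent.Lib.MP_8daebb_an.LH

variable {m : ℕ} {ι : Type}

/-! BFREQ1. The frequency identities for oblique graphs. -/

variable {β c : E m} {s : Finset ι} {u : ι → E m → ℝ} {L : ℝ≥0} {z r₀ R r : ℝ}

/-- Continuous functions of the point and the slope are bounded on balls. -/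
theorem bd_bf1 {f : E m → ℝ} (hf : LipschitzWith L f) {Φ : E m × E m → ℝ} (hΦ : Continuous Φ)
    (c : E m) (R : ℝ) : Measurable (fun x => Φ (x, gradient f x)) ∧
      ∃ C, ∀ x ∈ ball c R, |Φ (x, gradient f x)| ≤ C := by
  refine ⟨hΦ.measurable.comp (measurable_id.prodMk (meas_grad f)), ?_⟩
  obtain ⟨C, hC⟩ := ((isCompact_closedBall c R).prod
    (isCompact_closedBall (0 : E m) L)).exists_bound_of_continuousOn hΦ.continuousOn
  exact ⟨C, fun x hx => hC _ ⟨ball_subset_closedBall hx,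
    mem_closedBall_zero_iff.2 (norm_grad_le hf x)⟩⟩

theorem int_bf1 {f : E m → ℝ} (hf : LipschitzWith L f) {Φ : E m × E m → ℝ} (hΦ : Continuous Φ)
    (c : E m) (R : ℝ) : IntegrableOn (fun x => Φ (x, gradient f x)) (ball c R) := by
  obtain ⟨h1, C, hC⟩ := bd_bf1 hf hΦ c R
  exact intOn_ball h1.aestronglyMeasurable (Eventually.of_forall hC)

theorem cont_yb_bf1 {f : E m → ℝ} (hf : Continuous f) (β c : E m) (z : ℝ) :
    Continuous fun x => yb β c z (x, f x) := by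
  unfold yb
  fun_prop

theorem cont_pb_bf1 {f : E m → ℝ} (hf : Continuous f) (β c : E m) (z r : ℝ) :
    Continuous (pb β c z r f) := by
  have := cont_yb_bf1 hf β c z
  unfold pb
  fun_prop

/-- The pointwise form of the inner variation. -/
theorem alg_bf1 (β q y : E m) (χ k : ℝ) :
    ∑ b : Fin m, (Fb β q * ⟪eb b, χ • (eb b + ⟪β, eb b⟫ • q) +
        ⟪y, eb b⟫ • (-k • (y + ⟪y, β⟫ • q))⟫ -
      ⟪q, eb b⟫ * ⟪ab β q, χ • (eb b + ⟪β, eb b⟫ • q) + ⟪y, eb b⟫ • (-k • (y + ⟪y, β⟫ • q))⟫) =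
      χ * (m * Fb β q - ‖q‖ ^ 2 / Wb β q) - k * (Fb β q * ‖y‖ ^ 2 - ⟪y, q⟫ ^ 2 / Wb β q) := by
  have hW := (Wb_pos β q).ne'
  have h1 : ∀ b : Fin m, ⟪(eb b : E m), eb b⟫ = (1 : ℝ) := fun b => by
    rw [real_inner_self_eq_norm_sq, norm_eb_algc, one_pow]
  have h2 : ∀ b : Fin m, (Fb β q * ⟪eb b, χ • (eb b + ⟪β, eb b⟫ • q) +
        ⟪y, eb b⟫ • (-k • (y + ⟪y, β⟫ • q))⟫ -
      ⟪q, eb b⟫ * ⟪ab β q, χ • (eb b + ⟪β, eb b⟫ • q) + ⟪y, eb b⟫ • (-k • (y + ⟪y, β⟫ • q))⟫) =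
      Fb β q * χ + (Fb β q * χ - χ * ⟪ab β q, q⟫) * (⟪β, eb b⟫ * ⟪q, eb b⟫) -
        Fb β q * k * (⟪y, eb b⟫ * ⟪y, eb b⟫) +
        (k * (⟪ab β q, y⟫ + ⟪y, β⟫ * ⟪ab β q, q⟫) - Fb β q * k * ⟪y, β⟫) *
          (⟪y, eb b⟫ * ⟪q, eb b⟫) - χ * (⟪ab β q, eb b⟫ * ⟪q, eb b⟫) := fun b => by
    simp only [inner_add_right, real_inner_smul_right, h1, real_inner_comm (eb b)]
    ring
  have h3 : ⟪ab β q, y⟫ = (Jb β q * ⟪y, β⟫ + ⟪y, q⟫) / Wb β q - ⟪y, β⟫ := by
    rw [real_inner_comm]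
    simp only [ab, inner_sub_right, inner_add_right, real_inner_smul_right]
    ring
  have h4 : ⟪β, q⟫ = Jb β q - 1 := by
    rw [Jb]; ring
  have h5 : ‖q‖ ^ 2 = Wb β q ^ 2 - Jb β q ^ 2 := by
    rw [Wb_sq]; ring
  simp only [h2, Finset.sum_add_distrib, Finset.sum_sub_distrib, ← Finset.mul_sum, sum_inner_eb,
    Finset.sum_const, Finset.card_univ, Fintype.card_fin, nsmul_eq_mul,
    real_inner_self_eq_norm_sq]
  rw [h3, h4, h5, inner_ab, Fb]
  field_simp
  ring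

theorem inner_id_bf1 (h : StatB β s u (ball c R)) (hL : ∀ i, LipschitzWith L (u i))
    (hP : Pr β s u c z r₀ R) (hr : 0 < r) (hr₀ : r₀ ≤ 2 * r) (hR : 2 * r < R) :
    ∑ i ∈ s, ∫ x in ball c R, (pb β c z r (u i) x ^ 3 * (m * Fb β (gradient (u i) x) -
        ‖gradient (u i) x‖ ^ 2 / Wb β (gradient (u i) x)) -
      6 * pb β c z r (u i) x ^ 2 / r ^ 2 * (Fb β (gradient (u i) x) * ‖yb β c z (x, u i x)‖ ^ 2 -
        ⟪yb β c z (x, u i x), gradient (u i) x⟫ ^ 2 / Wb β (gradient (u i) x))) = 0 := by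
  have hy : ContDiff ℝ 1 (yb β c z) := by
    unfold yb
    fun_prop
  have hG : ∀ b : Fin m, LocallyLipschitz fun w : E m × ℝ =>
      max (1 - ‖yb β c z w‖ ^ 2 / r ^ 2) 0 ^ 3 * ⟪yb β c z w, eb b⟫ := fun b => by
    have h1 := (contDiff_pow_cut (0 : E m) r 1).comp hy
    have h2 : ContDiff ℝ 1 fun w : E m × ℝ => max (1 - ‖yb β c z w‖ ^ 2 / r ^ 2) 0 ^ 3 := by
      simpa only [Function.comp_def, pr, sub_zero] using h1
    exact (h2.mul (hy.inner ℝ contDiff_const)).locallyLipschitz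
  have hG0 : ∀ (b : Fin m) (w : E m × ℝ), r ≤ ‖yb β c z w‖ →
      max (1 - ‖yb β c z w‖ ^ 2 / r ^ 2) 0 ^ 3 * ⟪yb β c z w, eb b⟫ = 0 := fun b w hw => by
    have h1 : 1 - ‖yb β c z w‖ ^ 2 / r ^ 2 ≤ 0 := by
      rw [sub_nonpos, one_le_div (by positivity)]
      exact pow_le_pow_left₀ hr.le hw 2
    rw [max_eq_right h1]
    simp
  set T : ι → Fin m → E m × E m → ℝ := fun i b w =>
    Fb β w.2 * ⟪eb b, pb β c z r (u i) w.1 ^ 3 • (eb b + ⟪β, eb b⟫ • w.2) +
        ⟪yb β c z (w.1, u i w.1), eb b⟫ • (-(6 * pb β c z r (u i) w.1 ^ 2 / r ^ 2) •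
          (yb β c z (w.1, u i w.1) + ⟪yb β c z (w.1, u i w.1), β⟫ • w.2))⟫ -
      ⟪w.2, eb b⟫ * ⟪ab β w.2, pb β c z r (u i) w.1 ^ 3 • (eb b + ⟪β, eb b⟫ • w.2) +
        ⟪yb β c z (w.1, u i w.1), eb b⟫ • (-(6 * pb β c z r (u i) w.1 ^ 2 / r ^ 2) •
          (yb β c z (w.1, u i w.1) + ⟪yb β c z (w.1, u i w.1), β⟫ • w.2))⟫ with hT
  have hTc : ∀ i b, Continuous (T i b) := fun i b => by
    have h1 := cont_yb_bf1 (hL i).continuous β c z
    have h2 := cont_pb_bf1 (hL i).continuous β c z r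
    have h3 := continuous_Fb β
    have h4 := continuous_ab β
    have h5 : Continuous fun w : E m × E m => yb β c z (w.1, u i w.1) := h1.comp continuous_fst
    rw [hT]
    fun_prop
  have h1 : ∀ b : Fin m, ∑ i ∈ s, ∫ x in ball c R, T i b (x, gradient (u i) x) = 0 := fun b => by
    refine Eq.trans (Finset.sum_congr rfl fun i _ => ?_)
      ((h.cyl hL hP hr hr₀ hR (hG b) (hG0 b)).2 (eb b))
    refine integral_congr_ae (ae_restrict_of_ae ?_)
    filter_upwards [locLip_ae_diff (hL i).locallyLipschitz] with x hx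
    obtain ⟨k1, k2⟩ := grad_cyl hx β c z r 3 (by norm_num)
    have k3 : gradient (fun y => max (1 - ‖yb β c z (y, u i y)‖ ^ 2 / r ^ 2) 0 ^ 3 *
        ⟪yb β c z (y, u i y), eb b⟫) x =
        pb β c z r (u i) x ^ 3 • (eb b + ⟪β, eb b⟫ • gradient (u i) x) +
        ⟪yb β c z (x, u i x), eb b⟫ • (-(6 * pb β c z r (u i) x ^ 2 / r ^ 2) •
          (yb β c z (x, u i x) + ⟪yb β c z (x, u i x), β⟫ • gradient (u i) x)) := by
      have k4 := grad_mul k1.differentiableAt (k2 (eb b)).differentiableAt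
      rw [k1.gradient, (k2 (eb b)).gradient] at k4
      refine k4.trans ?_
      norm_num
    rw [k3]
  have h2 : ∑ b : Fin m, ∑ i ∈ s, ∫ x in ball c R, T i b (x, gradient (u i) x) = 0 :=
    Finset.sum_eq_zero fun b _ => h1 b
  rw [Finset.sum_comm] at h2
  refine Eq.trans (Finset.sum_congr rfl fun i _ => ?_) h2
  rw [← integral_finsetSum _ fun b _ => int_bf1 (hL i) (hTc i b) c R]
  refine integral_congr_ae (Eventually.of_forall fun x => ?_)
  exact (alg_bf1 β (gradient (u i) x) (yb β c z (x, u i x)) _ _).symm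

theorem lin_bf1 {μ : Measure (E m)} {f g k φ : E m → ℝ} (hf : Integrable f μ) (hg : Integrable g μ)
    (hk : Integrable k μ) (hφ : Integrable φ μ) (a b d e : ℝ) :
    ∫ x, (a * f x + b * g x + d * k x + e * φ x) ∂μ =
      (a * ∫ x, f x ∂μ) + (b * ∫ x, g x ∂μ) + (d * ∫ x, k x ∂μ) + e * ∫ x, φ x ∂μ := by
  rw [integral_add, integral_add, integral_add, integral_const_mul, integral_const_mul,
    integral_const_mul, integral_const_mul]
  exacts [hf.const_mul a, hg.const_mul b, (hf.const_mul a).add (hg.const_mul b), hk.const_mul d,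
    ((hf.const_mul a).add (hg.const_mul b)).add (hk.const_mul d), hφ.const_mul e]

theorem dB_deriv (h : StatB β s u (ball c R)) (hL : ∀ i, LipschitzWith L (u i))
    (hP : Pr β s u c z r₀ R) (hr : 0 < r) (hr₀ : r₀ ≤ 2 * r) (hR : 2 * r < R) :
    HasDerivAt (dB β s u c z R)
        ((2 * rB β s u c z R r + 2 * (dB β s u c z R r - tB β s u c z R r)) / r) r ∧
      eB β s u c z R r ≤ 2 * rB β s u c z R r + (m + 4) * dB β s u c z R r := by
  have hF := continuous_Fb β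
  have hW := continuous_Wb β
  have hW0 : ∀ w : E m × E m, Wb β w.2 ≠ 0 := fun w => (Wb_pos β w.2).ne'
  have hy : ∀ i, Continuous fun w : E m × E m => yb β c z (w.1, u i w.1) := fun i =>
    (cont_yb_bf1 (hL i).continuous β c z).comp continuous_fst
  have hp : ∀ i t, Continuous (pb β c z t (u i)) := fun i t =>
    cont_pb_bf1 (hL i).continuous β c z t
  have j1 : ∀ t i, IntegrableOn (fun x => pb β c z t (u i) x ^ 3 *
      (2 * Fb β (gradient (u i) x))) (ball c R) := fun t i =>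
    int_bf1 (hL i) (Φ := fun w => pb β c z t (u i) w.1 ^ 3 * (2 * Fb β w.2))
      (by have := hp i t; fun_prop) c R
  have j2 : ∀ i, IntegrableOn (fun x => pb β c z r (u i) x ^ 3 *
      (‖gradient (u i) x‖ ^ 2 / Wb β (gradient (u i) x))) (ball c R) := fun i =>
    int_bf1 (hL i) (Φ := fun w => pb β c z r (u i) w.1 ^ 3 * (‖w.2‖ ^ 2 / Wb β w.2))
      (by have := hp i r; fun_prop (disch := exact hW0)) c R
  have j3 : ∀ i, IntegrableOn (fun x => 3 * pb β c z r (u i) x ^ 2 *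
      (⟪yb β c z (x, u i x), gradient (u i) x⟫ ^ 2 / Wb β (gradient (u i) x))) (ball c R) :=
    fun i => int_bf1 (hL i) (Φ := fun w => 3 * pb β c z r (u i) w.1 ^ 2 *
      (⟪yb β c z (w.1, u i w.1), w.2⟫ ^ 2 / Wb β w.2))
      (by have := hp i r; have := hy i; fun_prop (disch := exact hW0)) c R
  have j4 : ∀ i, IntegrableOn (fun x => 6 * (‖yb β c z (x, u i x)‖ ^ 2 / r ^ 2) *
      pb β c z r (u i) x ^ 2 * (2 * Fb β (gradient (u i) x))) (ball c R) :=
    fun i => int_bf1 (hL i) (Φ := fun w => 6 * (‖yb β c z (w.1, u i w.1)‖ ^ 2 / r ^ 2) *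
      pb β c z r (u i) w.1 ^ 2 * (2 * Fb β w.2))
      (by have := hp i r; have := hy i; fun_prop) c R
  have j5 : ∀ i, IntegrableOn (fun x => 3 * pb β c z r (u i) x ^ 2 *
      Fb β (gradient (u i) x)) (ball c R) :=
    fun i => int_bf1 (hL i) (Φ := fun w => 3 * pb β c z r (u i) w.1 ^ 2 * Fb β w.2)
      (by have := hp i r; fun_prop) c R
  set I4 : ℝ := ∑ i ∈ s, ∫ x in ball c R, 6 * (‖yb β c z (x, u i x)‖ ^ 2 / r ^ 2) *
    pb β c z r (u i) x ^ 2 * (2 * Fb β (gradient (u i) x)) with hI4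
  have hd : ∀ t, dB β s u c z R t = t ^ 2 / t ^ m * ∑ i ∈ s, ∫ x in ball c R,
      pb β c z t (u i) x ^ 3 * (2 * Fb β (gradient (u i) x)) := fun t => by
    rw [dB, integral_finsetSum _ fun i _ => j1 t i]
  have key : r ^ 2 / r ^ m * I4 =
      m * dB β s u c z R r - 2 * tB β s u c z R r + 2 * rB β s u c z R r := by
    have h1 := inner_id_bf1 h hL hP hr hr₀ hR
    have h2 : ∀ i ∈ s, ∫ x in ball c R, (pb β c z r (u i) x ^ 3 * (m * Fb β (gradient (u i) x) -
        ‖gradient (u i) x‖ ^ 2 / Wb β (gradient (u i) x)) -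
      6 * pb β c z r (u i) x ^ 2 / r ^ 2 * (Fb β (gradient (u i) x) * ‖yb β c z (x, u i x)‖ ^ 2 -
        ⟪yb β c z (x, u i x), gradient (u i) x⟫ ^ 2 / Wb β (gradient (u i) x))) = _ :=
      fun i _ => (integral_congr_ae (Eventually.of_forall fun x => by ring)).trans
        (lin_bf1 (j1 r i) (j2 i) (j3 i) (j4 i) (m / 2) (-1) (2 / r ^ 2) (-1 / 2))
    rw [Finset.sum_congr rfl h2] at h1
    simp only [Finset.sum_add_distrib, ← Finset.mul_sum] at h1
    have h4 : r ^ 2 / r ^ m * (2 / r ^ 2) = 2 / r ^ m := by field_simp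
    rw [hd, tB, rB, integral_finsetSum _ fun i _ => j2 i, integral_finsetSum _ fun i _ => j3 i,
      ← h4, hI4]
    linear_combination (-2 * (r ^ 2 / r ^ m)) * h1
  constructor
  · have h1 : ∀ i ∈ s, HasDerivAt (fun t => ∫ x in ball c R,
        pb β c z t (u i) x ^ 3 * (2 * Fb β (gradient (u i) x)))
        ((∫ x in ball c R, 6 * (‖yb β c z (x, u i x)‖ ^ 2 / r ^ 2) *
          pb β c z r (u i) x ^ 2 * (2 * Fb β (gradient (u i) x))) / r) r := fun i _ => by
      obtain ⟨k1, C, hC⟩ := bd_bf1 (hL i) (Φ := fun w => 2 * Fb β w.2) (by fun_prop) c R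
      have k2 := hasDerivAt_int_pb (hL i).continuous k1 hC β z hr 3 (by norm_num)
      refine k2.congr_deriv ?_
      norm_num
    have h2 := (pow_deriv_freq 2 m hr).fun_mul (HasDerivAt.fun_sum h1)
    rw [show dB β s u c z R = fun t => t ^ 2 / t ^ m * ∑ i ∈ s, ∫ x in ball c R,
      pb β c z t (u i) x ^ 3 * (2 * Fb β (gradient (u i) x)) from funext hd]
    refine h2.congr_deriv ?_
    rw [← Finset.sum_div, ← hI4, ← mul_div_assoc (r ^ 2 / r ^ m), key, hd]
    push_cast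
    ring
  · have ht : 0 ≤ tB β s u c z R r :=
      mul_nonneg (by positivity) (integral_nonneg fun x => Finset.sum_nonneg fun i _ =>
        mul_nonneg (pow_nonneg (le_max_right _ _) 3) (div_nonneg (sq_nonneg _) (Wb_pos _ _).le))
    have h1 : ∀ i ∈ s, ∫ x in ball c R, 3 * pb β c z r (u i) x ^ 2 * Fb β (gradient (u i) x) ≤
        (∫ x in ball c R, 6 * (‖yb β c z (x, u i x)‖ ^ 2 / r ^ 2) *
          pb β c z r (u i) x ^ 2 * (2 * Fb β (gradient (u i) x))) +
        4 * ∫ x in ball c R, pb β c z r (u i) x ^ 3 * (2 * Fb β (gradient (u i) x)) := by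
      intro i _
      rw [← integral_const_mul, ← integral_add (j4 i) ((j1 r i).const_mul 4)]
      refine integral_mono (j5 i) ((j4 i).add ((j1 r i).const_mul 4)) fun x => ?_
      have k1 := om_le_split (c := 0) hr (yb β c z (x, u i x))
      have k2 := mul_le_mul_of_nonneg_right k1 (Fb_nonneg β (gradient (u i) x))
      simp only [om, chi, pr, sub_zero] at k2
      simp only [pb]
      linarith
    have h2 := mul_le_mul_of_nonneg_left (Finset.sum_le_sum h1)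
      (show 0 ≤ r ^ 2 / r ^ m by positivity)
    rw [Finset.sum_add_distrib, ← Finset.mul_sum, ← hI4, mul_add, key, mul_left_comm, ← hd] at h2
    rw [eB, integral_finsetSum _ fun i _ => j5 i]
    linarith

end Pool.Agent.Lib.MP_8daebb_an.LH
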