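import Pool.Agent.Lib.MP_8daebb_an.LH.BNL

open MeasureTheory Metric Set Filter Topology
open scoped RealInnerProductSpace NNReal
open Pool.Agent.Lib.MP_8daebb_an.LG

namespace Pool.Agent.Lib.MP_8daebb_an.LH

variable {m : ℕ} {ι : Type}

/-! BFREQ2. The height identity and the outer variation identity for oblique graphs. -/

variable {β c : E m} {s : Finset ι} {u : ι → E m → ℝ} {L : ℝ≥0} {z r₀ R r : ℝ}

section
variable {f : E m → ℝ} {Φ : E m × E m → ℝ}

theorem bdd_bfreq2 (hf : LipschitzWith L f) (hΦ : Continuous Φ) (c : E m) (R : ℝ) :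
    ∃ C, ∀ x ∈ ball c R, |Φ (x, gradient f x)| ≤ C := by
  obtain ⟨C, hC⟩ := ((isCompact_closedBall c R).prod
    (isCompact_closedBall (0 : E m) L)).exists_bound_of_continuousOn hΦ.continuousOn
  exact ⟨C, fun x hx => hC _ ⟨ball_subset_closedBall hx, by simpa using norm_grad_le hf x⟩⟩

theorem meas_bfreq2 (f : E m → ℝ) (hΦ : Continuous Φ) :
    Measurable fun x => Φ (x, gradient f x) :=
  hΦ.measurable.comp (measurable_id.prodMk (meas_grad f))

theorem int_bfreq2 (hf : LipschitzWith L f) (hΦ : Continuous Φ) (c : E m) (R : ℝ) :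
    IntegrableOn (fun x => Φ (x, gradient f x)) (ball c R) := by
  obtain ⟨C, hC⟩ := bdd_bfreq2 hf hΦ c R
  exact intOn_ball (meas_bfreq2 f hΦ).aestronglyMeasurable (Eventually.of_forall hC)

theorem cont_yb_bfreq2 (hf : Continuous f) (β c : E m) (z : ℝ) :
    Continuous fun x => yb β c z (x, f x) := by
  unfold yb
  fun_prop

theorem cont_pb_bfreq2 (hf : Continuous f) (β c : E m) (z r : ℝ) :
    Continuous (pb β c z r f) := by
  have h := cont_yb_bfreq2 hf β c z
  unfold pb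
  fun_prop

theorem contDiff_yb_bfreq2 (β c : E m) (z : ℝ) : ContDiff ℝ 1 (yb β c z) := by
  unfold yb
  fun_prop

theorem locLip_pow_bfreq2 (β c : E m) (z r : ℝ) (n : ℕ) :
    LocallyLipschitz fun w => max (1 - ‖yb β c z w‖ ^ 2 / r ^ 2) 0 ^ n := by
  have h1 : ContDiff ℝ 1 fun w => 1 - ‖yb β c z w‖ ^ 2 / r ^ 2 :=
    contDiff_const.sub (((contDiff_yb_bfreq2 β c z).norm_sq ℝ).div_const _)
  have h2 : ContDiff ℝ 1 fun t : ℝ => t ^ n := contDiff_id.pow n
  exact h2.locallyLipschitz.comp (h1.locallyLipschitz.max_const 0)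

theorem zero_bfreq2 (hr : 0 < r) {w : E m × ℝ} (hw : r ≤ ‖yb β c z w‖) :
    max (1 - ‖yb β c z w‖ ^ 2 / r ^ 2) 0 = 0 := by
  refine max_eq_right ?_
  rw [sub_nonpos, le_div_iff₀ (by positivity), one_mul]
  exact pow_le_pow_left₀ hr.le hw 2

theorem grad_ht_bfreq2 {x : E m} (hx : DifferentiableAt ℝ f x) (z : ℝ) :
    gradient (fun y => f y - z) x = gradient f x := by
  simpa using grad_comp (θ := fun t => t - z) hx ((hasDerivAt_id (f x)).sub_const z)

theorem grad_sq_bfreq2 {x : E m} (hx : DifferentiableAt ℝ f x) (z : ℝ) :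
    gradient (fun y => (f y - z) ^ 2) x = (2 * (f x - z)) • gradient f x :=
  grad_comp (θ := fun t => (t - z) ^ 2) hx
    (by simpa using ((hasDerivAt_id (f x)).sub_const z).fun_pow 2)

end

theorem alg_ht_bfreq2 (β q y e : E m) (he : ⟪e, e⟫ = 1) (p ζ a : ℝ) :
    ⟪Jb β q • e - ⟪q, e⟫ • β, p • (ζ ^ 2 • (e + ⟪β, e⟫ • q) + ⟪y, e⟫ • (2 * ζ) • q) +
      (ζ ^ 2 * ⟪y, e⟫) • a • (y + ⟪y, β⟫ • q)⟫ =
      p * (ζ ^ 2 * Jb β q + 2 * ζ * (⟪y, e⟫ * ⟪q, e⟫)) +
        a * ζ ^ 2 * Jb β q * (⟪y, e⟫ * ⟪y, e⟫) := by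
  simp only [Jb, inner_add_right, inner_sub_left, real_inner_smul_left, real_inner_smul_right, he,
    real_inner_comm q e, real_inner_comm y e, real_inner_comm β y]
  ring

theorem alg_out_bfreq2 (β q y : E m) (χ ζ a : ℝ) :
    ⟪ab β q, χ • q + ζ • a • (y + ⟪y, β⟫ • q)⟫ -
      (Fb β q * ⟪β, χ • q + ζ • a • (y + ⟪y, β⟫ • q)⟫ -
        ⟪q, β⟫ * ⟪ab β q, χ • q + ζ • a • (y + ⟪y, β⟫ • q)⟫) =
      χ * (‖q‖ ^ 2 / Wb β q) + a * (ζ * ⟪y, q⟫ * Jb β q / Wb β q) := by
  have h := congrArg (fun v => ⟪v, χ • q + ζ • a • (y + ⟪y, β⟫ • q)⟫) (normal_flux β q)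
  generalize ab β q = A at h ⊢
  rw [inner_sub_left, real_inner_smul_left, real_inner_smul_left] at h
  generalize ⟪A, χ • q + ζ • a • (y + ⟪y, β⟫ • q)⟫ = t at h ⊢
  have h2 : ⟪(Wb β q)⁻¹ • (Jb β q • q - ‖q‖ ^ 2 • β), χ • q + ζ • a • (y + ⟪y, β⟫ • q)⟫ =
      χ * (‖q‖ ^ 2 / Wb β q) + a * (ζ * ⟪y, q⟫ * Jb β q / Wb β q) := by
    simp only [Jb, inner_add_right, inner_sub_left, real_inner_smul_left, real_inner_smul_right,
      real_inner_self_eq_norm_sq, real_inner_comm y q, real_inner_comm β y]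
    ring
  rw [← h2, ← h, Jb, real_inner_comm β q]
  ring

/-- The height identity for one sheet. -/
theorem height_bfreq2 (hL : ∀ i, LipschitzWith L (u i)) (hP : Pr β s u c z r₀ R) (hr : 0 < r)
    (hr₀ : r₀ ≤ 2 * r) (hR : 2 * r < R) {i : ι} (hi : i ∈ s) :
    (∫ x in ball c R, 2 * (2 : ℕ) * (‖yb β c z (x, u i x)‖ ^ 2 / r ^ 2) *
      pb β c z r (u i) x ^ (2 - 1) * (3 * ((u i x - z) ^ 2 * Jb β (gradient (u i) x)))) =
      (m : ℝ) * (∫ x in ball c R, 3 * pb β c z r (u i) x ^ 2 *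
        ((u i x - z) ^ 2 * Jb β (gradient (u i) x))) +
      2 * ∫ x in ball c R, 3 * pb β c z r (u i) x ^ 2 *
        ((u i x - z) * ⟪yb β c z (x, u i x), gradient (u i) x⟫) := by
  have hu := (hL i).continuous
  have hy := cont_yb_bfreq2 hu β c z
  have hp := cont_pb_bfreq2 hu β c z r
  have hJ := continuous_Jb β
  have hy' : Continuous fun w : E m × E m => yb β c z (w.1, u i w.1) := hy.comp continuous_fst
  let Φ : Fin m → E m × E m → ℝ := fun b w =>
    pb β c z r (u i) w.1 ^ 2 * ((u i w.1 - z) ^ 2 * Jb β w.2 + 2 * (u i w.1 - z) *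
      (⟪yb β c z (w.1, u i w.1), eb b⟫ * ⟪w.2, eb b⟫)) +
    -(2 * (2 : ℕ) * pb β c z r (u i) w.1 ^ (2 - 1) / r ^ 2) * (u i w.1 - z) ^ 2 * Jb β w.2 *
      (⟪yb β c z (w.1, u i w.1), eb b⟫ * ⟪yb β c z (w.1, u i w.1), eb b⟫)
  have hΦ : ∀ b, Continuous (Φ b) := fun b => by
    simp only [Φ]
    fun_prop
  have h1 : ∀ b, ∫ x in ball c R, Φ b (x, gradient (u i) x) = 0 := fun b => by
    have hG : ContDiff ℝ 1 fun w : E m × ℝ => (w.2 - z) ^ 2 * ⟪yb β c z w, eb b⟫ :=
      ContDiff.mul (by fun_prop) ((contDiff_yb_bfreq2 β c z).inner ℝ contDiff_const)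
    refine Eq.trans ?_ (null_cyl hL hP hr hr₀ hR
      (G := fun w => max (1 - ‖yb β c z w‖ ^ 2 / r ^ 2) 0 ^ 2 *
        ((w.2 - z) ^ 2 * ⟪yb β c z w, eb b⟫))
      (locLip_mul (locLip_pow_bfreq2 β c z r 2) hG.locallyLipschitz)
      (fun w hw => by simp [zero_bfreq2 hr hw]) hi (eb b))
    refine integral_congr_ae (ae_restrict_of_ae
      ((locLip_ae_diff (hL i).locallyLipschitz).mono fun x hx => ?_))
    obtain ⟨k1, k2⟩ := grad_cyl hx β c z r 2 le_rfl
    have k3 : DifferentiableAt ℝ (fun y => (u i y - z) ^ 2) x := (hx.sub_const z).pow 2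
    have k4 : gradient (fun y => pb β c z r (u i) y ^ 2 *
        ((u i y - z) ^ 2 * ⟪yb β c z (y, u i y), eb b⟫)) x = _ :=
      grad_mul k1.differentiableAt (k3.mul (k2 (eb b)).differentiableAt)
    rw [grad_mul k3 (k2 (eb b)).differentiableAt, k1.gradient, (k2 (eb b)).gradient,
      grad_sq_bfreq2 hx] at k4
    refine Eq.trans ?_ (congrArg _ k4.symm)
    have k5 : ⟪(eb b : E m), eb b⟫ = 1 := by
      rw [real_inner_self_eq_norm_sq, norm_eb_algc, one_pow]
    exact (alg_ht_bfreq2 β _ _ _ k5 _ _ _).symm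
  have h2 := (integral_finsetSum Finset.univ fun b _ => int_bfreq2 (hL i) (hΦ b) c R).trans
    (Finset.sum_eq_zero fun b _ => h1 b)
  have j1 := int_bfreq2 (hL i) (Φ := fun w => 2 * (2 : ℕ) *
    (‖yb β c z (w.1, u i w.1)‖ ^ 2 / r ^ 2) * pb β c z r (u i) w.1 ^ (2 - 1) *
      (3 * ((u i w.1 - z) ^ 2 * Jb β w.2))) (by fun_prop) c R
  have j2 := int_bfreq2 (hL i) (Φ := fun w => 3 * pb β c z r (u i) w.1 ^ 2 *
    ((u i w.1 - z) ^ 2 * Jb β w.2)) (by fun_prop) c R
  have j3 := int_bfreq2 (hL i) (Φ := fun w => 3 * pb β c z r (u i) w.1 ^ 2 *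
    ((u i w.1 - z) * ⟪yb β c z (w.1, u i w.1), w.2⟫)) (by fun_prop) c R
  rw [← integral_const_mul, ← integral_const_mul,
    ← integral_add (j2.const_mul _) (j3.const_mul _), ← sub_eq_zero]
  refine (integral_sub j1 ((j2.const_mul _).add (j3.const_mul _))).symm.trans
    (Eq.trans ?_ ((integral_const_mul (-3 : ℝ) _).trans ((congrArg _ h2).trans (mul_zero _))))
  refine integral_congr_ae (Eventually.of_forall fun x => ?_)
  simp only [Φ, Finset.sum_add_distrib, ← Finset.mul_sum, sum_inner_eb,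
    Finset.sum_const, Finset.card_univ, Fintype.card_fin, nsmul_eq_mul,
    real_inner_self_eq_norm_sq, Pi.add_apply]
  push_cast
  ring

theorem hB_deriv (hL : ∀ i, LipschitzWith L (u i))
    (hP : Pr β s u c z r₀ R) (hr : 0 < r) (hr₀ : r₀ ≤ 2 * r) (hR : 2 * r < R) :
    HasDerivAt (hB β s u c z R) (2 * t0B β s u c z R r / r) r := by
  have hJ := continuous_Jb β
  have j2 : ∀ t i, IntegrableOn (fun x => 3 * pb β c z t (u i) x ^ 2 *
      ((u i x - z) ^ 2 * Jb β (gradient (u i) x))) (ball c R) := fun t i => by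
    have hu := (hL i).continuous
    have hp := cont_pb_bfreq2 hu β c z t
    exact int_bfreq2 (hL i) (Φ := fun w => 3 * pb β c z t (u i) w.1 ^ 2 *
      ((u i w.1 - z) ^ 2 * Jb β w.2)) (by fun_prop) c R
  have j3 : ∀ i, IntegrableOn (fun x => 3 * pb β c z r (u i) x ^ 2 *
      ((u i x - z) * ⟪yb β c z (x, u i x), gradient (u i) x⟫)) (ball c R) := fun i => by
    have hu := (hL i).continuous
    have hp := cont_pb_bfreq2 hu β c z r
    have hy' : Continuous fun w : E m × E m => yb β c z (w.1, u i w.1) :=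
      (cont_yb_bfreq2 hu β c z).comp continuous_fst
    exact int_bfreq2 (hL i) (Φ := fun w => 3 * pb β c z r (u i) w.1 ^ 2 *
      ((u i w.1 - z) * ⟪yb β c z (w.1, u i w.1), w.2⟫)) (by fun_prop) c R
  have h1 : ∀ i ∈ s, HasDerivAt (fun t => ∫ x in ball c R, 3 * pb β c z t (u i) x ^ 2 *
      ((u i x - z) ^ 2 * Jb β (gradient (u i) x)))
      (((m : ℝ) * (∫ x in ball c R, 3 * pb β c z r (u i) x ^ 2 *
        ((u i x - z) ^ 2 * Jb β (gradient (u i) x))) +
      2 * ∫ x in ball c R, 3 * pb β c z r (u i) x ^ 2 *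
        ((u i x - z) * ⟪yb β c z (x, u i x), gradient (u i) x⟫)) / r) r := fun i hi => by
    have hu := (hL i).continuous
    have hΦ : Continuous fun w : E m × E m => 3 * ((u i w.1 - z) ^ 2 * Jb β w.2) := by fun_prop
    obtain ⟨C, hC⟩ := bdd_bfreq2 (hL i) hΦ c R
    have h := hasDerivAt_int_pb hu (meas_bfreq2 (u i) hΦ) hC β z hr 2 le_rfl
    rw [← height_bfreq2 hL hP hr hr₀ hR hi]
    simpa only [mul_assoc, mul_left_comm _ (3 : ℝ)] using h
  have h2 : HasDerivAt (fun t : ℝ => 2 / t ^ m) (-(m : ℝ) * (2 / r ^ m) / r) r := by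
    refine ((hasDerivAt_const r (2 : ℝ)).fun_div (hasDerivAt_pow m r)
      (by positivity)).congr_deriv ?_
    cases m with
    | zero => simp
    | succ n => rw [Nat.add_sub_cancel, pow_succ]; field_simp; ring
  have h3 : hB β s u c z R = fun t => 2 / t ^ m * ∑ i ∈ s, ∫ x in ball c R,
      3 * pb β c z t (u i) x ^ 2 * ((u i x - z) ^ 2 * Jb β (gradient (u i) x)) :=
    funext fun t => by rw [hB, integral_finsetSum s fun i _ => j2 t i]
  rw [h3]
  refine (h2.fun_mul (HasDerivAt.fun_sum h1)).congr_deriv ?_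
  rw [t0B, integral_finsetSum s fun i _ => j3 i, ← Finset.sum_div, Finset.sum_add_distrib,
    ← Finset.mul_sum, ← Finset.mul_sum]
  ring

theorem tB_eq (h : StatB β s u (ball c R)) (hL : ∀ i, LipschitzWith L (u i))
    (hP : Pr β s u c z r₀ R) (hr : 0 < r) (hr₀ : r₀ ≤ 2 * r) (hR : 2 * r < R) :
    tB β s u c z R r = 2 / r ^ m * ∫ x in ball c R, ∑ i ∈ s, 3 * pb β c z r (u i) x ^ 2 *
      ((u i x - z) * ⟪yb β c z (x, u i x), gradient (u i) x⟫ * Jb β (gradient (u i) x) /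
        Wb β (gradient (u i) x)) := by
  have hJ := continuous_Jb β
  have hW := continuous_Wb β
  have hF := continuous_Fb β
  have ha := continuous_ab β
  have hG : ContDiff ℝ 1 fun w : E m × ℝ => w.2 - z := by fun_prop
  obtain ⟨h1, h2⟩ := h.cyl hL hP hr hr₀ hR
    (G := fun w => max (1 - ‖yb β c z w‖ ^ 2 / r ^ 2) 0 ^ 3 * (w.2 - z))
    (locLip_mul (locLip_pow_bfreq2 β c z r 3) hG.locallyLipschitz)
    (fun w hw => by simp [zero_bfreq2 hr hw])
  replace h2 := h2 β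
  let V : ι → E m × E m → E m := fun i w => pb β c z r (u i) w.1 ^ 3 • w.2 + (u i w.1 - z) •
    (-(2 * (3 : ℕ) * pb β c z r (u i) w.1 ^ (3 - 1) / r ^ 2)) •
      (yb β c z (w.1, u i w.1) + ⟪yb β c z (w.1, u i w.1), β⟫ • w.2)
  have hp := fun i => cont_pb_bfreq2 (hL i).continuous β c z r
  have hy : ∀ i, Continuous fun w : E m × E m => yb β c z (w.1, u i w.1) := fun i =>
    (cont_yb_bfreq2 (hL i).continuous β c z).comp continuous_fst
  have hV : ∀ i, Continuous (V i) := fun i => by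
    have hu := (hL i).continuous
    have hp' := hp i
    have hy' := hy i
    simp only [V]
    fun_prop
  have hg : ∀ i, ∀ᵐ x ∂(volume.restrict (ball c R)), gradient (fun y =>
      max (1 - ‖yb β c z (y, u i y)‖ ^ 2 / r ^ 2) 0 ^ 3 * (u i y - z)) x =
        V i (x, gradient (u i) x) := fun i => by
    refine ae_restrict_of_ae ((locLip_ae_diff (hL i).locallyLipschitz).mono fun x hx => ?_)
    obtain ⟨k1, -⟩ := grad_cyl hx β c z r 3 (by norm_num)
    have k4 : gradient (fun y => pb β c z r (u i) y ^ 3 * (u i y - z)) x = _ :=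
      grad_mul k1.differentiableAt (hx.sub_const z)
    rw [k1.gradient, grad_ht_bfreq2 hx] at k4
    exact k4
  have i1 := fun i => int_bfreq2 (hL i) (Φ := fun w => ⟪ab β w.2, V i w⟫)
    (by have := hV i; fun_prop) c R
  have i2 := fun i => int_bfreq2 (hL i) (Φ := fun w => Fb β w.2 * ⟪β, V i w⟫ -
    ⟪w.2, β⟫ * ⟪ab β w.2, V i w⟫) (by have := hV i; fun_prop) c R
  have j1 := fun i => int_bfreq2 (hL i) (Φ := fun w => pb β c z r (u i) w.1 ^ 3 *
    (‖w.2‖ ^ 2 / Wb β w.2)) (((hp i).comp continuous_fst).pow 3 |>.mul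
      (Continuous.div (by fun_prop) (by fun_prop) fun w => (Wb_pos β _).ne')) c R
  have j2 := fun i => int_bfreq2 (hL i) (Φ := fun w => 3 * pb β c z r (u i) w.1 ^ 2 *
    ((u i w.1 - z) * ⟪yb β c z (w.1, u i w.1), w.2⟫ * Jb β w.2 / Wb β w.2))
    (Continuous.mul (by have := hp i; fun_prop) (Continuous.div
      (by have := hy i; have := (hL i).continuous; fun_prop) (by fun_prop)
        fun w => (Wb_pos β _).ne')) c R
  have h3 : ∑ i ∈ s, ((∫ x in ball c R, pb β c z r (u i) x ^ 3 *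
      (‖gradient (u i) x‖ ^ 2 / Wb β (gradient (u i) x))) - 2 / r ^ 2 *
      ∫ x in ball c R, 3 * pb β c z r (u i) x ^ 2 *
        ((u i x - z) * ⟪yb β c z (x, u i x), gradient (u i) x⟫ * Jb β (gradient (u i) x) /
          Wb β (gradient (u i) x))) = 0 := by
    refine Eq.trans ?_ ((congrArg₂ (· - ·) h1 h2).trans (sub_zero _))
    rw [← Finset.sum_sub_distrib]
    refine Finset.sum_congr rfl fun i _ => ?_
    rw [← integral_const_mul, ← integral_sub (j1 i) ((j2 i).const_mul _)]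
    refine Eq.trans ?_ ((integral_sub (i1 i) (i2 i)).trans (congrArg₂ (· - ·)
      (integral_congr_ae ((hg i).mono fun x hx => congrArg _ hx.symm))
      (integral_congr_ae ((hg i).mono fun x hx => by simp only [hx]))))
    refine integral_congr_ae (Eventually.of_forall fun x => ?_)
    have k := alg_out_bfreq2 β (gradient (u i) x) (yb β c z (x, u i x))
      (pb β c z r (u i) x ^ 3) (u i x - z) (-(2 * (3 : ℕ) * pb β c z r (u i) x ^ (3 - 1) / r ^ 2))
    refine Eq.trans ?_ k.symm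
    push_cast
    ring
  rw [Finset.sum_sub_distrib, ← Finset.mul_sum, sub_eq_zero] at h3
  rw [tB, integral_finsetSum s fun i _ => j1 i, integral_finsetSum s fun i _ => j2 i, h3]
  field_simp

end Pool.Agent.Lib.MP_8daebb_an.LH
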