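import Pool.Agent.Lib.MP_8daebb_an.LH.BFreq1
import Pool.Agent.Lib.MP_8daebb_an.LH.BFreq2
import Pool.Agent.Lib.MP_8daebb_an.LG.Freq

open MeasureTheory Metric Set Filter Topology
open scoped RealInnerProductSpace NNReal
open Pool.Agent.Lib.MP_8daebb_an.LG

namespace Pool.Agent.Lib.MP_8daebb_an.LH

variable {m : ℕ} {ι : Type}

/-! BFREQ3. The frequency inequalities for oblique graphs. -/

variable {β c : E m} {s : Finset ι} {u : ι → E m → ℝ} {L : ℝ≥0} {z r₀ R r : ℝ}

section aux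
variable {f g : E m → ℝ} {a b d e : ι → E m → ℝ}

theorem pb_nonneg_bf3 (β c : E m) (z r : ℝ) (f : E m → ℝ) (x : E m) : 0 ≤ pb β c z r f x :=
  le_max_right _ _

theorem pb_le_one_bf3 (β c : E m) (z r : ℝ) (f : E m → ℝ) (x : E m) : pb β c z r f x ≤ 1 :=
  max_le (sub_le_self _ (by positivity)) zero_le_one

theorem pb_supp_bf3 (hr : 0 < r) {x : E m} (h : pb β c z r f x ≠ 0) :
    ‖yb β c z (x, f x)‖ < r := by
  by_contra hn
  apply h
  have h1 : r ^ 2 ≤ ‖yb β c z (x, f x)‖ ^ 2 := pow_le_pow_left₀ hr.le (not_lt.1 hn) 2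
  have h2 : 1 ≤ ‖yb β c z (x, f x)‖ ^ 2 / r ^ 2 := (one_le_div (by positivity)).2 h1
  exact max_eq_right (by linarith)

theorem pb_ge_bf3 (hr : 0 < r) {x : E m} (h : ‖yb β c z (x, f x)‖ ≤ r / 2) :
    3 / 4 ≤ pb β c z r f x := by
  refine le_trans ?_ (le_max_left _ _)
  have h1 : ‖yb β c z (x, f x)‖ ^ 2 ≤ (r / 2) ^ 2 := pow_le_pow_left₀ (norm_nonneg _) h 2
  have h2 : ‖yb β c z (x, f x)‖ ^ 2 / r ^ 2 ≤ 1 / 4 := by
    rw [div_le_iff₀ (by positivity)]
    linarith
  linarith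

theorem pb_ball_bf3 (hP : Pr β s u c z r₀ R) (hr : 0 < r) (hr₀ : r₀ ≤ 2 * r) {i : ι} (hi : i ∈ s)
    {x : E m} (hx : x ∈ ball c R) (h : pb β c z r (u i) x ≠ 0) : x ∈ ball c (2 * r) := by
  rw [mem_ball_iff_norm]
  by_contra hn
  exact absurd (hP.far hr₀ hi hx (not_lt.1 hn)) (not_le.2 (pb_supp_bf3 hr h))

theorem cont_yb_bf3 (hf : Continuous f) (β c : E m) (z : ℝ) :
    Continuous fun x => yb β c z (x, f x) := by
  unfold yb
  fun_prop

theorem lb_pb_bf3 (hf : LipschitzWith L f) (β c : E m) (z r : ℝ) (n : ℕ) :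
    LBfreq fun x => pb β c z r f x ^ n := by
  have := cont_yb_bf3 hf.continuous β c z
  refine .of_cont (Continuous.pow ?_ n)
  unfold pb
  fun_prop

theorem lb_om_bf3 (hf : LipschitzWith L f) (β c : E m) (z r : ℝ) :
    LBfreq fun x => 3 * pb β c z r f x ^ 2 :=
  (LBfreq.const 3).mul (lb_pb_bf3 hf β c z r 2)

theorem lb_q_bf3 (hf : LipschitzWith L f) {φ : E m → ℝ} (hφ : Continuous φ) :
    LBfreq fun x => φ (gradient f x) := by
  refine ⟨hφ.measurable.comp (meas_grad f), fun _ _ => ?_⟩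
  obtain ⟨C, hC⟩ := (isCompact_closedBall (0 : E m) L).exists_bound_of_continuousOn hφ.continuousOn
  exact ⟨C, fun x _ => hC _ (mem_closedBall_zero_iff.2 (norm_grad_le hf x))⟩

theorem lb_I_bf3 (hf : LipschitzWith L f) (β c : E m) (z : ℝ) :
    LBfreq fun x => ⟪yb β c z (x, f x), gradient f x⟫ := by
  have hc := cont_yb_bf3 hf.continuous β c z
  refine ⟨hc.measurable.inner (meas_grad f), fun a r => ?_⟩
  obtain ⟨C, hC⟩ := ((LBfreq.of_cont hc.norm).mul (.norm hf)).2 a r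
  exact ⟨C, fun x hx => (abs_real_inner_le_norm _ _).trans ((le_abs_self _).trans (hC x hx))⟩

theorem lb_div_bf3 (hg : LBfreq g) (hf : LipschitzWith L f) (β : E m) :
    LBfreq fun x => g x / Wb β (gradient f x) := by
  simpa only [div_eq_mul_inv] using hg.mul (lb_q_bf3 hf (φ := fun q => (Wb β q)⁻¹)
    ((continuous_Wb β).inv₀ fun q => (Wb_pos β q).ne'))

theorem lb_int_bf3 (hf : LBfreq f) (c : E m) (R : ℝ) : IntegrableOn f (ball c R) := by
  obtain ⟨C, hC⟩ := hf.2 c R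
  exact intOn_ball hf.1.aestronglyMeasurable (ae_of_all _ hC)

theorem le_bf3 (ha : ∀ i, LBfreq (a i)) (hb : ∀ i, LBfreq (b i)) (hd : ∀ i, LBfreq (d i))
    (he : ∀ i, LBfreq (e i)) (o p q w : ℝ)
    (h : ∀ i ∈ s, ∀ x ∈ ball c R, o * a i x ≤ p * b i x + q * d i x + w * e i x) :
    o * ∫ x in ball c R, ∑ i ∈ s, a i x ≤ p * (∫ x in ball c R, ∑ i ∈ s, b i x) +
      q * (∫ x in ball c R, ∑ i ∈ s, d i x) + w * ∫ x in ball c R, ∑ i ∈ s, e i x := by
  have i1 := lb_int_bf3 (LBfreq.sum s ha) c R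
  have i2 := lb_int_bf3 (LBfreq.sum s hb) c R
  have i3 := lb_int_bf3 (LBfreq.sum s hd) c R
  have i4 := lb_int_bf3 (LBfreq.sum s he) c R
  have i5 : IntegrableOn (fun x => p * ∑ i ∈ s, b i x + q * ∑ i ∈ s, d i x) (ball c R) :=
    (i2.const_mul p).add (i3.const_mul q)
  rw [← integral_const_mul, ← integral_const_mul, ← integral_const_mul, ← integral_const_mul,
    ← integral_add (i2.const_mul p) (i3.const_mul q), ← integral_add i5 (i4.const_mul w)]
  refine setIntegral_mono_on (i1.const_mul o) (i5.add (i4.const_mul w)) measurableSet_ball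
    fun x hx => ?_
  simp only [Finset.mul_sum, ← Finset.sum_add_distrib]
  exact Finset.sum_le_sum fun i hi => h i hi x hx

theorem up_bf3 (ha : ∀ i, LBfreq (a i)) (hb : ∀ i, LBfreq (b i)) {ρ : ℝ} (hρ : ρ ≤ R) (p : ℝ)
    (h : ∀ i ∈ s, ∀ x ∈ ball c ρ, a i x ≤ p * b i x)
    (h0 : ∀ i ∈ s, ∀ x ∈ ball c R, x ∉ ball c ρ → a i x = 0) :
    ∫ x in ball c R, ∑ i ∈ s, a i x ≤ p * ∫ x in ball c ρ, ∑ i ∈ s, b i x := by
  rw [setIntegral_eq_of_subset_of_forall_sdiff_eq_zero measurableSet_ball (ball_subset_ball hρ)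
    fun x hx => Finset.sum_eq_zero fun i hi => h0 i hi x hx.1 hx.2, ← integral_const_mul]
  refine setIntegral_mono_on (lb_int_bf3 (LBfreq.sum s ha) c ρ)
    ((lb_int_bf3 (LBfreq.sum s hb) c ρ).const_mul p) measurableSet_ball fun x hx => ?_
  rw [Finset.mul_sum]
  exact Finset.sum_le_sum fun i hi => h i hi x hx

theorem low_bf3 (ha : ∀ i, LBfreq (a i)) (hb : ∀ i, LBfreq (b i)) {ρ : ℝ} (hρ : ρ ≤ R) {p : ℝ}
    (hp : 0 ≤ p) (h : ∀ i ∈ s, ∀ x ∈ ball c ρ, b i x ≤ p * a i x) (h0 : ∀ i x, 0 ≤ a i x) :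
    ∫ x in ball c ρ, ∑ i ∈ s, b i x ≤ p * ∫ x in ball c R, ∑ i ∈ s, a i x := by
  refine le_trans ?_ (mul_le_mul_of_nonneg_left (setIntegral_mono_set
    (lb_int_bf3 (LBfreq.sum s ha) c R) (ae_of_all _ fun x => Finset.sum_nonneg fun i _ => h0 i x)
    (ball_subset_ball hρ).eventuallyLE) hp)
  rw [← integral_const_mul]
  refine setIntegral_mono_on (lb_int_bf3 (LBfreq.sum s hb) c ρ)
    ((lb_int_bf3 (LBfreq.sum s ha) c ρ).const_mul p) measurableSet_ball fun x hx => ?_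
  rw [Finset.mul_sum]
  exact Finset.sum_le_sum fun i hi => h i hi x hx

theorem cs_pt_bf3 {τ ζ I J F W A o : ℝ} (ho : 0 ≤ o) (hW : 0 < W) (hF : F = W - J) (hJ : |J| ≤ W)
    (hA : ζ ^ 2 ≤ A) : -(2 * τ) * (o * (ζ * I * J / W)) ≤
      τ * τ * (o * (ζ ^ 2 * J)) + τ * τ * A * (o * F) + 1 * (o * (I ^ 2 / W)) := by
  have h1 : J ^ 2 ≤ W ^ 2 := by
    rw [← sq_abs J]
    exact pow_le_pow_left₀ (abs_nonneg _) hJ 2
  have h2 : 0 ≤ F := by linarith [le_abs_self J]
  have h3 : 0 ≤ (τ * ζ * J + I) ^ 2 / W := by positivity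
  have h4 : 0 ≤ (τ * ζ) ^ 2 * (W ^ 2 - J ^ 2) / W := div_nonneg (mul_nonneg (sq_nonneg _)
    (by linarith)) hW.le
  have h5 : 0 ≤ τ ^ 2 * (A - ζ ^ 2) * F := mul_nonneg (mul_nonneg (sq_nonneg _) (by linarith)) h2
  have h6 : τ * τ * (o * (ζ ^ 2 * J)) + τ * τ * A * (o * F) + 1 * (o * (I ^ 2 / W)) -
      -(2 * τ) * (o * (ζ * I * J / W)) = o * ((τ * ζ * J + I) ^ 2 / W +
        (τ * ζ) ^ 2 * (W ^ 2 - J ^ 2) / W + τ ^ 2 * (A - ζ ^ 2) * F) := by
    rw [hF]
    field_simp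
    ring
  have h7 := mul_nonneg ho (add_nonneg (add_nonneg h3 h4) h5)
  linarith

theorem sub_pt_bf3 {ζ I J F W A r o : ℝ} (ho : 0 ≤ o) (hW : 0 < W) (hF : F = W - J) (hF0 : 0 ≤ F)
    (hA : |ζ| ≤ A) (hI : |I| ≤ r * W) : |o * (ζ * I) - o * (ζ * I * J / W)| ≤ A * r * (o * F) := by
  have h1 : o * (ζ * I) - o * (ζ * I * J / W) = o * (ζ * I * F / W) := by
    rw [hF]
    field_simp
  have h2 : |ζ * I * F / W| ≤ A * r * F := by
    rw [abs_div, abs_mul, abs_mul, abs_of_nonneg hF0, abs_of_pos hW, div_le_iff₀ hW]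
    have := mul_le_mul_of_nonneg_right
      (mul_le_mul hA hI (abs_nonneg _) ((abs_nonneg _).trans hA)) hF0
    linarith
  rw [h1, abs_mul, abs_of_nonneg ho]
  linarith [mul_le_mul_of_nonneg_left h2 ho]

end aux

theorem rB_nonneg (hr : 0 < r) : 0 ≤ rB β s u c z R r := by
  exact mul_nonneg (by positivity) (integral_nonneg fun x => Finset.sum_nonneg fun i _ =>
    mul_nonneg (by positivity) (div_nonneg (sq_nonneg _) (Wb_pos _ _).le))

theorem dB_nonneg (hr : 0 < r) : 0 ≤ dB β s u c z R r := by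
  exact mul_nonneg (by positivity) (integral_nonneg fun x => Finset.sum_nonneg fun i _ =>
    mul_nonneg (pow_nonneg (pb_nonneg_bf3 _ _ _ _ _ _) 3) (mul_nonneg zero_le_two (Fb_nonneg _ _)))

theorem eB_nonneg (hr : 0 < r) : 0 ≤ eB β s u c z R r := by
  exact mul_nonneg (by positivity) (integral_nonneg fun x => Finset.sum_nonneg fun i _ =>
    mul_nonneg (by positivity) (Fb_nonneg _ _))

theorem HB_nonneg (hr : 0 < r) : 0 ≤ HB β s u c z R r := by
  exact mul_nonneg (by positivity) (integral_nonneg fun x => Finset.sum_nonneg fun i _ =>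
    by positivity)

theorem tB_le_dB (hL : ∀ i, LipschitzWith L (u i)) (hr : 0 < r) :
    0 ≤ tB β s u c z R r ∧ tB β s u c z R r ≤ dB β s u c z R r := by
  refine ⟨mul_nonneg (by positivity) (integral_nonneg fun x => Finset.sum_nonneg fun i _ =>
    mul_nonneg (pow_nonneg (pb_nonneg_bf3 _ _ _ _ _ _) 3)
      (div_nonneg (sq_nonneg _) (Wb_pos _ _).le)), ?_⟩
  have jt := fun i => (lb_pb_bf3 (hL i) β c z r 3).mul
    (lb_div_bf3 (LBfreq.norm (hL i)).sq (hL i) β)
  have jd := fun i => (lb_pb_bf3 (hL i) β c z r 3).mul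
    ((LBfreq.const 2).mul (lb_q_bf3 (hL i) (continuous_Fb β)))
  have h1 := le_bf3 (s := s) (c := c) (R := R) jt jd jd jd 1 1 0 0 fun i _ x _ => by
    have k1 := two_Fb_sub β (gradient (u i) x)
    have k2 : 0 ≤ Fb β (gradient (u i) x) ^ 2 / Wb β (gradient (u i) x) :=
      div_nonneg (sq_nonneg _) (Wb_pos _ _).le
    have k3 := mul_le_mul_of_nonneg_left (show ‖gradient (u i) x‖ ^ 2 / Wb β (gradient (u i) x) ≤
      2 * Fb β (gradient (u i) x) by linarith) (pow_nonneg (pb_nonneg_bf3 β c z r (u i) x) 3)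
    linarith
  exact mul_le_mul_of_nonneg_left (by linarith) (by positivity)

/-- The estimates that use a bound `B r` for the height on the cylinder. -/
theorem tB_est (h : StatB β s u (ball c R)) (hL : ∀ i, LipschitzWith L (u i))
    (hP : Pr β s u c z r₀ R) (hr : 0 < r) (hr₀ : r₀ ≤ 2 * r) (hR : 2 * r < R) {B : ℝ}
    (hB0 : 0 ≤ B) (hB1 : B ≤ 1) (hBb : ∀ i ∈ s, ∀ x ∈ ball c (2 * r), |u i x - z| ≤ B * r) :
    tB β s u c z R r ^ 2 ≤ (hB β s u c z R r +
        (2 * m + 8) * B * (rB β s u c z R r + dB β s u c z R r)) * rB β s u c z R r ∧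
      |t0B β s u c z R r - tB β s u c z R r| ≤
        (2 * m + 8) * B * (rB β s u c z R r + dB β s u c z R r) := by
  have jo := fun i => lb_om_bf3 (hL i) β c z r
  have jI := fun i => lb_I_bf3 (hL i) β c z
  have jz := fun i => LBfreq.ht (hL i) z
  have jJ := fun i => lb_q_bf3 (hL i) (continuous_Jb β)
  have jt := fun i => (jo i).mul (lb_div_bf3 (((jz i).mul (jI i)).mul (jJ i)) (hL i) β)
  have jh := fun i => (jo i).mul ((jz i).sq.mul (jJ i))
  have je := fun i => (jo i).mul (lb_q_bf3 (hL i) (continuous_Fb β))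
  have jr := fun i => (jo i).mul (lb_div_bf3 (jI i).sq (hL i) β)
  have j0 := fun i => (jo i).mul ((jz i).mul (jI i))
  have h1 := fun τ : ℝ => le_bf3 (s := s) (c := c) (R := R) jt jh je jr (-(2 * τ)) (τ * τ)
    (τ * τ * (B * r) ^ 2) 1 fun i hi x hx => by
      by_cases h0 : pb β c z r (u i) x = 0
      · simp [h0]
      refine cs_pt_bf3 (by positivity) (Wb_pos _ _) rfl (abs_Jb_le _ _) ?_
      rw [← sq_abs]
      exact pow_le_pow_left₀ (abs_nonneg _) (hBb i hi x (pb_ball_bf3 hP hr hr₀ hi hx h0)) 2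
  have hp : ∀ i ∈ s, ∀ x ∈ ball c R, |3 * pb β c z r (u i) x ^ 2 *
      ((u i x - z) * ⟪yb β c z (x, u i x), gradient (u i) x⟫) - 3 * pb β c z r (u i) x ^ 2 *
      ((u i x - z) * ⟪yb β c z (x, u i x), gradient (u i) x⟫ * Jb β (gradient (u i) x) /
        Wb β (gradient (u i) x))| ≤
      B * r * r * (3 * pb β c z r (u i) x ^ 2 * Fb β (gradient (u i) x)) := fun i hi x hx => by
    by_cases h0 : pb β c z r (u i) x = 0
    · simp [h0]
    exact sub_pt_bf3 (by positivity) (Wb_pos _ _) rfl (Fb_nonneg _ _)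
      (hBb i hi x (pb_ball_bf3 hP hr hr₀ hi hx h0)) ((abs_real_inner_le_norm _ _).trans
        (mul_le_mul (pb_supp_bf3 hr h0).le (norm_le_Wb _ _) (norm_nonneg _) hr.le))
  have h2 := le_bf3 (s := s) (c := c) (R := R) j0 jt je je 1 1 (B * r * r) 0 fun i hi x hx => by
    linarith [(abs_le.1 (hp i hi x hx)).2]
  have h3 := le_bf3 (s := s) (c := c) (R := R) jt j0 je je 1 1 (B * r * r) 0 fun i hi x hx => by
    linarith [(abs_le.1 (hp i hi x hx)).1]
  have h4 := (dB_deriv h hL hP hr hr₀ hR).2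
  have h5 := rB_nonneg (β := β) (c := c) (s := s) (u := u) (z := z) (R := R) hr
  have h6 := dB_nonneg (β := β) (c := c) (s := s) (u := u) (z := z) (R := R) hr
  have h7 := eB_nonneg (β := β) (c := c) (s := s) (u := u) (z := z) (R := R) hr
  have h8 : 2 * B * eB β s u c z R r ≤ (2 * m + 8) * B * (rB β s u c z R r + dB β s u c z R r) := by
    have k1 := mul_le_mul_of_nonneg_left h4 hB0
    have k2 := mul_nonneg hB0 h5
    have k3 := mul_nonneg (Nat.cast_nonneg (α := ℝ) m) k2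
    linarith
  have hk : 0 < 2 / r ^ m := by positivity
  rw [tB_eq h hL hP hr hr₀ hR]
  rw [rB] at h5
  rw [eB] at h7
  rw [eB, rB] at h8
  rw [rB, hB, t0B]
  generalize (∫ x in ball c R, ∑ i ∈ s, 3 * pb β c z r (u i) x ^ 2 *
    ((u i x - z) * ⟪yb β c z (x, u i x), gradient (u i) x⟫ * Jb β (gradient (u i) x) /
      Wb β (gradient (u i) x))) = T at *
  generalize (∫ x in ball c R, ∑ i ∈ s, 3 * pb β c z r (u i) x ^ 2 *
    ((u i x - z) ^ 2 * Jb β (gradient (u i) x))) = H at *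
  generalize (∫ x in ball c R, ∑ i ∈ s, 3 * pb β c z r (u i) x ^ 2 *
    Fb β (gradient (u i) x)) = Q at *
  generalize (∫ x in ball c R, ∑ i ∈ s, 3 * pb β c z r (u i) x ^ 2 *
    (⟪yb β c z (x, u i x), gradient (u i) x⟫ ^ 2 / Wb β (gradient (u i) x))) = P at *
  generalize (∫ x in ball c R, ∑ i ∈ s, 3 * pb β c z r (u i) x ^ 2 *
    ((u i x - z) * ⟪yb β c z (x, u i x), gradient (u i) x⟫)) = T0 at *
  have e1 : 2 / r ^ m * (B * r * r * Q) = 2 * B * (r ^ 2 / r ^ m * Q) := by ring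
  constructor
  · have k1 := discrim_le_zero (a := H + (B * r) ^ 2 * Q) (b := 2 * T) (c := P) fun τ => by
      linarith [h1 τ]
    rw [discrim] at k1
    have k2 : (2 / r ^ m * T) ^ 2 ≤ (2 / r ^ m * H + B * (2 * B * (r ^ 2 / r ^ m * Q))) *
        (2 / r ^ m * P) := by
      have := mul_le_mul_of_nonneg_left (show T ^ 2 ≤ (H + (B * r) ^ 2 * Q) * P by linarith)
        (sq_nonneg (2 / r ^ m))
      calc (2 / r ^ m * T) ^ 2 = (2 / r ^ m) ^ 2 * T ^ 2 := by ring
        _ ≤ _ := this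
        _ = _ := by ring
    refine k2.trans (mul_le_mul_of_nonneg_right (add_le_add le_rfl (le_trans ?_ h8)) h5)
    exact mul_le_of_le_one_left (mul_nonneg (by positivity) h7) hB1
  · rw [← mul_sub, abs_mul, abs_of_pos hk]
    refine le_trans (le_trans (mul_le_mul_of_nonneg_left (abs_le.2 ⟨?_, ?_⟩) hk.le) e1.le) h8
    · linarith
    · linarith

theorem sizes (m : ℕ) (L : ℝ≥0) : ∃ C > 0, ∀ (β c : E m) (s : Finset ι) (u : ι → E m → ℝ)
    (z r₀ R r : ℝ), ‖β‖ ≤ L → (∀ i, LipschitzWith L (u i)) → Pr β s u c z r₀ R → 0 < r →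
      2 * r₀ ≤ r → 2 * r < R →
      dB β s u c z R r ≤ C * (r ^ 2 / r ^ m * En s u 0 c (2 * r)) ∧
      r ^ 2 / r ^ m * En s u 0 c (r / 4) ≤ C * dB β s u c z R r ∧
      HB β s u c z R r ≤ 6 / r ^ m * Ht s u z c (2 * r) ∧
      Ht s u z c (r / 4) / r ^ m ≤ HB β s u c z R r ∧
      hB β s u c z R r ≤ C * HB β s u c z R r ∧
      HB β s u c z R r ≤ 2 * hB β s u c z R r + C * eB β s u c z R r ∧
      2 * t0B β s u c z R r ≤ HB β s u c z R r / 2 + C * rB β s u c z R r ∧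
      eB β s u c z R r ≤ C * dB β s u c z R (2 * r) := by
  have hL0 : (0 : ℝ) ≤ L := L.2
  obtain ⟨M, hM⟩ : ∃ M : ℝ, M = 1 + (L + 1) * L := ⟨_, rfl⟩
  have hM1 : 1 + (L : ℝ) ^ 2 ≤ M := by nlinarith
  have hM0 : 1 ≤ M := by nlinarith
  obtain ⟨C, hC⟩ : ∃ C : ℝ, C = 2 ^ m + 4 * (1 + L) ^ 2 + 4 * M + 4 * (L ^ 2 * M) := ⟨_, rfl⟩
  have c0 : (0 : ℝ) < 2 ^ m := by positivity
  have c1 : (0 : ℝ) ≤ (1 + L) ^ 2 := by positivity
  have c2 : (0 : ℝ) ≤ L ^ 2 * M := by positivity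
  have hC0 : 0 < C := by linarith
  refine ⟨C, hC0, fun β c s u z r₀ R r hβ hL hP hr hr₀ hR => ?_⟩
  have hr₁ : r₀ ≤ 2 * r := by linarith
  have hk : 0 < 2 / r ^ m := by positivity
  have hk' : 0 < r ^ 2 / r ^ m := by positivity
  have jo := fun i => lb_om_bf3 (hL i) β c z r
  have jI := fun i => lb_I_bf3 (hL i) β c z
  have jz := fun i => LBfreq.ht (hL i) z
  have jF := fun i => lb_q_bf3 (hL i) (continuous_Fb β)
  have jd := fun (t : ℝ) i => (lb_pb_bf3 (hL i) β c z t 3).mul ((LBfreq.const 2).mul (jF i))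
  have jh := fun i => (jo i).mul ((jz i).sq.mul (lb_q_bf3 (hL i) (continuous_Jb β)))
  have jH := fun i => (jo i).mul (jz i).sq
  have je := fun i => (jo i).mul (jF i)
  have jr := fun i => (jo i).mul (lb_div_bf3 (jI i).sq (hL i) β)
  have j0 := fun i => (jo i).mul ((jz i).mul (jI i))
  have jE := fun i => lb_q_bf3 (hL i) (φ := fun q => ‖q - 0‖ ^ 2) (by fun_prop)
  have p0 := fun t i x => pb_nonneg_bf3 β c z t (u i) x
  have p1 := fun t i x => pb_le_one_bf3 β c z t (u i) x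
  have hF := fun i x => Fb_nonneg β (gradient (u i) x)
  have hW : ∀ i x, Wb β (gradient (u i) x) ≤ M := fun i x => (Wb_le _ _).trans (by
    rw [hM]
    exact add_le_add le_rfl (mul_le_mul (by linarith) (norm_grad_le (hL i) x) (norm_nonneg _)
      (by linarith)))
  have hq : ∀ i x, ‖gradient (u i) x‖ ^ 2 ≤ 2 * M * Fb β (gradient (u i) x) := fun i x =>
    (sq_le_Fb β _).trans (mul_le_mul_of_nonneg_right (by linarith [hW i x]) (hF i x))
  have hI : ∀ i x, |⟪β, gradient (u i) x⟫| ≤ L * ‖gradient (u i) x‖ := fun i x =>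
    (abs_real_inner_le_norm _ _).trans (mul_le_mul_of_nonneg_right hβ (norm_nonneg _))
  have hz : ∀ i ∈ s, ∀ x ∈ ball c R, x ∉ ball c (2 * r) → pb β c z r (u i) x = 0 :=
    fun i hi x hx hx' => by
      by_contra hn
      exact hx' (pb_ball_bf3 hP hr hr₁ hi hx hn)
  have hn : ∀ i ∈ s, ∀ x ∈ ball c (r / 4), 3 / 4 ≤ pb β c z r (u i) x := fun i hi x hx =>
    pb_ge_bf3 hr (hP.near hr₀ hi (ball_subset_ball (by linarith) hx) hx)
  refine ⟨?_, ?_, ?_, ?_, ?_, ?_, ?_, ?_⟩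
  · have h1 := up_bf3 (s := s) (c := c) (jd r) jE hR.le C (fun i _ x _ => by
      have k1 : Fb β (gradient (u i) x) ≤ 2 * (1 + L) ^ 2 * ‖gradient (u i) x‖ ^ 2 :=
        (Fb_le _ _).trans (by gcongr)
      have k2 := mul_le_of_le_one_left (mul_nonneg zero_le_two (hF i x))
        (pow_le_one₀ (n := 3) (p0 r i x) (p1 r i x))
      have k3 := mul_le_mul_of_nonneg_right (show 4 * (1 + (L : ℝ)) ^ 2 ≤ C by linarith)
        (sq_nonneg ‖gradient (u i) x‖)
      rw [sub_zero]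
      linarith) fun i hi x hx hx' => by simp [hz i hi x hx hx']
    rw [mul_left_comm]
    exact mul_le_mul_of_nonneg_left h1 hk'.le
  · have h1 := low_bf3 (s := s) (c := c) (jd r) jE (show r / 4 ≤ R by linarith) hC0.le
      (fun i hi x hx => by
        have k1 := pow_le_pow_left₀ (by norm_num) (hn i hi x hx) 3
        have k2 := mul_le_mul (show 3 * M ≤ C by linarith)
          (mul_le_mul_of_nonneg_right (show 1 / 3 ≤ pb β c z r (u i) x ^ 3 by linarith)
            (mul_nonneg zero_le_two (hF i x))) (by linarith [hF i x]) hC0.le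
        rw [sub_zero]
        linarith [hq i x])
      fun i x => mul_nonneg (pow_nonneg (p0 r i x) 3) (mul_nonneg zero_le_two (hF i x))
    rw [dB, mul_left_comm]
    exact mul_le_mul_of_nonneg_left h1 hk'.le
  · have h1 := up_bf3 (s := s) (c := c) jH (fun i => (jz i).sq) hR.le 3 (fun i _ x _ =>
      mul_le_mul_of_nonneg_right (by linarith [pow_le_one₀ (n := 2) (p0 r i x) (p1 r i x)])
        (sq_nonneg _)) fun i hi x hx hx' => by simp [hz i hi x hx hx']
    refine (mul_le_mul_of_nonneg_left h1 hk.le).trans_eq ?_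
    rw [Ht]
    ring
  · have h1 := low_bf3 (s := s) (c := c) jH (fun i => (jz i).sq) (show r / 4 ≤ R by linarith)
      zero_le_two (fun i hi x hx => by
        have k1 := pow_le_pow_left₀ (by norm_num) (hn i hi x hx) 2
        have k2 := mul_le_mul_of_nonneg_right
          (show 1 ≤ 6 * pb β c z r (u i) x ^ 2 by linarith) (sq_nonneg (u i x - z))
        linarith) fun i x => by positivity
    rw [HB, div_mul_eq_mul_div]
    exact div_le_div_of_nonneg_right h1 (by positivity)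
  · have h1 := le_bf3 (s := s) (c := c) (R := R) jh jH jH jH 1 C 0 0 fun i _ x _ => by
      have k1 : Jb β (gradient (u i) x) ≤ C := by
        linarith [(abs_le.1 (abs_Jb_le β (gradient (u i) x))).2, hW i x]
      have k2 := mul_le_mul_of_nonneg_left k1
        (show 0 ≤ 3 * pb β c z r (u i) x ^ 2 * (u i x - z) ^ 2 by positivity)
      linarith
    rw [hB, HB, mul_left_comm]
    exact mul_le_mul_of_nonneg_left (by linarith) hk.le
  · have h1 := le_bf3 (s := s) (c := c) (R := R) jH jh je je 1 2 (C / 2 * r ^ 2) 0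
      fun i hi x hx => by
        by_cases h0 : pb β c z r (u i) x = 0
        · simp [h0]
        have k0 : (u i x - z) ^ 2 ≤ r ^ 2 := by
          rw [← sq_abs]
          exact pow_le_pow_left₀ (abs_nonneg _)
            (hP.height hr₁ hi hx (pb_ball_bf3 hP hr hr₁ hi hx h0)) 2
        have k1 : 1 - 2 * Jb β (gradient (u i) x) ≤ C / 2 * Fb β (gradient (u i) x) := by
          have l1 := (abs_le.1 (hI i x)).1
          have l2 := sq_nonneg (L * ‖gradient (u i) x‖ - 1)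
          have l3 := mul_le_mul_of_nonneg_left (hq i x) (sq_nonneg (L : ℝ))
          have l4 := mul_le_mul_of_nonneg_right (show 2 * (L ^ 2 * M) ≤ C / 2 by linarith) (hF i x)
          rw [Jb]
          linarith
        have k2 := (mul_le_mul_of_nonneg_left k1 (sq_nonneg (u i x - z))).trans
          (mul_le_mul_of_nonneg_right k0 (mul_nonneg (half_pos hC0).le (hF i x)))
        have k3 := mul_le_mul_of_nonneg_left k2
          (show 0 ≤ 3 * pb β c z r (u i) x ^ 2 by positivity)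
        linarith
    have h2 := mul_le_mul_of_nonneg_left h1 hk.le
    rw [HB, hB, eB]
    refine le_trans (le_of_eq (by ring)) (h2.trans_eq (by ring))
  · have h1 := le_bf3 (s := s) (c := c) (R := R) j0 jH jr jr 2 (1 / 2) C 0 fun i _ x _ => by
      have k0 := Wb_pos β (gradient (u i) x)
      have k1 : 2 * ⟪yb β c z (x, u i x), gradient (u i) x⟫ ^ 2 ≤
          C * (⟪yb β c z (x, u i x), gradient (u i) x⟫ ^ 2 / Wb β (gradient (u i) x)) := by
        rw [← mul_div_assoc, le_div_iff₀ k0]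
        have := mul_le_mul_of_nonneg_right (show 2 * Wb β (gradient (u i) x) ≤ C by
          linarith [hW i x]) (sq_nonneg ⟪yb β c z (x, u i x), gradient (u i) x⟫)
        linarith
      have k2 := sq_nonneg (u i x - z - 2 * ⟪yb β c z (x, u i x), gradient (u i) x⟫)
      have k3 := mul_le_mul_of_nonneg_left
        (show 2 * ((u i x - z) * ⟪yb β c z (x, u i x), gradient (u i) x⟫) ≤
          1 / 2 * (u i x - z) ^ 2 +
          C * (⟪yb β c z (x, u i x), gradient (u i) x⟫ ^ 2 / Wb β (gradient (u i) x)) by linarith)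
        (show 0 ≤ 3 * pb β c z r (u i) x ^ 2 by positivity)
      linarith
    have h2 := mul_le_mul_of_nonneg_left h1 hk.le
    rw [t0B, HB, rB]
    refine le_trans (le_of_eq (by ring)) (h2.trans_eq (by ring))
  · have h1 := le_bf3 (s := s) (c := c) (R := R) je (jd (2 * r)) je je 1 4 0 0 fun i _ x _ => by
      have k0 := mul_nonneg (pow_nonneg (p0 (2 * r) i x) 3) (mul_nonneg zero_le_two (hF i x))
      by_cases h0 : pb β c z r (u i) x = 0
      · rw [h0]
        linarith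
      have k1 : 3 / 4 ≤ pb β c z (2 * r) (u i) x :=
        pb_ge_bf3 (by linarith) (by linarith [pb_supp_bf3 hr h0])
      have k2 := pow_le_pow_left₀ (by norm_num) k1 3
      have k3 := pow_le_one₀ (n := 2) (p0 r i x) (p1 r i x)
      have k4 := mul_le_mul_of_nonneg_right (show 3 * pb β c z r (u i) x ^ 2 ≤
        8 * pb β c z (2 * r) (u i) x ^ 3 by linarith) (hF i x)
      linarith
    have h2 := mul_le_mul_of_nonneg_left h1 hk'.le
    have h3 := mul_le_mul_of_nonneg_right (show (2 : ℝ) ^ m ≤ C by linarith)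
      (dB_nonneg (β := β) (c := c) (s := s) (u := u) (z := z) (R := R) (show 0 < 2 * r by linarith))
    refine le_trans ?_ h3
    rw [eB, dB]
    refine le_trans (le_of_eq (by ring)) (h2.trans_eq ?_)
    rw [mul_pow 2 r m]
    field_simp
    ring

end Pool.Agent.Lib.MP_8daebb_an.LH
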