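import Pool.Agent.Lib.MP_8daebb_an.LH.BNL
import Pool.Agent.Lib.MP_8daebb_an.LG.RotB

open MeasureTheory Metric Set Filter Topology
open scoped RealInnerProductSpace NNReal
open Pool.Agent.Lib.MP_8daebb_an.LG

namespace Pool.Agent.Lib.MP_8daebb_an.LH

variable {m : ℕ} {ι : Type}

/-! BLIN. The linear change of coordinates. -/

theorem lip_lc {f : E m → ℝ} {L : ℝ≥0} (hf : LipschitzWith L f) {p : E m} (hp : ‖p‖ ≤ L)
    (c : E m) (z : ℝ) : LipschitzWith (2 * L) (lc p c z f) := by
  refine LipschitzWith.of_dist_le_mul fun x y => ?_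
  have hW := one_le_W p
  have h0 : ‖TT p (x - y)‖ ≤ ‖x - y‖ := norm_TT_le p _
  have h1 : |f (c + TT p x) - f (c + TT p y)| ≤ L * ‖TT p (x - y)‖ := by
    have := hf.dist_le_mul (c + TT p x) (c + TT p y)
    rwa [Real.dist_eq, dist_eq_norm, add_sub_add_left_eq_sub, ← map_sub] at this
  have h2 : |⟪p, TT p (x - y)⟫| ≤ L * ‖TT p (x - y)‖ :=
    (abs_real_inner_le_norm _ _).trans (mul_le_mul_of_nonneg_right hp (norm_nonneg _))
  have e : lc p c z f x - lc p c z f y =
      (f (c + TT p x) - f (c + TT p y) - ⟪p, TT p (x - y)⟫) / W p := by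
    rw [lc, lc, map_sub, inner_sub_right]
    ring
  rw [Real.dist_eq, dist_eq_norm, e, abs_div, abs_of_pos (W_pos_alga p)]
  refine (div_le_self (abs_nonneg _) hW).trans ((abs_sub _ _).trans ?_)
  have h3 := mul_le_mul_of_nonneg_left h0 L.coe_nonneg
  push_cast
  linarith

theorem lip_lc_blin {f : E m → ℝ} {L : ℝ≥0} (hf : LipschitzWith L f) (p c : E m) (z : ℝ) :
    LipschitzWith (2 * (L + ‖p‖₊)) (lc p c z f) :=
  lip_lc (hf.weaken le_self_add) (by
    push_cast
    linarith [L.coe_nonneg]) c z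

/-- The affine homeomorphism. -/
noncomputable def affBlin (p c : E m) : E m ≃ₜ E m where
  toFun x := c + TT p x
  invFun y := TI p (y - c)
  left_inv x := by
    simp only [add_sub_cancel_left, TI_TT]
  right_inv y := by
    simp only [TT_TI, add_sub_cancel]
  continuous_toFun := continuous_const.add (TT p).continuous
  continuous_invFun := (TI p).continuous.comp (continuous_id.sub continuous_const)

theorem emb_blin (p c : E m) : MeasurableEmbedding fun x : E m => c + TT p x :=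
  (affBlin p c).measurableEmbedding

theorem map_blin (p c : E m) :
    Measure.map (fun x : E m => c + TT p x) volume = ENNReal.ofReal (W p) • volume := by
  have h1 : (fun x : E m => c + TT p x) =
      (fun z => c + z) ∘ ((TT p : E m →L[ℝ] E m) : E m →ₗ[ℝ] E m) := rfl
  have hd : LinearMap.det ((TT p : E m →L[ℝ] E m) : E m →ₗ[ℝ] E m) = (W p)⁻¹ := det_TT p
  have hm : Measurable ((TT p : E m →L[ℝ] E m) : E m →ₗ[ℝ] E m) := (TT p).continuous.measurable
  rw [h1, ← Measure.map_map (measurable_const_add c) hm,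
    Measure.map_linearMap_addHaar_eq_smul_addHaar volume
      (by rw [hd]; exact inv_ne_zero (W_pos_alga p).ne'),
    Measure.map_smul, map_add_left_eq_self, hd, inv_inv, abs_of_pos (W_pos_alga p)]

theorem int_lc (G : E m → ℝ) (p c : E m) : ∫ x, G (c + TT p x) = W p * ∫ x, G x := by
  rw [← (emb_blin p c).integral_map, map_blin, integral_smul_measure,
    ENNReal.toReal_ofReal (W_pos_alga p).le, smul_eq_mul]

theorem vol_lc (S : Set (E m)) (p c : E m) :
    volume {x | c + TT p x ∈ S} = ENNReal.ofReal (W p) * volume S := by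
  have h := (emb_blin p c).map_apply volume S
  rw [map_blin, Measure.smul_apply, smul_eq_mul] at h
  exact h.symm

theorem ae_blin {P : E m → Prop} (h : ∀ᵐ y, P y) (p c : E m) : ∀ᵐ x, P (c + TT p x) := by
  rw [ae_iff] at h ⊢
  have h1 := vol_lc {y | ¬ P y} p c
  rw [h, mul_zero] at h1
  exact h1

theorem intg_blin {G : E m → ℝ} (hG : Integrable G) (p c : E m) :
    Integrable fun x => G (c + TT p x) := by
  refine (emb_blin p c).integrable_map_iff.1 ?_
  rw [map_blin]
  exact hG.smul_measure ENNReal.ofReal_ne_top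

theorem hasF_aff_blin (p c x : E m) : HasFDerivAt (fun x : E m => c + TT p x) (TT p) x :=
  (TT p).hasFDerivAt.const_add c

theorem grad_aff_blin {Ψ : E m → ℝ} {p c x : E m} (h : DifferentiableAt ℝ Ψ (c + TT p x)) :
    gradient Ψ (c + TT p x) = TI p (gradient (fun y => Ψ (c + TT p y)) x) := by
  refine ext_inner_right ℝ fun v => ?_
  have h1 : HasFDerivAt (fun y => Ψ (c + TT p y)) ((fderiv ℝ Ψ (c + TT p x)).comp (TT p)) x :=
    h.hasFDerivAt.comp x (hasF_aff_blin p c x)
  rw [sym_TI p, inner_grad, inner_grad, h1.fderiv, ContinuousLinearMap.comp_apply, TT_TI]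

theorem grad_lc_blin {f : E m → ℝ} {p c x : E m} (z : ℝ) (h : DifferentiableAt ℝ f (c + TT p x)) :
    gradient f (c + TT p x) = p + W p • TI p (gradient (lc p c z f) x) := by
  refine ext_inner_right ℝ fun v => ?_
  have h1 : HasFDerivAt (fun y => f (c + TT p y)) ((fderiv ℝ f (c + TT p x)).comp (TT p)) x :=
    h.hasFDerivAt.comp x (hasF_aff_blin p c x)
  have h2 : HasFDerivAt (fun y : E m => (⟪p, TT p y⟫ : ℝ)) ((innerSL ℝ p).comp (TT p)) x :=
    ((innerSL ℝ p).comp (TT p)).hasFDerivAt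
  have h3 := ((h1.sub_const z).sub h2).const_mul (W p)⁻¹
  have e : lc p c z f = fun y => (W p)⁻¹ * (f (c + TT p y) - z - ⟪p, TT p y⟫) := by
    funext y
    rw [lc, div_eq_inv_mul]
  have h4 : fderiv ℝ (lc p c z f) x = (W p)⁻¹ •
      ((fderiv ℝ f (c + TT p x)).comp (TT p) - (innerSL ℝ p).comp (TT p)) := by
    rw [e]
    exact h3.fderiv
  have hW := (W_pos_alga p).ne'
  rw [inner_add_left, real_inner_smul_left, sym_TI p, inner_grad, inner_grad, h4]
  simp only [_root_.smul_apply, _root_.sub_apply,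
    ContinuousLinearMap.comp_apply, TT_TI, innerSL_apply_apply, smul_eq_mul]
  field_simp
  ring

theorem ae_grad_lc {f : E m → ℝ} {L : ℝ≥0} (hf : LipschitzWith L f) (p c : E m) (z : ℝ) :
    ∀ᵐ x, DifferentiableAt ℝ f (c + TT p x) ∧
      gradient f (c + TT p x) = p + W p • TI p (gradient (lc p c z f) x) := by
  filter_upwards [ae_blin (hf.ae_differentiableAt (μ := volume)) p c] with x hx
  exact ⟨hx, grad_lc_blin z hx⟩

theorem alg_aa_blin (p q g : E m) : ⟪aa (p + W p • TI p q), TI p g⟫ = ⟪ab p q + p, g⟫ := by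
  rw [← sym_TI p, aa_change]

theorem alg_MM_blin (p q g e : E m) : ⟪MM (p + W p • TI p q) (TT p e), TI p g⟫ =
    W p * (Fb p q * ⟪e, g⟫ - ⟪q, e⟫ * ⟪ab p q, g⟫) + W p * ⟪g, e⟫ +
      W p * (⟪q, p⟫ * ⟪g, e⟫ - ⟪q, e⟫ * ⟪g, p⟫) - ⟪p, TT p e⟫ * ⟪ab p q + p, g⟫ := by
  have h1 : ⟪TT p e, TI p g⟫ = ⟪e, g⟫ := by rw [← sym_TI p, TI_TT]
  have h2 : ⟪p + W p • TI p q, TT p e⟫ = ⟪p, TT p e⟫ + W p * ⟪q, e⟫ := by
    rw [inner_add_left, real_inner_smul_left, sym_TI p, TI_TT]
  have h3 : (W (p + W p • TI p q))⁻¹ * ⟪p + W p • TI p q, TI p g⟫ = ⟪ab p q + p, g⟫ := by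
    rw [← alg_aa_blin, aa, real_inner_smul_left]
  have h4 : ⟪MM (p + W p • TI p q) (TT p e), TI p g⟫ =
      W (p + W p • TI p q) * ⟪TT p e, TI p g⟫ - ⟪p + W p • TI p q, TT p e⟫ *
        ((W (p + W p • TI p q))⁻¹ * ⟪p + W p • TI p q, TI p g⟫) := by
    rw [MM, inner_sub_left, real_inner_smul_left, real_inner_smul_left, div_eq_mul_inv, mul_assoc]
  rw [h4, h1, h2, h3, W_change, inner_add_left, Fb, Jb, real_inner_comm e g, real_inner_comm p q,
    real_inner_comm p g]
  ring

theorem sheet_blin {f Ψ : E m → ℝ} {L : ℝ≥0} (hf : LipschitzWith L f) (hΨ : LocallyLipschitz Ψ)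
    (p c : E m) (z : ℝ) {K : Set (E m)} (hK : IsCompact K)
    (h0 : ∀ x, x ∉ K → Ψ (c + TT p x) = 0) :
    (∫ x, ⟪ab p (gradient (lc p c z f) x), gradient (fun y => Ψ (c + TT p y)) x⟫ =
      W p * ∫ y, ⟪aa (gradient f y), gradient Ψ y⟫) ∧
    ∀ e : E m, ∫ x, (Fb p (gradient (lc p c z f) x) * ⟪e, gradient (fun y => Ψ (c + TT p y)) x⟫ -
        ⟪gradient (lc p c z f) x, e⟫ *
          ⟪ab p (gradient (lc p c z f) x), gradient (fun y => Ψ (c + TT p y)) x⟫) =
      (∫ y, ⟪MM (gradient f y) (TT p e), gradient Ψ y⟫) +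
        ⟪p, TT p e⟫ * ∫ y, ⟪aa (gradient f y), gradient Ψ y⟫ := by
  have hl := lip_lc_blin hf p c z
  have hA : LocallyLipschitz fun x : E m => c + TT p x :=
    (contDiff_const.add (TT p).contDiff : ContDiff ℝ 1 _).locallyLipschitz
  have hΦ : LocallyLipschitz fun y => Ψ (c + TT p y) := hΨ.comp hA
  have hc : HasCompactSupport fun y => Ψ (c + TT p y) := HasCompactSupport.intro hK h0
  have hae : ∀ᵐ x, gradient f (c + TT p x) = p + W p • TI p (gradient (lc p c z f) x) ∧
      gradient Ψ (c + TT p x) = TI p (gradient (fun y => Ψ (c + TT p y)) x) := by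
    filter_upwards [ae_grad_lc hf p c z, ae_blin (locLip_ae_diff hΨ) p c] with x h1 h2
    exact ⟨h1.2, grad_aff_blin h2⟩
  have hz := integral_grad_eq_zero hΦ hc
  have hi := int_grad_lipb hΦ hc
  have hn := null_lagr hl hΦ hc
  have hI : ∀ {F : E m → E m}, Continuous F → Integrable fun x =>
      ⟪F (gradient (lc p c z f) x), gradient (fun y => Ψ (c + TT p y)) x⟫ :=
    fun hF => int_rotb hl hΦ hK h0 hF
  generalize gradient (lc p c z f) = q at hae hn hI ⊢
  generalize gradient (fun y => Ψ (c + TT p y)) = g at hae hz hi hn hI ⊢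
  have a1 : ∫ x, ⟪ab p (q x) + p, g x⟫ = W p * ∫ y, ⟪aa (gradient f y), gradient Ψ y⟫ := by
    rw [← int_lc (fun y => ⟪aa (gradient f y), gradient Ψ y⟫) p c]
    refine integral_congr_ae ?_
    filter_upwards [hae] with x hx
    rw [hx.1, hx.2, alg_aa_blin]
  have i1 : Integrable fun x => ⟪ab p (q x), g x⟫ := hI (continuous_ab p)
  have i2 : Integrable fun x => ⟪ab p (q x) + p, g x⟫ :=
    hI (F := fun q => ab p q + p) ((continuous_ab p).add continuous_const)
  refine ⟨?_, fun e => ?_⟩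
  · rw [← a1]
    have e1 : ∀ x, ⟪ab p (q x) + p, g x⟫ = ⟪ab p (q x), g x⟫ + ⟪g x, p⟫ := fun x => by
      rw [inner_add_left, real_inner_comm p]
    simp only [e1]
    rw [integral_add i1 (hi p), hz p, add_zero]
  · have i3 : Integrable fun x => Fb p (q x) * ⟪e, g x⟫ - ⟪q x, e⟫ * ⟪ab p (q x), g x⟫ := by
      have c1 := continuous_Fb p
      have c2 := continuous_ab p
      have := hI (F := fun q => Fb p q • e - ⟪q, e⟫ • ab p q) (by fun_prop)
      simpa only [inner_sub_left, real_inner_smul_left] using this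
    have i4 : Integrable fun x => ⟪q x, p⟫ * ⟪g x, e⟫ - ⟪q x, e⟫ * ⟪g x, p⟫ := by
      have := hI (F := fun q => ⟪q, p⟫ • e - ⟪q, e⟫ • p) (by fun_prop)
      simpa only [inner_sub_right, real_inner_smul_right, real_inner_comm (g _)] using this
    have a2 : W p * ∫ y, ⟪MM (gradient f y) (TT p e), gradient Ψ y⟫ =
        ∫ x, (W p * (Fb p (q x) * ⟪e, g x⟫ - ⟪q x, e⟫ * ⟪ab p (q x), g x⟫) + W p * ⟪g x, e⟫ +
          W p * (⟪q x, p⟫ * ⟪g x, e⟫ - ⟪q x, e⟫ * ⟪g x, p⟫) -
            ⟪p, TT p e⟫ * ⟪ab p (q x) + p, g x⟫) := by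
      rw [← int_lc (fun y => ⟪MM (gradient f y) (TT p e), gradient Ψ y⟫) p c]
      refine integral_congr_ae ?_
      filter_upwards [hae] with x hx
      rw [hx.1, hx.2, alg_MM_blin]
    have j1 := i3.const_mul (W p)
    have j2 := (hi e).const_mul (W p)
    have j3 := i4.const_mul (W p)
    have j4 := i2.const_mul (⟪p, TT p e⟫ : ℝ)
    have j5 : Integrable fun x => W p * (Fb p (q x) * ⟪e, g x⟫ - ⟪q x, e⟫ * ⟪ab p (q x), g x⟫) +
        W p * ⟪g x, e⟫ := j1.add j2
    have j6 : Integrable fun x => W p * (Fb p (q x) * ⟪e, g x⟫ - ⟪q x, e⟫ * ⟪ab p (q x), g x⟫) +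
        W p * ⟪g x, e⟫ + W p * (⟪q x, p⟫ * ⟪g x, e⟫ - ⟪q x, e⟫ * ⟪g x, p⟫) := j5.add j3
    rw [integral_sub j6 j4, integral_add j5 j3, integral_add j1 j2,
      integral_const_mul, integral_const_mul, integral_const_mul, integral_const_mul, hz e,
      hn e p, a1] at a2
    refine mul_left_cancel₀ (W_pos_alga p).ne' ?_
    linarith

theorem stat_lc {s : Finset ι} {u : ι → E m → ℝ} {L : ℝ≥0} (hL : ∀ i, LipschitzWith L (u i))
    {Ω Ω' : Set (E m)} (h : Stat s u Ω) (p c : E m) (z : ℝ) (hΩ : ∀ x ∈ Ω', c + TT p x ∈ Ω) :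
    StatB p s (fun i => lc p c z (u i)) Ω' := by
  intro ψ hψ K hK hKΩ h0
  have hR : ContDiff ℝ 1 fun w : E m × ℝ =>
      (TI p (w.1 - c), (w.2 - z - ⟪p, w.1 - c⟫) / W p) :=
    ((TI p).contDiff.comp (contDiff_fst.sub contDiff_const)).prodMk
      (((contDiff_snd.sub contDiff_const).sub
        (contDiff_const.inner ℝ (contDiff_fst.sub contDiff_const))).div_const _)
  have hψ' : LocallyLipschitz fun w : E m × ℝ =>
      ψ (TI p (w.1 - c), (w.2 - z - ⟪p, w.1 - c⟫) / W p) := hψ.comp hR.locallyLipschitz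
  have e : ∀ (i : ι) (x : E m), ψ (TI p (c + TT p x - c),
      (u i (c + TT p x) - z - ⟪p, c + TT p x - c⟫) / W p) = ψ (x, lc p c z (u i) x) := by
    intro i x
    rw [add_sub_cancel_left, TI_TT, lc]
  obtain ⟨h1, h2⟩ := h _ hψ' ((fun x => c + TT p x) '' K)
    (hK.image (affBlin p c).continuous) (by
      rintro _ ⟨x, hx, rfl⟩
      exact hΩ x (hKΩ hx)) (by
      intro i hi y hy
      obtain ⟨x, rfl⟩ : ∃ x, c + TT p x = y := (affBlin p c).surjective y
      exact (e i x).trans (h0 i hi x fun hx => hy ⟨x, hx, rfl⟩))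
  have key : ∀ i ∈ s, _ := fun i hi => sheet_blin (hL i) (locLip_graph_rotb hψ' (hL i)) p c z hK
    fun x hx => (e i x).trans (h0 i hi x hx)
  simp only [e] at key
  refine ⟨?_, fun v => ?_⟩
  · rw [Finset.sum_congr rfl fun i hi => (key i hi).1, ← Finset.mul_sum, h1, mul_zero]
  · rw [Finset.sum_congr rfl fun i hi => (key i hi).2 v, Finset.sum_add_distrib, ← Finset.mul_sum,
      h1, h2, mul_zero, add_zero]

/-- Comparison of the energies in the two coordinate systems. -/
theorem en_lc {s : Finset ι} {u : ι → E m → ℝ} {L : ℝ≥0} (hL : ∀ i, LipschitzWith L (u i))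
    (p c q x₀ : E m) (z t : ℝ) (k : ℕ) :
    (∫ x in ball x₀ t, ∑ i ∈ s, ‖gradient (lc p c z (u i)) x - q‖ ^ k) ≤
        W p * ∫ x in ball (c + TT p x₀) t, ∑ i ∈ s, ‖gradient (u i) x - (p + W p • TI p q)‖ ^ k ∧
      (∫ x in ball (c + TT p x₀) t, ∑ i ∈ s, ‖gradient (u i) x - (p + W p • TI p q)‖ ^ k) ≤
        W p ^ (2 * k) * ∫ x in ball x₀ (W p * t), ∑ i ∈ s, ‖gradient (lc p c z (u i)) x - q‖ ^ k := by
  have hW := one_le_W p
  have hW0 := W_pos_alga p
  have hae : ∀ᵐ x, ∀ i ∈ s, ‖gradient (lc p c z (u i)) x - q‖ ≤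
      ‖gradient (u i) (c + TT p x) - (p + W p • TI p q)‖ ∧
      ‖gradient (u i) (c + TT p x) - (p + W p • TI p q)‖ ≤
        W p ^ 2 * ‖gradient (lc p c z (u i)) x - q‖ := by
    refine (eventually_all_finset s).2 fun i _ => ?_
    filter_upwards [ae_grad_lc (hL i) p c z] with x hx
    have e : gradient (u i) (c + TT p x) - (p + W p • TI p q) =
        W p • TI p (gradient (lc p c z (u i)) x - q) := by
      rw [hx.2, map_sub, smul_sub, add_sub_add_left_eq_sub]
    rw [e, norm_smul, Real.norm_of_nonneg hW0.le]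
    generalize gradient (lc p c z (u i)) x - q = v
    have h1 := norm_TT_le p (TI p v)
    rw [TT_TI] at h1
    have h2 := norm_TI_le p v
    constructor
    · exact h1.trans (le_mul_of_one_le_left (norm_nonneg _) hW)
    · rw [sq, mul_assoc]
      exact mul_le_mul_of_nonneg_left h2 hW0.le
  have hG : Integrable ((ball (c + TT p x₀) t).indicator
      fun x => ∑ i ∈ s, ‖gradient (u i) x - (p + W p • TI p q)‖ ^ k) :=
    (integrable_indicator_iff measurableSet_ball).2 (intOn_En hL _ _ _ k)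
  have hH : Integrable ((ball x₀ (W p * t)).indicator
      fun x => ∑ i ∈ s, ‖gradient (lc p c z (u i)) x - q‖ ^ k) :=
    (integrable_indicator_iff measurableSet_ball).2
      (intOn_En (u := fun i => lc p c z (u i)) (fun i => lip_lc_blin (hL i) p c z) _ _ _ k)
  have hd : ∀ x : E m, c + TT p x - (c + TT p x₀) = TT p (x - x₀) := fun x => by
    rw [add_sub_add_left_eq_sub, map_sub]
  rw [← integral_indicator measurableSet_ball, ← integral_indicator measurableSet_ball,
    ← integral_indicator measurableSet_ball]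
  constructor
  · rw [← int_lc _ p c]
    refine integral_mono_of_nonneg (ae_of_all _ fun x => indicator_nonneg
      (fun y _ => Finset.sum_nonneg fun _ _ => by positivity) x) (intg_blin hG p c) ?_
    filter_upwards [hae] with x hx
    by_cases hb : x ∈ ball x₀ t
    · have hb' : c + TT p x ∈ ball (c + TT p x₀) t := by
        rw [mem_ball_iff_norm] at hb ⊢
        rw [hd]
        exact (norm_TT_le p _).trans_lt hb
      rw [indicator_of_mem hb, indicator_of_mem hb']
      exact Finset.sum_le_sum fun i hi => pow_le_pow_left₀ (norm_nonneg _) (hx i hi).1 k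
    · rw [indicator_of_notMem hb]
      exact indicator_nonneg (fun y _ => Finset.sum_nonneg fun _ _ => by positivity) _
  · refine (le_mul_of_one_le_left (integral_nonneg fun x => indicator_nonneg
      (fun y _ => Finset.sum_nonneg fun _ _ => by positivity) x) hW).trans ?_
    rw [← int_lc _ p c, ← integral_const_mul]
    refine integral_mono_of_nonneg (ae_of_all _ fun x => indicator_nonneg
      (fun y _ => Finset.sum_nonneg fun _ _ => by positivity) _) (hH.const_mul _) ?_
    filter_upwards [hae] with x hx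
    by_cases hb : c + TT p x ∈ ball (c + TT p x₀) t
    · have hb' : x ∈ ball x₀ (W p * t) := by
        rw [mem_ball_iff_norm] at hb ⊢
        rw [hd] at hb
        have h1 := norm_TI_le p (TT p (x - x₀))
        rw [TI_TT] at h1
        exact h1.trans_lt (mul_lt_mul_of_pos_left hb hW0)
      rw [indicator_of_mem hb, indicator_of_mem hb', Finset.mul_sum]
      refine Finset.sum_le_sum fun i hi => ?_
      rw [pow_mul, ← mul_pow]
      exact pow_le_pow_left₀ (norm_nonneg _) (hx i hi).2 k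
    · rw [indicator_of_notMem hb]
      exact mul_nonneg (by positivity)
        (indicator_nonneg (fun y _ => Finset.sum_nonneg fun _ _ => by positivity) _)

end Pool.Agent.Lib.MP_8daebb_an.LH
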