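import Pool.Agent.Lib.MP_8daebb_an.LH.BAlg
import Pool.Agent.Lib.MP_8daebb_an.LH.GStat

open MeasureTheory Metric Set Filter Topology
open scoped RealInnerProductSpace NNReal
open Pool.Agent.Lib.MP_8daebb_an.LG

namespace Pool.Agent.Lib.MP_8daebb_an.LH

variable {m : ℕ} {ι : Type}

/-! BNL. The null Lagrangian and test functions supported in a cylinder. -/

theorem null_lagr {f Φ : E m → ℝ} {K : ℝ≥0} (hf : LipschitzWith K f) (hΦ : LocallyLipschitz Φ)
    (hc : HasCompactSupport Φ) (e₁ e₂ : E m) :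
    ∫ x, (⟪gradient f x, e₂⟫ * ⟪gradient Φ x, e₁⟫ - ⟪gradient f x, e₁⟫ * ⟪gradient Φ x, e₂⟫) = 0 := by
  have hm : ∀ e : E m, Measurable fun x => ⟪gradient f x, e⟫ := fun e =>
    (meas_grad f).inner measurable_const
  have hb : ∀ (e e' : E m) (x : E m), ‖⟪gradient f x, e⟫ • e'‖ ≤ K * ‖e‖ * ‖e'‖ := fun e e' x => by
    rw [norm_smul]
    refine mul_le_mul_of_nonneg_right ((norm_inner_le_norm _ _).trans ?_) (norm_nonneg _)
    exact mul_le_mul_of_nonneg_right (norm_grad_le hf x) (norm_nonneg _)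
  have hi : ∀ (e e' : E m) (C : Set (E m)), IsCompact C →
      IntegrableOn (fun x => ⟪gradient f x, e⟫ • e') C := fun e e' C hC =>
    Measure.integrableOn_of_bounded hC.measure_lt_top.ne
      ((hm e).smul_const e').aestronglyMeasurable (Eventually.of_forall (hb e e'))
  have key := divFree_of_smooth (Ξ := fun x => ⟪gradient f x, e₂⟫ • e₁ - ⟪gradient f x, e₁⟫ • e₂)
    isOpen_univ (fun C hC _ => (hi e₂ e₁ C hC).sub (hi e₁ e₂ C hC)) (fun ζ h1 h2 _ => by
      have h3 : ContDiff ℝ 1 (fderiv ℝ ζ) := h1.fderiv_right (by norm_num)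
      have h4 : ∀ a b : E m, Integrable fun x => ⟪fderiv ℝ ζ x a • b, gradient f x⟫ := fun a b =>
        int_inner_grad_weak hf
          (((h3.continuous.clm_apply continuous_const).smul
            continuous_const).integrable_of_hasCompactSupport
            ((h2.fderiv ℝ).mono fun x hx h0 => hx (by simp [h0])))
      have h5 := sub_eq_zero.2 (swap_grad_weak h1 h2 hf e₁ e₂)
      rw [← integral_sub (h4 _ _) (h4 _ _)] at h5
      rw [← h5]
      refine integral_congr_ae (Eventually.of_forall fun x => ?_)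
      simp only [inner_sub_left, real_inner_smul_left, ← inner_grad]
      rw [real_inner_comm (gradient ζ x) e₁, real_inner_comm (gradient ζ x) e₂,
        real_inner_comm (gradient f x) e₁, real_inner_comm (gradient f x) e₂]
      ring) Φ hΦ hc (subset_univ _)
  rw [← key]
  refine integral_congr_ae (Eventually.of_forall fun x => ?_)
  simp only [inner_sub_left, real_inner_smul_left]
  rw [real_inner_comm (gradient Φ x) e₁, real_inner_comm (gradient Φ x) e₂]

variable {β c : E m} {s : Finset ι} {u : ι → E m → ℝ} {L : ℝ≥0} {z r₀ R r : ℝ}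

theorem Pr.far (h : Pr β s u c z r₀ R) (hr : r₀ ≤ 2 * r) {i : ι} (hi : i ∈ s) {x : E m}
    (hx : x ∈ ball c R) (hx' : 2 * r ≤ ‖x - c‖) : r ≤ ‖yb β c z (x, u i x)‖ := by
  have h1 := h i hi x hx
  rw [max_eq_left (hr.trans hx')] at h1
  have h2 : ‖x - c‖ ≤ ‖yb β c z (x, u i x)‖ + ‖(u i x - z) • β‖ := by
    refine le_trans (le_of_eq ?_) (norm_sub_le _ _)
    simp [yb]
  rw [norm_smul, Real.norm_eq_abs] at h2
  nlinarith [abs_nonneg (u i x - z)]

theorem Pr.near (h : Pr β s u c z r₀ R) (hr : 2 * r₀ ≤ r) {i : ι} (hi : i ∈ s) {x : E m}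
    (hx : x ∈ ball c R) (hx' : x ∈ ball c (r / 4)) : ‖yb β c z (x, u i x)‖ ≤ r / 2 := by
  have h1 := h i hi x hx
  rw [mem_ball_iff_norm] at hx'
  have h0 := norm_nonneg (x - c)
  have h3 : max ‖x - c‖ r₀ ≤ r / 2 := max_le (by linarith) (by linarith)
  have h2 : ‖yb β c z (x, u i x)‖ ≤ ‖x - c‖ + ‖(u i x - z) • β‖ := norm_add_le _ _
  rw [norm_smul, Real.norm_eq_abs] at h2
  nlinarith [abs_nonneg (u i x - z)]

theorem Pr.height (h : Pr β s u c z r₀ R) (hr : r₀ ≤ 2 * r) {i : ι} (hi : i ∈ s) {x : E m}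
    (hx : x ∈ ball c R) (hx' : x ∈ ball c (2 * r)) : |u i x - z| ≤ r := by
  have h1 := h i hi x hx
  rw [mem_ball_iff_norm] at hx'
  have h3 : max ‖x - c‖ r₀ ≤ 2 * r := max_le hx'.le hr
  nlinarith [mul_nonneg (abs_nonneg (u i x - z)) (norm_nonneg β)]

theorem cut_bnl (hP : Pr β s u c z r₀ R) (hr : 0 < r) (hr₀ : r₀ ≤ 2 * r) (hR : 2 * r < R)
    {G : E m × ℝ → ℝ} (hG : LocallyLipschitz G) (hG0 : ∀ w, r ≤ ‖yb β c z w‖ → G w = 0) :
    ∃ ψ : E m × ℝ → ℝ, LocallyLipschitz ψ ∧ ∃ K : Set (E m), IsCompact K ∧ K ⊆ ball c R ∧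
      (∀ i ∈ s, ∀ x, x ∉ K → ψ (x, u i x) = 0) ∧
      ∀ i ∈ s, ∀ T : E m → E m → ℝ, (∀ x, T x 0 = 0) →
        ∫ x in ball c R, T x (gradient (fun y => G (y, u i y)) x) =
          ∫ x, T x (gradient (fun y => ψ (y, u i y)) x) := by
  let κ : ContDiffBump c := ⟨2 * r, (2 * r + R) / 2, by linarith, by linarith⟩
  have hκ : LocallyLipschitz fun w : E m × ℝ => κ w.1 :=
    (κ.contDiff (n := 1)).locallyLipschitz.comp LipschitzWith.prod_fst.locallyLipschitz
  have hKR : closedBall c ((2 * r + R) / 2) ⊆ ball c R := closedBall_subset_ball (by linarith)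
  have h0 : ∀ i ∈ s, ∀ x, x ∉ closedBall c ((2 * r + R) / 2) → κ x * G (x, u i x) = 0 :=
    fun i _ x hx => by
      rw [κ.zero_of_le_dist (not_le.1 (mt mem_closedBall.2 hx)).le, zero_mul]
  refine ⟨fun w => κ w.1 * G w, locLip_mul hκ hG, _, isCompact_closedBall c _, hKR, h0,
    fun i hi T hT => ?_⟩
  have h1 : EqOn (fun y => G (y, u i y)) (fun y => κ y * G (y, u i y)) (ball c R) := by
    intro x hx
    by_cases h2 : x ∈ closedBall c (2 * r)
    · simp only [κ.one_of_mem_closedBall h2, one_mul]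
    · rw [mem_closedBall_iff_norm, not_le] at h2
      simp only [hG0 _ (hP.far hr₀ hi hx h2.le), mul_zero]
  rw [setIntegral_congr_fun measurableSet_ball
    (g := fun x => T x (gradient (fun y => κ y * G (y, u i y)) x))
    fun x hx => by simp only [grad_congr_open isOpen_ball h1 hx]]
  refine setIntegral_eq_integral_of_forall_compl_eq_zero fun x hx => ?_
  have h3 : tsupport (fun y => κ y * G (y, u i y)) ⊆ closedBall c ((2 * r + R) / 2) :=
    closure_minimal (fun y hy => by_contra fun h4 => hy (h0 i hi y h4)) isClosed_closedBall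
  rw [grad_eq_zero_of_notMem fun h4 => hx (hKR (h3 h4)), hT]

/-- The two equations tested with a function supported in the cylinder. -/
theorem StatB.cyl (h : StatB β s u (ball c R)) (hL : ∀ i, LipschitzWith L (u i))
    (hP : Pr β s u c z r₀ R) (hr : 0 < r) (hr₀ : r₀ ≤ 2 * r) (hR : 2 * r < R)
    {G : E m × ℝ → ℝ} (hG : LocallyLipschitz G) (hG0 : ∀ w, r ≤ ‖yb β c z w‖ → G w = 0) :
    (∑ i ∈ s, ∫ x in ball c R,
      ⟪ab β (gradient (u i) x), gradient (fun y => G (y, u i y)) x⟫ = 0) ∧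
      ∀ e : E m, ∑ i ∈ s, ∫ x in ball c R,
        (Fb β (gradient (u i) x) * ⟪e, gradient (fun y => G (y, u i y)) x⟫ -
          ⟪gradient (u i) x, e⟫ *
            ⟪ab β (gradient (u i) x), gradient (fun y => G (y, u i y)) x⟫) = 0 := by
  have _ := hL
  obtain ⟨ψ, hψ, K, hK, hKR, h0, hT⟩ := cut_bnl hP hr hr₀ hR hG hG0
  have key := h ψ hψ K hK hKR h0
  refine ⟨?_, fun e => ?_⟩
  · rw [← key.1]
    exact Finset.sum_congr rfl fun i hi =>
      hT i hi (fun x g => ⟪ab β (gradient (u i) x), g⟫) fun x => by simp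
  · rw [← key.2 e]
    exact Finset.sum_congr rfl fun i hi =>
      hT i hi (fun x g => Fb β (gradient (u i) x) * ⟪e, g⟫ -
        ⟪gradient (u i) x, e⟫ * ⟪ab β (gradient (u i) x), g⟫) fun x => by simp

/-- The null Lagrangian tested with a function supported in the cylinder. -/
theorem null_cyl (hL : ∀ i, LipschitzWith L (u i)) (hP : Pr β s u c z r₀ R) (hr : 0 < r)
    (hr₀ : r₀ ≤ 2 * r) (hR : 2 * r < R) {G : E m × ℝ → ℝ} (hG : LocallyLipschitz G)
    (hG0 : ∀ w, r ≤ ‖yb β c z w‖ → G w = 0) {i : ι} (hi : i ∈ s) (e : E m) :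
    ∫ x in ball c R, ⟪Jb β (gradient (u i) x) • e - ⟪gradient (u i) x, e⟫ • β,
      gradient (fun y => G (y, u i y)) x⟫ = 0 := by
  obtain ⟨ψ, hψ, K, hK, hKR, h0, hT⟩ := cut_bnl hP hr hr₀ hR hG hG0
  rw [hT i hi (fun x g => ⟪Jb β (gradient (u i) x) • e - ⟪gradient (u i) x, e⟫ • β, g⟫)
    fun x => by simp]
  have hΦ : LocallyLipschitz fun y => ψ (y, u i y) :=
    hψ.comp (LocallyLipschitz.id.prodMk (hL i).locallyLipschitz)
  have hc : HasCompactSupport fun y => ψ (y, u i y) := HasCompactSupport.intro hK (h0 i hi)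
  have h1 := integral_grad_eq_zero hΦ hc e
  have h2 := null_lagr (hL i) hΦ hc e β
  have h3 : Integrable fun x => ⟪gradient (u i) x, β⟫ * ⟪gradient (fun y => ψ (y, u i y)) x, e⟫ -
      ⟪gradient (u i) x, e⟫ * ⟪gradient (fun y => ψ (y, u i y)) x, β⟫ := by
    refine (int_inner_grad_weak (hL i) (((int_grad_lipb hΦ hc e).smul_const β).sub
      ((int_grad_lipb hΦ hc β).smul_const e))).congr (Eventually.of_forall fun x => ?_)
    simp only [Pi.sub_apply, inner_sub_left, real_inner_smul_left]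
    rw [real_inner_comm (gradient (u i) x) β, real_inner_comm (gradient (u i) x) e]
    ring
  have h4 := integral_add (int_grad_lipb hΦ hc e) h3
  rw [h1, h2, add_zero] at h4
  rw [← h4]
  refine integral_congr_ae (Eventually.of_forall fun x => ?_)
  simp only [inner_sub_left, real_inner_smul_left, Jb]
  rw [real_inner_comm (gradient (u i) x) β, real_inner_comm (gradient (fun y => ψ (y, u i y)) x) β,
    real_inner_comm (gradient (fun y => ψ (y, u i y)) x) e]
  ring

/-- The gradient of a function of the projected point, the height and a coordinate. -/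
theorem grad_cyl {f : E m → ℝ} {x : E m} (hf : DifferentiableAt ℝ f x) (β c : E m) (z r : ℝ)
    (n : ℕ) (hn : 2 ≤ n) :
    HasGradientAt (fun y => pb β c z r f y ^ n)
      (-(2 * n * pb β c z r f x ^ (n - 1) / r ^ 2) •
        (yb β c z (x, f x) + ⟪yb β c z (x, f x), β⟫ • gradient f x)) x ∧
      ∀ e : E m, HasGradientAt (fun y => ⟪yb β c z (y, f y), e⟫) (e + ⟪β, e⟫ • gradient f x) x := by
  obtain ⟨k, rfl⟩ : ∃ k, n = k + 2 := ⟨n - 2, by omega⟩
  have h0 : HasFDerivAt (fun y => yb β c z (y, f y))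
      (ContinuousLinearMap.id ℝ (E m) + (fderiv ℝ f x).smulRight β) x :=
    ((hasFDerivAt_id x).sub_const c).add ((hf.hasFDerivAt.sub_const z).smul_const β)
  refine ⟨?_, fun e => ?_⟩
  · have h1 := (h0.norm_sq.mul_const (r ^ 2)⁻¹).const_sub 1
    have h2 := (pos_pow_cut k _).comp_hasFDerivAt x h1
    refine hasGradientAt_iff_hasFDerivAt.2 (h2.congr_fderiv ?_)
    ext1 v
    simp [pb, div_eq_mul_inv]
    ring
  · have h2 := h0.inner ℝ (hasFDerivAt_const e x)
    refine hasGradientAt_iff_hasFDerivAt.2 (h2.congr_fderiv ?_)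
    ext1 v
    simp [inner_add_left, real_inner_smul_left, real_inner_comm v e]
    ring

theorem hasDerivAt_int_pb {f g : E m → ℝ} (hf : Continuous f) (hg : Measurable g) {C : ℝ}
    (hC : ∀ x ∈ ball c R, |g x| ≤ C) (β : E m) (z : ℝ) (hr : 0 < r) (n : ℕ) (hn : 2 ≤ n) :
    HasDerivAt (fun t => ∫ x in ball c R, pb β c z t f x ^ n * g x)
      ((∫ x in ball c R, 2 * n * (‖yb β c z (x, f x)‖ ^ 2 / r ^ 2) * pb β c z r f x ^ (n - 1) *
        g x) / r) r := by
  obtain ⟨k, rfl⟩ : ∃ k, n = k + 2 := ⟨n - 2, by omega⟩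
  have hy : Continuous fun x => yb β c z (x, f x) := by
    unfold yb
    fun_prop
  have hp : ∀ t, Continuous (pb β c z t f) := fun t => by
    unfold pb
    fun_prop
  have hp0 : ∀ t x, 0 ≤ pb β c z t f x := fun t x => le_max_right _ _
  have hp1 : ∀ t x, pb β c z t f x ≤ 1 := fun t x =>
    max_le (sub_le_self _ (by positivity)) zero_le_one
  have hae : ∀ᵐ x ∂(volume.restrict (ball c R)), |g x| ≤ C :=
    (ae_restrict_iff' measurableSet_ball).2 (Eventually.of_forall hC)
  have hfin : volume (ball c R) ≠ ⊤ := measure_ball_lt_top.ne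
  have key := (hasDerivAt_integral_of_dominated_loc_of_deriv_le (μ := volume.restrict (ball c R))
    (F := fun t x => pb β c z t f x ^ (k + 2) * g x) (s := Ioo (r / 2) (2 * r)) (x₀ := r)
    (F' := fun t x => (k + 2 : ℝ) * pb β c z t f x ^ (k + 1) *
      (2 * (‖yb β c z (x, f x)‖ ^ 2 / t ^ 2) / t) * g x)
    (bound := fun _ => (k + 2 : ℝ) * (2 / (r / 2)) * C)
    (Ioo_mem_nhds (by linarith) (by linarith))
    (Eventually.of_forall fun t => ((hp t).pow _).aestronglyMeasurable.mul hg.aestronglyMeasurable)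
    ?_ ?_ ?_ (integrableOn_const hfin) ?_).2
  · refine key.congr_deriv ?_
    rw [← integral_div]
    refine integral_congr_ae (Eventually.of_forall fun x => ?_)
    simp only [Nat.add_succ_sub_one]
    push_cast
    ring
  · refine Measure.integrableOn_of_bounded (M := C) hfin
      (((hp r).pow _).aestronglyMeasurable.mul hg.aestronglyMeasurable) ?_
    filter_upwards [hae] with x hx
    rw [norm_mul, Real.norm_of_nonneg (pow_nonneg (hp0 r x) _)]
    exact (mul_le_of_le_one_left (norm_nonneg _) (pow_le_one₀ (hp0 r x) (hp1 r x))).trans hx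
  · have := hp r
    exact (Continuous.aestronglyMeasurable (by fun_prop)).mul hg.aestronglyMeasurable
  · filter_upwards [hae] with x hx t ht
    have ht0 : 0 < t := by linarith [ht.1]
    have h2 := hp0 t x
    rw [norm_mul, Real.norm_of_nonneg (by positivity)]
    refine mul_le_mul ?_ hx (norm_nonneg _) (by positivity)
    have h3 : pb β c z t f x ^ (k + 1) * (‖yb β c z (x, f x)‖ ^ 2 / t ^ 2) ≤ 1 := by
      by_cases h4 : ‖yb β c z (x, f x)‖ ^ 2 / t ^ 2 ≤ 1
      · exact mul_le_one₀ (pow_le_one₀ h2 (hp1 t x)) (by positivity) h4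
      · have h5 : pb β c z t f x = 0 := max_eq_right (by linarith [not_le.1 h4])
        simp [h5]
    calc (k + 2 : ℝ) * pb β c z t f x ^ (k + 1) * (2 * (‖yb β c z (x, f x)‖ ^ 2 / t ^ 2) / t)
        = (k + 2 : ℝ) * (2 * (pb β c z t f x ^ (k + 1) *
          (‖yb β c z (x, f x)‖ ^ 2 / t ^ 2)) / t) := by ring
      _ ≤ (k + 2 : ℝ) * (2 * 1 / (r / 2)) := by
          gcongr
          exact ht.1.le
      _ = (k + 2 : ℝ) * (2 / (r / 2)) := by ring
  · refine Eventually.of_forall fun x t ht => HasDerivAt.mul_const ?_ (g x)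
    have ht0 : 0 < t := by linarith [ht.1]
    have h1 : HasDerivAt (fun t : ℝ => 1 - ‖yb β c z (x, f x)‖ ^ 2 / t ^ 2)
        (2 * (‖yb β c z (x, f x)‖ ^ 2 / t ^ 2) / t) t := by
      have h2 := ((hasDerivAt_const t (‖yb β c z (x, f x)‖ ^ 2)).fun_div (hasDerivAt_pow 2 t)
        (pow_pos ht0 2).ne').const_sub 1
      refine h2.congr_deriv ?_
      have := ht0.ne'
      norm_num
      field_simp
    exact (pos_pow_cut k _).comp t h1

end Pool.Agent.Lib.MP_8daebb_an.LH
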