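import Pool.Agent.Lib.MP_8daebb_an.LH.BProp
import Pool.Agent.Lib.MP_8daebb_an.LH.GStat
import Pool.Agent.Lib.MP_8daebb_an.LG.Osc

open MeasureTheory Metric Set Filter Topology
open scoped RealInnerProductSpace NNReal
open Pool.Agent.Lib.MP_8daebb_an.LG

namespace Pool.Agent.Lib.MP_8daebb_an.LH

variable {m : ℕ} {ι : Type}

/-! BOSC. The sharp oscillation estimate, by induction on the number of sheets. -/

/-- The oscillation estimate for at most `Q` oblique sheets with constants `Λ`, `C`. -/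
def OscP_bosc (ι : Type) (m Q : ℕ) (L : ℝ≥0) (Λ C : ℝ) : Prop :=
  ∀ (β : E m) (s : Finset ι) (u : ι → E m → ℝ), s.card ≤ Q → ‖β‖ ≤ L →
    (∀ i, LipschitzWith L (u i)) →
    ∀ (c : E m) (r : ℝ), 0 < r → StatB β s u (ball c (Λ * r)) → ∀ i ∈ s,
      ∫ x in ball c r, (u i x - u i c) ^ 2 ≤ C * r ^ 2 * En s u 0 c (Λ * r)

theorem split_bosc [DecidableEq ι] {Q : ℕ} {L : ℝ≥0} {Λ C : ℝ} (hC : 0 ≤ C)
    (ih : OscP_bosc ι m Q L Λ C) {β : E m} (hβ : ‖β‖ ≤ L) {s : Finset ι} {u : ι → E m → ℝ} (hs : s.card ≤ Q + 1)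
    (hL : ∀ i, LipschitzWith L (u i)) {J : Finset ι} (hJ : J ⊆ s) (hne : J.Nonempty)
    (hJs : J ≠ s) {y : E m} {t : ℝ} (ht : 0 < t) (hst : StatB β s u (ball y (Λ * t)))
    (hmiss : ∀ w ∈ ZS_osc s J u, Λ * t ≤ dist w y) {i : ι} (hi : i ∈ s) :
    ∫ x in ball y t, (u i x - u i y) ^ 2 ≤ C * t ^ 2 * En s u 0 y (Λ * t) := by
  have hsep : ∀ a ∈ J, ∀ b ∈ s \ J, ∀ x ∈ ball y (Λ * t), u a x ≠ u b x := by
    intro a ha b hb x hx h
    have h1 := hmiss x ⟨a, ha, b, hb, h⟩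
    rw [mem_ball] at hx
    linarith
  have hlt : J.card < s.card := Finset.card_lt_card (Finset.ssubset_iff_subset_ne.2 ⟨hJ, hJs⟩)
  have hct : 0 ≤ C * t ^ 2 := by positivity
  by_cases hiJ : i ∈ J
  · have h1 := ih β J u (by omega) hβ hL y t ht (StatF.split hst hL hJ hsep) i hiJ
    exact h1.trans (mul_le_mul_of_nonneg_left (En_subset hL hJ _ _ _) hct)
  · have hsub : s \ J ⊆ s := Finset.sdiff_subset
    have hcard : (s \ J).card ≤ Q := by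
      have h2 := Finset.card_sdiff_of_subset hJ
      have h3 := hne.card_pos
      omega
    have hsep' : ∀ a ∈ s \ J, ∀ b ∈ s \ (s \ J), ∀ x ∈ ball y (Λ * t), u a x ≠ u b x := by
      intro a ha b hb x hx h
      rw [Finset.sdiff_sdiff_eq_self hJ] at hb
      exact hsep b hb a ha x hx h.symm
    have h1 := ih β (s \ J) u hcard hβ hL y t ht (StatF.split hst hL hsub hsep') i
      (Finset.mem_sdiff.2 ⟨hi, hiJ⟩)
    exact h1.trans (mul_le_mul_of_nonneg_left (En_subset hL hsub _ _ _) hct)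

theorem start_bosc [DecidableEq ι] (m Q : ℕ) (L : ℝ≥0) {Λ C : ℝ} (hΛ : 1 ≤ Λ) (hC : 0 < C)
    (ih : OscP_bosc ι m Q L Λ C) : ∃ B > 0, ∀ (β : E m) (s : Finset ι) (u : ι → E m → ℝ),
      ‖β‖ ≤ L → s.card ≤ Q + 1 → s.Nonempty → (∀ i, LipschitzWith L (u i)) → ∀ (x : E m) (ρ : ℝ), 0 < ρ →
      StatB β s u (ball x (2 * ρ)) →
      (∀ J ⊆ s, J.Nonempty → J ≠ s → ∃ y ∈ ZS_osc s J u, dist y x ≤ ρ ∧
        ∃ J' ⊆ s, J'.Nonempty ∧ J' ≠ s ∧ ∀ w ∈ ZS_osc s J' u, ρ / 2 ≤ dist w y) →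
      ∃ z, Ht s u z x (2 * ρ) ≤ B * (2 * ρ) ^ 2 * En s u 0 x (2 * ρ) := by
  obtain ⟨Cp, hCp, hP⟩ := poincare m
  have hvb := vb_pos m
  have hΛ0 : 0 < Λ := by linarith
  obtain ⟨K, hK⟩ : ∃ K : ℝ, K = (2 * C + 8 * Cp) * (2 * Λ) ^ m := ⟨_, rfl⟩
  have hK0 : 0 < K := by rw [hK]; positivity
  refine ⟨(Q + 1) * (8 * Cp + 8 * (Q + 1) ^ 2 * K * 2 ^ m), by positivity, ?_⟩
  intro β s u hβ hs hne hL x ρ hρ hst hJ
  obtain ⟨D, hD⟩ : ∃ D, D = En s u 0 x (2 * ρ) := ⟨_, rfl⟩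
  have hD0 : 0 ≤ D := by rw [hD]; exact En_nonneg _ _ _ _ _
  rw [← hD]
  choose a ha using fun i => hP (u i) L (hL i) x (2 * ρ) (by linarith)
  have ha' : ∀ i ∈ s, ∫ y in ball x (2 * ρ), (u i y - a i) ^ 2 ≤ 4 * Cp * ρ ^ 2 * D := by
    intro i hi
    refine (ha i).trans ?_
    have h1 := single_le_En_osc hL x (2 * ρ) hi
    rw [← hD] at h1
    calc Cp * (2 * ρ) ^ 2 * ∫ y in ball x (2 * ρ), ‖gradient (u i) y‖ ^ 2
        ≤ Cp * (2 * ρ) ^ 2 * D := mul_le_mul_of_nonneg_left h1 (by positivity)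
      _ = 4 * Cp * ρ ^ 2 * D := by ring
  obtain ⟨δ, hδ⟩ : ∃ δ : ℝ, δ = √(K * ρ ^ 2 * D / (vb m * ρ ^ m)) := ⟨_, rfl⟩
  have hδ0 : 0 ≤ δ := by rw [hδ]; positivity
  have hδ2 : δ ^ 2 * (vb m * ρ ^ m) = K * ρ ^ 2 * D := by
    rw [hδ, Real.sq_sqrt (by positivity)]
    field_simp
  have hchain : ∀ i ∈ s, ∀ j ∈ s, |a i - a j| ≤ s.card * (2 * δ) := by
    refine chain_bound s a (by linarith) fun J hJs hJne hJn => ?_
    obtain ⟨y, hy, hyx, J', hJ's, hJ'ne, hJ'n, hmiss⟩ := hJ J hJs hJne hJn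
    obtain ⟨t, ht⟩ : ∃ t : ℝ, t = ρ / (2 * Λ) := ⟨_, rfl⟩
    have ht0 : 0 < t := by rw [ht]; positivity
    have hΛt : Λ * t = ρ / 2 := by rw [ht]; field_simp
    have htρ : t ≤ ρ / 2 := by nlinarith
    have hb1 : ball y (Λ * t) ⊆ ball x (2 * ρ) := ball_subset_ball' (by rw [hΛt]; linarith)
    have hb2 : ball y t ⊆ ball x (2 * ρ) := ball_subset_ball' (by linarith)
    have key : ∀ i ∈ s, |u i y - a i| ≤ δ := by
      intro i hi
      have h1 := split_bosc hC.le ih hβ hs hL hJ's hJ'ne hJ'n ht0 (StatF.mono hst hb1)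
        (by rw [hΛt]; exact hmiss) hi
      have h2 : En s u 0 y (Λ * t) ≤ D := by rw [hD]; exact En_mono hL 0 hb1
      have h3 : C * t ^ 2 * En s u 0 y (Λ * t) ≤ C * ρ ^ 2 * D := by
        have h4 : t ^ 2 ≤ ρ ^ 2 := by nlinarith
        have h5 := En_nonneg s u 0 y (Λ * t)
        gcongr
      have h6 := (int_mono_osc (hL i).continuous (a i) hb2).trans (ha' i hi)
      have h7 := close_of_int' (c := y) ht0 (hL i).continuous (u i y) (a i)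
      have h8 : (u i y - a i) ^ 2 * (vb m * t ^ m) ≤ (2 * C + 8 * Cp) * ρ ^ 2 * D := by
        nlinarith
      have h9 : ρ ^ m = t ^ m * (2 * Λ) ^ m := by
        rw [← mul_pow, ht]
        congr 1
        field_simp
      have h10 : (u i y - a i) ^ 2 * (vb m * ρ ^ m) ≤ δ ^ 2 * (vb m * ρ ^ m) := by
        rw [hδ2, hK, h9]
        calc (u i y - a i) ^ 2 * (vb m * (t ^ m * (2 * Λ) ^ m))
            = (u i y - a i) ^ 2 * (vb m * t ^ m) * (2 * Λ) ^ m := by ring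
          _ ≤ (2 * C + 8 * Cp) * ρ ^ 2 * D * (2 * Λ) ^ m :=
            mul_le_mul_of_nonneg_right h8 (by positivity)
          _ = (2 * C + 8 * Cp) * (2 * Λ) ^ m * ρ ^ 2 * D := by ring
      have h11 : (u i y - a i) ^ 2 ≤ δ ^ 2 := le_of_mul_le_mul_right h10 (by positivity)
      exact abs_le_of_sq_le_sq' h11 hδ0 |> abs_le.2
    obtain ⟨i, hi, j, hj, hij⟩ := hy
    refine ⟨i, hi, j, hj, ?_⟩
    have h1 := abs_le.1 (key i (hJs hi))
    have h2 := abs_le.1 (key j (Finset.mem_sdiff.1 hj).1)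
    rw [abs_le]
    constructor <;> linarith [h1.1, h1.2, h2.1, h2.2]
  obtain ⟨i₀, hi₀⟩ := hne
  refine ⟨a i₀, ?_⟩
  have hcard : (s.card : ℝ) ≤ Q + 1 := by exact_mod_cast hs
  have hterm : ∀ i ∈ s, ∫ y in ball x (2 * ρ), (u i y - a i₀) ^ 2 ≤
      (8 * Cp + 8 * (Q + 1) ^ 2 * K * 2 ^ m) * (ρ ^ 2 * D) := by
    intro i hi
    have h1 := shift_osc (hL i).continuous (a i) (a i₀) x (r := 2 * ρ) (by linarith)
    have h2 := ha' i hi
    have h3 : |a i - a i₀| ≤ (Q + 1) * (2 * δ) :=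
      (hchain i hi i₀ hi₀).trans (mul_le_mul_of_nonneg_right hcard (by linarith))
    have h4 : (a i - a i₀) ^ 2 ≤ ((Q + 1) * (2 * δ)) ^ 2 := by
      rw [← sq_abs]
      exact pow_le_pow_left₀ (abs_nonneg _) h3 2
    have h5 : (a i - a i₀) ^ 2 * (vb m * (2 * ρ) ^ m) ≤
        4 * (Q + 1) ^ 2 * K * 2 ^ m * (ρ ^ 2 * D) := by
      calc (a i - a i₀) ^ 2 * (vb m * (2 * ρ) ^ m)
          ≤ ((Q + 1) * (2 * δ)) ^ 2 * (vb m * (2 * ρ) ^ m) :=
            mul_le_mul_of_nonneg_right h4 (by positivity)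
        _ = 4 * (Q + 1) ^ 2 * 2 ^ m * (δ ^ 2 * (vb m * ρ ^ m)) := by rw [mul_pow 2 ρ m]; ring
        _ = 4 * (Q + 1) ^ 2 * K * 2 ^ m * (ρ ^ 2 * D) := by rw [hδ2]; ring
    linarith
  rw [Ht_eq_sum_osc hL]
  calc ∑ i ∈ s, ∫ y in ball x (2 * ρ), (u i y - a i₀) ^ 2
      ≤ s.card • ((8 * Cp + 8 * (Q + 1) ^ 2 * K * 2 ^ m) * (ρ ^ 2 * D)) :=
        Finset.sum_le_card_nsmul _ _ _ hterm
    _ ≤ (Q + 1) * ((8 * Cp + 8 * (Q + 1) ^ 2 * K * 2 ^ m) * (ρ ^ 2 * D)) := by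
        rw [nsmul_eq_mul]
        exact mul_le_mul_of_nonneg_right hcard (by positivity)
    _ ≤ (Q + 1) * ((8 * Cp + 8 * (Q + 1) ^ 2 * K * 2 ^ m) * ((2 * ρ) ^ 2 * D)) := by
        have : ρ ^ 2 ≤ (2 * ρ) ^ 2 := by nlinarith
        gcongr
    _ = _ := by ring

theorem star_bosc [DecidableEq ι] (m Q : ℕ) (L : ℝ≥0) {Λ C : ℝ} (hΛ : 1 ≤ Λ) (hC : 0 < C)
    (ih : OscP_bosc ι m Q L Λ C) : ∃ C₁ > 0, ∀ (β : E m) (s : Finset ι) (u : ι → E m → ℝ),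
      ‖β‖ ≤ L → s.card ≤ Q + 1 → s.Nonempty → (∀ i, LipschitzWith L (u i)) →
      ∀ (x : E m) (ρ R : ℝ), 0 ≤ ρ → 2 * ρ ≤ R → StatB β s u (ball x R) →
      (∀ J ⊆ s, J.Nonempty → J ≠ s → ∃ y ∈ ZS_osc s J u, dist y x ≤ ρ ∧
        ∃ J' ⊆ s, J'.Nonempty ∧ J' ≠ s ∧ ∀ w ∈ ZS_osc s J' u, ρ / 2 ≤ dist w y) →
      ∃ z, (∀ r, 0 < r → 2 * ρ ≤ r → 64 * r ≤ R →
          Ht s u z x r ≤ C₁ * r ^ 2 * En s u 0 x (64 * r) ∧
          ∀ r₁, 0 < r₁ → 2 * ρ ≤ r₁ → r₁ ≤ r →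
            r₁ ^ 2 / r₁ ^ m * En s u 0 x r₁ ≤ C₁ * (r ^ 2 / r ^ m * En s u 0 x (64 * r))) ∧
        (ρ = 0 → ∀ i ∈ s, u i x = z) := by
  obtain ⟨B, hB, hstart⟩ := start_bosc m Q L hΛ hC ih
  obtain ⟨C₁, hC₁, h₁⟩ := prop_B (ι := ι) m (Q + 1) L hB
  refine ⟨C₁, hC₁, ?_⟩
  intro β s u hβ hs hne hL x ρ R hρ hR hst hJ
  rcases hρ.eq_or_lt with h0 | hpos
  · have hall : ∀ i ∈ s, ∀ j ∈ s, u i x = u j x := by
      refine all_eq_osc fun J hJs hJne hJn => ?_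
      obtain ⟨y, hy, hyx, -⟩ := hJ J hJs hJne hJn
      rw [← h0] at hyx
      rwa [← dist_le_zero.1 hyx]
    obtain ⟨i₀, hi₀⟩ := hne
    refine ⟨u i₀ x, fun r hr hρr hrR => ?_, fun _ i hi => hall i hi i₀ hi₀⟩
    exact h₁ β x s u (u i₀ x) (2 * ρ) r hs hβ hL hr (StatF.mono hst (ball_subset_ball hrR))
      (by linarith) hρr (fun _ i hi => hall i hi i₀ hi₀) (fun h => absurd h (by linarith))
  · obtain ⟨z, hz⟩ := hstart β s u hβ hs hne hL x ρ hpos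
      (StatF.mono hst (ball_subset_ball hR)) hJ
    refine ⟨z, fun r hr hρr hrR => ?_, fun h => absurd h hpos.ne'⟩
    exact h₁ β x s u z (2 * ρ) r hs hβ hL hr (StatF.mono hst (ball_subset_ball hrR))
      (by linarith) hρr (fun h => absurd h (by linarith)) (fun _ => hz)

theorem centre_bosc (m : ℕ) {Λ r σ A K C₁ D D' : ℝ} (hΛ : 1 ≤ Λ) (hr : 0 < r) (hσ : 0 < σ)
    (hK : 0 ≤ K)
    (h3 : (192 * σ) ^ 2 / (192 * σ) ^ m * D ≤
      C₁ * ((192 * (Λ * r)) ^ 2 / (192 * (Λ * r)) ^ m * D'))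
    (h : A * (σ / Λ) ^ m ≤ K * σ ^ 2 * D) :
    A * r ^ m ≤ C₁ * Λ ^ 2 * K * r ^ 2 * D' := by
  have hΛ0 : 0 < Λ := by linarith
  have hΛr : 0 < Λ * r := by positivity
  have h4 : σ ^ 2 / σ ^ m * D ≤ C₁ * ((Λ * r) ^ 2 / (Λ * r) ^ m * D') := by
    have e1 : (192 * σ) ^ 2 / (192 * σ) ^ m * D = 192 ^ 2 / 192 ^ m * (σ ^ 2 / σ ^ m * D) := by
      rw [mul_pow, mul_pow]
      field_simp
    have e2 : C₁ * ((192 * (Λ * r)) ^ 2 / (192 * (Λ * r)) ^ m * D') =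
        192 ^ 2 / 192 ^ m * (C₁ * ((Λ * r) ^ 2 / (Λ * r) ^ m * D')) := by
      rw [mul_pow 192 (Λ * r) 2, mul_pow 192 (Λ * r) m]
      field_simp
    rw [e1, e2] at h3
    exact le_of_mul_le_mul_left h3 (by positivity)
  have h5 : A ≤ K * Λ ^ m * (σ ^ 2 / σ ^ m * D) := by
    have e1 : K * Λ ^ m * (σ ^ 2 / σ ^ m * D) = K * σ ^ 2 * D / (σ / Λ) ^ m := by
      rw [div_pow]
      field_simp
    rw [e1, le_div_iff₀ (by positivity)]
    exact h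
  calc A * r ^ m ≤ K * Λ ^ m * (C₁ * ((Λ * r) ^ 2 / (Λ * r) ^ m * D')) * r ^ m := by
        refine mul_le_mul_of_nonneg_right (h5.trans ?_) (by positivity)
        exact mul_le_mul_of_nonneg_left h4 (by positivity)
    _ = C₁ * Λ ^ 2 * K * r ^ 2 * D' := by
        rw [mul_pow Λ r m]
        field_simp

theorem step_bosc [DecidableEq ι] (m Q : ℕ) (L : ℝ≥0) {Λ C : ℝ} (hΛ : 1 ≤ Λ) (hC : 0 < C)
    (ih : OscP_bosc ι m Q L Λ C) : ∃ C' > 0, OscP_bosc ι m (Q + 1) L (13000 * Λ) C' := by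
  obtain ⟨C₁, hC₁, hstar⟩ := star_bosc m Q L hΛ hC ih
  obtain ⟨C₂, hC₂, hpt⟩ := prop_B (ι := ι) m (Q + 1) L (B := 1) one_pos
  have hΛ0 : 0 < Λ := by linarith
  obtain ⟨K, hK⟩ : ∃ K : ℝ, K = 18 * C₁ * Λ ^ 2 + 2 * C₁ * Λ ^ 2 * (2 * C + 18 * C₁) := ⟨_, rfl⟩
  have hK0 : 0 < K := by rw [hK]; positivity
  refine ⟨C + C₂ + K, by positivity, ?_⟩
  intro β s u hs hβ hL c r hr hst i hi
  have hΛr : r ≤ Λ * r := by nlinarith
  have hD0 := En_nonneg s u 0 c (13000 * Λ * r)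
  have hfin : ∀ K' : ℝ, K' ≤ C + C₂ + K →
      ∫ x in ball c r, (u i x - u i c) ^ 2 ≤ K' * r ^ 2 * En s u 0 c (13000 * Λ * r) →
      ∫ x in ball c r, (u i x - u i c) ^ 2 ≤
        (C + C₂ + K) * r ^ 2 * En s u 0 c (13000 * Λ * r) := by
    intro K' h1 h2
    refine h2.trans ?_
    gcongr
  by_cases hmiss : ∃ J ⊆ s, J.Nonempty ∧ J ≠ s ∧ ∀ w ∈ ZS_osc s J u, Λ * r ≤ dist w c
  · obtain ⟨J, hJs, hJne, hJn, hJ⟩ := hmiss
    have hb : ball c (Λ * r) ⊆ ball c (13000 * Λ * r) := ball_subset_ball (by linarith)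
    refine hfin C (by linarith) ((split_bosc hC.le ih hβ hs hL hJs hJne hJn hr
      (StatF.mono hst hb) hJ hi).trans ?_)
    exact mul_le_mul_of_nonneg_left (En_mono hL 0 hb) (by positivity)
  have hmeet : ∀ J ⊆ s, J.Nonempty → J ≠ s → ∃ w ∈ ZS_osc s J u, dist w c < Λ * r := by
    intro J hJs hJne hJn
    by_contra hcon
    refine hmiss ⟨J, hJs, hJne, hJn, fun w hw => ?_⟩
    by_contra hlt
    exact hcon ⟨w, hw, not_le.1 hlt⟩
  obtain ⟨P, hP⟩ : ∃ P : Finset (Finset ι), ∀ J, J ∈ P ↔ J ⊆ s ∧ J.Nonempty ∧ J ≠ s :=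
    ⟨s.powerset.filter fun J => J.Nonempty ∧ J ≠ s, fun J => by simp⟩
  rcases P.eq_empty_or_nonempty with hPe | hPne
  · have hall : ∀ a ∈ s, ∀ b ∈ s, u a c = u b c := by
      refine all_eq_osc fun J hJs hJne hJn => ?_
      have := (hP J).2 ⟨hJs, hJne, hJn⟩
      rw [hPe] at this
      exact absurd this (Finset.notMem_empty J)
    have hb : ball c (64 * r) ⊆ ball c (13000 * Λ * r) := ball_subset_ball (by linarith)
    have h1 := (hpt β c s u (u i c) 0 r hs hβ hL hr (StatF.mono hst hb) le_rfl hr.le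
      (fun _ a ha => hall a ha i hi) (fun h => absurd h (lt_irrefl _))).1
    have h2 : En s u 0 c (64 * r) ≤ En s u 0 c (13000 * Λ * r) := En_mono hL 0 hb
    refine hfin C₂ (by linarith) (((single_le_Ht_osc hL _ c r hi).trans h1).trans ?_)
    exact mul_le_mul_of_nonneg_left h2 (by positivity)
  obtain ⟨σ, hσ0, hσ1, hσ2, hσ3⟩ := sigma_osc P hPne (fun J => ZS_osc s J u)
    (fun J _ => closed_ZS_osc s J hL) (fun J hJ => by
      obtain ⟨hJs, hJne, hJn⟩ := (hP J).1 hJ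
      obtain ⟨w, hw, -⟩ := hmeet J hJs hJne hJn
      exact ⟨w, hw⟩)
  have hσc : σ c < Λ * r := by
    obtain ⟨J, hJ, h⟩ := hσ3 c
    obtain ⟨hJs, hJne, hJn⟩ := (hP J).1 hJ
    obtain ⟨w, hw, hwc⟩ := hmeet J hJs hJne hJn
    exact (h w hw).trans_lt hwc
  obtain ⟨x, hxc, hσx, hmin⟩ := minim_osc hσ0 hσ1 c
  have hcx : dist c x ≤ 2 * σ c := by rwa [dist_comm]
  have hbx : ball x (64 * (192 * (Λ * r))) ⊆ ball c (13000 * Λ * r) :=
    ball_subset_ball' (by linarith)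
  obtain ⟨z, hz, hz0⟩ := hstar β s u hβ hs ⟨i, hi⟩ hL x (σ x) (64 * (192 * (Λ * r))) (hσ0 x)
    (by linarith) (StatF.mono hst hbx) (fun J hJs hJne hJn => by
      obtain ⟨y, hy, hyx⟩ := hσ2 x J ((hP J).2 ⟨hJs, hJne, hJn⟩)
      obtain ⟨J', hJ', h⟩ := hσ3 y
      obtain ⟨hJ's, hJ'ne, hJ'n⟩ := (hP J').1 hJ'
      exact ⟨y, hy, hyx, J', hJ's, hJ'ne, hJ'n, fun w hw => (hmin y hyx).trans (h w hw)⟩)
  have hF1 : ∫ y in ball c r, (u i y - z) ^ 2 ≤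
      9 * C₁ * Λ ^ 2 * r ^ 2 * En s u 0 c (13000 * Λ * r) := by
    have h1 := (hz (3 * (Λ * r)) (by linarith) (by linarith) (by linarith)).1
    have h2 : Ht s u z c r ≤ Ht s u z x (3 * (Λ * r)) :=
      Ht_mono hL z (ball_subset_ball' (by linarith))
    have h3 : En s u 0 x (64 * (3 * (Λ * r))) ≤ En s u 0 c (13000 * Λ * r) :=
      En_mono hL 0 (ball_subset_ball' (by linarith))
    refine (((single_le_Ht_osc hL z c r hi).trans h2).trans h1).trans ?_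
    calc C₁ * (3 * (Λ * r)) ^ 2 * En s u 0 x (64 * (3 * (Λ * r)))
        ≤ C₁ * (3 * (Λ * r)) ^ 2 * En s u 0 c (13000 * Λ * r) :=
          mul_le_mul_of_nonneg_left h3 (by positivity)
      _ = _ := by ring
  have hF2 : (z - u i c) ^ 2 * (vb m * r ^ m) ≤
      C₁ * Λ ^ 2 * (2 * C + 18 * C₁) * r ^ 2 * En s u 0 c (13000 * Λ * r) := by
    rcases (hσ0 c).eq_or_lt with h0 | hpos
    · have hx : x = c := dist_le_zero.1 (by linarith)
      have h1 := hz0 (le_antisymm (by linarith) (hσ0 x)) i hi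
      rw [hx] at h1
      rw [h1, sub_self]
      have : 0 ≤ C₁ * Λ ^ 2 * (2 * C + 18 * C₁) * r ^ 2 * En s u 0 c (13000 * Λ * r) := by
        positivity
      simpa using this
    · obtain ⟨J, hJ, h⟩ := hσ3 c
      obtain ⟨hJs, hJne, hJn⟩ := (hP J).1 hJ
      obtain ⟨t, ht⟩ : ∃ t : ℝ, t = σ c / Λ := ⟨_, rfl⟩
      have ht0 : 0 < t := by rw [ht]; positivity
      have hΛt : Λ * t = σ c := by rw [ht]; field_simp
      have htσ : t ≤ σ c := by nlinarith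
      have h1 := split_bosc hC.le ih hβ hs hL hJs hJne hJn ht0
        (StatF.mono hst (ball_subset_ball (by rw [hΛt]; linarith))) (by rw [hΛt]; exact h) hi
      rw [hΛt] at h1
      have hE0 := En_nonneg s u 0 x (192 * σ c)
      have h2 : En s u 0 c (σ c) ≤ En s u 0 x (192 * σ c) :=
        En_mono hL 0 (ball_subset_ball' (by linarith))
      have h3 : C * t ^ 2 * En s u 0 c (σ c) ≤ C * σ c ^ 2 * En s u 0 x (192 * σ c) := by
        have h5 := En_nonneg s u 0 c (σ c)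
        gcongr
      have h4 := (hz (3 * σ c) (by linarith) (by linarith) (by linarith)).1
      rw [show 64 * (3 * σ c) = 192 * σ c by ring] at h4
      have h5 : Ht s u z c t ≤ Ht s u z x (3 * σ c) :=
        Ht_mono hL z (ball_subset_ball' (by linarith))
      have h8 := single_le_Ht_osc hL z c t hi
      have h9 := close_of_int' (c := c) ht0 (hL i).continuous z (u i c)
      have h10 : (z - u i c) ^ 2 * vb m * (σ c / Λ) ^ m ≤
          (2 * C + 18 * C₁) * σ c ^ 2 * En s u 0 x (192 * σ c) := by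
        rw [← ht]
        linarith
      have h6 := (hz (192 * (Λ * r)) (by linarith) (by linarith) le_rfl).2 (192 * σ c)
        (by linarith) (by linarith) (by linarith)
      have h7 : En s u 0 x (64 * (192 * (Λ * r))) ≤ En s u 0 c (13000 * Λ * r) :=
        En_mono hL 0 hbx
      have h11 := centre_bosc m hΛ hr hpos (by positivity) h6 h10
      have h12 : C₁ * Λ ^ 2 * (2 * C + 18 * C₁) * r ^ 2 * En s u 0 x (64 * (192 * (Λ * r))) ≤
          C₁ * Λ ^ 2 * (2 * C + 18 * C₁) * r ^ 2 * En s u 0 c (13000 * Λ * r) :=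
        mul_le_mul_of_nonneg_left h7 (by positivity)
      linarith
  refine hfin K (by linarith) ((shift_osc (hL i).continuous z (u i c) c hr).trans ?_)
  rw [hK]
  linarith

theorem osc_avg [DecidableEq ι] (m Q : ℕ) (L : ℝ≥0) : ∃ Λ ≥ (1 : ℝ), ∃ C > 0,
    ∀ (β : E m) (s : Finset ι) (u : ι → E m → ℝ), s.card ≤ Q → ‖β‖ ≤ L →
      (∀ i, LipschitzWith L (u i)) → ∀ (c : E m) (r : ℝ), 0 < r → StatB β s u (ball c (Λ * r)) →
        ∀ i ∈ s, ∫ x in ball c r, (u i x - u i c) ^ 2 ≤ C * r ^ 2 * En s u 0 c (Λ * r) := by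
  induction Q with
  | zero =>
    refine ⟨1, le_rfl, 1, one_pos, fun β s u hs _ _ c r _ _ i hi => ?_⟩
    rw [Finset.card_eq_zero.1 (Nat.le_zero.1 hs)] at hi
    exact absurd hi (Finset.notMem_empty i)
  | succ Q ih =>
    obtain ⟨Λ, hΛ, C, hC, h⟩ := ih
    obtain ⟨C', hC', h'⟩ := step_bosc (ι := ι) m Q L hΛ hC h
    exact ⟨13000 * Λ, by linarith, C', hC', h'⟩

end Pool.Agent.Lib.MP_8daebb_an.LH
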