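import Pool.Agent.Lib.MP_8daebb_an.LH.BDef
import Pool.Agent.Lib.MP_8daebb_an.LG.Prop
import Pool.Agent.Lib.MP_8daebb_an.LG.Poin

open MeasureTheory Metric Set Filter Topology
open scoped RealInnerProductSpace NNReal
open Pool.Agent.Lib.MP_8daebb_an.LG

namespace Pool.Agent.Lib.MP_8daebb_an.LH

variable {m : ℕ} {ι : Type}

/-! BPROP2. Small energy forces small oscillation; the proper range. -/

theorem osc_small (m : ℕ) (L : ℝ≥0) {κ : ℝ} (hκ : 0 < κ) : ∃ c₁ > 0, ∀ (f : E m → ℝ) (c : E m)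
    (t : ℝ), LipschitzWith L f → 0 < t → ∫ x in ball c t, ‖gradient f x‖ ^ 2 ≤ c₁ * t ^ m →
      ∀ x ∈ ball c t, |f x - f c| ≤ κ * t := by
  have hL : (0 : ℝ) ≤ L := L.coe_nonneg
  have hv := vb_pos m
  obtain ⟨CP, hCP, HP⟩ := poincare m
  obtain ⟨C, hC, HC⟩ := lip_interp m L (B := 2 * L + 1) (by positivity)
  refine ⟨min (vb m / CP) ((κ / 2) ^ (m + 2) / (C * CP)), by positivity,
    fun f c t hf ht hE => ?_⟩
  obtain ⟨a, ha⟩ := HP f L hf c t ht
  have hg : LipschitzWith L fun y => f y - a := by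
    simpa using hf.sub (LipschitzWith.const a)
  have hi : IntegrableOn (fun y => (f y - a) ^ 2) (ball c t) :=
    ((hg.continuous.pow 2).continuousOn.integrableOn_compact
      (isCompact_closedBall c t)).mono_set ball_subset_closedBall
  have htm : 0 < t ^ m := pow_pos ht m
  have h1 : ∫ x in ball c t, (f x - a) ^ 2 ≤ CP * t ^ 2 * (vb m / CP * t ^ m) :=
    ha.trans (mul_le_mul_of_nonneg_left
      (hE.trans (mul_le_mul_of_nonneg_right (min_le_left _ _) htm.le)) (by positivity))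
  have h2 : ∫ x in ball c t, (f x - a) ^ 2 ≤
      CP * t ^ 2 * ((κ / 2) ^ (m + 2) / (C * CP) * t ^ m) :=
    ha.trans (mul_le_mul_of_nonneg_left
      (hE.trans (mul_le_mul_of_nonneg_right (min_le_right _ _) htm.le)) (by positivity))
  obtain ⟨y, hy, hya⟩ := exists_le_avg (A := t ^ 2) ht hi (h1.trans_eq (by field_simp))
  have h3 : |f y - a| ≤ t := abs_le_of_sq_le_sq hya ht.le
  have key : ∀ x ∈ ball c t, |f x - a| ≤ κ / 2 * t := by
    intro x hx
    have h4 : dist x y ≤ 2 * t := by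
      have := dist_triangle_right x y c
      rw [mem_ball] at hx hy
      linarith
    have h5 : |f x - f y| ≤ L * (2 * t) :=
      (hf.dist_le_mul x y).trans (mul_le_mul_of_nonneg_left h4 hL)
    have h6 : |f x - a| ≤ (2 * L + 1) * t := by
      have := abs_sub_le (f x) (f y) a
      linarith
    have h7 := HC _ hg c t ht x hx h6
    have h8 : C * ((∫ y in ball c t, (f y - a) ^ 2) / t ^ m) / t ^ 2 ≤ (κ / 2) ^ (m + 2) := by
      calc _ ≤ C * (CP * t ^ 2 * ((κ / 2) ^ (m + 2) / (C * CP) * t ^ m) / t ^ m) / t ^ 2 := by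
            gcongr
        _ = _ := by field_simp
    have h9 : |f x - a| / t ≤ κ / 2 :=
      (pow_le_pow_iff_left₀ (by positivity) (by positivity) (by omega)).1 (h7.trans h8)
    rwa [div_le_iff₀ ht] at h9
  intro x hx
  have k1 := key x hx
  have k2 := key c (mem_ball_self ht)
  have k3 := abs_sub_le (f x) a (f c)
  rw [abs_sub_comm a] at k3
  linarith

theorem En_sum_bprop2 {s : Finset ι} {u : ι → E m → ℝ} {L : ℝ≥0}
    (h : ∀ i, LipschitzWith L (u i)) (c : E m) (r : ℝ) :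
    En s u 0 c r = ∑ i ∈ s, ∫ x in ball c r, ‖gradient (u i) x‖ ^ 2 := by
  unfold En
  simp only [sub_zero]
  exact integral_finsetSum _ fun i _ => by
    simpa [IntegrableOn] using intOn_En (s := {i}) h 0 c r 2

theorem Ht_sum_bprop2 {s : Finset ι} {u : ι → E m → ℝ} {L : ℝ≥0}
    (h : ∀ i, LipschitzWith L (u i)) (z : ℝ) (c : E m) (r : ℝ) :
    Ht s u z c r = ∑ i ∈ s, ∫ x in ball c r, (u i x - z) ^ 2 := by
  unfold Ht
  exact integral_finsetSum _ fun i _ => by
    simpa [IntegrableOn] using intOn_Ht (s := {i}) h z c r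

/-- The radius above which the cylinder is proper. -/
theorem exists_proper (m : ℕ) (L : ℝ≥0) {B₀ : ℝ} (hB₀ : 0 < B₀) : ∃ M ≥ (1 : ℝ), ∃ c₁ > 0,
    ∀ (β c : E m) (s : Finset ι) (u : ι → E m → ℝ) (z ρ R : ℝ), ‖β‖ ≤ L →
      (∀ i, LipschitzWith L (u i)) → 0 ≤ ρ → 0 < R → (∀ i ∈ s, |u i c - z| ≤ B₀ * ρ) →
      ∃ r₀, M * ρ ≤ r₀ ∧ (r₀ ≤ R / 2 → Pr β s u c z r₀ (R / 2)) ∧
        (r₀ = M * ρ ∨ (0 < r₀ ∧ r₀ ≤ R ∧ c₁ * r₀ ^ m ≤ En s u 0 c r₀)) := by
  have hL : (0 : ℝ) ≤ L := L.coe_nonneg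
  obtain ⟨c₁, hc₁, H⟩ := osc_small m L (κ := 1 / (8 * (L + 1))) (by positivity)
  have hM0 : 0 ≤ 4 * B₀ * (L + 1) := by positivity
  refine ⟨4 * B₀ * (L + 1) + 1, by linarith, c₁ / 2 ^ m, by positivity,
    fun β c s u z ρ R hβ hu hρ hR hz => ?_⟩
  obtain ⟨S, hS⟩ : ∃ S : Set ℝ, S = {t | t = 0 ∨ (0 < t ∧ t ≤ R ∧ c₁ * t ^ m ≤ En s u 0 c t)} :=
    ⟨_, rfl⟩
  have hne : S.Nonempty := ⟨0, by rw [hS]; exact Or.inl rfl⟩
  have hub : ∀ t ∈ S, t ≤ R := by
    intro t ht
    rw [hS] at ht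
    rcases ht with rfl | ht
    · exact hR.le
    · exact ht.2.1
  have hbdd : BddAbove S := ⟨R, hub⟩
  have hMρ : 0 ≤ (4 * B₀ * (L + 1) + 1) * ρ := by positivity
  refine ⟨max ((4 * B₀ * (L + 1) + 1) * ρ) (sSup S), le_max_left _ _, fun hr i hi x hx => ?_, ?_⟩
  · obtain ⟨T, hT⟩ : ∃ T, T = max ‖x - c‖ (max ((4 * B₀ * (L + 1) + 1) * ρ) (sSup S)) := ⟨_, rfl⟩
    rw [← hT]
    have h1 : ‖x - c‖ ≤ T := hT ▸ le_max_left _ _
    have h2 : (4 * B₀ * (L + 1) + 1) * ρ ≤ T := hT ▸ (le_max_left _ _).trans (le_max_right _ _)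
    have h3 : sSup S ≤ T := hT ▸ (le_max_right _ _).trans (le_max_right _ _)
    have h4 : T ≤ R / 2 := hT ▸ max_le (mem_ball_iff_norm.1 hx).le hr
    have h5 : |u i x - u i c| * (L + 1) ≤ T / 4 := by
      rcases (hMρ.trans h2).eq_or_lt with h0 | h0
      · have : x = c := sub_eq_zero.1 (norm_le_zero_iff.1 (h1.trans h0.ge))
        rw [this, sub_self, abs_zero, zero_mul, ← h0]
        norm_num
      · have h6 : En s u 0 c (2 * T) ≤ c₁ * (2 * T) ^ m := by
          by_contra h6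
          have : 2 * T ∈ S := by
            rw [hS]
            exact Or.inr ⟨by linarith, by linarith, (not_le.1 h6).le⟩
          have := le_csSup hbdd this
          linarith
        have h7 : ∫ y in ball c (2 * T), ‖gradient (u i) y‖ ^ 2 ≤ En s u 0 c (2 * T) := by
          rw [En_sum_bprop2 hu]
          exact Finset.single_le_sum (f := fun i => ∫ y in ball c (2 * T), ‖gradient (u i) y‖ ^ 2)
            (fun j _ => integral_nonneg fun y => by positivity) hi
        have h8 := H (u i) c (2 * T) (hu i) (by linarith) (h7.trans h6) x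
          (mem_ball_iff_norm.2 (by linarith))
        calc _ ≤ 1 / (8 * (L + 1)) * (2 * T) * (L + 1) :=
              mul_le_mul_of_nonneg_right h8 (by positivity)
          _ = T / 4 := by field_simp; ring
    have h6 : |u i c - z| * (L + 1) ≤ T / 4 := by
      have := mul_le_mul_of_nonneg_right (hz i hi) (by positivity : (0 : ℝ) ≤ L + 1)
      linarith
    have h7 := abs_sub_le (u i x) (u i c) z
    calc _ ≤ (|u i x - u i c| + |u i c - z|) * (L + 1) :=
          mul_le_mul h7 (by linarith) (by positivity) (by positivity)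
      _ ≤ T / 2 := by linarith
  · rcases le_or_gt (sSup S) ((4 * B₀ * (L + 1) + 1) * ρ) with h | h
    · exact Or.inl (max_eq_left h)
    · rw [max_eq_right h.le]
      have h0 : 0 < sSup S := hMρ.trans_lt h
      refine Or.inr ⟨h0, csSup_le hne hub, ?_⟩
      obtain ⟨t, ht, hlt⟩ := exists_lt_of_lt_csSup hne (by linarith : sSup S / 2 < sSup S)
      have h1 := le_csSup hbdd ht
      rw [hS] at ht
      rcases ht with rfl | ht
      · linarith
      · calc c₁ / 2 ^ m * sSup S ^ m = c₁ * (sSup S / 2) ^ m := by rw [div_pow]; ring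
          _ ≤ c₁ * t ^ m := by gcongr
          _ ≤ En s u 0 c t := ht.2.2
          _ ≤ _ := En_mono hu 0 (ball_subset_ball h1)

set_option linter.unusedVariables false in
/-- The height bound at comparable radii. -/
theorem Ht_comparable (m Q : ℕ) {B M : ℝ} (hB : 0 < B) (hM : 1 ≤ M) : ∃ C > 0,
    ∀ (L : ℝ≥0) (c : E m) (s : Finset ι) (u : ι → E m → ℝ) (z ρ r : ℝ), s.card ≤ Q →
      (∀ i, LipschitzWith L (u i)) → 0 < ρ → ρ ≤ r → r ≤ M * ρ →
      Ht s u z c ρ ≤ B * ρ ^ 2 * En s u 0 c ρ → Ht s u z c r ≤ C * r ^ 2 * En s u 0 c r := by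
  obtain ⟨CP, hCP, HP⟩ := poincare m
  have hM0 : 0 < M := by linarith
  have hv := vb_pos m
  refine ⟨2 * CP + 4 * M ^ m * CP + 4 * M ^ m * B, by positivity,
    fun L c s u z ρ r _ hu hρ hρr hrM hH => ?_⟩
  have hr : 0 < r := hρ.trans_le hρr
  have key : ∀ i, ∫ x in ball c r, (u i x - z) ^ 2 ≤
      (2 * CP + 4 * M ^ m * CP) * r ^ 2 * (∫ x in ball c r, ‖gradient (u i) x‖ ^ 2) +
        4 * M ^ m * ∫ x in ball c ρ, (u i x - z) ^ 2 := by
    intro i
    obtain ⟨a, ha⟩ := HP (u i) L (hu i) c r hr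
    have hi : ∀ a, IntegrableOn (fun x => (u i x - a) ^ 2) (ball c r) := fun a => by
      simpa using intOn_Ht (s := {i}) hu a c r
    have h1 := close_of_int' (c := c) hρ (hu i).continuous a z
    have h2 : ∫ x in ball c ρ, (u i x - a) ^ 2 ≤ ∫ x in ball c r, (u i x - a) ^ 2 :=
      setIntegral_mono_set (hi a) (ae_of_all _ fun _ => sq_nonneg _)
        (ball_subset_ball hρr).eventuallyLE
    have hc : IntegrableOn (fun _ : E m => 2 * (a - z) ^ 2) (ball c r) :=
      integrableOn_const measure_ball_lt_top.ne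
    have h3 : ∫ x in ball c r, (u i x - z) ^ 2 ≤
        ∫ x in ball c r, (2 * (u i x - a) ^ 2 + 2 * (a - z) ^ 2) :=
      integral_mono (hi z) (((hi a).const_mul 2).add hc) fun x => by
        have := sq_nonneg (u i x - a - (a - z))
        dsimp only
        nlinarith
    rw [integral_add ((hi a).const_mul 2) hc, integral_const_mul, setIntegral_const,
      vol_ball c hr, smul_eq_mul] at h3
    have h4 : r ^ m ≤ M ^ m * ρ ^ m := by
      rw [← mul_pow]
      exact pow_le_pow_left₀ hr.le hrM m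
    have h5 : vb m * r ^ m * (2 * (a - z) ^ 2) ≤ 2 * M ^ m * ((a - z) ^ 2 * (vb m * ρ ^ m)) := by
      calc _ ≤ vb m * (M ^ m * ρ ^ m) * (2 * (a - z) ^ 2) := by gcongr
        _ = _ := by ring
    have h6 : 2 * M ^ m * ((a - z) ^ 2 * (vb m * ρ ^ m)) ≤ 2 * M ^ m *
        (2 * (CP * r ^ 2 * ∫ x in ball c r, ‖gradient (u i) x‖ ^ 2) +
          2 * ∫ x in ball c ρ, (u i x - z) ^ 2) :=
      mul_le_mul_of_nonneg_left (by linarith) (by positivity)
    linarith
  have h1 : Ht s u z c r ≤ (2 * CP + 4 * M ^ m * CP) * r ^ 2 * En s u 0 c r +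
      4 * M ^ m * Ht s u z c ρ := by
    rw [Ht_sum_bprop2 hu, Ht_sum_bprop2 hu, En_sum_bprop2 hu, Finset.mul_sum, Finset.mul_sum,
      ← Finset.sum_add_distrib]
    exact Finset.sum_le_sum fun i _ => key i
  have h2 : B * ρ ^ 2 * En s u 0 c ρ ≤ B * r ^ 2 * En s u 0 c r :=
    mul_le_mul (by gcongr) (En_mono hu 0 (ball_subset_ball hρr)) (En_nonneg _ _ _ _ _)
      (by positivity)
  have h3 := mul_le_mul_of_nonneg_left (hH.trans h2) (by positivity : 0 ≤ 4 * M ^ m)
  linarith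

end Pool.Agent.Lib.MP_8daebb_an.LH
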