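import Pool.Agent.Lib.MP_8daebb_an.LH.BProp1
import Pool.Agent.Lib.MP_8daebb_an.LH.BProp2
import Pool.Agent.Lib.MP_8daebb_an.LG.Vit

open MeasureTheory Metric Set Filter Topology
open scoped RealInnerProductSpace NNReal
open Pool.Agent.Lib.MP_8daebb_an.LG

namespace Pool.Agent.Lib.MP_8daebb_an.LH

variable {m : ℕ} {ι : Type}

/-! BPROP. Propagation of the height bound and monotonicity of the energy. -/

theorem centre_bprop {Q : ℕ} {L : ℝ≥0} {B : ℝ} (hB : 0 < B) {c : E m} {s : Finset ι}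
    {u : ι → E m → ℝ} {z ρ : ℝ} (hs : s.card ≤ Q) (hL : ∀ i, LipschitzWith L (u i)) (hρ : 0 ≤ ρ)
    (h0 : ρ = 0 → ∀ i ∈ s, u i c = z) (h1 : 0 < ρ → Ht s u z c ρ ≤ B * ρ ^ 2 * En s u 0 c ρ) :
    ∀ i ∈ s, |u i c - z| ≤ (B * (Q * L ^ 2) + 1 + L) * ρ := by
  intro i hi
  rcases hρ.eq_or_lt with h | h
  · rw [h0 h.symm i hi, ← h]
    simp
  have hQ : (s.card : ℝ) ≤ Q := by exact_mod_cast hs
  have hv := vb_pos m
  have h2 : Ht s u z c ρ ≤ B * (Q * L ^ 2) * ρ ^ 2 * (vb m * ρ ^ m) := by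
    refine (h1 h).trans ?_
    have h3 : En s u 0 c ρ ≤ Q * L ^ 2 * (vb m * ρ ^ m) := (En_le hL c h).trans (by gcongr)
    refine (mul_le_mul_of_nonneg_left h3 (by positivity)).trans (le_of_eq ?_)
    ring
  obtain ⟨y, hy, h4⟩ := exists_le_avg h (intOn_Ht hL z c ρ) h2
  have h5 : (u i y - z) ^ 2 ≤ B * (Q * L ^ 2) * ρ ^ 2 :=
    (Finset.single_le_sum (f := fun i => (u i y - z) ^ 2) (fun _ _ => sq_nonneg _) hi).trans h4
  have hK : 0 ≤ B * (Q * (L : ℝ) ^ 2) := by positivity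
  have h6 : |u i y - z| ≤ (B * (Q * L ^ 2) + 1) * ρ := by
    refine abs_le_of_sq_le_sq' (h5.trans ?_) (by positivity) |> abs_le.2
    rw [mul_pow (B * (Q * (L : ℝ) ^ 2) + 1)]
    exact mul_le_mul_of_nonneg_right (by nlinarith) (sq_nonneg _)
  have h7 : |u i c - u i y| ≤ L * ρ := by
    have h8 := (hL i).dist_le_mul c y
    rw [Real.dist_eq, dist_comm] at h8
    exact h8.trans (mul_le_mul_of_nonneg_left (mem_ball.1 hy).le L.coe_nonneg)
  have h9 := abs_sub_le (u i c) (u i y) z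
  linarith

theorem crude_bprop {Q : ℕ} {L : ℝ≥0} {B₀ : ℝ} (hB : 0 < B₀) {c : E m} {s : Finset ι}
    {u : ι → E m → ℝ} {z ρ t : ℝ} (hs : s.card ≤ Q) (hL : ∀ i, LipschitzWith L (u i))
    (h : ∀ i ∈ s, |u i c - z| ≤ B₀ * ρ) (ht : 0 < t) (hρ : ρ ≤ t) :
    Ht s u z c t ≤ Q * (B₀ + L) ^ 2 * vb m * t ^ 2 * t ^ m := by
  have hQ : (s.card : ℝ) ≤ Q := by exact_mod_cast hs
  have hv := vb_pos m
  have h1 := Ht_le_prop (s := s) (z := z) (c := c) (A := (B₀ + L) * t) hL ht fun i hi x hx => by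
    have h8 := (hL i).dist_le_mul x c
    rw [Real.dist_eq] at h8
    have h7 := h8.trans (mul_le_mul_of_nonneg_left (mem_ball.1 hx).le L.coe_nonneg)
    have h9 := abs_sub_le (u i x) (u i c) z
    have h10 := mul_le_mul_of_nonneg_left hρ hB.le
    have := h i hi
    linarith
  refine h1.trans (le_trans ?_ (le_of_eq (b := Q * (B₀ + L) ^ 2 * vb m * t ^ 2 * t ^ m)
    (a := Q * ((B₀ + L) * t) ^ 2 * (vb m * t ^ m)) (by ring)))
  gcongr

theorem prop_B (m Q : ℕ) (L : ℝ≥0) {B : ℝ} (hB : 0 < B) : ∃ C > 0,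
    ∀ (β c : E m) (s : Finset ι) (u : ι → E m → ℝ) (z ρ r : ℝ), s.card ≤ Q → ‖β‖ ≤ L →
      (∀ i, LipschitzWith L (u i)) → 0 < r → StatB β s u (ball c (64 * r)) → 0 ≤ ρ → ρ ≤ r →
      (ρ = 0 → ∀ i ∈ s, u i c = z) → (0 < ρ → Ht s u z c ρ ≤ B * ρ ^ 2 * En s u 0 c ρ) →
        Ht s u z c r ≤ C * r ^ 2 * En s u 0 c (64 * r) ∧
        ∀ r₁, 0 < r₁ → ρ ≤ r₁ → r₁ ≤ r →
          r₁ ^ 2 / r₁ ^ m * En s u 0 c r₁ ≤ C * (r ^ 2 / r ^ m * En s u 0 c (64 * r)) := by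
  have hv := vb_pos m
  obtain ⟨B₀, hB₀def⟩ : ∃ B₀ : ℝ, B₀ = B * (Q * L ^ 2) + 1 + L := ⟨_, rfl⟩
  have hB₀ : 0 < B₀ := by rw [hB₀def]; positivity
  obtain ⟨M, hM, c₁, hc₁, HP⟩ := exists_proper (ι := ι) m L hB₀
  obtain ⟨C₂, hC₂, H2⟩ := Ht_comparable (ι := ι) m Q hB (M := 4 * M) (by linarith)
  obtain ⟨C₅, hC₅def⟩ : ∃ C₅ : ℝ, C₅ = C₂ + Q * (B₀ + L) ^ 2 * vb m * (4 ^ m / c₁) := ⟨_, rfl⟩
  obtain ⟨C₄, hC₄def⟩ : ∃ C₄ : ℝ, C₄ = (4 * M) ^ m + Q * L ^ 2 * vb m * (4 ^ m / c₁) := ⟨_, rfl⟩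
  have hM0 : 0 < M := by linarith
  have k1 : 0 ≤ Q * (B₀ + L) ^ 2 * vb m * (4 ^ m / c₁) := by positivity
  have k2 : 0 ≤ Q * (L : ℝ) ^ 2 * vb m * (4 ^ m / c₁) := by positivity
  have k3 : 0 < (4 * M) ^ m := by positivity
  have hC₅ : 0 < C₅ := by rw [hC₅def]; linarith
  have hC₄ : 0 < C₄ := by rw [hC₄def]; linarith
  obtain ⟨C₃, hC₃, H3⟩ := prop_proper (ι := ι) m Q L (B := 16 * C₅) (by linarith)
  have k4 : 0 < C₄ * C₃ := by positivity
  refine ⟨C₃ + C₄ * C₃ + C₄ + C₅, by positivity, ?_⟩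
  intro β c s u z ρ r hs hβ hL hr hst hρ hρr h0 h1
  have hQ : (s.card : ℝ) ≤ Q := by exact_mod_cast hs
  have hc := centre_bprop hB hs hL hρ h0 h1
  rw [← hB₀def] at hc
  obtain ⟨r₀, hr₀, hpr, halt⟩ := HP β c s u z ρ (64 * r) hβ hL hρ (by linarith) hc
  have hMρ : ρ ≤ M * ρ := le_mul_of_one_le_left hρ hM
  have hr₀0 : 0 ≤ r₀ := by linarith
  have mono : ∀ {a b : ℝ}, a ≤ b → En s u 0 c a ≤ En s u 0 c b := fun h =>
    En_mono hL 0 (ball_subset_ball h)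
  have key : ∀ t t' : ℝ, 0 < t → ρ ≤ t → t ≤ 4 * r₀ → t ≤ t' → min r₀ (64 * r) ≤ t' →
      Ht s u z c t ≤ C₅ * t ^ 2 * En s u 0 c t' ∧ ∀ r₁, 0 < r₁ → ρ ≤ r₁ → r₁ ≤ t →
        r₁ ^ 2 / r₁ ^ m * En s u 0 c r₁ ≤ C₄ * (t ^ 2 / t ^ m * En s u 0 c t') := by
    intro t t' ht hρt ht4 htt hmin
    have hE := En_nonneg s u 0 c t'
    rcases halt with h | ⟨h2, h3, h4⟩
    · have hρ0 : 0 < ρ := by
        by_contra hn
        have : ρ = 0 := le_antisymm (not_lt.1 hn) hρ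
        rw [this, mul_zero] at h
        linarith
      refine ⟨(H2 L c s u z ρ t hs hL hρ0 hρt (by linarith) (h1 hρ0)).trans ?_,
        fun r₁ hr₁ hρ₁ hr₁t => ?_⟩
      · have := mono htt
        have h5 : C₂ ≤ C₅ := by linarith
        have := En_nonneg s u 0 c t
        gcongr
      · have h5 : t ≤ 4 * M * r₁ := by nlinarith
        have h6 : t ^ m ≤ (4 * M) ^ m * r₁ ^ m := by
          rw [← mul_pow]
          exact pow_le_pow_left₀ ht.le h5 m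
        have h7 : r₁ ^ 2 / r₁ ^ m ≤ (4 * M) ^ m * (t ^ 2 / t ^ m) := by
          rw [← mul_div_assoc, div_le_div_iff₀ (by positivity) (by positivity)]
          have h8 : r₁ ^ 2 ≤ t ^ 2 := pow_le_pow_left₀ hr₁.le hr₁t 2
          calc r₁ ^ 2 * t ^ m ≤ t ^ 2 * ((4 * M) ^ m * r₁ ^ m) := by gcongr
            _ = (4 * M) ^ m * t ^ 2 * r₁ ^ m := by ring
        have h9 := mono (hr₁t.trans htt)
        have h10 : (4 * M) ^ m ≤ C₄ := by linarith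
        have := En_nonneg s u 0 c r₁
        calc r₁ ^ 2 / r₁ ^ m * En s u 0 c r₁
            ≤ (4 * M) ^ m * (t ^ 2 / t ^ m) * En s u 0 c t' := by gcongr
          _ ≤ C₄ * (t ^ 2 / t ^ m) * En s u 0 c t' := by gcongr
          _ = _ := by ring
    · rw [min_eq_left h3] at hmin
      have h5 : t ^ m ≤ 4 ^ m / c₁ * En s u 0 c t' := by
        have h6 : t ^ m ≤ 4 ^ m * r₀ ^ m := by
          rw [← mul_pow]
          exact pow_le_pow_left₀ ht.le ht4 m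
        have h7 : r₀ ^ m ≤ En s u 0 c t' / c₁ := by
          rw [le_div_iff₀ hc₁, mul_comm]
          exact h4.trans (mono hmin)
        calc t ^ m ≤ 4 ^ m * (En s u 0 c t' / c₁) := h6.trans (by gcongr)
          _ = _ := by ring
      refine ⟨(crude_bprop hB₀ hs hL hc ht hρt).trans ?_, fun r₁ hr₁ _ hr₁t => ?_⟩
      · have h6 : Q * (B₀ + L) ^ 2 * vb m * (4 ^ m / c₁) ≤ C₅ := by linarith
        calc Q * (B₀ + L) ^ 2 * vb m * t ^ 2 * t ^ m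
            ≤ Q * (B₀ + L) ^ 2 * vb m * t ^ 2 * (4 ^ m / c₁ * En s u 0 c t') := by gcongr
          _ = Q * (B₀ + L) ^ 2 * vb m * (4 ^ m / c₁) * t ^ 2 * En s u 0 c t' := by ring
          _ ≤ _ := by gcongr
      · have h6 : Q * (L : ℝ) ^ 2 * vb m * (4 ^ m / c₁) ≤ C₄ := by linarith
        have h7 : En s u 0 c r₁ ≤ Q * L ^ 2 * (vb m * r₁ ^ m) :=
          (En_le hL c hr₁).trans (by gcongr)
        have h8 : r₁ ^ 2 ≤ t ^ 2 := pow_le_pow_left₀ hr₁.le hr₁t 2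
        calc r₁ ^ 2 / r₁ ^ m * En s u 0 c r₁
            ≤ r₁ ^ 2 / r₁ ^ m * (Q * L ^ 2 * (vb m * r₁ ^ m)) := by gcongr
          _ = Q * L ^ 2 * vb m * r₁ ^ 2 := by field_simp
          _ ≤ Q * L ^ 2 * vb m * t ^ 2 := by gcongr
          _ = Q * L ^ 2 * vb m * (t ^ 2 / t ^ m) * t ^ m := by field_simp
          _ ≤ Q * L ^ 2 * vb m * (t ^ 2 / t ^ m) * (4 ^ m / c₁ * En s u 0 c t') := by gcongr
          _ = Q * L ^ 2 * vb m * (4 ^ m / c₁) * (t ^ 2 / t ^ m * En s u 0 c t') := by ring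
          _ ≤ _ := by gcongr
  have hE := En_nonneg s u 0 c (64 * r)
  have hF : 0 ≤ r ^ 2 / r ^ m * En s u 0 c (64 * r) := by positivity
  rcases le_or_gt (4 * r₀) r with hcase | hcase
  · obtain ⟨a1, a2⟩ := H3 β c s u z r₀ (64 * r / 2) hs hβ hL
      (StatF.mono hst (ball_subset_ball (by linarith))) (hpr (by linarith)) hr₀0 (fun h => by
        refine (key (4 * r₀) (4 * r₀) (by linarith) (by linarith) le_rfl le_rfl
          ((min_le_left _ _).trans (by linarith))).1.trans (le_of_eq ?_)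
        ring) r hr hcase (by linarith)
    have hm : En s u 0 c (16 * r) ≤ En s u 0 c (64 * r) := mono (by linarith)
    have a3 : ∀ r₁, 0 < r₁ → 4 * r₀ ≤ r₁ → r₁ ≤ r → r₁ ^ 2 / r₁ ^ m * En s u 0 c r₁ ≤
        C₃ * (r ^ 2 / r ^ m * En s u 0 c (64 * r)) := fun r₁ b1 b2 b3 =>
      (a2 r₁ b1 b2 b3).trans (by gcongr)
    refine ⟨a1.trans ?_, fun r₁ b1 b2 b3 => ?_⟩
    · have h5 : C₃ ≤ C₃ + C₄ * C₃ + C₄ + C₅ := by linarith
      have := En_nonneg s u 0 c (16 * r)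
      gcongr
    · rcases le_or_gt (4 * r₀) r₁ with h | h
      · exact (a3 r₁ b1 h b3).trans (mul_le_mul_of_nonneg_right (by linarith) hF)
      · have h5 := (key (4 * r₀) (4 * r₀) (by linarith) (by linarith) le_rfl le_rfl
          ((min_le_left _ _).trans (by linarith))).2 r₁ b1 b2 h.le
        have h6 := a3 (4 * r₀) (by linarith) le_rfl hcase
        refine h5.trans ((mul_le_mul_of_nonneg_left h6 hC₄.le).trans ?_)
        rw [← mul_assoc]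
        exact mul_le_mul_of_nonneg_right (by linarith) hF
  · obtain ⟨a1, a2⟩ := key r (64 * r) hr hρr hcase.le (by linarith) (min_le_right _ _)
    refine ⟨a1.trans ?_, fun r₁ b1 b2 b3 => (a2 r₁ b1 b2 b3).trans
      (mul_le_mul_of_nonneg_right (by linarith) hF)⟩
    have h5 : C₅ ≤ C₃ + C₄ * C₃ + C₄ + C₅ := by linarith
    gcongr

end Pool.Agent.Lib.MP_8daebb_an.LH
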