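import Pool.Agent.Lib.MP_8daebb_an.LH.BFreq3
import Pool.Agent.Lib.MP_8daebb_an.LH.BOde
import Pool.Agent.Lib.MP_8daebb_an.LG.Prop

open MeasureTheory Metric Set Filter Topology
open scoped RealInnerProductSpace NNReal
open Pool.Agent.Lib.MP_8daebb_an.LG

namespace Pool.Agent.Lib.MP_8daebb_an.LH

variable {m : ℕ} {ι : Type}

/-! BPROP1. The height bound and the monotonicity in the range where the cylinder is proper. -/

theorem dB_mono_bp1 {β c : E m} {s : Finset ι} {u : ι → E m → ℝ} {L : ℝ≥0} {z r₀ R r r' : ℝ}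
    (h : StatB β s u (ball c R)) (hL : ∀ i, LipschitzWith L (u i)) (hP : Pr β s u c z r₀ R)
    (hr : 0 < r) (hr₀ : r₀ ≤ 2 * r) (hrr : r ≤ r') (hR : 2 * r' < R) :
    dB β s u c z R r ≤ dB β s u c z R r' := by
  have hd : ∀ t ∈ Icc r r', HasDerivAt (dB β s u c z R)
      ((2 * rB β s u c z R t + 2 * (dB β s u c z R t - tB β s u c z R t)) / t) t := fun t ht =>
    (dB_deriv h hL hP (hr.trans_le ht.1) (by linarith [ht.1]) (by linarith [ht.2])).1
  refine monotoneOn_of_hasDerivWithinAt_nonneg (convex_Icc r r')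
    (fun t ht => (hd t ht).continuousAt.continuousWithinAt)
    (fun t ht => (hd t (interior_subset ht)).hasDerivWithinAt) (fun t ht => ?_)
    (left_mem_Icc.2 hrr) (right_mem_Icc.2 hrr) hrr
  have ht0 : 0 < t := hr.trans_le (interior_subset ht).1
  have h1 := rB_nonneg (β := β) (c := c) (s := s) (u := u) (z := z) (R := R) ht0
  have h2 := (tB_le_dB (β := β) (c := c) (s := s) (z := z) (R := R) hL ht0).2
  exact div_nonneg (by linarith) ht0.le

/-- The pointwise height bound from the mean height. -/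
theorem height_bp1 (m : ℕ) (L : ℝ≥0) : ∃ K > 0, ∀ (c : E m) (s : Finset ι) (u : ι → E m → ℝ)
    (z t : ℝ), (∀ i, LipschitzWith L (u i)) → 0 < t → ∀ i ∈ s, ∀ x ∈ ball c (2 * t),
      |u i x - z| ≤ t → (|u i x - z| / t) ^ (m + 2) ≤ K * (Ht s u z c (2 * t) / t ^ m) / t ^ 2 := by
  obtain ⟨K, hK, HK⟩ := lip_interp m L one_pos
  refine ⟨K, hK, fun c s u z t hL ht i hi x hx hb => ?_⟩
  have hf : LipschitzWith L fun y => u i y - z := by
    simpa using (hL i).sub (LipschitzWith.const z)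
  have h1 := HK _ hf c (2 * t) (by positivity) x hx (by linarith)
  have h2 : ∫ y in ball c (2 * t), (u i y - z) ^ 2 ≤ Ht s u z c (2 * t) :=
    setIntegral_mono (intOn_sq_prop hf.continuous c _) (intOn_Ht hL z c _) fun y =>
      Finset.single_le_sum (f := fun j => (u j y - z) ^ 2) (fun j _ => sq_nonneg _) hi
  calc (|u i x - z| / t) ^ (m + 2) = 2 ^ (m + 2) * (|u i x - z| / (2 * t)) ^ (m + 2) := by
        rw [← mul_pow]
        congr 1
        field_simp
    _ ≤ 2 ^ (m + 2) * (K * (Ht s u z c (2 * t) / (2 * t) ^ m) / (2 * t) ^ 2) := by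
        refine mul_le_mul_of_nonneg_left (h1.trans ?_) (by positivity)
        gcongr
    _ = _ := by
        rw [mul_pow 2 t m]
        field_simp
        ring

theorem prop_proper (m Q : ℕ) (L : ℝ≥0) {B : ℝ} (hB : 0 < B) : ∃ C > 0,
    ∀ (β c : E m) (s : Finset ι) (u : ι → E m → ℝ) (z r₀ R : ℝ), s.card ≤ Q → ‖β‖ ≤ L →
      (∀ i, LipschitzWith L (u i)) → StatB β s u (ball c R) → Pr β s u c z r₀ R → 0 ≤ r₀ →
      (0 < r₀ → Ht s u z c (4 * r₀) ≤ B * r₀ ^ 2 * En s u 0 c (4 * r₀)) →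
      ∀ r, 0 < r → 4 * r₀ ≤ r → 32 * r ≤ R →
        Ht s u z c r ≤ C * r ^ 2 * En s u 0 c (16 * r) ∧
        ∀ r₁, 0 < r₁ → 4 * r₀ ≤ r₁ → r₁ ≤ r →
          r₁ ^ 2 / r₁ ^ m * En s u 0 c r₁ ≤ C * (r ^ 2 / r ^ m * En s u 0 c (16 * r)) := by
  obtain ⟨S, hS, HS⟩ := sizes (ι := ι) m L
  obtain ⟨K, hK, HK⟩ := height_bp1 (ι := ι) m L
  have hv := vb_pos m
  have hm8 : (0 : ℝ) < 2 * m + 8 := by positivity
  have hm0 : (0 : ℝ) ≤ m := Nat.cast_nonneg m
  obtain ⟨B₁, hB₁⟩ : ∃ B₁ : ℝ, B₁ = 6 * S ^ 2 * B * 8 ^ m + S * (m + 4) := ⟨_, rfl⟩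
  have e1 : 0 < 6 * S ^ 2 * B * 8 ^ m := by positivity
  have e2 : 0 < S * (m + 4) := by positivity
  have hB₁0 : 0 < B₁ := by linarith
  have e3 : 0 ≤ 6 * S * (Q * vb m * 2 ^ m) := by positivity
  have e4 : 0 < (2 * m + 8 : ℝ) ^ (m + 2) * (K * 8 ^ m) := by positivity
  obtain ⟨C₁, hC₁⟩ : ∃ C₁ : ℝ, C₁ = 2 * ((2 * m + 8) ^ (m + 2) * (K * 8 ^ m)) + S ^ 2 := ⟨_, rfl⟩
  have hS2 : 0 < S ^ 2 := by positivity
  obtain ⟨C, hC, HC⟩ := odeA' (n := m + 2) (by omega)
    (B := (2 * m + 8) + 6 * S * (Q * vb m * 2 ^ m) + 24 * B₁) (C₁ := C₁) (by positivity)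
    (by linarith)
  refine ⟨64 * ((2 * C + S ^ 2) * S) + 4 * S ^ 2, by positivity,
    fun β c s u z r₀ R hs hβ hL hst hP hr₀ hstart r hr hr₀r hrR => ?_⟩
  have hQ : (s.card : ℝ) ≤ Q := by exact_mod_cast hs
  have sz := fun t => HS β c s u z r₀ R t hβ hL hP
  have d0 : ∀ t, 0 < t → 0 ≤ dB β s u c z R t := fun t ht => dB_nonneg ht
  have ρ0 : ∀ t, 0 < t → 0 ≤ rB β s u c z R t := fun t ht => rB_nonneg ht
  have hY : ∀ t, 0 < t → 2 * r₀ ≤ t → 2 * t < R → Ht s u z c (t / 4) / t ^ m ≤
      2 * LH.hB β s u c z R t + S ^ 2 * dB β s u c z R (2 * t) := by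
    intro t ht h1 h2
    obtain ⟨-, -, -, a4, -, a6, -, a8⟩ := sz t ht h1 h2
    have := mul_le_mul_of_nonneg_left a8 hS.le
    linarith
  have hH0 : ∀ t, 0 ≤ Ht s u z c t := fun t =>
    integral_nonneg fun _ => Finset.sum_nonneg fun _ _ => sq_nonneg _
  obtain ⟨X, hX⟩ : ∃ X : ℝ → ℝ, X = fun t => K * 8 ^ m *
    (2 * LH.hB β s u c z R (8 * t) + S ^ 2 * dB β s u c z R (16 * t)) / t ^ 2 := ⟨_, rfl⟩
  have key := HC (dB β s u c z R) (LH.hB β s u c z R) (tB β s u c z R) (t0B β s u c z R)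
    (rB β s u c z R) (fun t => (2 * m + 8) *
      if 16 * t < R / 2 then min 1 (X t ^ (((m + 2 : ℕ) : ℝ)⁻¹)) else 1) (16 * r₀) (R / 2)
    (by positivity) (fun t ht h0t htR => ?_) (fun h0 => ?_)
  · have k1 := key (4 * r) (by positivity) (by linarith) (by linarith)
    have k2 := hY (4 * r) (by positivity) (by linarith) (by linarith)
    have k3 := dB_mono_bp1 hst hL hP (r := 4 * r) (r' := 8 * r) (by positivity) (by linarith)
      (by linarith) (by linarith)
    have k4 := (sz (8 * r) (by positivity) (by linarith) (by linarith)).1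
    rw [show 4 * r / 4 = r by ring, show 2 * (4 * r) = 8 * r by ring] at k2
    rw [show 2 * (8 * r) = 16 * r by ring] at k4
    have hE := En_nonneg s u 0 c (16 * r)
    have p48 : (4 : ℝ) ^ m ≤ 8 ^ m := pow_le_pow_left₀ (by norm_num) (by norm_num) m
    have k5 : 4 ^ m * dB β s u c z R (8 * r) ≤
        64 * S * (r ^ 2 / r ^ m * En s u 0 c (16 * r)) := by
      refine (mul_le_mul p48 k4 (d0 _ (by positivity)) (by positivity)).trans_eq ?_
      rw [mul_pow 8 r m]
      field_simp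
      ring
    have k6 : 0 ≤ r ^ 2 / r ^ m * En s u 0 c (16 * r) := by positivity
    constructor
    · have k7 : Ht s u z c r / (4 * r) ^ m ≤ (2 * C + S ^ 2) * dB β s u c z R (8 * r) := by
        have := mul_le_mul_of_nonneg_left k3 hC.le
        linarith
      rw [div_le_iff₀ (by positivity), mul_pow] at k7
      calc Ht s u z c r ≤ (2 * C + S ^ 2) * (4 ^ m * dB β s u c z R (8 * r)) * r ^ m := by
            linarith
        _ ≤ (2 * C + S ^ 2) * (64 * S * (r ^ 2 / r ^ m * En s u 0 c (16 * r))) * r ^ m := by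
            gcongr
        _ = 64 * ((2 * C + S ^ 2) * S) * r ^ 2 * En s u 0 c (16 * r) := by field_simp
        _ ≤ _ := by gcongr; linarith
    · intro r₁ hr₁ h1 h2
      have k7 := (sz (4 * r₁) (by positivity) (by linarith) (by linarith)).2.1
      have k8 := dB_mono_bp1 hst hL hP (r := 4 * r₁) (r' := 8 * r) (by positivity) (by linarith)
        (by linarith) (by linarith)
      rw [show 4 * r₁ / 4 = r₁ by ring] at k7
      calc r₁ ^ 2 / r₁ ^ m * En s u 0 c r₁
          = 4 ^ m / 16 * ((4 * r₁) ^ 2 / (4 * r₁) ^ m * En s u 0 c r₁) := by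
            rw [mul_pow 4 r₁ m]
            field_simp
            ring
        _ ≤ 4 ^ m / 16 * (S * dB β s u c z R (8 * r)) := by
            refine mul_le_mul_of_nonneg_left (k7.trans ?_) (by positivity)
            exact mul_le_mul_of_nonneg_left k8 hS.le
        _ = S / 16 * (4 ^ m * dB β s u c z R (8 * r)) := by ring
        _ ≤ S / 16 * (64 * S * (r ^ 2 / r ^ m * En s u 0 c (16 * r))) := by gcongr
        _ = 4 * S ^ 2 * (r ^ 2 / r ^ m * En s u 0 c (16 * r)) := by ring
        _ ≤ _ := by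
            refine mul_le_mul_of_nonneg_right ?_ k6
            have : 0 ≤ 64 * ((2 * C + S ^ 2) * S) := by positivity
            linarith
  · have g1 : r₀ ≤ 2 * t := by linarith
    have g2 : 2 * t < R := by linarith
    have hsub : ball c (2 * t) ⊆ ball c R := ball_subset_ball g2.le
    have hh : ∀ i ∈ s, ∀ x ∈ ball c (2 * t), |u i x - z| ≤ t := fun i hi x hx =>
      hP.height g1 hi (hsub hx) hx
    have hY' : 16 * t < R / 2 → Ht s u z c (2 * t) / (8 * t) ^ m ≤
        2 * LH.hB β s u c z R (8 * t) + S ^ 2 * dB β s u c z R (16 * t) := fun h => by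
      have := hY (8 * t) (by positivity) (by linarith) (by linarith)
      rwa [show 8 * t / 4 = 2 * t by ring, show 2 * (8 * t) = 16 * t by ring] at this
    have hY0 : 16 * t < R / 2 →
        0 ≤ 2 * LH.hB β s u c z R (8 * t) + S ^ 2 * dB β s u c z R (16 * t) := fun h =>
      (div_nonneg (hH0 _) (by positivity)).trans (hY' h)
    have hX0 : 16 * t < R / 2 → 0 ≤ X t := fun h => by
      have := hY0 h
      rw [hX]
      positivity
    obtain ⟨b, hb⟩ : ∃ b : ℝ,
      b = if 16 * t < R / 2 then min 1 (X t ^ (((m + 2 : ℕ) : ℝ)⁻¹)) else 1 := ⟨_, rfl⟩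
    have b0 : 0 ≤ b := by
      rw [hb]
      split_ifs with h
      · exact le_min zero_le_one (Real.rpow_nonneg (hX0 h) _)
      · exact zero_le_one
    have b1 : b ≤ 1 := by
      rw [hb]
      split_ifs with h
      · exact min_le_left _ _
      · exact le_rfl
    have bb : ∀ i ∈ s, ∀ x ∈ ball c (2 * t), |u i x - z| ≤ b * t := by
      intro i hi x hx
      rw [hb]
      split_ifs with h
      · rw [min_mul_of_nonneg _ _ ht.le, one_mul]
        refine le_min (hh i hi x hx) ?_
        have h1 := HK c s u z t hL ht i hi x hx (hh i hi x hx)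
        have h2 : Ht s u z c (2 * t) / t ^ m ≤ 8 ^ m *
            (2 * LH.hB β s u c z R (8 * t) + S ^ 2 * dB β s u c z R (16 * t)) := by
          refine le_trans (le_of_eq ?_) (mul_le_mul_of_nonneg_left (hY' h) (by positivity))
          rw [mul_pow 8 t m]
          field_simp
        have h3 : (|u i x - z| / t) ^ (m + 2) ≤ X t := by
          refine h1.trans ?_
          rw [hX]
          beta_reduce
          rw [mul_assoc K]
          gcongr
        rw [← div_le_iff₀ ht]
        refine le_of_pow_le_pow_left₀ (n := m + 2) (by omega) (Real.rpow_nonneg (hX0 h) _) ?_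
        rwa [Real.rpow_inv_natCast_pow (hX0 h) (by omega)]
      · rw [one_mul]
        exact hh i hi x hx
    have est := tB_est hst hL hP ht g1 g2 b0 b1 bb
    have tl := tB_le_dB (β := β) (c := c) (s := s) (z := z) (R := R) hL ht
    rw [← hb]
    refine ⟨(dB_deriv hst hL hP ht g1 g2).1, hB_deriv hL hP ht g1 g2, ρ0 t ht, tl.1, tl.2, est.1,
      est.2, mul_nonneg hm8.le b0, ?_, ?_, fun h => ?_⟩
    · have := mul_le_mul_of_nonneg_left b1 hm8.le
      linarith
    · obtain ⟨-, -, a3, -, a5, -⟩ := sz t ht (by linarith) g2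
      have h2 := Ht_le_prop hL (by positivity : 0 < 2 * t) hh
      have h3 : 6 / t ^ m * Ht s u z c (2 * t) ≤
          6 / t ^ m * (Q * t ^ 2 * (vb m * (2 * t) ^ m)) := by
        refine mul_le_mul_of_nonneg_left (h2.trans ?_) (by positivity)
        gcongr
      have h4 : S * (6 / t ^ m * (Q * t ^ 2 * (vb m * (2 * t) ^ m))) =
          6 * S * (Q * vb m * 2 ^ m) * t ^ 2 := by
        rw [mul_pow 2 t m]
        field_simp
      refine a5.trans ((mul_le_mul_of_nonneg_left (a3.trans h3) hS.le).trans (h4.trans_le ?_))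
      exact mul_le_mul_of_nonneg_right (by linarith) (sq_nonneg t)
    · have h1 : b ^ (m + 2) ≤ X t := by
        have hle : b ≤ X t ^ (((m + 2 : ℕ) : ℝ)⁻¹) := by
          rw [hb, if_pos h]; exact min_le_right _ _
        have h1 := pow_le_pow_left₀ b0 hle (m + 2)
        rwa [Real.rpow_inv_natCast_pow (hX0 h) (by omega)] at h1
      rw [mul_pow]
      refine (mul_le_mul_of_nonneg_left h1 (by positivity)).trans ?_
      rw [hX]
      beta_reduce
      rw [← mul_div_assoc, ← mul_assoc]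
      refine div_le_div_of_nonneg_right ?_ (sq_nonneg t)
      have h2 := hY0 h
      have h3 := d0 (16 * t) (by positivity)
      have h4 : 2 * LH.hB β s u c z R (8 * t) + S ^ 2 * dB β s u c z R (16 * t) ≤
          2 * (LH.hB β s u c z R (8 * t) + C₁ * dB β s u c z R (16 * t)) := by
        have : S ^ 2 * dB β s u c z R (16 * t) ≤ 2 * C₁ * dB β s u c z R (16 * t) :=
          mul_le_mul_of_nonneg_right (by linarith) h3
        linarith
      refine (mul_le_mul_of_nonneg_left h4 e4.le).trans ?_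
      rw [← mul_assoc]
      exact mul_le_mul_of_nonneg_right (by linarith) (by linarith)
  · have h0' : 0 < r₀ := by linarith
    have h1 := ode_start (B := B₁) (a := 2 * r₀) hB₁0 (by positivity) (d := dB β s u c z R)
      (h := LH.hB β s u c z R) (t := tB β s u c z R) (t₀ := t0B β s u c z R)
      (ρ := rB β s u c z R) (fun t ht => ?_) ?_
    · rw [show 8 * (2 * r₀) = 16 * r₀ by ring] at h1
      exact h1.trans (mul_le_mul_of_nonneg_right (by linarith) (d0 _ h0))
    · have t0 : 0 < t := by linarith [ht.1]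
      have g1 : r₀ ≤ 2 * t := by linarith [ht.1]
      have g2 : 2 * t < R := by linarith [ht.2]
      obtain ⟨-, -, -, -, -, a6, a7, -⟩ := sz t t0 ht.1 g2
      obtain ⟨a1, a2⟩ := dB_deriv hst hL hP t0 g1 g2
      refine ⟨a1, hB_deriv hL hP t0 g1 g2, ρ0 t t0, d0 t t0, (tB_le_dB hL t0).2, ?_⟩
      have a3 := mul_le_mul_of_nonneg_left a2 hS.le
      have a4 := mul_nonneg hS.le (ρ0 t t0)
      have a5 := mul_nonneg e2.le (d0 t t0)
      have a8 := mul_nonneg hm0 a4
      have a9 : S * (m + 4) * (rB β s u c z R t + dB β s u c z R t) ≤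
          B₁ * (rB β s u c z R t + dB β s u c z R t) :=
        mul_le_mul_of_nonneg_right (by linarith) (add_nonneg (ρ0 t t0) (d0 t t0))
      linarith
    · obtain ⟨-, -, a3, -, a5, -⟩ := sz (2 * r₀) (by positivity) le_rfl (by linarith)
      have a2 := (sz (16 * r₀) h0 (by linarith) (by linarith)).2.1
      rw [show 2 * (2 * r₀) = 4 * r₀ by ring] at a3
      rw [show 16 * r₀ / 4 = 4 * r₀ by ring] at a2
      rw [show 8 * (2 * r₀) = 16 * r₀ by ring]
      have a6 := d0 _ h0
      calc LH.hB β s u c z R (2 * r₀)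
          ≤ S * (6 / (2 * r₀) ^ m * (B * r₀ ^ 2 * En s u 0 c (4 * r₀))) := by
            refine a5.trans (mul_le_mul_of_nonneg_left (a3.trans ?_) hS.le)
            exact mul_le_mul_of_nonneg_left (hstart h0') (by positivity)
        _ = 6 * S * B * 8 ^ m / 256 *
            ((16 * r₀) ^ 2 / (16 * r₀) ^ m * En s u 0 c (4 * r₀)) := by
            rw [show 16 * r₀ = 8 * (2 * r₀) by ring, mul_pow 8 (2 * r₀) m]
            field_simp
            ring
        _ ≤ 6 * S * B * 8 ^ m / 256 * (S * dB β s u c z R (16 * r₀)) := by gcongr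
        _ = 6 * S ^ 2 * B * 8 ^ m / 256 * dB β s u c z R (16 * r₀) := by ring
        _ ≤ _ := mul_le_mul_of_nonneg_right (by linarith) a6

end Pool.Agent.Lib.MP_8daebb_an.LH
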