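import Pool.Agent.Lib.MP_8daebb_an.LH.BOsc
import Pool.Agent.Lib.MP_8daebb_an.LG.TG

open MeasureTheory Metric Set Filter Topology
open scoped RealInnerProductSpace NNReal
open Pool.Agent.Lib.MP_8daebb_an.LG

namespace Pool.Agent.Lib.MP_8daebb_an.LH

variable {m : ℕ} {ι : Type}

/-! BRH. Oscillation, reverse Hoelder inequality and higher integrability for oblique graphs. -/

theorem osc_sup [DecidableEq ι] (m Q : ℕ) (L : ℝ≥0) : ∃ Λ ≥ (1 : ℝ), ∃ C > 0,
    ∀ (β : E m) (s : Finset ι) (u : ι → E m → ℝ), s.card ≤ Q → ‖β‖ ≤ L →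
      (∀ i, LipschitzWith L (u i)) → ∀ (c : E m) (r : ℝ), 0 < r → StatB β s u (ball c (Λ * r)) →
        ∀ i ∈ s, ∀ y ∈ ball c r, |u i y - u i c| ≤ C * r * √(En s u 0 c (Λ * r) / r ^ m) := by
  obtain ⟨Λ, hΛ, C, hC, H⟩ := osc_avg (ι := ι) m Q L
  have hvb := vb_pos m
  refine ⟨2 * Λ, by linarith, √(10 * C / vb m), Real.sqrt_pos.2 (by positivity), ?_⟩
  intro β s u hs hβ hL c r hr hst i hi y hy
  have hsub : ball y (Λ * r) ⊆ ball c (2 * Λ * r) := by
    apply ball_subset_ball'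
    have h1 : dist y c < r := hy
    nlinarith
  have hsub2 : ball y r ⊆ ball c (2 * r) := by
    apply ball_subset_ball'
    have h1 : dist y c < r := hy
    linarith
  have e2 : Λ * (2 * r) = 2 * Λ * r := by ring
  have h1 := H β s u hs hβ hL y r hr (StatF.mono hst hsub) i hi
  have h2 := H β s u hs hβ hL c (2 * r) (by linarith) (by rw [e2]; exact hst) i hi
  rw [e2] at h2
  have h3 := En_mono (s := s) hL 0 hsub
  have hcont : Continuous (u i) := (hL i).continuous
  have h4 := close_of_int' (c := y) hr hcont (u i y) (u i c)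
  have h5 : ∫ x in ball y r, (u i x - u i c) ^ 2 ≤ ∫ x in ball c (2 * r), (u i x - u i c) ^ 2 := by
    apply setIntegral_mono_set
    · have : Continuous fun x => (u i x - u i c) ^ 2 := by fun_prop
      exact (this.continuousOn.integrableOn_compact (isCompact_closedBall c (2 * r))).mono_set
        ball_subset_closedBall
    · exact Eventually.of_forall fun x => sq_nonneg _
    · exact hsub2.eventuallyLE
  set En0 := En s u 0 c (2 * Λ * r) with hEn0
  have hE : 0 ≤ En0 := En_nonneg _ _ _ _ _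
  have hrm : 0 < r ^ m := pow_pos hr m
  have h6 : C * r ^ 2 * En s u 0 y (Λ * r) ≤ C * r ^ 2 * En0 :=
    mul_le_mul_of_nonneg_left h3 (by positivity)
  have h7 : (u i y - u i c) ^ 2 * (vb m * r ^ m) ≤ 10 * C * r ^ 2 * En0 := by nlinarith
  have h8 : (u i y - u i c) ^ 2 ≤ (√(10 * C / vb m) * r * √(En0 / r ^ m)) ^ 2 := by
    rw [mul_pow, mul_pow, Real.sq_sqrt (by positivity), Real.sq_sqrt (by positivity)]
    have : 10 * C / vb m * r ^ 2 * (En0 / r ^ m) = 10 * C * r ^ 2 * En0 / (vb m * r ^ m) := by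
      field_simp
    rw [this, le_div_iff₀ (by positivity)]
    exact h7
  exact abs_le_of_sq_le_sq' h8 (by positivity) |> abs_le.2

/-- An upper bound for the area element. -/
noncomputable def Wm_brh (L : ℝ) : ℝ := 2 * (1 + (L + 1) * L)

theorem Wm_pos_brh (L : ℝ≥0) : 0 < Wm_brh L := by
  unfold Wm_brh
  positivity

theorem inner_ab_brh {L : ℝ≥0} {β p : E m} (hβ : ‖β‖ ≤ L) (h : ‖p‖ ≤ L) :
    ‖p‖ ^ 2 / Wm_brh L ≤ ⟪ab β p, p⟫ := by
  rw [inner_ab, div_le_iff₀ (Wm_pos_brh L)]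
  have h1 := sq_le_Fb β p
  have h2 := Wb_le β p
  have h3 := Fb_nonneg β p
  have h4 := Wb_pos β p
  have h5 : 0 ≤ Fb β p / Wb β p := div_nonneg h3 h4.le
  have h6 : 2 * Wb β p ≤ Wm_brh L := by
    unfold Wm_brh
    have : (‖β‖ + 1) * ‖p‖ ≤ (L + 1) * L := by gcongr
    linarith
  have h7 := Wm_pos_brh L
  calc ‖p‖ ^ 2 ≤ 2 * Wb β p * Fb β p := h1
    _ ≤ Wm_brh L * Fb β p := by gcongr
    _ ≤ _ := by nlinarith [mul_nonneg h5 h7.le]

theorem norm_ab_brh {L : ℝ≥0} {β : E m} (hβ : ‖β‖ ≤ L) (p : E m) :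
    ‖ab β p‖ ≤ 3 * (1 + (L : ℝ)) ^ 3 * ‖p‖ :=
  (norm_ab_le β p).trans (by gcongr)

/-- The pointwise lower bound for the tested equation. -/
theorem pointwise_brh {β : E m} {s : Finset ι} {u : ι → E m → ℝ} {L : ℝ≥0} (hβ : ‖β‖ ≤ L)
    (hL : ∀ i, LipschitzWith L (u i))
    {c : E m} {r M : ℝ} (hr : 0 < r) (hM : 0 < M)
    (hb : ∀ i ∈ s, ∀ y ∈ ball c (2 * r), |u i y - u i c| ≤ M) {i : ι} (hi : i ∈ s) {x : E m}
    (hx : DifferentiableAt ℝ (u i) x) :
    (ball c r).indicator (fun x => 27 / (128 * Wm_brh L) * ‖gradient (u i) x‖ ^ 2) x -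
      (ball c (2 * r)).indicator (fun x => 3 * (1 + (L : ℝ)) ^ 3 * (6 * s.card * M / r) * ‖gradient (u i) x‖) x ≤
      ⟪ab β (gradient (u i) x), gradient (fun y => chi c (2 * r) y *
        theta_rh s (fun k => u k c) M (u i y - 0)) x⟫ := by
  have hd := theta_deriv_rh s (fun k => u k c) hM (u i x)
  have hχ : DifferentiableAt ℝ (chi c (2 * r)) x :=
    (contDiff_chi c (2 * r)).differentiable one_ne_zero x
  have hθ : DifferentiableAt ℝ (fun y => theta_rh s (fun k => u k c) M (u i y)) x :=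
    hd.differentiableAt.comp x hx
  simp only [sub_zero]
  rw [grad_mul hχ hθ, grad_comp hx hd, inner_add_right, real_inner_smul_right,
    real_inner_smul_right, real_inner_smul_right]
  set p := gradient (u i) x with hp
  set D := ∑ k ∈ s, 1 / (1 + ((u i x - u k c) / M) ^ 2) with hD
  have hD0 : 0 ≤ D := Finset.sum_nonneg fun k _ => by positivity
  have hW := Wm_pos_brh L
  have hpp := inner_ab_brh hβ (norm_grad_le (hL i) x)
  rw [← hp] at hpp
  have hpp0 : 0 ≤ ‖p‖ ^ 2 / Wm_brh L := by positivity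
  have hχ0 := chi_nonneg c (2 * r) x
  have A : (ball c r).indicator (fun x => 27 / (128 * Wm_brh L) * ‖gradient (u i) x‖ ^ 2) x ≤
      chi c (2 * r) x * (D * ⟪ab β p, p⟫) := by
    by_cases h : x ∈ ball c r
    · rw [indicator_of_mem h, ← hp]
      have h2 : x ∈ ball c (2 * r) := ball_subset_ball (by linarith) h
      have hD1 : 1 / 2 ≤ D := theta_ge_rh s (fun k => u k c) hM hi (hb i hi x h2)
      have h3 : 3 / 4 ≤ pr c (2 * r) x := pr_ge_half (by linarith) (by
        rwa [show 2 * r / 2 = r by ring])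
      have h4 : 27 / 64 ≤ chi c (2 * r) x := by
        unfold chi
        calc (27 / 64 : ℝ) = (3 / 4) ^ 3 := by norm_num
          _ ≤ _ := by gcongr
      calc 27 / (128 * Wm_brh L) * ‖p‖ ^ 2 = 27 / 64 * (1 / 2 * (‖p‖ ^ 2 / Wm_brh L)) := by
            field_simp
            ring
        _ ≤ _ := by gcongr
    · rw [indicator_of_notMem h]
      have : 0 ≤ ⟪ab β p, p⟫ := hpp0.trans hpp
      positivity
  have B : |theta_rh s (fun k => u k c) M (u i x) * ⟪ab β p, gradient (chi c (2 * r)) x⟫| ≤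
      (ball c (2 * r)).indicator (fun x => 3 * (1 + (L : ℝ)) ^ 3 * (6 * s.card * M / r) * ‖gradient (u i) x‖) x := by
    have h1 := theta_abs_rh s (fun k => u k c) hM (u i x)
    have h2 := abs_real_inner_le_norm (ab β p) (gradient (chi c (2 * r)) x)
    have h3 := norm_ab_brh hβ p
    have h4 := norm_grad_chi_rh (c := c) hr x
    rw [abs_mul]
    by_cases h : x ∈ ball c (2 * r)
    · rw [indicator_of_mem h] at h4 ⊢
      rw [← hp]
      calc _ ≤ 2 * s.card * M * (3 * (1 + (L : ℝ)) ^ 3 * ‖p‖ * (3 / r)) := by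
            gcongr
            exact h2.trans (by gcongr)
        _ = _ := by ring
    · rw [indicator_of_notMem h] at h4 ⊢
      have h5 : ‖gradient (chi c (2 * r)) x‖ = 0 := le_antisymm h4 (norm_nonneg _)
      rw [h5, mul_zero] at h2
      have h6 : |⟪ab β p, gradient (chi c (2 * r)) x⟫| = 0 := le_antisymm h2 (abs_nonneg _)
      rw [h6, mul_zero]
  have B' := (abs_le.1 B).1
  linarith

/-- The Caccioppoli type inequality with a bounded oscillation. -/
theorem cacc_brh {β : E m} {s : Finset ι} {u : ι → E m → ℝ} {L : ℝ≥0} (hβ : ‖β‖ ≤ L)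
    (hL : ∀ i, LipschitzWith L (u i))
    {c : E m} {r R M : ℝ} (hr : 0 < r) (hR : 2 * r < R) (hM : 0 < M) (hst : StatB β s u (ball c R))
    (hb : ∀ i ∈ s, ∀ y ∈ ball c (2 * r), |u i y - u i c| ≤ M) :
    27 / (128 * Wm_brh L) * En s u 0 c r ≤ 3 * (1 + (L : ℝ)) ^ 3 * (6 * s.card ^ 2 * M / r) *
      ∫ x in ball c (2 * r), √(∑ i ∈ s, ‖gradient (u i) x - 0‖ ^ 2) := by
  have hr2 : 0 < 2 * r := by linarith
  have hχL : LocallyLipschitz (chi c (2 * r)) := (contDiff_chi c (2 * r)).locallyLipschitz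
  have hχc : HasCompactSupport (chi c (2 * r)) :=
    (isCompact_closedBall c (2 * r)).of_isClosed_subset (isClosed_tsupport _) (tsupport_chi hr2)
  have hχs : tsupport (chi c (2 * r)) ⊆ ball c R :=
    (tsupport_chi hr2).trans (closedBall_subset_ball hR)
  have hθL := theta_locLip_rh s (fun k => u k c) M
  have h0 : LocallyLipschitz fun _ : E m => (0 : ℝ) := (LipschitzWith.const 0).locallyLipschitz
  have key := StatF.outer hst (f := fun _ => 0) hχL hχc hχs h0 hθL
  have hint : ∀ i ∈ s, Integrable fun x => ⟪ab β (gradient (u i) x),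
      gradient (fun y => chi c (2 * r) y * theta_rh s (fun k => u k c) M (u i y - 0)) x⟫ := by
    intro i _
    apply int_comp_gstat (continuous_ab β) (hL i)
    · apply locLip_mul hχL
      simp only [sub_zero]
      exact hθL.comp (hL i).locallyLipschitz
    · exact hχc.mul_right
  rw [← integral_finsetSum _ hint] at key
  have i1 : Integrable ((ball c r).indicator
      fun x => 27 / (128 * Wm_brh L) * ∑ i ∈ s, ‖gradient (u i) x - 0‖ ^ 2) :=
    (integrable_indicator_iff measurableSet_ball).2 ((intOn_En hL 0 c r 2).const_mul _)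
  have i2 : Integrable ((ball c (2 * r)).indicator
      fun x => 3 * (1 + (L : ℝ)) ^ 3 * (6 * s.card ^ 2 * M / r) * √(∑ i ∈ s, ‖gradient (u i) x - 0‖ ^ 2)) :=
    (integrable_indicator_iff measurableSet_ball).2 ((intOn_sqrt_rh hL c (2 * r)).const_mul _)
  have hae : ∀ᵐ x, ∀ i ∈ s, DifferentiableAt ℝ (u i) x := by
    rw [Finset.eventually_all]
    intro i _
    exact (hL i).ae_differentiableAt
  have hle := integral_mono_ae (i1.sub i2) (integrable_finsetSum _ hint) (by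
    filter_upwards [hae] with x hx
    have h1 := Finset.sum_le_sum fun i hi => pointwise_brh hβ hL hr hM hb hi (hx i hi)
    refine le_trans ?_ h1
    rw [Finset.sum_sub_distrib]
    simp only [Pi.sub_apply]
    apply sub_le_sub
    · by_cases h : x ∈ ball c r
      · simp only [indicator_of_mem h, sub_zero, Finset.mul_sum, le_refl]
      · simp only [indicator_of_notMem h, Finset.sum_const_zero, le_refl]
    · by_cases h : x ∈ ball c (2 * r)
      · simp only [indicator_of_mem h]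
        have h2 : ∀ i ∈ s, 3 * (1 + (L : ℝ)) ^ 3 * (6 * s.card * M / r) * ‖gradient (u i) x‖ ≤
            3 * (1 + (L : ℝ)) ^ 3 * (6 * s.card * M / r) * √(∑ i ∈ s, ‖gradient (u i) x - 0‖ ^ 2) := by
          intro i hi
          gcongr
          apply Real.le_sqrt_of_sq_le
          simp only [sub_zero]
          exact Finset.single_le_sum (f := fun i => ‖gradient (u i) x‖ ^ 2)
            (fun k _ => by positivity) hi
        refine (Finset.sum_le_sum h2).trans (le_of_eq ?_)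
        rw [Finset.sum_const, nsmul_eq_mul]
        ring
      · simp only [indicator_of_notMem h, Finset.sum_const_zero, le_refl])
  rw [key] at hle
  have e := integral_sub i1 i2
  simp only [Pi.sub_apply] at hle
  rw [e, integral_indicator measurableSet_ball, integral_indicator measurableSet_ball,
    integral_const_mul, integral_const_mul] at hle
  unfold En
  linarith

theorem rev_hoelder [DecidableEq ι] (m Q : ℕ) (L : ℝ≥0) : ∃ Λ ≥ (1 : ℝ), ∃ K > 0,
    ∀ (β : E m) (s : Finset ι) (u : ι → E m → ℝ), s.card ≤ Q → ‖β‖ ≤ L →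
      (∀ i, LipschitzWith L (u i)) → ∀ (c : E m) (r : ℝ), 0 < r → StatB β s u (ball c (Λ * r)) →
        En s u 0 c r ≤ K * √(En s u 0 c (Λ * r) / r ^ m) *
          ∫ x in ball c (Λ * r), √(∑ i ∈ s, ‖gradient (u i) x - 0‖ ^ 2) := by
  obtain ⟨Λ, hΛ, C, hC, H⟩ := osc_sup (ι := ι) m Q L
  have hW := Wm_pos_brh L
  refine ⟨3 * Λ, by linarith, 128 * Wm_brh L / 27 * (3 * (1 + (L : ℝ)) ^ 3 * (12 * (Q + 1) ^ 2 * C)),
    by positivity, ?_⟩
  intro β s u hs hβ hL c r hr hst
  have hsub : ball c (Λ * (2 * r)) ⊆ ball c (3 * Λ * r) := ball_subset_ball (by nlinarith)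
  have hsub1 : ball c r ⊆ ball c (3 * Λ * r) := ball_subset_ball (by nlinarith)
  have hsub2 : ball c (2 * r) ⊆ ball c (3 * Λ * r) := ball_subset_ball (by nlinarith)
  have hrm : 0 < r ^ m := pow_pos hr m
  set En0 := En s u 0 c (3 * Λ * r) with hEn0
  have hE : 0 ≤ En0 := En_nonneg _ _ _ _ _
  have hI : 0 ≤ ∫ x in ball c (3 * Λ * r), √(∑ i ∈ s, ‖gradient (u i) x - 0‖ ^ 2) :=
    integral_nonneg fun x => Real.sqrt_nonneg _
  rcases hE.eq_or_lt with h0 | hpos
  · have h1 := En_mono (s := s) hL 0 hsub1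
    rw [← hEn0, ← h0] at h1
    exact h1.trans (by positivity)
  have hS : 0 < √(En0 / r ^ m) := Real.sqrt_pos.2 (by positivity)
  have hb : ∀ i ∈ s, ∀ y ∈ ball c (2 * r), |u i y - u i c| ≤ C * (2 * r) * √(En0 / r ^ m) := by
    intro i hi y hy
    refine (H β s u hs hβ hL c (2 * r) (by linarith) (StatF.mono hst hsub) i hi y hy).trans ?_
    have h1 := En_mono (s := s) hL 0 hsub
    gcongr
    linarith
  have h2 := cacc_brh hβ hL hr (R := 3 * Λ * r) (by nlinarith) (by positivity) hst hb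
  have h3 : ∫ x in ball c (2 * r), √(∑ i ∈ s, ‖gradient (u i) x - 0‖ ^ 2) ≤
      ∫ x in ball c (3 * Λ * r), √(∑ i ∈ s, ‖gradient (u i) x - 0‖ ^ 2) :=
    setIntegral_mono_set (intOn_sqrt_rh hL c _) (Eventually.of_forall fun x => Real.sqrt_nonneg _)
      hsub2.eventuallyLE
  have hQ : (s.card : ℝ) ≤ Q + 1 := by
    have : (s.card : ℝ) ≤ Q := by exact_mod_cast hs
    linarith
  have h4 : 3 * (1 + (L : ℝ)) ^ 3 * (6 * (s.card : ℝ) ^ 2 * (C * (2 * r) * √(En0 / r ^ m)) / r) *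
      ∫ x in ball c (2 * r), √(∑ i ∈ s, ‖gradient (u i) x - 0‖ ^ 2) ≤
      3 * (1 + (L : ℝ)) ^ 3 * (12 * (Q + 1) ^ 2 * C * √(En0 / r ^ m)) *
        ∫ x in ball c (3 * Λ * r), √(∑ i ∈ s, ‖gradient (u i) x - 0‖ ^ 2) := by
    have e : 6 * (s.card : ℝ) ^ 2 * (C * (2 * r) * √(En0 / r ^ m)) / r =
        12 * (s.card : ℝ) ^ 2 * C * √(En0 / r ^ m) := by
      field_simp
      ring
    rw [e]
    gcongr
  have h5 := h2.trans h4
  have e2 : En s u 0 c r = 128 * Wm_brh L / 27 * (27 / (128 * Wm_brh L) * En s u 0 c r) := by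
    field_simp
  rw [e2]
  calc _ ≤ 128 * Wm_brh L / 27 * (3 * (1 + (L : ℝ)) ^ 3 * (12 * (Q + 1) ^ 2 * C * √(En0 / r ^ m)) *
        ∫ x in ball c (3 * Λ * r), √(∑ i ∈ s, ‖gradient (u i) x - 0‖ ^ 2)) := by gcongr
    _ = _ := by ring

theorem flat_gehring [DecidableEq ι] (m Q : ℕ) (L : ℝ≥0) :
    ∃ γ : ℝ, 0 < γ ∧ γ ≤ 1 / 4 ∧ ∃ C > 0, ∀ (β : E m) (s : Finset ι) (u : ι → E m → ℝ),
      s.card ≤ Q → ‖β‖ ≤ L → (∀ i, LipschitzWith L (u i)) → ∀ (c : E m) (R η : ℝ), 0 < R → 0 < η →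
        StatB β s u (ball c (2 * R)) → En s u 0 c (2 * R) ≤ η * R ^ m →
          En3 s u 0 c R ≤ C * η ^ γ * η * R ^ m := by
  obtain ⟨Λ, hΛ, K, hK, hRH⟩ := rev_hoelder (ι := ι) m Q L
  obtain ⟨γ, hγ, hγ', C, hC, hG⟩ := gehring m (L := √Q * L + 1) hK hΛ (by positivity)
  refine ⟨γ, hγ, hγ', C, hC, fun β s u hs hβ hu c R η hR hη hst hen => ?_⟩
  set f : E m → ℝ := fun x => √(∑ i ∈ s, ‖gradient (u i) x - 0‖ ^ 2) with hf
  have hfm : Measurable f := (Finset.measurable_sum _ fun i _ =>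
    ((meas_grad (u i)).sub measurable_const).norm.pow_const 2).sqrt
  have hf0 : ∀ x, 0 ≤ f x := fun x => Real.sqrt_nonneg _
  have hf2 : ∀ x, f x ^ 2 = ∑ i ∈ s, ‖gradient (u i) x - 0‖ ^ 2 := fun x =>
    Real.sq_sqrt (Finset.sum_nonneg fun i _ => sq_nonneg _)
  have hfb : ∀ x, f x ≤ √Q * L + 1 := fun x => by
    have h1 : ∑ i ∈ s, ‖gradient (u i) x - 0‖ ^ 2 ≤ (√Q * L) ^ 2 := by
      rw [mul_pow, Real.sq_sqrt (Nat.cast_nonneg Q)]
      refine (Finset.sum_le_card_nsmul s _ ((L : ℝ) ^ 2) fun i _ => ?_).trans ?_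
      · rw [sub_zero]
        exact pow_le_pow_left₀ (norm_nonneg _) (norm_grad_le (hu i) x) 2
      · rw [nsmul_eq_mul]
        exact mul_le_mul_of_nonneg_right (Nat.cast_le.2 hs) (sq_nonneg _)
    have h2 : f x ≤ √Q * L := Real.sqrt_le_iff.2 ⟨by positivity, h1⟩
    linarith
  have hEn : ∀ (x : E m) (r : ℝ), ∫ y in ball x r, f y ^ 2 = En s u 0 x r := fun x r => by
    simp only [hf2, En]
  refine le_trans ?_ (hG f hfm hf0 hfb c R η hR hη (fun x r hr hb => ?_) (by rwa [hEn]))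
  · refine setIntegral_mono (intOn_En hu 0 c R 3) (intOn_ball (C := (√Q * L + 1) ^ 3)
      (hfm.pow_const 3).aestronglyMeasurable (Eventually.of_forall fun x _ => ?_))
      fun x => cube_le_tg s _ fun i => norm_nonneg _
    rw [Real.norm_of_nonneg (pow_nonneg (hf0 x) 3)]
    exact pow_le_pow_left₀ (hf0 x) (hfb x) 3
  · rw [hEn, hEn]
    exact hRH β s u hs hβ hu x r hr (StatF.mono hst hb)

end Pool.Agent.Lib.MP_8daebb_an.LH
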