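import Pool.Agent.Lib.MP_8daebb_an.LH.BRH
import Pool.Agent.Lib.MP_8daebb_an.LH.BLin

open MeasureTheory Metric Set Filter Topology
open scoped RealInnerProductSpace NNReal
open Pool.Agent.Lib.MP_8daebb_an.LG

namespace Pool.Agent.Lib.MP_8daebb_an.LH

variable {m : ℕ} {ι : Type}

/-! BTG. Higher integrability relative to arbitrary planes. -/

theorem tilt_all [DecidableEq ι] (m Q : ℕ) (L : ℝ≥0) :
    ∃ γ : ℝ, 0 < γ ∧ γ ≤ 1 ∧ ∃ C > 0, ∃ Λ ≥ (1 : ℝ), ∀ (s : Finset ι) (u : ι → E m → ℝ),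
      s.card ≤ Q → (∀ i, LipschitzWith L (u i)) → ∀ (c p : E m) (r η : ℝ), 0 < r → 0 < η →
        ‖p‖ ≤ L → Stat s u (ball c (Λ * r)) → En s u p c (Λ * r) ≤ η * r ^ m →
          En3 s u p c r ≤ C * η ^ γ * η * r ^ m := by
  obtain ⟨γ, h0, h1, C, hC, H⟩ := flat_gehring (ι := ι) m Q (2 * L)
  have hw := one_le_WL L
  set w := WL L with hwd
  have hw0 : 0 < w := one_pos.trans_le hw
  refine ⟨γ, h0, by linarith, w ^ 6 * C * w ^ γ * w * w ^ m, by positivity, 2 * w, by linarith,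
    fun s u hs hL c p r η hr hη hp hst hE => ?_⟩
  have hWp : W p ≤ w := W_le_WL hp
  have hW1 := one_le_W p
  have hL' : ∀ i, LipschitzWith (2 * L) (lc p c 0 (u i)) := fun i => lip_lc (hL i) hp c 0
  have e1 := (en_lc (s := s) hL p c 0 0 0 (2 * (w * r)) 2).1
  have e2 := (en_lc (s := s) hL p c 0 0 0 r 3).2
  simp only [map_zero, smul_zero, add_zero] at e1 e2
  have hrm : r ^ m ≤ (w * r) ^ m := pow_le_pow_left₀ hr.le (by nlinarith) m
  have h2 := H p s (fun i => lc p c 0 (u i)) hs (by push_cast; linarith [L.2, norm_nonneg p]) hL' 0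
    (w * r) (w * η) (by positivity) (by positivity)
    (stat_lc hL hst p c 0 fun x hx => by
      rw [mem_ball_iff_norm, add_sub_cancel_left, mul_assoc]
      exact (norm_TT_le p x).trans_lt (mem_ball_zero_iff.1 hx))
    (by
      rw [mul_assoc] at hE
      have h3 := En_nonneg s u p c (2 * (w * r))
      calc _ ≤ W p * En s u p c (2 * (w * r)) := e1
        _ ≤ w * (η * (w * r) ^ m) := by
          gcongr
          exact hE.trans (by gcongr)
        _ = w * η * (w * r) ^ m := by ring)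
  have h4 : En3 s (fun i => lc p c 0 (u i)) 0 0 (W p * r) ≤
      En3 s (fun i => lc p c 0 (u i)) 0 0 (w * r) := En3_mono hL' 0 (ball_subset_ball (by gcongr))
  have h5 : 0 ≤ En3 s (fun i => lc p c 0 (u i)) 0 0 (W p * r) :=
    integral_nonneg fun x => Finset.sum_nonneg fun i _ => by positivity
  calc _ ≤ W p ^ (2 * 3) * En3 s (fun i => lc p c 0 (u i)) 0 0 (W p * r) := e2
    _ ≤ w ^ (2 * 3) * (C * (w * η) ^ γ * (w * η) * (w * r) ^ m) := by
      gcongr
      exact h4.trans h2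
    _ = _ := by
      rw [Real.mul_rpow hw0.le hη.le, mul_pow]
      ring

theorem tgh_lc [Fintype ι] (m : ℕ) (L : ℝ≥0) :
    ∃ γ : ℝ, 0 < γ ∧ γ ≤ 1 ∧ ∃ p₁ > 0, ∃ C > 0, ∃ Λ ≥ (1 : ℝ), ∀ (u : ι → E m → ℝ) (p : E m)
      (R : ℝ), (∀ i, LipschitzWith L (u i)) → ‖p‖ ≤ L → Stat Finset.univ u (ball 0 R) →
        TGH γ p₁ C Λ (fun i => lc p 0 0 (u i)) (ball 0 R) := by
  classical
  obtain ⟨γ, h0, h1, C, hC, Λ, hΛ, H⟩ := tilt_all (ι := ι) m (Fintype.card ι) (L + 1)
  have hw := one_le_WL L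
  set w := WL L with hwd
  have hw0 : 0 < w := one_pos.trans_le hw
  refine ⟨γ, h0, h1, (w ^ 2)⁻¹, by positivity, w * C * (w ^ 4) ^ γ * w ^ 4, by positivity, w * Λ,
    by nlinarith, fun u p R hL hp hst c q r η hr hη hq hsub hE => ?_⟩
  have hWp : W p ≤ w := W_le_WL hp
  have hW1 := one_le_W p
  have hL' : ∀ i, LipschitzWith (2 * L) (lc p 0 0 (u i)) := fun i => lip_lc (hL i) hp 0 0
  have e1 := (en_lc (s := Finset.univ) hL p 0 q c 0 r 3).1
  have e2 := (en_lc (s := Finset.univ) hL p 0 q c 0 (Λ * r) 2).2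
  have hP : ‖p + W p • TI p q‖ ≤ ((L + 1 : ℝ≥0) : ℝ) := by
    have h2 : ‖W p • TI p q‖ ≤ w * (w * (w ^ 2)⁻¹) := by
      rw [norm_smul, Real.norm_of_nonneg (by linarith)]
      gcongr
      exact (norm_TI_le p q).trans (by gcongr)
    have h3 : w * (w * (w ^ 2)⁻¹) = 1 := by field_simp
    push_cast
    linarith [norm_add_le p (W p • TI p q)]
  have hΛr : 0 < Λ * r := by positivity
  have h2 := H Finset.univ u Finset.card_univ.le (fun i => (hL i).weaken le_self_add)
    (0 + TT p c) (p + W p • TI p q) r (w ^ 4 * η) hr (by positivity) hP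
    (hst.mono fun y hy => by
      have h3 : TI p y ∈ ball c (w * Λ * r) := by
        rw [mem_ball_iff_norm] at hy ⊢
        have h4 := norm_TI_le p (y - (0 + TT p c))
        rw [zero_add, map_sub, TI_TT] at h4
        rw [zero_add] at hy
        calc _ ≤ w * ‖y - TT p c‖ := h4.trans (by gcongr)
          _ < w * (Λ * r) := by gcongr
          _ = _ := by ring
      have h5 := norm_TT_le p (TI p y)
      rw [TT_TI] at h5
      exact mem_ball_zero_iff.2 (h5.trans_lt (mem_ball_zero_iff.1 (hsub h3))))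
    (by
      have h3 : En Finset.univ (fun i => lc p 0 0 (u i)) q c (W p * (Λ * r)) ≤
          En Finset.univ (fun i => lc p 0 0 (u i)) q c (w * Λ * r) :=
        En_mono hL' q (ball_subset_ball (by rw [mul_assoc]; gcongr))
      have h4 := En_nonneg Finset.univ (fun i => lc p 0 0 (u i)) q c (W p * (Λ * r))
      calc _ ≤ W p ^ (2 * 2) * En Finset.univ (fun i => lc p 0 0 (u i)) q c (W p * (Λ * r)) := e2
        _ ≤ w ^ (2 * 2) * (η * r ^ m) := by
          gcongr
          exact h3.trans hE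
        _ = _ := by ring)
  have h5 : 0 ≤ En3 Finset.univ u (p + W p • TI p q) (0 + TT p c) r :=
    integral_nonneg fun x => Finset.sum_nonneg fun i _ => by positivity
  calc _ ≤ W p * En3 Finset.univ u (p + W p • TI p q) (0 + TT p c) r := e1
    _ ≤ w * (C * (w ^ 4 * η) ^ γ * (w ^ 4 * η) * r ^ m) := by gcongr
    _ = _ := by
      rw [Real.mul_rpow (by positivity) hη.le]
      ring

end Pool.Agent.Lib.MP_8daebb_an.LH
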