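import Pool.Agent.Lib.MP_8daebb_an.LH.GAlg
import Pool.Agent.Lib.MP_8daebb_an.LG.Cen

open MeasureTheory Metric Set Filter Topology
open scoped RealInnerProductSpace NNReal
open Pool.Agent.Lib.MP_8daebb_an.LG

namespace Pool.Agent.Lib.MP_8daebb_an.LH

variable {m : ℕ} {ι : Type}

/-! GCEN. Solution of the Dirichlet problem for the monotone operator. -/

theorem exists_centre {L : ℝ≥0} (I : Intg m L) {f : E m → ℝ} {K : ℝ≥0} (hf : LipschitzWith K f)
    {Ξ : E m → E m} (hΞ : Measurable Ξ) {B : ℝ} (hΞ1 : ∀ x, ‖Ξ x‖ ≤ B) {R : ℝ}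
    (hd : DivFree Ξ (ball 0 R)) :
    ∃ g : E m → E m, Measurable g ∧ MemLp g 2 volume ∧
      DivFree (fun x => I.ta (gradient f x + g x)) (ball 0 R) ∧
      ∫ x, ‖g x‖ ^ 2 ≤ 4 * I.Λ ^ 2 * ∫ x in ball 0 R, ‖Ξ x - I.ta (gradient f x)‖ ^ 2 ∧
      ∀ η > 0, ∃ ζ : E m → ℝ, ContDiff ℝ 2 ζ ∧ HasCompactSupport ζ ∧
        ∫ x, ‖g x - gradient ζ x‖ ^ 2 ≤ η := by
  have hB : MeasurableSet (ball (0 : E m) R) := measurableSet_ball
  have : IsFiniteMeasure (volume.restrict (ball (0 : E m) R)) :=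
    isFiniteMeasure_restrict.mpr measure_ball_lt_top.ne
  have hΞ2 : MemLp Ξ 2 (volume.restrict (ball (0 : E m) R)) :=
    memLp_bdd hΞ.aestronglyMeasurable (Eventually.of_forall fun x _ => hΞ1 x)
  have hta : ∀ a : E m → E m, MemLp a 2 (volume.restrict (ball (0 : E m) R)) →
      MemLp (fun x => I.ta (gradient f x + a x)) 2 (volume.restrict (ball (0 : E m) R)) :=
    fun a ha => I.memLp_ta ((memLp_grad hf.locallyLipschitz 0 R).add ha)
  obtain ⟨N, hN⟩ : ∃ N : Lp (E m) 2 (volume.restrict (ball (0 : E m) R)) →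
      Lp (E m) 2 (volume.restrict (ball (0 : E m) R)),
      ∀ a, N a =ᵐ[volume.restrict (ball (0 : E m) R)] fun x => I.ta (gradient f x + a x) - Ξ x :=
    ⟨fun a => ((hta a (Lp.memLp a)).sub hΞ2).toLp _, fun a => MemLp.coeFn_toLp _⟩
  have hΛ := I.Λ_pos
  have hW1 : 1 ≤ 2 * I.Λ ^ 4 := by linarith [one_le_pow₀ (n := 4) I.one_le]
  have hW0 : 0 < 2 * I.Λ ^ 4 := zero_lt_one.trans_le hW1
  have hW3 : 0 < (I.Λ ^ 3)⁻¹ := by positivity
  obtain ⟨g₀, hg₀, horth', hnorm⟩ := abstract_cen (gradSub_cen m R)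
    (fun a => (I.Λ ^ 3)⁻¹ • N a) (κ := 1 - (2 * I.Λ ^ 4)⁻¹)
    (sub_nonneg.mpr (inv_le_one_of_one_le₀ hW1)) (sub_lt_self _ (inv_pos.mpr hW0)) (by
      intro a b
      refine Lp.norm_le_mul_norm_of_ae_le_mul ?_
      filter_upwards [Lp.coeFn_sub (a - (I.Λ ^ 3)⁻¹ • N a) (b - (I.Λ ^ 3)⁻¹ • N b),
        Lp.coeFn_sub a ((I.Λ ^ 3)⁻¹ • N a), Lp.coeFn_sub b ((I.Λ ^ 3)⁻¹ • N b),
        Lp.coeFn_sub a b, hN a, hN b, Lp.coeFn_smul (I.Λ ^ 3)⁻¹ (N a),
        Lp.coeFn_smul (I.Λ ^ 3)⁻¹ (N b)] with x h1 h2 h3 h4 h5 h6 h8 h9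
      rw [h1, Pi.sub_apply, h2, h3, h4, Pi.sub_apply, Pi.sub_apply, Pi.sub_apply, h8, h9,
        Pi.smul_apply, Pi.smul_apply, h5, h6]
      have h7 := I.ta_contract (gradient f x + a x) (gradient f x + b x)
      rw [add_sub_add_left_eq_sub] at h7
      refine le_trans (le_of_eq ?_) h7
      congr 1
      simp only [smul_sub]
      abel)
  have horth : ∀ h ∈ gradSub_cen m R, ⟪N g₀, h⟫ = 0 := fun h hh => by
    have h1 := horth' h hh
    rw [real_inner_smul_left] at h1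
    exact (mul_eq_zero.1 h1).resolve_left hW3.ne'
  have hmeas := (Lp.stronglyMeasurable g₀).measurable
  have hind : ∀ᵐ x ∂(volume.restrict (ball (0 : E m) R)),
      (ball (0 : E m) R).indicator g₀ x = g₀ x := by
    filter_upwards [ae_restrict_mem hB] with x hx
    exact indicator_of_mem hx _
  have hgrad0 : ∀ ζ : E m → ℝ, tsupport ζ ⊆ ball 0 R → ∀ x, x ∉ ball (0 : E m) R →
      gradient ζ x = 0 := fun ζ hζ x hx => grad_eq_zero_of_notMem fun h => hx (hζ h)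
  refine ⟨(ball (0 : E m) R).indicator g₀, hmeas.indicator hB,
    (memLp_indicator_iff_restrict hB).mpr (Lp.memLp g₀), ?_, ?_, ?_⟩
  · have hmem := hta _ ((Lp.memLp g₀).indicator hB)
    refine divFree_of_smooth isOpen_ball
      (fun K' _ hK' => IntegrableOn.mono_set (hmem.integrable one_le_two) hK') ?_
    intro ζ h1 h2 h3
    have hζL : LocallyLipschitz ζ := (h1.of_le one_le_two).locallyLipschitz
    have hζ2 := memLp_grad hζL 0 R
    have h4 := horth (hζ2.toLp _) ⟨ζ, h1, h2, h3, MemLp.coeFn_toLp _⟩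
    have h5 := hd ζ hζL h2 h3
    rw [← setIntegral_eq_integral_of_forall_compl_eq_zero (s := ball 0 R)
      (fun x hx => by rw [hgrad0 ζ h3 x hx, inner_zero_right])] at h5 ⊢
    have hΞi : Integrable (fun x => ⟪Ξ x, gradient ζ x⟫) (volume.restrict (ball (0 : E m) R)) := by
      have h6 := L2.integrable_inner (𝕜 := ℝ) (hΞ2.toLp _) (hζ2.toLp _)
      refine h6.congr ?_
      filter_upwards [hΞ2.coeFn_toLp, hζ2.coeFn_toLp] with x hx1 hx2
      rw [hx1, hx2]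
    have h7 := integral_add (L2.integrable_inner (𝕜 := ℝ) (N g₀) (hζ2.toLp _)) hΞi
    rw [L2.inner_def] at h4
    rw [h4, h5, add_zero] at h7
    rw [← h7]
    refine integral_congr_ae ?_
    filter_upwards [hN g₀, hζ2.coeFn_toLp, hind] with x hx1 hx2 hx3
    rw [hx1, hx2, hx3, ← inner_add_left, sub_add_cancel]
  · have h1 : ∫ x, ‖(ball (0 : E m) R).indicator g₀ x‖ ^ 2 = ‖g₀‖ ^ 2 := by
      rw [norm_sq_cen, ← setIntegral_eq_integral_of_forall_compl_eq_zero (s := ball 0 R)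
        (fun x hx => by rw [indicator_of_notMem hx, norm_zero, zero_pow two_ne_zero])]
      refine integral_congr_ae ?_
      filter_upwards [hind] with x hx
      rw [hx]
    have h2 : ∫ x in ball 0 R, ‖Ξ x - I.ta (gradient f x)‖ ^ 2 = ‖N 0‖ ^ 2 := by
      rw [norm_sq_cen]
      refine integral_congr_ae ?_
      filter_upwards [hN 0, Lp.coeFn_zero (E m) 2 (volume.restrict (ball (0 : E m) R))]
        with x hx1 hx2
      rw [hx1, hx2, Pi.zero_apply, add_zero, norm_sub_rev]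
    rw [h1, h2]
    rw [sub_sub_cancel, inv_mul_le_iff₀ hW0, norm_smul, Real.norm_of_nonneg hW3.le] at hnorm
    calc ‖g₀‖ ^ 2 ≤ (2 * I.Λ ^ 4 * ((I.Λ ^ 3)⁻¹ * ‖N 0‖)) ^ 2 :=
          pow_le_pow_left₀ (norm_nonneg _) hnorm 2
      _ = _ := by
          field_simp
          ring
  · intro η hη
    obtain ⟨h, ⟨ζ, h1, h2, h3, h4⟩, h5⟩ := Metric.mem_closure_iff.mp hg₀ (√η) (Real.sqrt_pos.mpr hη)
    refine ⟨ζ, h1, h2, ?_⟩
    have h6 : ∫ x, ‖(ball (0 : E m) R).indicator g₀ x - gradient ζ x‖ ^ 2 = ‖g₀ - h‖ ^ 2 := by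
      rw [norm_sq_cen, ← setIntegral_eq_integral_of_forall_compl_eq_zero (s := ball 0 R)
        (fun x hx => by
          rw [indicator_of_notMem hx, hgrad0 ζ h3 x hx, sub_zero, norm_zero, zero_pow two_ne_zero])]
      refine integral_congr_ae ?_
      filter_upwards [hind, h4, Lp.coeFn_sub g₀ h] with x hx1 hx2 hx3
      rw [hx1, hx3, Pi.sub_apply, hx2]
    rw [h6]
    rw [dist_eq_norm] at h5
    calc ‖g₀ - h‖ ^ 2 ≤ √η ^ 2 := pow_le_pow_left₀ (norm_nonneg _) h5.le 2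
      _ = η := Real.sq_sqrt hη.le

end Pool.Agent.Lib.MP_8daebb_an.LH
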