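import Pool.Agent.Lib.MP_8daebb_an.LH.GIter
import Pool.Agent.Lib.MP_8daebb_an.LH.GStat
import Pool.Agent.Lib.MP_8daebb_an.LG.CenA

open MeasureTheory Metric Set Filter Topology
open scoped RealInnerProductSpace NNReal
open Pool.Agent.Lib.MP_8daebb_an.LG

namespace Pool.Agent.Lib.MP_8daebb_an.LH

variable {m : ℕ} {ι : Type}

/-! GCENA. Quadratic decay for the centre at all points and scales. -/

theorem ta_gcena {L : ℝ≥0} (I : Intg m L) {A B D : E m → E m} {μ : Measure (E m)}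
    (hA : MemLp A 2 μ) (hB : MemLp B 2 μ) (hD : MemLp D 2 μ)
    (h : ∀ᵐ x ∂μ, ‖A x - B x‖ = ‖D x‖) :
    ∫ x, ‖I.ta (A x) - I.ta (B x)‖ ^ 2 ∂μ ≤ I.Λ ^ 2 * ∫ x, ‖D x‖ ^ 2 ∂μ := by
  rw [← integral_const_mul]
  refine integral_mono_ae (int_sq_cena ((I.memLp_ta hA).sub (I.memLp_ta hB)))
    ((int_sq_cena hD).const_mul _) ?_
  filter_upwards [h] with x hx
  have h1 := I.ta_lip (A x) (B x)
  rw [hx] at h1
  calc _ ≤ (I.Λ * ‖D x‖) ^ 2 := pow_le_pow_left₀ (norm_nonneg _) h1 2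
    _ = _ := by ring

theorem centre_decay [Fintype ι] [Nonempty ι] {L : ℝ≥0} (I : Intg m L) :
    ∃ θ : ℝ, 0 < θ ∧ θ ≤ 1 / 8 ∧ ∃ ε₀ > 0, ∃ C > 0, ∀ (u : ι → E m → ℝ) (ε : ℝ), 0 < ε → ε ≤ ε₀ →
      Setting I ε u → ∀ r l : ℝ, 0 < l → l ≤ r → r ≤ 1 / 16 → Good ε u r l →
      ∀ g : E m → E m, Measurable g → MemLp g 2 volume →
        DivFree (fun x => I.ta (gradient (wav u) x + g x)) (ball 0 (r + 2 * l)) →
        ∫ x, ‖g x‖ ^ 2 ≤ 4 * I.Λ ^ 4 * DD u (r + 2 * l) →
        (∀ η > 0, ∃ ζ : E m → ℝ, ContDiff ℝ 2 ζ ∧ HasCompactSupport ζ ∧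
          ∫ x, ‖g x - gradient ζ x‖ ^ 2 ≤ η) →
        ∀ x ∈ ball (0 : E m) (r + l), ∀ j : ℕ, ∃ p : E m, ‖p‖ ≤ C * ε ∧
          ∫ y in ball x (θ ^ j / 3), ‖gradient (wav u) y + g y - p‖ ^ 2 ≤
            (C * ε) ^ 2 * (θ ^ j / 3) ^ (m + 2) := by
  obtain ⟨θ, hθ0, hθ8, hit⟩ := iter I
  have hθ1 : θ ≤ 1 := by linarith
  obtain ⟨ε₁, hε₁, C, hC, hit⟩ := hit θ le_rfl (by linarith)
  set Wc : ℝ := 4 * I.Λ ^ 4 with hWc
  have hW1 : 1 ≤ Wc := by
    have := one_le_pow₀ (n := 4) I.one_le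
    linarith
  set Λ2 : ℝ := I.Λ ^ 2 with hΛ2
  have hΛ1 : 1 ≤ Λ2 := one_le_pow₀ I.one_le
  set T : ℝ := 3 ^ (m + 2) with hT
  have hT1 : 1 ≤ T := one_le_pow₀ (by norm_num)
  set K₀ : ℝ := T * (2 + 16 * Wc) + 16 with hK₀
  have hTW : Wc ≤ T * Wc := le_mul_of_one_le_left (by linarith) hT1
  have hK₀1 : 16 + 4 * Wc ≤ K₀ := by rw [hK₀]; nlinarith
  set K : ℝ := Λ2 * K₀ with hK
  have hK1 : 16 + 4 * Wc ≤ K := hK₀1.trans (le_mul_of_one_le_left (by linarith) hΛ1)
  have hK0 : 0 < K := by linarith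
  have hKK : K ≤ K ^ 2 := by nlinarith
  refine ⟨θ, hθ0, hθ8, ε₁ / K, by positivity, C * K + (2 * C * K ^ 2 + 2), by positivity, ?_⟩
  intro u ε hε hεε hS r l hl hlr hr hG g hgm hg hdiv hg2 hapx x hx j
  have hx' : ‖x‖ < r + l := mem_ball_zero_iff.mp hx
  have hw : LocallyLipschitz (wav u) := (lip_wav hS.lip).locallyLipschitz
  set η : ℝ := ε ^ 2 * (θ ^ j / 3) ^ (m + 2) * θ ^ j with hη
  have hηi : ∀ i ≤ j, η ≤ ε ^ 2 * (θ ^ i / 3) ^ (m + 2) * θ ^ i := by
    intro i hi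
    have h1 : θ ^ j ≤ θ ^ i := pow_le_pow_of_le_one hθ0.le hθ1 hi
    rw [hη]
    gcongr
  have hη1 : η ≤ ε ^ 2 := by
    refine (hηi 0 (Nat.zero_le _)).trans ?_
    rw [pow_zero, mul_one]
    exact mul_le_of_le_one_right (sq_nonneg _) (pow_le_one₀ (by norm_num) (by norm_num))
  obtain ⟨ζ, hζ, hζc, hζη⟩ := hapx η (by positivity)
  obtain ⟨hζl, hζ2⟩ := memLp_zeta_cena hζ hζc
  have hf : LocallyLipschitz fun y => wav u y + ζ y := hw.add hζl
  have hgr : ∀ᵐ y, gradient (fun y => wav u y + ζ y) y = gradient (wav u) y + gradient ζ y := by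
    filter_upwards [locLip_ae_diff hw] with y hy
    exact grad_add hy (hζ.differentiable (by norm_num) y)
  have hdm : MemLp (fun y => g y - gradient ζ y) 2 volume := hg.sub hζ2
  have hg3 : ∫ y, ‖g y‖ ^ 2 ≤ Wc * (ε ^ 2 * (2 * l) ^ (m + 3)) :=
    hg2.trans (mul_le_mul_of_nonneg_left (hG (2 * l) ⟨by linarith, by linarith⟩) (by linarith))
  have hζ3 : ∫ y, ‖gradient ζ y‖ ^ 2 ≤ 2 * (Wc * (ε ^ 2 * (2 * l) ^ (m + 3))) + 2 * η := by
    have h1 := int_sq_add_le hg hdm.neg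
    simp only [Pi.neg_apply, neg_sub, add_sub_cancel] at h1
    have h2 : ∫ y, ‖gradient ζ y - g y‖ ^ 2 = ∫ y, ‖g y - gradient ζ y‖ ^ 2 := by
      simp only [norm_sub_rev]
    linarith
  have hε2 : 0 < ε ^ 2 := by positivity
  obtain ⟨p, hp, hpe⟩ := hit _ hf x (K * ε) j (by positivity)
    (by rwa [le_div_iff₀ hK0, mul_comm] at hεε) (by
      have h1 := int_sq_add_le (memLp_grad hw x (1 / 3)) (hζ2.restrict (ball x (1 / 3)))
      rw [integral_congr_ae (g := fun y => ‖gradient (wav u) y + gradient ζ y‖ ^ 2)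
        (ae_restrict_of_ae (hgr.mono fun y hy => by simp only [hy]))]
      have h2 := wav_le_En hS.lip x (1 / 3)
      have h3 : En Finset.univ u 0 x (1 / 3) ≤ En Finset.univ u 0 0 1 :=
        En_mono hS.lip 0 (ball_subset_ball' (by rw [dist_zero_right]; linarith))
      have h4 := hS.en
      have h5 := set_le_cena hζ2 (ball x (1 / 3))
      have h6 : Wc * (ε ^ 2 * (2 * l) ^ (m + 3)) ≤ Wc * (ε ^ 2 * 1) := by
        gcongr
        exact pow_le_one₀ (by linarith) (by linarith)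
      have h7 : (16 + 4 * Wc) * ε ^ 2 ≤ K ^ 2 * ε ^ 2 := by gcongr; linarith
      rw [mul_pow]
      linarith) (by
      intro i hi
      have hθi : 0 < θ ^ i := by positivity
      have hθi1 : θ ^ i ≤ 1 := pow_le_one₀ hθ0.le hθ1
      have hηb := hηi i hi.le
      set B : ℝ := ε ^ 2 * (θ ^ i / 3) ^ (m + 2) * θ ^ i with hB
      have hB0 : 0 ≤ B := by positivity
      have eB : (K * ε) ^ 2 * (θ ^ i / 3) ^ (m + 2) * θ ^ i = K ^ 2 * B := by rw [hB]; ring
      have hKB : K * B ≤ K ^ 2 * B := by gcongr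
      have mw := memLp_grad hw x (θ ^ i / 3)
      have mf := memLp_grad hf x (θ ^ i / 3)
      rw [eB]
      rcases le_or_gt l (θ ^ i / 3) with hc | hc
      · have mX : MemLp (Xi I u) 2 (volume.restrict (ball x (θ ^ i / 3))) :=
          memLp_bdd (meas_Xi I u).aestronglyMeasurable
            (Eventually.of_forall fun y _ => norm_Xi_le I hS.lip y)
        refine ⟨Xi I u, mX, (hS.stat.divFree_Xi hS.lip).mono
          (ball_subset_ball' (by rw [dist_zero_right]; linarith)), ?_⟩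
        have h1 := int_sq_add_le (mX.sub (I.memLp_ta mw))
          ((I.memLp_ta mw).sub (I.memLp_ta mf))
        simp only [Pi.sub_apply, sub_add_sub_cancel] at h1
        have h2 := ta_gcena I mw mf (hζ2.restrict _)
          (ae_restrict_of_ae (hgr.mono fun y hy => by rw [hy, sub_add_cancel_left, norm_neg]))
        have h3 : ∫ y in ball x (θ ^ i / 3), ‖Xi I u y - I.ta (gradient (wav u) y)‖ ^ 2 ≤
            Λ2 * En Finset.univ (vv u) 0 x (θ ^ i / 3) := by
          unfold En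
          rw [← integral_const_mul]
          exact integral_mono_ae (int_sq_cena (mX.sub (I.memLp_ta mw)))
            ((intOn_En (lip_vv hS.lip) 0 x _ 2).const_mul _)
            (ae_restrict_of_ae ((ae_Xi_sub I hS.lip).mono fun y hy => hy.1))
        have h4 : En Finset.univ (vv u) 0 x (θ ^ i / 3) ≤ DD u (r + θ ^ i) :=
          En_mono (lip_vv hS.lip) 0 (ball_subset_ball' (by rw [dist_zero_right]; linarith))
        have h5 := hG (θ ^ i) ⟨by linarith, hθi1⟩
        have e6 : ε ^ 2 * (θ ^ i) ^ (m + 3) = T * B := by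
          rw [hT, hB, div_pow]; field_simp; ring
        have h7 := set_le_cena hζ2 (ball x (θ ^ i / 3))
        have h8 : Wc * (ε ^ 2 * (2 * l) ^ (m + 3)) ≤ Wc * (T * B) := by
          rw [← e6]
          gcongr
          linarith
        rw [e6] at h5
        have e9 : K * B = Λ2 * (2 * (T * B) + 16 * (Wc * (T * B)) + 16 * B) := by
          rw [hK, hK₀]; ring
        have hTB : 0 ≤ Wc * (T * B) := by positivity
        have h10 : 2 * En Finset.univ (vv u) 0 x (θ ^ i / 3) +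
            2 * ∫ y in ball x (θ ^ i / 3), ‖gradient ζ y‖ ^ 2 ≤
            2 * (T * B) + 16 * (Wc * (T * B)) + 16 * B := by linarith
        have h11 := mul_le_mul_of_nonneg_left h10 (by linarith : 0 ≤ Λ2)
        linarith
      · have mg : MemLp (fun y => gradient (wav u) y + g y) 2
            (volume.restrict (ball x (θ ^ i / 3))) := mw.add (hg.restrict _)
        refine ⟨_, I.memLp_ta mg, hdiv.mono
          (ball_subset_ball' (by rw [dist_zero_right]; linarith)), ?_⟩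
        have h2 := ta_gcena I mg mf (hdm.restrict _)
          (ae_restrict_of_ae (hgr.mono fun y hy => by rw [hy, add_sub_add_left_eq_sub]))
        have h7 := set_le_cena hdm (ball x (θ ^ i / 3))
        have h8 := mul_le_mul_of_nonneg_left (h7.trans (hζη.trans hηb)) (by linarith : 0 ≤ Λ2)
        have h9 : Λ2 * B ≤ K * B := by
          have : Λ2 ≤ K := le_mul_of_one_le_right (by linarith) (by linarith)
          gcongr
        linarith)
  have hA : 0 < 2 * C * K ^ 2 + 2 := by positivity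
  refine ⟨p, hp.trans ?_, ?_⟩
  · rw [← mul_assoc]
    gcongr
    linarith
  · have mf : MemLp (fun y => gradient (fun y => wav u y + ζ y) y - p) 2
        (volume.restrict (ball x (θ ^ j / 3))) := by
      have : IsFiniteMeasure (volume.restrict (ball x (θ ^ j / 3))) :=
        ⟨by rw [Measure.restrict_apply_univ]; exact measure_ball_lt_top⟩
      exact (memLp_grad hf x _).sub (memLp_const p)
    have h1 := int_sq_add_le mf (hdm.restrict _)
    rw [integral_congr_ae (g := fun y => ‖gradient (wav u) y + g y - p‖ ^ 2)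
      (ae_restrict_of_ae (hgr.mono fun y hy => by
        simp only [hy]; congr 2; abel))] at h1
    have h7 := set_le_cena hdm (ball x (θ ^ j / 3))
    set B : ℝ := ε ^ 2 * (θ ^ j / 3) ^ (m + 2) with hB
    have hB0 : 0 ≤ B := by positivity
    have h2 : η ≤ B := mul_le_of_le_one_right hB0 (pow_le_one₀ hθ0.le hθ1)
    have e3 : C * (K * ε) ^ 2 * (θ ^ j / 3) ^ (m + 2) = C * K ^ 2 * B := by rw [hB]; ring
    have h4 : 2 * C * K ^ 2 + 2 ≤ (C * K + (2 * C * K ^ 2 + 2)) ^ 2 := by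
      have h5 : 0 < C * K := by positivity
      have h6 : 0 < 2 * C * K ^ 2 := by positivity
      nlinarith
    have e5 : ((C * K + (2 * C * K ^ 2 + 2)) * ε) ^ 2 * (θ ^ j / 3) ^ (m + 2) =
        (C * K + (2 * C * K ^ 2 + 2)) ^ 2 * B := by rw [hB]; ring
    have h6 := mul_le_mul_of_nonneg_right h4 hB0
    rw [e5]
    rw [e3] at hpe
    linarith

end Pool.Agent.Lib.MP_8daebb_an.LH
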