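import Pool.Agent.Lib.MP_8daebb_an.LH.GIter
import Pool.Agent.Lib.MP_8daebb_an.LH.GStat
import Pool.Agent.Lib.MP_8daebb_an.LG.Vit
import Pool.Agent.Lib.MP_8daebb_an.LG.FlatR

open MeasureTheory Metric Set Filter Topology
open scoped RealInnerProductSpace NNReal
open Pool.Agent.Lib.MP_8daebb_an.LG

namespace Pool.Agent.Lib.MP_8daebb_an.LH

variable {m : ℕ} {ι : Type}

/-! GFLATR. Quadratic decay of the average at the origin. -/

theorem flat_rate [Fintype ι] [Nonempty ι] {L : ℝ≥0} (I : Intg m L) :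
    ∃ ε₀ > 0, ∃ C > 0, ∀ (u : ι → E m → ℝ) (ε : ℝ), 0 < ε → ε ≤ ε₀ → Setting I ε u →
      ∀ r : ℝ, 0 < r → r ≤ 1 / 3 →
        ∫ x in ball 0 r, ‖gradient (wav u) x‖ ^ 2 ≤ C * ε ^ 2 * r ^ (m + 2) := by
  obtain ⟨θ, hθ, hθ1, h⟩ := iter I
  have hθ' : θ < 1 := by linarith
  have hΛ := I.Λ_pos
  have hΛ1 := I.one_le
  obtain ⟨ε₁, hε₁, C, hC, h⟩ := h θ le_rfl hθ'
  obtain ⟨C', hC', hdec⟩ := decay_flatr m hθ hθ1 hC
  refine ⟨ε₁ / I.Λ, by positivity, C' * I.Λ ^ 2, by positivity,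
    fun u ε hε hεε hS r hr hr3 => ?_⟩
  have hw := lip_wav hS.lip
  have hs : ∀ j : ℕ, 0 < θ ^ j / 3 := fun j => by positivity
  have hs1 : ∀ j : ℕ, θ ^ j / 3 ≤ 2 := fun j => by
    have := pow_le_one₀ (n := j) hθ.le hθ'.le
    linarith
  have hε' : 0 < I.Λ * ε := by positivity
  have hεε' : I.Λ * ε ≤ ε₁ := by
    rw [le_div_iff₀ hΛ] at hεε
    linarith
  have hsq : ε ^ 2 ≤ (I.Λ * ε) ^ 2 :=
    pow_le_pow_left₀ hε.le (le_mul_of_one_le_left hε.le hΛ1) 2
  have key := hdec (wav u) L (I.Λ * ε) hw hε' (fun j => ?_) ?_ r hr hr3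
  · have e : C' * I.Λ ^ 2 * ε ^ 2 = C' * (I.Λ * ε) ^ 2 := by ring
    rw [e]
    simpa only [sub_zero] using key
  · obtain ⟨p, -, hp⟩ := h (wav u) hw.locallyLipschitz 0 (I.Λ * ε) j hε'.le hεε'
      ((wav_le_En hS.lip 0 _).trans
        ((En_mono hS.lip 0 (ball_subset_ball (by norm_num))).trans (hS.en.trans hsq)))
      fun i _ => ⟨Xi I u, memLp_flatr (meas_Xi I u) (norm_Xi_le I hS.lip) 0 _,
        (hS.stat.mono (ball_subset_ball (hs1 i))).divFree_Xi hS.lip, by
          have h1 : ∫ y in ball (0 : E m) (θ ^ i / 3),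
              ‖Xi I u y - I.ta (gradient (wav u) y)‖ ^ 2 ≤ I.Λ ^ 2 * DD u (θ ^ i / 3) := by
            refine (integral_mono_of_nonneg (Eventually.of_forall fun _ => by positivity)
              ((intOn_En (lip_vv hS.lip) 0 0 _ 2).const_mul (I.Λ ^ 2))
              (ae_restrict_of_ae ((ae_Xi_sub I hS.lip).mono fun _ hx => hx.1))).trans
              (le_of_eq ?_)
            rw [integral_const_mul]
            rfl
          refine h1.trans ((mul_le_mul_of_nonneg_left (hS.dec _ ⟨hs i, hs1 i⟩)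
            (by positivity)).trans ?_)
          have h2 : θ ^ i / 3 / 5 ≤ θ ^ i / 3 := by have := hs i; linarith
          have h3 : θ ^ i / 3 / 5 ≤ θ ^ i := by have := hs i; linarith
          rw [← mul_assoc, ← mul_pow, mul_assoc, pow_succ _ (m + 2)]
          have := hs i
          exact mul_le_mul_of_nonneg_left (mul_le_mul (pow_le_pow_left₀ (by positivity) h2 _) h3
            (by positivity) (by positivity)) (sq_nonneg _)⟩
    exact ⟨p, hp⟩
  · have hθlim : Tendsto (fun j : ℕ => θ ^ j / 3) atTop (𝓝[>] 0) := by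
      refine tendsto_nhdsWithin_iff.mpr ⟨?_, Eventually.of_forall hs⟩
      simpa using (tendsto_pow_atTop_nhds_zero_of_lt_one hθ.le hθ').div_const 3
    refine squeeze_zero (fun j => div_nonneg (integral_nonneg fun _ => by positivity)
      (pow_pos (hs j) m).le) (fun j => ?_) (hS.flat.comp hθlim)
    refine div_le_div_of_nonneg_right ?_ (pow_pos (hs j) m).le
    simpa only [sub_zero] using wav_le_En hS.lip 0 (θ ^ j / 3)

end Pool.Agent.Lib.MP_8daebb_an.LH
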