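import Pool.Agent.Lib.MP_8daebb_an.LH.GIter
import Pool.Agent.Lib.MP_8daebb_an.LH.GStat
import Pool.Agent.Lib.MP_8daebb_an.LG.Vit
import Pool.Agent.Lib.MP_8daebb_an.LG.Sup

open MeasureTheory Metric Set Filter Topology
open scoped RealInnerProductSpace NNReal
open Pool.Agent.Lib.MP_8daebb_an.LG

namespace Pool.Agent.Lib.MP_8daebb_an.LH

variable {m : ℕ} {ι : Type}

/-! GSUP. The superlinear estimate for the separation. -/

/-- The excess relative to a good slope at the last good scale. -/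
theorem slope_gsup [Fintype ι] [Nonempty ι] {L : ℝ≥0} (I : Intg m L) : ∃ θ : ℝ, 0 < θ ∧
    θ ≤ 1 / 8 ∧ ∀ τ : ℝ, θ ≤ τ → τ < 1 → ∃ ε₁ > 0, ∃ C > 0, ∀ (u : ι → E m → ℝ) (ε e : ℝ),
      0 ≤ ε → ε ≤ e → e ≤ ε₁ → Setting I ε u → ∀ x ∈ ball (0 : E m) (1 / 2), ∀ j : ℕ,
        (∀ i ≤ j, Sep u x (θ ^ i / 3) ≤ e ^ 2 * (θ ^ i / 3) ^ (m + 2) * τ ^ i) →
        ∃ p : E m, ‖p‖ ≤ C * e ∧
          En Finset.univ u p x (θ ^ j / 3) ≤ C * e ^ 2 * (θ ^ j / 3) ^ (m + 2) := by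
  obtain ⟨θ, hθ, hθ8, H⟩ := iter I
  refine ⟨θ, hθ, hθ8, fun τ hτ hτ1 => ?_⟩
  obtain ⟨ε₁, hε₁, C, hC, H⟩ := H τ hτ hτ1
  have hΛ1 := I.one_le
  have hΛ0 : 0 < I.Λ := by linarith
  refine ⟨ε₁ / I.Λ, by positivity, C * I.Λ + 2 * Fintype.card ι * (C * I.Λ ^ 2) + 2,
    by positivity, fun u ε e hε hεe he hu x hx j hj => ?_⟩
  have he0 : 0 ≤ e := hε.trans hεe
  have heΛ : e ≤ I.Λ * e := le_mul_of_one_le_left he0 hΛ1
  have he' : I.Λ * e ≤ ε₁ := by rwa [← le_div_iff₀' hΛ0]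
  obtain ⟨p, hp, hp2⟩ := H (wav u) (lip_wav hu.lip).locallyLipschitz x (I.Λ * e) j
    (by positivity) he'
    (((wav_le_En hu.lip x _).trans (En_mono hu.lip 0 (ball_sup hx (by norm_num)))).trans
      (hu.en.trans (pow_le_pow_left₀ hε (hεe.trans heΛ) 2))) (fun i hi => by
      have h1 : θ ^ i ≤ 1 := pow_le_one₀ hθ.le (by linarith)
      refine ⟨Xi I u, memLp_bdd (C := I.Λ * L) (meas_Xi I u).aestronglyMeasurable
        (Eventually.of_forall fun y _ => norm_Xi_le I hu.lip y),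
        (hu.stat.mono (ball_sup hx (by linarith))).divFree_Xi hu.lip, ?_⟩
      have h2 : ∫ y in ball x (θ ^ i / 3), ‖Xi I u y - I.ta (gradient (wav u) y)‖ ^ 2 ≤
          ∫ y in ball x (θ ^ i / 3), I.Λ ^ 2 * ∑ k, ‖gradient (vv u k) y - 0‖ ^ 2 :=
        integral_mono_of_nonneg (Eventually.of_forall fun y => by positivity)
          ((intOn_En (lip_vv hu.lip) 0 x _ 2).const_mul _)
          (ae_restrict_of_ae ((ae_Xi_sub I hu.lip).mono fun y hy => hy.1))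
      rw [integral_const_mul] at h2
      refine h2.trans ?_
      have h3 := mul_le_mul_of_nonneg_left (hj i hi.le) (sq_nonneg I.Λ)
      refine h3.trans (le_of_eq ?_)
      ring)
  have hq : (0 : ℝ) ≤ Fintype.card ι := Nat.cast_nonneg _
  have hq' : 0 ≤ 2 * Fintype.card ι * (C * I.Λ ^ 2) := by positivity
  refine ⟨p, hp.trans ?_, ?_⟩
  · rw [← mul_assoc]
    exact mul_le_mul_of_nonneg_right (by linarith) he0
  have h1 := En_le_wav hu.lip p x (θ ^ j / 3)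
  have h2 : τ ^ j ≤ 1 := pow_le_one₀ (hθ.le.trans hτ) hτ1.le
  have h3 : 0 ≤ e ^ 2 * (θ ^ j / 3) ^ (m + 2) := by positivity
  have h4 := (hj j le_rfl).trans (mul_le_of_le_one_right h3 h2)
  have h5 := mul_le_mul_of_nonneg_left hp2 (by positivity : (0 : ℝ) ≤ 2 * Fintype.card ι)
  have h6 := mul_nonneg (mul_pos hC hΛ0).le h3
  linarith

/-- The cubic energy at the first bad scale. -/
theorem stop_gsup [Fintype ι] [Nonempty ι] {L : ℝ≥0} (I : Intg m L) {γ p₀ C₀ Λ : ℝ}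
    (hγ : 0 < γ) (hγ1 : γ ≤ 1) (hp₀ : 0 < p₀) (hC₀ : 0 < C₀) (hΛ : 1 ≤ Λ) :
    ∃ (θ : ℝ) (n : ℕ), 0 < θ ∧ θ ≤ 1 / 8 ∧ ∃ ε₁ > 0, ∃ C > 0, ∀ (u : ι → E m → ℝ) (ε e : ℝ),
      0 < ε → ε ≤ e → e ≤ ε₁ → Setting I ε u → TGH γ p₀ C₀ Λ u (ball 0 2) →
      ∀ x ∈ ball (0 : E m) (1 / 2), ∀ j : ℕ,
        (∀ i ≤ j, Sep u x (θ ^ i / 3) ≤ e ^ 2 * (θ ^ i / 3) ^ (m + 2) * (θ ^ γ) ^ i) →
        En3 Finset.univ (vv u) 0 x (6 * (θ ^ (j + (n + 1)) / 3)) ≤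
          C * (θ ^ (j + (n + 1)) / 3) ^ γ *
          (e ^ 2 * (θ ^ (j + (n + 1)) / 3) ^ (m + 2) * (θ ^ γ) ^ (j + (n + 1))) := by
  classical
  obtain ⟨θ, hθ, hθ8, H⟩ := slope_gsup (ι := ι) I
  have hθ1 : θ < 1 := by linarith
  obtain ⟨ε₁, hε₁, C, hC, H⟩ := H (θ ^ γ)
    (by simpa using Real.rpow_le_rpow_of_exponent_ge hθ hθ1.le hγ1)
    (Real.rpow_lt_one hθ.le hθ1 hγ)
  obtain ⟨n, hn⟩ := exists_pow_lt_of_lt_one (show 0 < 1 / (6 * Λ) by positivity) hθ1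
  have hn1 : θ ^ (n + 1) * (6 * Λ) ≤ 1 := by
    rw [← le_div_iff₀ (by positivity)]
    exact (pow_le_pow_of_le_one hθ.le hθ1.le (Nat.le_succ n)).trans hn.le
  obtain ⟨C₂, hC₂⟩ : ∃ C₂, C₂ = C / (θ ^ (n + 1)) ^ (m + 2) := ⟨_, rfl⟩
  have hC₂0 : 0 < C₂ := by rw [hC₂]; positivity
  refine ⟨θ, n, hθ, hθ8, min ε₁ (p₀ / C), by positivity,
    8 * C₀ * (C₂ * ε₁ ^ 2) ^ γ * C₂ * 6 ^ m, by positivity,
    fun u ε e hε hεe he hu HT x hx j hj => ?_⟩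
  have he0 : 0 < e := hε.trans_le hεe
  have he1 : e ≤ ε₁ := he.trans (min_le_left _ _)
  obtain ⟨p, hp, hp2⟩ := H u ε e hε.le hεe he1 hu x hx j hj
  have hp0 : ‖p‖ ≤ p₀ := by
    refine hp.trans ?_
    rw [mul_comm, ← le_div_iff₀ hC]
    exact he.trans (min_le_right _ _)
  obtain ⟨s, hs⟩ : ∃ s, s = θ ^ (j + (n + 1)) / 3 := ⟨_, rfl⟩
  have hs0 : 0 < s := by rw [hs]; positivity
  have h1 : θ ^ j / 3 = s / θ ^ (n + 1) := by
    rw [hs, pow_add θ j]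
    field_simp
  have h2 : θ ^ j ≤ 1 := pow_le_one₀ hθ.le hθ1.le
  have h3 : Λ * (6 * s) ≤ θ ^ j / 3 := by
    rw [h1, le_div_iff₀ (by positivity)]
    have := mul_le_mul_of_nonneg_left hn1 hs0.le
    linarith
  have h4 : En Finset.univ u p x (Λ * (6 * s)) ≤ C₂ * e ^ 2 * s ^ 2 * (6 * s) ^ m := by
    refine ((En_mono hu.lip p (ball_subset_ball h3)).trans hp2).trans ?_
    have h5 : s ^ m ≤ (6 * s) ^ m := pow_le_pow_left₀ hs0.le (by linarith) m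
    calc C * e ^ 2 * (θ ^ j / 3) ^ (m + 2) = C₂ * e ^ 2 * s ^ 2 * s ^ m := by
          rw [h1, hC₂, div_pow]
          ring
      _ ≤ _ := by gcongr
  have h6 := HT x p (6 * s) (C₂ * e ^ 2 * s ^ 2) (by positivity)
    (by positivity) hp0 (ball_sup hx (by linarith)) h4
  have h7 : s ^ γ ≤ (θ ^ γ) ^ (j + (n + 1)) := by
    rw [← Real.rpow_natCast, ← Real.rpow_mul hθ.le, mul_comm, Real.rpow_mul hθ.le,
      Real.rpow_natCast]
    refine Real.rpow_le_rpow hs0.le ?_ hγ.le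
    rw [hs]
    linarith [pow_pos hθ (j + (n + 1))]
  have h8 : (C₂ * e ^ 2 * s ^ 2) ^ γ ≤
      (C₂ * ε₁ ^ 2) ^ γ * (s ^ γ * (θ ^ γ) ^ (j + (n + 1))) := by
    rw [Real.mul_rpow (by positivity) (by positivity), sq s, Real.mul_rpow hs0.le hs0.le]
    gcongr
  rw [← hs]
  refine (En3_vv_le hu.lip p x _).trans ?_
  calc 8 * En3 Finset.univ u p x (6 * s)
      ≤ 8 * (C₀ * (C₂ * e ^ 2 * s ^ 2) ^ γ * (C₂ * e ^ 2 * s ^ 2) * (6 * s) ^ m) := by gcongr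
    _ ≤ 8 * (C₀ * ((C₂ * ε₁ ^ 2) ^ γ * (s ^ γ * (θ ^ γ) ^ (j + (n + 1)))) *
        (C₂ * e ^ 2 * s ^ 2) * (6 * s) ^ m) := by gcongr
    _ = _ := by
      rw [mul_pow 6 s m]
      ring

theorem superlinear [Fintype ι] [Nonempty ι] {L : ℝ≥0} (I : Intg m L) {γ p₀ C₀ Λ : ℝ}
    (hγ : 0 < γ) (hγ1 : γ ≤ 1) (hp₀ : 0 < p₀) (hC₀ : 0 < C₀) (hΛ : 1 ≤ Λ) :
    ∃ ε₀ > 0, ∃ l₀ > 0, ∃ C > 0, ∀ (u : ι → E m → ℝ) (ε : ℝ), 0 < ε →
      ε ≤ ε₀ → Setting I ε u → TGH γ p₀ C₀ Λ u (ball 0 2) →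
      ∀ r l : ℝ, 0 < l → l ≤ r → r ≤ 1 / 16 → l ≤ l₀ → Good ε u r l →
        En3 Finset.univ (vv u) 0 0 (r + 2 * l) ≤ C * l ^ γ * DD u (r + 3 * l) := by
  classical
  obtain ⟨θ, n, hθ, hθ8, ε₁, hε₁, C, hC, H⟩ := stop_gsup (ι := ι) I hγ hγ1 hp₀ hC₀ hΛ
  have hθ1 : θ < 1 := by linarith
  have hK : (1 : ℝ) ≤ 2 * 3 ^ (m + 2) := by
    have : (1 : ℝ) ≤ 3 ^ (m + 2) := one_le_pow₀ (by norm_num)
    linarith
  have hτ : θ ≤ θ ^ γ := by simpa using Real.rpow_le_rpow_of_exponent_ge hθ hθ1.le hγ1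
  refine ⟨ε₁ / (2 * 3 ^ (m + 2)), by positivity, θ ^ n / 3, by positivity, C, hC,
    fun u ε hε hε0 hu HT r l hl hlr hr hl0 hG => ?_⟩
  obtain ⟨e, he⟩ : ∃ e, e = 2 * 3 ^ (m + 2) * ε := ⟨_, rfl⟩
  have he1 : ε ≤ e := by rw [he]; exact le_mul_of_one_le_left hε.le hK
  have he2 : e ≤ ε₁ := by
    rw [he, mul_comm, ← le_div_iff₀ (by positivity)]
    exact hε0
  have hlγ : 0 ≤ C * l ^ γ := by positivity
  have h1 : En3 Finset.univ (vv u) 0 0 (r + 2 * l) =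
      ∫ x in {x ∈ ball (0 : E m) (r + 2 * l) | ∃ j : ℕ,
        e ^ 2 * (θ ^ j / 3) ^ (m + 2) * (θ ^ γ) ^ j ≤ Sep u x (θ ^ j / 3)},
        ∑ i, ‖gradient (vv u i) x - 0‖ ^ 3 := by
    refine setIntegral_eq_of_subset_of_ae_sdiff_eq_zero measurableSet_ball.nullMeasurableSet
      (sep_subset _ _) ?_
    filter_upwards [null_sup hu.lip hθ hθ1 (hθ.le.trans hτ)
      (Real.rpow_lt_one hθ.le hθ1 hγ).le (sq_nonneg e)] with x hx hx'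
    exact hx fun j => not_le.1 fun h => hx'.2 ⟨hx'.1, j, h⟩
  rw [h1]
  refine (vitali_sum (G := fun x => C * l ^ γ * ∑ i, ‖gradient (vv u i) x - 0‖ ^ 2)
    (T := ball 0 (r + 3 * l)) (r₀ := l) (fun x => Finset.sum_nonneg fun i _ => by positivity)
    (fun x => mul_nonneg hlγ (Finset.sum_nonneg fun i _ => by positivity)) (locInt_sup hu.lip 3)
    ((intOn_En (lip_vv hu.lip) 0 0 _ 2).const_mul _) ?_).trans (integral_const_mul _ _).le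
  rintro x ⟨hx, hj⟩
  have hb := Nat.find_spec hj
  have hg := fun i => Nat.find_min hj (m := i)
  generalize Nat.find hj = j at hb hg
  have h2 : θ ^ j / 3 < l := not_le.1 fun h =>
    absurd (large_sup hu.lip hε hθ hθ1.le hτ hG hx h) (by rw [← he]; exact not_lt.2 hb)
  have h3 : n + 1 ≤ j := by
    by_contra h
    have h4 : θ ^ n ≤ θ ^ j := pow_le_pow_of_le_one hθ.le hθ1.le (by omega)
    linarith
  obtain ⟨j, rfl⟩ : ∃ i, j = i + (n + 1) := ⟨j - (n + 1), by omega⟩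
  have h5 := H u ε e hε he1 he2 hu HT x (ball_subset_ball (by linarith) hx) j
    fun i hi => (not_le.1 (hg i (by omega))).le
  have h6 : 0 < θ ^ (j + (n + 1)) / 3 := by positivity
  refine ⟨θ ^ (j + (n + 1)) / 3, h6, h2.le, ball_sup hx (by linarith), h5.trans ?_⟩
  rw [integral_const_mul]
  refine mul_le_mul ?_ hb (by positivity) hlγ
  exact mul_le_mul_of_nonneg_left (Real.rpow_le_rpow h6.le h2.le hγ.le) hC.le

end Pool.Agent.Lib.MP_8daebb_an.LH
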