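import Pool.Agent.Lib.MP_8daebb_an.LG.Base

open MeasureTheory Metric Set Filter Topology
open scoped RealInnerProductSpace NNReal ContDiff
open Pool.Agent.Lib.MP_8daebb_an.LG

namespace Pool.Agent.Lib.MP_8daebb_an.LH

variable {m : ℕ} {ι : Type}

/-! GDEF. An abstract uniformly convex integrand and the quantities attached to it. -/

/-- An integrand normalised at the origin, uniformly convex on the ball of radius `L + 1`. -/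
structure Intg (m : ℕ) (L : ℝ≥0) where
  F : E m → ℝ
  a : E m → E m
  A : E m → E m →L[ℝ] E m
  ta : E m → E m
  Λ : ℝ
  one_le : 1 ≤ Λ
  dF : ∀ p, HasGradientAt F (a p) p
  da : ∀ p, HasFDerivAt a (A p) p
  smooth : ContDiff ℝ ∞ a
  a_zero : a 0 = 0
  A_zero : A 0 = ContinuousLinearMap.id ℝ (E m)
  A_symm : ∀ p, Sym (A p)
  A_norm : ∀ p, ‖A p‖ ≤ Λ
  A_lip : ∀ p p', ‖A p - A p'‖ ≤ Λ * ‖p - p'‖
  A_pos : ∀ p q, 0 ≤ ⟪A p q, q⟫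
  A_coer : ∀ p q, ‖p‖ ≤ L + 1 → ‖q‖ ^ 2 ≤ Λ * ⟪A p q, q⟫
  ta_eq : ∀ p, ‖p‖ ≤ L + 1 → ta p = a p
  ta_lip : ∀ p q, ‖ta p - ta q‖ ≤ Λ * ‖p - q‖
  ta_mono : ∀ p q, ‖p - q‖ ^ 2 ≤ Λ * ⟪ta p - ta q, p - q⟫

/-- Stationarity for the integrand `F` with gradient `a`. -/
def StatF (F : E m → ℝ) (a : E m → E m) (s : Finset ι) (u : ι → E m → ℝ) (Ω : Set (E m)) : Prop :=
  ∀ ψ : E m × ℝ → ℝ, LocallyLipschitz ψ → ∀ K : Set (E m), IsCompact K → K ⊆ Ω →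
    (∀ i ∈ s, ∀ x, x ∉ K → ψ (x, u i x) = 0) →
    (∑ i ∈ s, ∫ x, ⟪a (gradient (u i) x), gradient (fun y => ψ (y, u i y)) x⟫ = 0) ∧
      ∀ e : E m, ∑ i ∈ s, ∫ x,
        (F (gradient (u i) x) * ⟪e, gradient (fun y => ψ (y, u i y)) x⟫ -
          ⟪gradient (u i) x, e⟫ *
            ⟪a (gradient (u i) x), gradient (fun y => ψ (y, u i y)) x⟫) = 0

variable {L : ℝ≥0}

/-- The trace of `A(p) S`. -/
noncomputable def trA (I : Intg m L) (p : E m) (S : E m →L[ℝ] E m) : ℝ :=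
  ∑ b, ⟪I.A p (S (eb b)), eb b⟫

/-- The weight `⟨A(p) x, x⟩ / |x|²`. -/
noncomputable def mu (I : Intg m L) (p x : E m) : ℝ := ⟪I.A p x, x⟫ / ‖x‖ ^ 2

/-- The radial field adapted to the centre. -/
noncomputable def ZZ (I : Intg m L) (Ψ : E m → E m) (x : E m) : E m :=
  (mu I (Ψ x) x)⁻¹ • I.A (Ψ x) x

section
variable [Fintype ι]

/-- Higher integrability relative to planes of small slope. -/
def TGH (γ p₀ C Λ : ℝ) (u : ι → E m → ℝ) (Ω : Set (E m)) : Prop :=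
  ∀ (c p : E m) (r η : ℝ), 0 < r → 0 < η → ‖p‖ ≤ p₀ → ball c (Λ * r) ⊆ Ω →
    En Finset.univ u p c (Λ * r) ≤ η * r ^ m → En3 Finset.univ u p c r ≤ C * η ^ γ * η * r ^ m

/-- The average flux. -/
noncomputable def Xi (I : Intg m L) (u : ι → E m → ℝ) (x : E m) : E m :=
  (Fintype.card ι : ℝ)⁻¹ • ∑ i, I.a (gradient (u i) x)

noncomputable def qI (I : Intg m L) (u : ι → E m → ℝ) (x : E m) : ℝ :=
  ∑ i, ⟪I.A (gradient (wav u) x) (gradient (vv u i) x), gradient (vv u i) x⟫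

noncomputable def kI (I : Intg m L) (u : ι → E m → ℝ) (x : E m) : ℝ :=
  mu I (gradient (wav u) x) x * ∑ i, vv u i x ^ 2

noncomputable def dI (I : Intg m L) (u : ι → E m → ℝ) (r : ℝ) : ℝ :=
  r ^ 2 / r ^ m * ∫ x, chi 0 r x * qI I u x

noncomputable def dI1 (I : Intg m L) (u : ι → E m → ℝ) (r : ℝ) : ℝ :=
  (2 - m) * dI I u r + r ^ 2 / r ^ m * ∫ x, 2 * (‖x‖ ^ 2 / r ^ 2) * om 0 r x * qI I u x

noncomputable def hI (I : Intg m L) (u : ι → E m → ℝ) (r : ℝ) : ℝ :=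
  2 / r ^ m * ∫ x, om 0 r x * kI I u x

noncomputable def hI1 (I : Intg m L) (u : ι → E m → ℝ) (r : ℝ) : ℝ :=
  -(m : ℝ) * hI I u r + 2 / r ^ m * ∫ x, 12 * (‖x‖ ^ 2 / r ^ 2) * pr 0 r x * kI I u x

noncomputable def UI (I : Intg m L) (u : ι → E m → ℝ) (Ψ : E m → E m) (r : ℝ) : ℝ :=
  2 / r ^ m * ∫ x, om 0 r x * ∑ i, vv u i x * ⟪I.A (Ψ x) (gradient (vv u i) x), x⟫

noncomputable def rI (I : Intg m L) (u : ι → E m → ℝ) (Ψ : E m → E m) (r : ℝ) : ℝ :=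
  2 / r ^ m * ∫ x, om 0 r x * ∑ i, ⟪I.A (Ψ x) (gradient (vv u i) x), x⟫ ^ 2 / mu I (Ψ x) x

/-- The quadratic energy density relative to the centre. -/
noncomputable def qC (I : Intg m L) (u : ι → E m → ℝ) (Ψ : E m → E m) (x : E m) : ℝ :=
  ∑ i, ⟪I.A (Ψ x) (gradient (u i) x - Ψ x), gradient (u i) x - Ψ x⟫

/-- The normalised setting at unit scale. -/
structure Setting (I : Intg m L) (ε : ℝ) (u : ι → E m → ℝ) : Prop where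
  lip : ∀ i, LipschitzWith L (u i)
  zero : ∀ i, u i 0 = 0
  stat : StatF I.F I.a Finset.univ u (ball 0 2)
  en : En Finset.univ u 0 0 1 ≤ ε ^ 2
  dec : ∀ t ∈ Ioc (0 : ℝ) 2, DD u t ≤ ε ^ 2 * (t / 5) ^ (m + 3)
  half : ∀ t ∈ Ioc (0 : ℝ) 2, volume.real ({x | ∃ i j, u i x ≠ u j x} ∩ ball 0 t) ≤
    volume.real (ball (0 : E m) t) / 2
  flat : Tendsto (fun t : ℝ => En Finset.univ u 0 0 t / t ^ m) (𝓝[>] 0) (𝓝 0)
  inf : ∀ k : ℕ, ∃ C : ℝ, ∀ t ∈ Ioc (0 : ℝ) 1, DD u t ≤ C * t ^ k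

/-- A centre: `Ψ = ∇ w + g` is the Lipschitz gradient of a solution over the ball of radius
`ρ > r`, and all superlinear errors are at most `δ² D`. -/
structure Centre (I : Intg m L) (u : ι → E m → ℝ) (Ψ g : E m → E m) (r ρ CP δ D : ℝ) : Prop where
  r_pos : 0 < r
  r_le : r ≤ 1 / 4
  lt : r < ρ
  δ_pos : 0 < δ
  δ_le : δ ≤ 1
  lip : ∀ i, LipschitzWith L (u i)
  zero : ∀ i, u i 0 = 0
  stat : StatF I.F I.a Finset.univ u (ball 0 ρ)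
  lipΨ : LipschitzWith 1 Ψ
  small : ∀ x ∈ ball (0 : E m) r, ‖Ψ x‖ ≤ r
  meas : Measurable g
  eq : ∀ᵐ x, x ∈ ball (0 : E m) ρ → Ψ x = gradient (wav u) x + g x
  div : DivFree (fun x => I.a (Ψ x)) (ball 0 ρ)
  sym : ∀ᵐ x, x ∈ ball (0 : E m) ρ → Sym (fderiv ℝ Ψ x)
  mem : MemLp g 2 volume
  apx : ∀ η > 0, ∃ ζ : E m → ℝ, ContDiff ℝ 2 ζ ∧ HasCompactSupport ζ ∧
    ∫ x, ‖g x - gradient ζ x‖ ^ 2 ≤ η
  g2 : ∫ x in ball 0 r, ‖g x‖ ^ 2 ≤ δ ^ 2 * D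
  v3 : En3 Finset.univ (vv u) 0 0 r ≤ δ ^ 2 * D
  v2 : DD u r ≤ D
  v0 : Ht Finset.univ (vv u) 0 0 r ≤ CP * r ^ 2 * D

end

end Pool.Agent.Lib.MP_8daebb_an.LH
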