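import Pool.Agent.Lib.MP_8daebb_an.LH.GStat
import Pool.Agent.Lib.MP_8daebb_an.LG.Inner

open MeasureTheory Metric Set Filter Topology
open scoped RealInnerProductSpace NNReal
open Pool.Agent.Lib.MP_8daebb_an.LG

namespace Pool.Agent.Lib.MP_8daebb_an.LH

variable {m : ℕ} {ι : Type}

/-! GINNER. The inner variation identity relative to a centre. -/

theorem fderiv_aa_innerG {L : ℝ≥0} (I : Intg m L)
    {Ψ : E m → E m} {x : E m} (h : DifferentiableAt ℝ Ψ x) (v : E m) :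
    fderiv ℝ (fun y => I.a (Ψ y)) x v = I.A (Ψ x) (fderiv ℝ Ψ x v) := by
  rw [fderiv_fun_comp x (I.da _).differentiableAt h, ContinuousLinearMap.comp_apply, I.fderiv_a]

theorem dvW_innerG {L : ℝ≥0} (I : Intg m L)
    {Ψ Y : E m → E m} {x : E m} (hΨ : DifferentiableAt ℝ Ψ x)
    (hY : DifferentiableAt ℝ Y x) : dv (fun x => I.F (Ψ x) • Y x) x =
      I.F (Ψ x) * trS (fderiv ℝ Y x) + ⟪I.a (Ψ x), fderiv ℝ Ψ x (Y x)⟫ := by
  have hW : DifferentiableAt ℝ I.F (Ψ x) := (I.dF _).differentiableAt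
  have h1 : DifferentiableAt ℝ (fun x => I.F (Ψ x)) x := hW.comp x hΨ
  rw [dv_smul h1 hY, inner_grad, fderiv_fun_comp x hW hΨ, ContinuousLinearMap.comp_apply,
    I.fderiv_F]
  exact add_comm _ _

theorem dvI_innerG {L : ℝ≥0} (I : Intg m L)
    {Ψ G Y : E m → E m} {x : E m} (hΨ : DifferentiableAt ℝ Ψ x)
    (hG : DifferentiableAt ℝ G x) (hY : DifferentiableAt ℝ Y x) :
    dv (fun x => ⟪I.a (Ψ x), G x⟫ • Y x) x = ⟪I.a (Ψ x), fderiv ℝ G x (Y x)⟫ +
      ⟪I.A (Ψ x) (G x), fderiv ℝ Ψ x (Y x)⟫ + ⟪I.a (Ψ x), G x⟫ * trS (fderiv ℝ Y x) := by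
  have h0 : DifferentiableAt ℝ I.a (Ψ x) := (I.da _).differentiableAt
  have h1 : DifferentiableAt ℝ (fun y => I.a (Ψ y)) x := h0.comp x hΨ
  have h2 : DifferentiableAt ℝ (fun y => ⟪I.a (Ψ y), G y⟫) x := h1.inner ℝ hG
  rw [dv_smul h2 hY, inner_grad, fderiv_inner_apply ℝ h1 hG, fderiv_aa_innerG I hΨ,
    I.A_symm (Ψ x) (G x), real_inner_comm (I.A (Ψ x) (fderiv ℝ Ψ x (Y x)))]
  rfl

/-- The field that represents the linearised integrand. -/
noncomputable def thInnerG {L : ℝ≥0} (I : Intg m L)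
    (v : E m × E m × (E m →L[ℝ] E m) × (E m →L[ℝ] E m) × E m) : E m :=
  trS v.2.2.1 • I.a v.2.1 - v.2.2.1 (I.a v.2.1) + I.A v.2.1 (v.2.2.2.1 v.2.2.2.2)

theorem th_cont_innerG {L : ℝ≥0} (I : Intg m L)
    : Continuous (thInnerG I) := by
  have h1 := trS_cont_inner (m := m)
  have h2 := I.continuous_a
  have h3 := I.continuous_A
  unfold thInnerG
  fun_prop

theorem th_zero_innerG {L : ℝ≥0} (I : Intg m L)
    (a b : E m) (B : E m →L[ℝ] E m) : thInnerG I (a, b, 0, B, 0) = 0 := by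
  simp [thInnerG, trS_zero_inner]

theorem th_eq_innerG {L : ℝ≥0} (I : Intg m L)
    (a P y q : E m) (S B : E m →L[ℝ] E m) : ⟪thInnerG I (a, P, S, B, y), q⟫ =
    ⟪I.a P, q⟫ * trS S - ⟪S (I.a P), q⟫ + ⟪I.A P q, B y⟫ := by
  rw [thInnerG, inner_add_left, inner_sub_left, real_inner_smul_left, mul_comm, I.A_symm,
    real_inner_comm (I.A P q)]

theorem smooth_innerG {L : ℝ≥0} (I : Intg m L)
    {Ψ : E m → E m} {ρ : ℝ} (hΨ : LipschitzWith 1 Ψ)
    (hd : DivFree (fun x => I.a (Ψ x)) (ball 0 ρ)) {ζ : E m → ℝ} (hζ : ContDiff ℝ 2 ζ)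
    {Y : E m → E m} (hY : LocallyLipschitz Y) (hc : HasCompactSupport Y)
    (hs : tsupport Y ⊆ ball 0 ρ)
    (hi : Integrable fun x => ⟪thInnerG I (0, Ψ x, fderiv ℝ Y x, fderiv ℝ Ψ x, Y x), gradient ζ x⟫) :
    ∫ x, ⟪thInnerG I (0, Ψ x, fderiv ℝ Y x, fderiv ℝ Ψ x, Y x), gradient ζ x⟫ = 0 := by
  have hG := grad_c1_inner hζ
  have ha : ContDiff ℝ 1 (I.a : E m → E m) := I.smooth.of_le (by exact_mod_cast le_top)
  have l1 : LocallyLipschitz fun x => ⟪I.a (Ψ x), gradient ζ x⟫ • Y x := locLip_smul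
    (locLip_inner (ha.locallyLipschitz.comp hΨ.locallyLipschitz) hG.locallyLipschitz) hY
  have hsub : tsupport (fun x => ⟪gradient ζ x, Y x⟫) ⊆ tsupport Y :=
    closure_mono fun x hx h0 => hx (by simp [h0])
  have h1 := integral_dv_eq_zero l1 (supp_inner hc _)
  have h2 := hd (fun x => ⟪gradient ζ x, Y x⟫) (locLip_inner hG.locallyLipschitz hY)
    (hc.isCompact.of_isClosed_subset (isClosed_tsupport _) hsub) (hsub.trans hs)
  have h3 := integral_sub (int_dv_inner l1 (supp_inner hc _)) hi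
  rw [h1, zero_sub] at h3
  rw [← neg_eq_zero, ← h3, ← h2]
  refine integral_congr_ae (((locLip_ae_diff hY).and
    (locLip_ae_diff hΨ.locallyLipschitz)).mono fun x hx => ?_)
  have k1 := hG.differentiable one_ne_zero x
  beta_reduce
  rw [dvI_innerG I hx.2 k1 hx.1, th_eq_innerG I, gradI_inner k1 hx.1, grad_sym_inner hζ x]
  ring

/-- The linearised inner variation identity. -/
theorem inner_linear {L : ℝ≥0} (I : Intg m L) {Ψ g : E m → E m} {ρ : ℝ} (hΨ : LipschitzWith 1 Ψ)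
    (hd : DivFree (fun x => I.a (Ψ x)) (ball 0 ρ)) (hg : MemLp g 2 volume)
    (apx : ∀ η > 0, ∃ ζ : E m → ℝ, ContDiff ℝ 2 ζ ∧ HasCompactSupport ζ ∧
      ∫ x, ‖g x - gradient ζ x‖ ^ 2 ≤ η)
    {Y : E m → E m} (hY : LocallyLipschitz Y) (hc : HasCompactSupport Y)
    (hs : tsupport Y ⊆ ball 0 ρ) :
    ∫ x, (⟪I.a (Ψ x), g x⟫ * dv Y x - ⟪fderiv ℝ Y x (I.a (Ψ x)), g x⟫ +
      ⟪I.A (Ψ x) (g x), fderiv ℝ Ψ x (Y x)⟫) = 0 := by
  have hΘ := mem_inner (p := fun _ => 0) (L := 0) measurable_const (by simp) hΨ.locallyLipschitz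
    hY hc (thInnerG I) (th_cont_innerG I) (th_zero_innerG I) 2
  have h := limit_inner hΘ hg fun η hη => by
    obtain ⟨ζ, h1, h2, h3⟩ := apx η hη
    have h4 : MemLp (gradient ζ) 2 volume :=
      (grad_c1_inner h1).continuous.memLp_of_hasCompactSupport
        (HasCompactSupport.intro h2.isCompact fun x hx => grad_eq_zero_of_notMem hx)
    exact ⟨_, h4, h3, smooth_innerG I hΨ hd h1 hY hc hs (int_inner_inner hΘ h4)⟩
  simpa only [th_eq_innerG, dv] using h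

theorem inner_centre [Fintype ι] [Nonempty ι] {L : ℝ≥0} {I : Intg m L} {u : ι → E m → ℝ}
    {Ψ g : E m → E m} {r ρ CP δ D : ℝ} (h : Centre I u Ψ g r ρ CP δ D) {Y : E m → E m}
    (hY : LocallyLipschitz Y) (hc : HasCompactSupport Y) (hs : tsupport Y ⊆ ball 0 ρ) :
    ∑ i, ∫ x,
      ((I.F (gradient (u i) x) - I.F (Ψ x) - ⟪I.a (Ψ x), gradient (u i) x - Ψ x⟫) * dv Y x -
      ⟪fderiv ℝ Y x (I.a (gradient (u i) x) - I.a (Ψ x)), gradient (u i) x - Ψ x⟫ +
      ⟪I.a (gradient (u i) x) - I.a (Ψ x) - I.A (Ψ x) (gradient (u i) x - Ψ x),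
        fderiv ℝ Ψ x (Y x)⟫) = 0 := by
  have hΨ := h.lipΨ.locallyLipschitz
  have c1 := trS_cont_inner (m := m)
  have c2 := I.continuous_a
  have c3 := I.continuous_F
  have c4 := th_cont_innerG I
  have hm := fun i Φ hΦ h0 => memLp_one_iff_integrable.1 (mem_inner (F := ℝ) (meas_grad (u i))
    (norm_grad_le (h.lip i)) hΨ hY hc Φ hΦ h0 1)
  have i1 := fun i => hm i (fun v => I.F v.1 * trS v.2.2.1 - ⟪v.2.2.1 (I.a v.1), v.1⟫) (by fun_prop)
    (by simp [trS_zero_inner])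
  have i2 := fun i => hm i (fun v => ⟪v.2.2.1 (I.a v.1), v.2.1⟫ + ⟪I.a v.1, v.2.2.2.1 v.2.2.2.2⟫)
    (by fun_prop) (by simp)
  have i3 := fun i => hm i (fun v => I.F v.2.1 * trS v.2.2.1 + ⟪I.a v.2.1, v.2.2.2.1 v.2.2.2.2⟫)
    (by fun_prop) (by simp [trS_zero_inner])
  have i4 := fun i => hm i (fun v => ⟪thInnerG I (0, v.2), v.1 - v.2.1⟫) (by fun_prop)
    (by simp [th_zero_innerG I])
  dsimp only at i1 i2 i3 i4
  have hsub : tsupport (fun x => ⟪Ψ x, Y x⟫) ⊆ tsupport Y :=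
    closure_mono fun x hx h0 => hx (by simp [h0])
  have hae := (locLip_ae_diff hY).and (locLip_ae_diff hΨ)
  have e1 := h.stat.inner c3 c2 h.lip hY hc hs
  have e2 : ∑ i, ∫ x, (⟪fderiv ℝ Y x (I.a (gradient (u i) x)), Ψ x⟫ +
      ⟪I.a (gradient (u i) x), fderiv ℝ Ψ x (Y x)⟫) = 0 := by
    rw [← h.stat.outer (f := fun _ => 0) (θ := fun _ => 1) (locLip_inner hΨ hY)
      (hc.isCompact.of_isClosed_subset (isClosed_tsupport _) hsub) (hsub.trans hs)
      (LocallyLipschitz.const 0) (LocallyLipschitz.const 1)]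
    refine Finset.sum_congr rfl fun i _ => integral_congr_ae ((hae.and h.sym).mono fun x hx => ?_)
    simp only [mul_one]
    rw [gradI_inner hx.1.2 hx.1.1]
    by_cases k : x ∈ ball 0 ρ
    · rw [hx.2 k]
    · simp [image_eq_zero_of_notMem_tsupport fun k' => k (hs k')]
  have e3 : ∫ x, (I.F (Ψ x) * trS (fderiv ℝ Y x) + ⟪I.a (Ψ x), fderiv ℝ Ψ x (Y x)⟫) = 0 := by
    have hW : ContDiff ℝ 1 (I.F : E m → ℝ) := I.contDiff_F
    rw [← integral_dv_eq_zero (Y := fun x => I.F (Ψ x) • Y x)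
      (locLip_smul (hW.locallyLipschitz.comp hΨ) hY) (supp_inner hc _)]
    exact integral_congr_ae (hae.mono fun x hx => (dvW_innerG I hx.2 hx.1).symm)
  have e4 : ∑ i, ∫ x, ⟪thInnerG I (0, Ψ x, fderiv ℝ Y x, fderiv ℝ Ψ x, Y x),
      gradient (u i) x - Ψ x⟫ = 0 := by
    have k := congrArg (-(Fintype.card ι : ℝ) * ·) (inner_linear I h.lipΨ h.div h.mem h.apx hY hc hs)
    simp only [mul_zero, ← integral_const_mul] at k
    rw [← integral_finsetSum _ fun i _ => i4 i, ← k]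
    refine integral_congr_ae (((ae_grad_vv h.lip).and h.eq).mono fun x hx => ?_)
    beta_reduce
    rw [dv, ← th_eq_innerG I 0, ← inner_sum, ← real_inner_smul_right]
    by_cases k : x ∈ ball 0 ρ
    · congr 1
      rw [Finset.sum_sub_distrib, Finset.sum_congr rfl fun i _ => hx.1.2.2.2.2.1 i,
        Finset.sum_add_distrib, hx.1.2.2.2.2.2, hx.2 k]
      simp [Nat.cast_smul_eq_nsmul]
    · have k' : x ∉ tsupport Y := fun k' => k (hs k')
      simp [fderiv_of_notMem_tsupport ℝ k', image_eq_zero_of_notMem_tsupport k', th_zero_innerG I]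
  have e5 : ∀ i, ∫ x, ((I.F (gradient (u i) x) - I.F (Ψ x) -
      ⟪I.a (Ψ x), gradient (u i) x - Ψ x⟫) * dv Y x -
      ⟪fderiv ℝ Y x (I.a (gradient (u i) x) - I.a (Ψ x)), gradient (u i) x - Ψ x⟫ +
      ⟪I.a (gradient (u i) x) - I.a (Ψ x) - I.A (Ψ x) (gradient (u i) x - Ψ x),
        fderiv ℝ Ψ x (Y x)⟫) = _ := fun i => Eq.trans
    (integral_congr_ae (Eventually.of_forall fun x => by
      simp only [Pi.add_apply, Pi.sub_apply, th_eq_innerG I, dv, map_sub, inner_sub_left]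
      simp only [inner_sub_right]
      ring))
    ((integral_sub' (((i1 i).add (i2 i)).sub (i3 i)) (i4 i)).trans (congrArg (· - _)
      ((integral_sub' ((i1 i).add (i2 i)) (i3 i)).trans (congrArg (· - _)
        (integral_add' (i1 i) (i2 i))))))
  simp only [dv] at e1
  simp only [e5, e3, sub_zero, Finset.sum_sub_distrib, Finset.sum_add_distrib, e1, e2, e4, add_zero]

end Pool.Agent.Lib.MP_8daebb_an.LH
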