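import Pool.Agent.Lib.MP_8daebb_an.LH.GStep
import Pool.Agent.Lib.MP_8daebb_an.LG.Iter

open MeasureTheory Metric Set Filter Topology
open scoped RealInnerProductSpace NNReal
open Pool.Agent.Lib.MP_8daebb_an.LG

namespace Pool.Agent.Lib.MP_8daebb_an.LH

variable {m : ℕ} {ι : Type}

/-! GITER. Iteration of the quadratic excess decay. -/

theorem iter {L : ℝ≥0} (I : Intg m L) : ∃ θ : ℝ, 0 < θ ∧ θ ≤ 1 / 8 ∧
    ∀ τ : ℝ, θ ≤ τ → τ < 1 → ∃ ε₁ > 0, ∃ C > 0,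
      ∀ (f : E m → ℝ), LocallyLipschitz f → ∀ (x : E m) (ε : ℝ) (j : ℕ), 0 ≤ ε → ε ≤ ε₁ →
        ∫ y in ball x (1 / 3), ‖gradient f y‖ ^ 2 ≤ ε ^ 2 →
        (∀ i < j, ∃ Ξ : E m → E m, MemLp Ξ 2 (volume.restrict (ball x (θ ^ i / 3))) ∧
          DivFree Ξ (ball x (θ ^ i / 3)) ∧
          ∫ y in ball x (θ ^ i / 3), ‖Ξ y - I.ta (gradient f y)‖ ^ 2 ≤
            ε ^ 2 * (θ ^ i / 3) ^ (m + 2) * τ ^ i) →
        ∃ p : E m, ‖p‖ ≤ C * ε ∧
          ∫ y in ball x (θ ^ j / 3), ‖gradient f y - p‖ ^ 2 ≤ C * ε ^ 2 * (θ ^ j / 3) ^ (m + 2) := by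
  obtain ⟨θ, hθ, hθ8, ε₂, hε₂, C, hC, H⟩ := LH.step I
  refine ⟨θ, hθ, hθ8, fun τ hτ hτ1 => ?_⟩
  have hτ0 : 0 < τ := hθ.trans_le hτ
  obtain ⟨ρ, hρ0, hρ⟩ : ∃ ρ : ℝ, 0 < ρ ∧ τ = ρ ^ 2 :=
    ⟨√τ, Real.sqrt_pos.2 hτ0, (Real.sq_sqrt hτ0.le).symm⟩
  have hρ1 : ρ < 1 := by nlinarith
  have hτρ : τ ≤ ρ := by nlinarith
  obtain ⟨k, hk0, hk⟩ : ∃ k : ℝ, 0 < k ∧ k ^ 2 = 9 * 3 ^ m + 4 * C / θ ^ 3 :=
    ⟨√(9 * 3 ^ m + 4 * C / θ ^ 3), Real.sqrt_pos.2 (by positivity), Real.sq_sqrt (by positivity)⟩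
  have hk1 : 9 * 3 ^ m ≤ k ^ 2 := by
    have : 0 < 4 * C / θ ^ 3 := by positivity
    linarith
  have hk2 : 4 * C ≤ k ^ 2 * θ ^ 3 := by
    rw [← div_le_iff₀ (by positivity), hk]
    have : (0 : ℝ) < 9 * 3 ^ m := by positivity
    linarith
  obtain ⟨K', hK0, hK⟩ : ∃ K' : ℝ, 0 < K' ∧ C * (k + 2) = K' * (1 - ρ) :=
    ⟨C * (k + 2) / (1 - ρ), div_pos (by positivity) (by linarith),
      (div_mul_cancel₀ _ (by linarith)).symm⟩
  have hK1 : C * (k + 2) ≤ K' := by nlinarith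
  have hv := vb_pos m
  refine ⟨min (1 / K' ^ 2) (ε₂ / (K' + k + 1)), lt_min (by positivity) (by positivity),
    K' + 2 * k ^ 2 + 2 * K' ^ 2 * vb m, by positivity, fun f hf x ε j hε hε1 h0 hΞ => ?_⟩
  have b1 : K' ^ 2 * ε ≤ 1 := by
    have := hε1.trans (min_le_left _ _)
    rw [le_div_iff₀ (by positivity)] at this
    linarith
  have b2 : ε * (K' + k + 1) ≤ ε₂ := by
    have := hε1.trans (min_le_right _ _)
    rwa [le_div_iff₀ (by positivity)] at this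
  have c1 := mul_nonneg hε hK0.le
  have c2 := mul_nonneg hε hk0.le
  have b3 : K' * ε ≤ ε₂ := by linarith
  have b4 : k * ε ≤ ε₂ := by linarith
  have b5 : ε ≤ ε₂ := by linarith
  have key : ∀ i ≤ j, ∃ (p : E m) (S : E m →L[ℝ] E m), Sym S ∧ LH.trA I p S = 0 ∧
      ‖p‖ ≤ K' * ε * (1 - θ ^ i) ∧ ‖S‖ ≤ K' * ε * (1 - ρ ^ i) ∧
      ∫ y in ball x (θ ^ i / 3), ‖gradient f y - p - S (y - x)‖ ^ 2 ≤
        k ^ 2 * ε ^ 2 * τ ^ i * (θ ^ i / 3) ^ 2 * (θ ^ i / 3) ^ m := by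
    intro i
    induction i with
    | zero =>
      intro _
      refine ⟨0, 0, fun a b => by simp, by simp [LH.trA], by simp, by simp, ?_⟩
      simp only [pow_zero, _root_.zero_apply, sub_zero]
      refine h0.trans ?_
      have e : k ^ 2 * ε ^ 2 * 1 * (1 / 3) ^ 2 * (1 / 3) ^ m = ε ^ 2 * (k ^ 2 / (9 * 3 ^ m)) := by
        rw [one_div_pow, one_div_pow]
        field_simp
        norm_num
      rw [e]
      exact le_mul_of_one_le_right (sq_nonneg _) ((one_le_div (by positivity)).2 hk1)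
    | succ i ih =>
      intro hi
      obtain ⟨p, S, h1, h2, h3, h4, h5⟩ := ih (Nat.le_of_succ_le hi)
      obtain ⟨Ξ, g1, g2, g3⟩ := hΞ i hi
      have t0 : 0 < θ ^ i := pow_pos hθ i
      have t1 : θ ^ i ≤ τ ^ i := pow_le_pow_left₀ hθ.le hτ i
      have t2 : τ ^ i ≤ ρ ^ i := pow_le_pow_left₀ hτ0.le hτρ i
      have t3 : ρ ^ i ≤ 1 := pow_le_one₀ hρ0.le hρ1.le
      have t4 : τ ^ i = (ρ ^ i) ^ 2 := by rw [hρ, ← pow_mul, ← pow_mul, mul_comm]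
      have e0 : θ ^ (i + 1) / 3 = θ * (θ ^ i / 3) := by ring
      rw [e0, pow_succ θ i, pow_succ ρ i, pow_succ τ i]
      obtain ⟨s, hs⟩ : ∃ s, s = θ ^ i / 3 := ⟨_, rfl⟩
      rw [← hs] at h5 g1 g2 g3 ⊢
      have s0 : 0 < s := by rw [hs]; positivity
      have s1 : s ≤ τ ^ i := by linarith
      have s2 : s ≤ 1 := by linarith
      have c3 : 0 ≤ K' * ε := by linarith
      have n1 : ‖S‖ ≤ K' * ε := h4.trans (mul_le_of_le_one_right c3 (by linarith))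
      have n2 : ‖p‖ ≤ K' * ε := h3.trans (mul_le_of_le_one_right c3 (by linarith))
      have u1 : 0 ≤ ρ ^ i * s := by positivity
      have u2 : ρ ^ i * s ≤ 1 := mul_le_one₀ t3 s0.le s2
      have q1 : k ^ 2 * ε ^ 2 * τ ^ i * s ^ 2 = (k * ε * ρ ^ i * s) ^ 2 := by rw [t4]; ring
      have q2 : ε ^ 2 * s ^ 2 * τ ^ i = (ε * s * ρ ^ i) ^ 2 := by rw [t4]; ring
      obtain ⟨p', S', r1, r2, r3, r4, r5⟩ := H f Ξ x s p S (k ^ 2 * ε ^ 2 * τ ^ i * s ^ 2)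
        (ε ^ 2 * s ^ 2 * τ ^ i) hf s0 h1 h2 (n2.trans b3)
        ((mul_le_of_le_one_left (norm_nonneg _) s2).trans (n1.trans b3))
        (by
          rw [q1]
          refine pow_le_pow_left₀ (by positivity) (le_trans ?_ b4) 2
          rw [mul_assoc (k * ε)]
          exact mul_le_of_le_one_right (by positivity) u2)
        (by
          rw [q2]
          refine pow_le_pow_left₀ (by positivity) (le_trans ?_ b5) 2
          rw [mul_assoc, mul_comm s]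
          exact mul_le_of_le_one_right hε u2)
        g1 g2 h5 (g3.trans (le_of_eq (by ring)))
      rw [q1, Real.sqrt_sq (by positivity)] at r3 r4
      rw [q2, Real.sqrt_sq (by positivity)] at r4
      refine ⟨p', S', r1, r2, ?_, ?_, r5.trans ?_⟩
      · have w1 : ‖p'‖ ≤ ‖p‖ + ‖p' - p‖ := norm_le_norm_add_norm_sub' p' p
        have w2 : C * (k * ε * ρ ^ i * s) ≤ K' * ε * s := by
          have : C * k * ρ ^ i ≤ K' := by
            have := mul_le_of_le_one_right (mul_pos hC hk0).le t3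
            linarith
          calc _ = C * k * ρ ^ i * (ε * s) := by ring
            _ ≤ K' * (ε * s) := mul_le_mul_of_nonneg_right this (by positivity)
            _ = _ := by ring
        have w3 : s ≤ θ ^ i - θ ^ i * θ := by nlinarith
        have w4 := mul_le_mul_of_nonneg_left w3 c3
        linarith
      · have w1 : ‖S'‖ ≤ ‖S‖ + ‖S' - S‖ := norm_le_norm_add_norm_sub' S' S
        have w2 := num1_iter hC hε s0 (s1.trans t2) (norm_nonneg _) n1 b1 r4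
        rw [hK] at w2
        linarith
      · exact mul_le_mul_of_nonneg_right
          (num2_iter hC hε s0 s2 s1 hθ hτ hk2 (norm_nonneg _) n1 b1) (by positivity)
  obtain ⟨p, S, -, -, h3, h4, h5⟩ := key j le_rfl
  have t0 : 0 < θ ^ j := pow_pos hθ j
  have t2 : 0 < ρ ^ j := pow_pos hρ0 j
  have t3 : τ ^ j ≤ 1 := pow_le_one₀ hτ0.le hτ1.le
  have c3 : 0 ≤ K' * ε := by linarith
  have n1 : ‖S‖ ≤ K' * ε := h4.trans (mul_le_of_le_one_right c3 (by linarith))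
  have n2 : ‖p‖ ≤ K' * ε := h3.trans (mul_le_of_le_one_right c3 (by linarith))
  obtain ⟨s, hs⟩ : ∃ s, s = θ ^ j / 3 := ⟨_, rfl⟩
  rw [← hs] at h5 ⊢
  have s0 : 0 < s := by rw [hs]; positivity
  refine ⟨p, n2.trans (mul_le_mul_of_nonneg_right ?_ hε), (end_iter hf x p S s0).trans ?_⟩
  · have : 0 ≤ 2 * k ^ 2 + 2 * K' ^ 2 * vb m := by positivity
    linarith
  · have w1 : k ^ 2 * ε ^ 2 * τ ^ j * s ^ 2 * s ^ m ≤ k ^ 2 * ε ^ 2 * 1 * s ^ 2 * s ^ m := by gcongr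
    have w2 : (‖S‖ * s) ^ 2 * (vb m * s ^ m) ≤ (K' * ε * s) ^ 2 * (vb m * s ^ m) := by gcongr
    have w3 : 0 ≤ K' * ε ^ 2 * s ^ (m + 2) := by positivity
    have w4 : (K' + 2 * k ^ 2 + 2 * K' ^ 2 * vb m) * ε ^ 2 * s ^ (m + 2) =
        K' * ε ^ 2 * s ^ (m + 2) + 2 * (k ^ 2 * ε ^ 2 * 1 * s ^ 2 * s ^ m) +
          2 * ((K' * ε * s) ^ 2 * (vb m * s ^ m)) := by ring
    linarith

end Pool.Agent.Lib.MP_8daebb_an.LH
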