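import Pool.Agent.Lib.MP_8daebb_an.LH.GAlg
import Pool.Agent.Lib.MP_8daebb_an.LG.ZLip

open MeasureTheory Metric Set Filter Topology
open scoped RealInnerProductSpace NNReal
open Pool.Agent.Lib.MP_8daebb_an.LG

namespace Pool.Agent.Lib.MP_8daebb_an.LH

variable {m : ℕ} {ι : Type}

/-! GZLIP. The radial fields adapted to the centre are close to the identity. -/

variable {L : ℝ≥0} (I : Intg m L)

theorem B_gzlip {p : E m} {r : ℝ} (hp : ‖p‖ ≤ 3 * r) : I.Λ * ‖p‖ ≤ 3 * I.Λ * r := by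
  have := mul_le_mul_of_nonneg_left hp I.Λ_pos.le
  linarith

theorem V_gzlip {p p' x y : E m} {r : ℝ} (hp' : ‖p'‖ ≤ 3 * r)
    (hd : ‖p - p'‖ ≤ ‖x - y‖) (hx : ‖x‖ ≤ 2 * r) :
    ‖(I.A p x - x) - (I.A p' y - y)‖ ≤ 5 * I.Λ * r * ‖x - y‖ := by
  have hΛ := I.Λ_pos
  have e : (I.A p x - x) - (I.A p' y - y) =
      (I.A p x - I.A p' x) + (I.A p' (x - y) - (x - y)) := by
    rw [map_sub]
    abel
  have h1 : ‖I.A p x - I.A p' x‖ ≤ I.Λ * ‖x - y‖ * (2 * r) :=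
    (I.A_lip' p p' x).trans (by gcongr)
  have h2 : ‖I.A p' (x - y) - (x - y)‖ ≤ 3 * I.Λ * r * ‖x - y‖ := (I.A_sub_self p' (x - y)).trans
    (mul_le_mul_of_nonneg_right (B_gzlip I hp') (norm_nonneg _))
  rw [e]
  linarith [norm_add_le (I.A p x - I.A p' x) (I.A p' (x - y) - (x - y))]

theorem mu_pos_gzlip {p x : E m} (hp : ‖p‖ ≤ 1) (hx : x ≠ 0) :
    0 < mu I p x ∧ (mu I p x)⁻¹ ≤ I.Λ := by
  have h := mu_ge I (p := p) (by linarith [L.coe_nonneg]) hx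
  have h0 : 0 < mu I p x := by
    refine (mu_nonneg I p x).lt_of_ne fun h' => ?_
    rw [← h', mul_zero] at h
    linarith
  refine ⟨h0, ?_⟩
  rw [inv_eq_one_div, div_le_iff₀ h0]
  exact h

theorem inv_mu_gzlip {p x : E m} {r : ℝ} (hr4 : r ≤ 1 / 4) (hp : ‖p‖ ≤ 3 * r)
    (hx : x ≠ 0) : |(mu I p x)⁻¹| ≤ I.Λ ∧ |(mu I p x)⁻¹ - 1| ≤ 3 * I.Λ ^ 2 * r := by
  have hΛ := I.Λ_pos
  obtain ⟨h0, h1⟩ := mu_pos_gzlip I (p := p) (by linarith) hx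
  have h2 : |(mu I p x)⁻¹| ≤ I.Λ := by rwa [abs_of_pos (inv_pos.2 h0)]
  refine ⟨h2, ?_⟩
  have e : (mu I p x)⁻¹ - 1 = -((mu I p x)⁻¹ * (mu I p x - 1)) := by field_simp; ring
  rw [e, abs_neg, abs_mul]
  have h3 := (mu_sub_one I p hx).trans (B_gzlip I hp)
  calc _ ≤ I.Λ * (3 * I.Λ * r) := by gcongr
    _ = _ := by ring

theorem Z0_gzlip {p : E m} {r : ℝ} (hr4 : r ≤ 1 / 4) (hp : ‖p‖ ≤ 3 * r) (x : E m) :
    ‖(mu I p x)⁻¹ • I.A p x - x‖ ≤ 6 * I.Λ ^ 2 * r * ‖x‖ := by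
  have hΛ := I.Λ_pos
  by_cases hx : x = 0
  · subst hx
    simp
  obtain ⟨h1, h2⟩ := inv_mu_gzlip I hr4 hp hx
  have e : (mu I p x)⁻¹ • I.A p x - x =
      (mu I p x)⁻¹ • (I.A p x - x) + ((mu I p x)⁻¹ - 1) • x := by
    module
  have h3 : ‖I.A p x - x‖ ≤ 3 * I.Λ * r * ‖x‖ := (I.A_sub_self p x).trans
    (mul_le_mul_of_nonneg_right (B_gzlip I hp) (norm_nonneg _))
  rw [e]
  refine (norm_add_le _ _).trans ?_
  rw [norm_smul, norm_smul, Real.norm_eq_abs, Real.norm_eq_abs]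
  calc _ ≤ I.Λ * (3 * I.Λ * r * ‖x‖) + 3 * I.Λ ^ 2 * r * ‖x‖ := by gcongr
    _ = _ := by ring

theorem mu_unit_gzlip (p : E m) {x : E m} (hx : x ≠ 0) :
    mu I p x = ⟪I.A p (‖x‖⁻¹ • x) - ‖x‖⁻¹ • x, ‖x‖⁻¹ • x⟫ + 1 := by
  have h := norm_ne_zero_iff.2 hx
  rw [map_smul, inner_sub_left, real_inner_smul_left, real_inner_smul_left, real_inner_smul_right,
    real_inner_smul_right, real_inner_self_eq_norm_sq, mu]
  field_simp
  ring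

theorem mu_dir_gzlip (p : E m) {x y : E m} (hx : x ≠ 0) (hy : y ≠ 0) :
    |mu I p x - mu I p y| * ‖y‖ ≤ 4 * (I.Λ * ‖p‖) * ‖x - y‖ := by
  have hΛ := I.Λ_pos
  have hx' := norm_ne_zero_iff.2 hx
  have hy' := norm_ne_zero_iff.2 hy
  set u := ‖x‖⁻¹ • x with hu
  set v := ‖y‖⁻¹ • y with hv
  have nu : ‖u‖ = 1 := by rw [hu, norm_smul, norm_inv, norm_norm, inv_mul_cancel₀ hx']
  have nv : ‖v‖ = 1 := by rw [hv, norm_smul, norm_inv, norm_norm, inv_mul_cancel₀ hy']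
  have h1 : ‖u - v‖ * ‖y‖ ≤ 2 * ‖x - y‖ := by
    have e1 : ‖x‖ • u = x := by rw [hu, smul_smul, mul_inv_cancel₀ hx', one_smul]
    have e2 : ‖y‖ • v = y := by rw [hv, smul_smul, mul_inv_cancel₀ hy', one_smul]
    have e : ‖y‖ • (u - v) = (‖y‖ - ‖x‖) • u + (x - y) := by
      rw [smul_sub, sub_smul, e1, e2]
      abel
    have e3 : ‖u - v‖ * ‖y‖ = ‖‖y‖ • (u - v)‖ := by rw [norm_smul, norm_norm, mul_comm]
    rw [e3, e]
    refine (norm_add_le _ _).trans ?_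
    rw [norm_smul, nu, mul_one, Real.norm_eq_abs]
    have := abs_norm_sub_norm_le y x
    rw [norm_sub_rev y x] at this
    linarith
  have e : mu I p x - mu I p y = ⟪I.A p (u - v) - (u - v), u⟫ + ⟪I.A p v - v, u - v⟫ := by
    rw [mu_unit_gzlip I p hx, mu_unit_gzlip I p hy, map_sub, ← hu, ← hv]
    simp only [inner_sub_left, inner_sub_right]
    ring
  have h2 : |⟪I.A p (u - v) - (u - v), u⟫| ≤ I.Λ * ‖p‖ * ‖u - v‖ := by
    refine (abs_real_inner_le_norm _ _).trans ?_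
    rw [nu, mul_one]
    exact I.A_sub_self p _
  have h3 : |⟪I.A p v - v, u - v⟫| ≤ I.Λ * ‖p‖ * ‖u - v‖ := by
    refine (abs_real_inner_le_norm _ _).trans (mul_le_mul_of_nonneg_right ?_ (norm_nonneg _))
    simpa only [nv, mul_one] using I.A_sub_self p v
  have h4 : |mu I p x - mu I p y| ≤ 2 * (I.Λ * ‖p‖) * ‖u - v‖ := by
    rw [e]
    linarith [abs_add_le ⟪I.A p (u - v) - (u - v), u⟫ ⟪I.A p v - v, u - v⟫]
  calc _ ≤ 2 * (I.Λ * ‖p‖) * ‖u - v‖ * ‖y‖ := by gcongr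
    _ = 2 * (I.Λ * ‖p‖) * (‖u - v‖ * ‖y‖) := by ring
    _ ≤ 2 * (I.Λ * ‖p‖) * (2 * ‖x - y‖) := by gcongr
    _ = _ := by ring

theorem pow_gzlip : I.Λ ≤ I.Λ ^ 4 ∧ I.Λ ^ 2 ≤ I.Λ ^ 4 :=
  ⟨le_self_pow₀ I.one_le (by norm_num), pow_le_pow_right₀ I.one_le (by norm_num)⟩

theorem Z_gzlip {p p' x y : E m} {r : ℝ} (hr : 0 < r) (hr4 : r ≤ 1 / 4) (hp : ‖p‖ ≤ 3 * r)
    (hp' : ‖p'‖ ≤ 3 * r) (hd : ‖p - p'‖ ≤ ‖x - y‖) (hx : ‖x‖ ≤ 2 * r) (hy : ‖y‖ ≤ 2 * r)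
    (hx0 : x ≠ 0) (hy0 : y ≠ 0) :
    ‖((mu I p x)⁻¹ • I.A p x - x) - ((mu I p' y)⁻¹ • I.A p' y - y)‖ ≤
      22 * I.Λ ^ 4 * r * ‖x - y‖ := by
  have hΛ := I.Λ_pos
  obtain ⟨h1, h2⟩ := inv_mu_gzlip I hr4 hp hx0
  obtain ⟨h1', -⟩ := inv_mu_gzlip I hr4 hp' hy0
  have m1 : 0 < mu I p x := (mu_pos_gzlip I (p := p) (by linarith) hx0).1
  have m2 : 0 < mu I p' y := (mu_pos_gzlip I (p := p') (by linarith) hy0).1
  have hV := V_gzlip I hp' hd hx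
  have hd0 : 0 ≤ r * ‖x - y‖ := by positivity
  have h3 : |mu I p x - mu I p' y| * ‖y‖ ≤ 14 * I.Λ * r * ‖x - y‖ := by
    have a1 : |mu I p x - mu I p' x| * ‖y‖ ≤ I.Λ * ‖x - y‖ * (2 * r) := by
      have a0 : |mu I p x - mu I p' x| ≤ I.Λ * ‖x - y‖ :=
        (mu_lip I p p' x).trans (by gcongr)
      gcongr
    have a2 : |mu I p' x - mu I p' y| * ‖y‖ ≤ 4 * (3 * I.Λ * r) * ‖x - y‖ := by
      refine (mu_dir_gzlip I p' hx0 hy0).trans ?_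
      have := B_gzlip I hp'
      gcongr
    have a3 := mul_le_mul_of_nonneg_right (abs_sub_le (mu I p x) (mu I p' x) (mu I p' y))
      (norm_nonneg y)
    linarith
  have h4 : |(mu I p x)⁻¹ - (mu I p' y)⁻¹| * ‖I.A p' y‖ ≤
      I.Λ * I.Λ * (I.Λ * (14 * I.Λ * r * ‖x - y‖)) := by
    have e : (mu I p x)⁻¹ - (mu I p' y)⁻¹ =
        -((mu I p x)⁻¹ * (mu I p' y)⁻¹ * (mu I p x - mu I p' y)) := by
      field_simp
      ring
    rw [e, abs_neg, abs_mul, abs_mul, mul_assoc]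
    have a4 : |mu I p x - mu I p' y| * ‖I.A p' y‖ ≤ I.Λ * (14 * I.Λ * r * ‖x - y‖) := by
      calc _ ≤ |mu I p x - mu I p' y| * (I.Λ * ‖y‖) :=
            mul_le_mul_of_nonneg_left (I.norm_A_le p' y) (abs_nonneg _)
        _ = I.Λ * (|mu I p x - mu I p' y| * ‖y‖) := by ring
        _ ≤ _ := by gcongr
    gcongr
  have e : ((mu I p x)⁻¹ • I.A p x - x) - ((mu I p' y)⁻¹ • I.A p' y - y) =
      (mu I p x)⁻¹ • ((I.A p x - x) - (I.A p' y - y)) +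
        ((mu I p x)⁻¹ - (mu I p' y)⁻¹) • I.A p' y + ((mu I p x)⁻¹ - 1) • (x - y) := by
    module
  rw [e]
  refine norm_add₃_le.trans ?_
  simp only [norm_smul, Real.norm_eq_abs]
  have h5 : |(mu I p x)⁻¹| * ‖(I.A p x - x) - (I.A p' y - y)‖ ≤
      I.Λ * (5 * I.Λ * r * ‖x - y‖) := by gcongr
  have h6 : |(mu I p x)⁻¹ - 1| * ‖x - y‖ ≤ 3 * I.Λ ^ 2 * r * ‖x - y‖ := by gcongr
  have h7 := mul_le_mul_of_nonneg_right (pow_gzlip I).2 hd0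
  nlinarith

theorem radial_lip : ∃ C > 0, ∀ (Ψ : E m → E m) (r : ℝ), 0 < r → r ≤ 1 / 4 →
    LipschitzWith 1 Ψ → ‖Ψ 0‖ ≤ r →
      (∀ x ∈ ball (0 : E m) (2 * r), ∀ y ∈ ball (0 : E m) (2 * r),
        ‖(I.A (Ψ x) x - x) - (I.A (Ψ y) y - y)‖ ≤ C * r * ‖x - y‖) ∧
      (∀ x ∈ ball (0 : E m) (2 * r), ∀ y ∈ ball (0 : E m) (2 * r),
        ‖(ZZ I Ψ x - x) - (ZZ I Ψ y - y)‖ ≤ C * r * ‖x - y‖) := by
  have hΛ := I.Λ_pos
  refine ⟨22 * I.Λ ^ 4, by positivity, fun Ψ r hr hr4 hΨ h0 => ?_⟩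
  have hl : ∀ x y, ‖Ψ x - Ψ y‖ ≤ ‖x - y‖ := fun x y => by
    simpa only [dist_eq_norm, NNReal.coe_one, one_mul] using hΨ.dist_le_mul x y
  have hp : ∀ x ∈ ball (0 : E m) (2 * r), ‖Ψ x‖ ≤ 3 * r := fun x hx => by
    have h1 := hl x 0
    have h2 := norm_sub_norm_le (Ψ x) (Ψ 0)
    rw [sub_zero] at h1
    linarith [mem_ball_zero_iff.1 hx]
  obtain ⟨q1, q2⟩ := pow_gzlip I
  have q4 : 0 < I.Λ ^ 4 := by positivity
  refine ⟨fun x hx y hy => ?_, fun x hx y hy => ?_⟩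
  · refine (V_gzlip I (hp y hy) (hl x y) (mem_ball_zero_iff.1 hx).le).trans ?_
    gcongr ?_ * r * ‖x - y‖
    linarith
  · unfold ZZ
    by_cases hx0 : x = 0
    · have h := Z0_gzlip I hr4 (hp y hy) y
      subst hx0
      rw [map_zero, smul_zero, sub_self, zero_sub, norm_neg, zero_sub, norm_neg]
      refine h.trans ?_
      gcongr ?_ * r * ‖y‖
      linarith
    by_cases hy0 : y = 0
    · have h := Z0_gzlip I hr4 (hp x hx) x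
      subst hy0
      rw [map_zero, smul_zero, sub_self, sub_zero, sub_zero]
      refine h.trans ?_
      gcongr ?_ * r * ‖x‖
      linarith
    exact Z_gzlip I hr hr4 (hp x hx) (hp y hy) (hl x y) (mem_ball_zero_iff.1 hx).le
      (mem_ball_zero_iff.1 hy).le hx0 hy0

theorem inner_ZZ (Ψ : E m → E m) {x : E m} (hx : ‖Ψ x‖ ≤ 1) : ⟪ZZ I Ψ x, x⟫ = ‖x‖ ^ 2 := by
  by_cases hx0 : x = 0
  · subst hx0
    simp
  have h2 : mu I (Ψ x) x ≠ 0 := (mu_pos_gzlip I hx hx0).1.ne'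
  have h3 := norm_ne_zero_iff.2 hx0
  have h4 : ⟪I.A (Ψ x) x, x⟫ = mu I (Ψ x) x * ‖x‖ ^ 2 := by
    rw [mu]
    field_simp
  rw [ZZ, real_inner_smul_left, h4, inv_mul_cancel_left₀ h2]

theorem inner_ZZ' (Ψ : E m → E m) (x q : E m) :
    ⟪ZZ I Ψ x, q⟫ = ⟪I.A (Ψ x) q, x⟫ / mu I (Ψ x) x := by
  rw [ZZ, real_inner_smul_left, I.A_symm (Ψ x) x q, real_inner_comm, div_eq_inv_mul]

theorem radial_field : ∃ C > 0, ∀ (Ψ : E m → E m) (r : ℝ), 0 < r → r ≤ 1 / 4 →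
    LipschitzWith 1 Ψ → ‖Ψ 0‖ ≤ r → ∀ (φ : E m → ℝ), LocallyLipschitz φ →
      tsupport φ ⊆ closedBall 0 r →
      (LocallyLipschitz fun x => φ x • I.A (Ψ x) x) ∧
      (LocallyLipschitz fun x => φ x • ZZ I Ψ x) ∧
      (∀ x ∈ ball (0 : E m) r, ‖ZZ I Ψ x‖ ≤ C * r) ∧
      ∀ᵐ x, x ∈ ball (0 : E m) r →
        DifferentiableAt ℝ (fun x => I.A (Ψ x) x) x ∧ DifferentiableAt ℝ (ZZ I Ψ) x ∧
        |dv (fun x => I.A (Ψ x) x) x - m| ≤ C * m * r ∧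
        ‖fderiv ℝ (ZZ I Ψ) x - ContinuousLinearMap.id ℝ (E m)‖ ≤ C * r := by
  obtain ⟨C, hC, H⟩ := radial_lip I
  refine ⟨C + 1, by positivity, fun Ψ r hr hr4 hΨ h0 φ hφ hs => ?_⟩
  obtain ⟨H1, H2⟩ := H Ψ r hr hr4 hΨ h0
  have hK : 0 ≤ C * r := by positivity
  have hb : ball (0 : E m) r ⊆ ball 0 (2 * r) := ball_subset_ball (by linarith)
  have hs' : tsupport φ ⊆ ball 0 (2 * r) := hs.trans (closedBall_subset_ball (by linarith))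
  obtain ⟨L1, D1⟩ := near_id_zlip hK H1
  obtain ⟨L2, D2⟩ := near_id_zlip hK H2
  refine ⟨locLip_cut isOpen_ball hφ hs' L1, locLip_cut isOpen_ball hφ hs' L2, fun x hx => ?_, ?_⟩
  · have h1 := H2 x (hb hx) 0 (mem_ball_self (by positivity))
    have h2 : ZZ I Ψ 0 = 0 := by rw [ZZ, map_zero, smul_zero]
    rw [h2, sub_zero, sub_zero, sub_zero] at h1
    have h3 := norm_sub_norm_le (ZZ I Ψ x) x
    have h4 := mem_ball_zero_iff.1 hx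
    have h5 : C * r * ‖x‖ ≤ C * r * 1 := mul_le_mul_of_nonneg_left (by linarith) hK
    linarith
  · filter_upwards [D1, D2] with x d1 d2 hx
    obtain ⟨a1, a2⟩ := d1 (hb hx)
    obtain ⟨b1, b2⟩ := d2 (hb hx)
    refine ⟨a1, b1, ?_, by nlinarith⟩
    have e : dv (fun x => I.A (Ψ x) x) x - m =
        trS (fderiv ℝ (fun x => I.A (Ψ x) x) x - ContinuousLinearMap.id ℝ (E m)) := by
      rw [sub_eq_iff_eq_add, ← trS_id, ← trS_add, sub_add_cancel, dv]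
    rw [e]
    refine (abs_trS_le _).trans ?_
    calc _ ≤ m * (C * r) := by gcongr
      _ ≤ m * ((C + 1) * r) := by gcongr; linarith
      _ = _ := by ring

end Pool.Agent.Lib.MP_8daebb_an.LH
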