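import Pool.Agent.Lib.MP_8daebb_an.LH.GAlg
import Pool.Agent.Lib.MP_8daebb_an.LG.KE

open MeasureTheory Metric Set Filter Topology
open scoped RealInnerProductSpace NNReal
open Pool.Agent.Lib.MP_8daebb_an.LG

namespace Pool.Agent.Lib.MP_8daebb_an.LH

variable {m : ℕ} {ι : Type}

/-! GKE. The error density. -/

theorem quad_gke {L : ℝ≥0} (I : Intg m L) {p P G a : E m} {L' : ℝ} (h : P - p = G)
    (ha : ‖a‖ ≤ 2 * L') :
    |⟪I.A p a, a⟫ - ⟪I.A P (a - G), a - G⟫| ≤ (2 * L' + 2) * I.Λ * (‖G‖ * ‖a‖ + ‖G‖ ^ 2) := by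
  have hΛ := I.Λ_pos
  have e2 : ⟪I.A P a, G⟫ = ⟪I.A P G, a⟫ := by rw [I.A_symm P a G, real_inner_comm]
  have e3 : ⟪I.A p a, a⟫ - ⟪I.A P (a - G), a - G⟫ =
      2 * ⟪I.A P G, a⟫ - ⟪I.A P G, G⟫ - ⟪I.A P a - I.A p a, a⟫ := by
    simp only [map_sub, inner_sub_left, inner_sub_right, e2]
    ring
  have h1 := (abs_real_inner_le_norm (I.A P G) a).trans
    (mul_le_mul_of_nonneg_right (I.norm_A_le P G) (norm_nonneg _))
  have h2 := (abs_real_inner_le_norm (I.A P G) G).trans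
    (mul_le_mul_of_nonneg_right (I.norm_A_le P G) (norm_nonneg _))
  have h3 := (abs_real_inner_le_norm (I.A P a - I.A p a) a).trans
    (mul_le_mul_of_nonneg_right (I.A_lip' P p a) (norm_nonneg _))
  rw [h] at h3
  have h4 : I.Λ * ‖G‖ * ‖a‖ * ‖a‖ ≤ I.Λ * ‖G‖ * ‖a‖ * (2 * L') :=
    mul_le_mul_of_nonneg_left ha (by positivity)
  have h5 : 0 ≤ L' * (I.Λ * ‖G‖ ^ 2) :=
    mul_nonneg (by linarith [norm_nonneg a]) (by positivity)
  have h6 : 0 ≤ I.Λ * ‖G‖ ^ 2 := by positivity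
  rw [e3, abs_le]
  rw [abs_le] at h1 h2 h3
  constructor <;> nlinarith [h1.1, h1.2, h2.1, h2.2, h3.1, h3.2]

variable [Fintype ι] [Nonempty ι] {L : ℝ≥0} {I : Intg m L} {u : ι → E m → ℝ} {Ψ g : E m → E m}
  {r ρ CP δ D : ℝ}

theorem Centre.D_nonneg (h : Centre I u Ψ g r ρ CP δ D) : 0 ≤ D := by
  exact (En_nonneg _ _ _ _ _).trans h.v2

theorem Centre.abs_vv (h : Centre I u Ψ g r ρ CP δ D) (i : ι) {x : E m} (hx : x ∈ ball (0 : E m) r) :
    |vv u i x| ≤ 2 * L * r := by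
  have h0 : vv u i 0 = 0 := by simp [vv, wav, h.zero]
  have h1 := (lip_vv h.lip i).dist_le_mul x 0
  rw [h0, Real.dist_eq, sub_zero] at h1
  refine h1.trans ?_
  push_cast
  exact mul_le_mul_of_nonneg_left (mem_ball.1 hx).le (by positivity)

theorem Centre.ae_facts (h : Centre I u Ψ g r ρ CP δ D) : ∀ᵐ x, x ∈ ball (0 : E m) r →
    ‖g x‖ ≤ L + 1 ∧ Ψ x - gradient (wav u) x = g x ∧
      ∀ i, gradient (u i) x - Ψ x = gradient (vv u i) x - g x := by
  filter_upwards [h.eq, ae_grad_vv h.lip] with x h1 h2 hx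
  have h3 := h1 (ball_subset_ball h.lt.le hx)
  have h4 : Ψ x - gradient (wav u) x = g x := by rw [h3, add_sub_cancel_left]
  refine ⟨?_, h4, fun i => ?_⟩
  · rw [← h4]
    have h5 := norm_sub_le (Ψ x) (gradient (wav u) x)
    linarith [h.small x hx, norm_grad_le (lip_wav h.lip) x, h.r_le]
  · rw [h2.2.2.2.2.1 i, h3]
    abel

theorem Centre.er_int (h : Centre I u Ψ g r ρ CP δ D) : IntegrableOn (er u g r) (ball 0 r) := by
  have hr := h.r_pos
  refine integrable_finsetSum _ fun i _ => ?_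
  have m1 := h.meas.norm
  have m2 := (meas_grad (vv u i)).norm
  have m3 : Measurable fun x => |vv u i x| / r :=
    (lip_vv h.lip i).continuous.abs.measurable.div_const r
  refine intOn_ball (C := (L + 1) * (2 * L) + (L + 1) ^ 2 + (2 * L) ^ 3 + 2 * L * (2 * L) ^ 2 +
    2 * L * (L + 1)) (((((m1.mul m2).add (m1.pow_const 2)).add (m2.pow_const 3)).add
      (m3.mul (m2.pow_const 2))).add (m3.mul m1)).aestronglyMeasurable ?_
  filter_upwards [h.ae_facts] with x h1 hx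
  have h2 := (h1 hx).1
  have h3 : ‖gradient (vv u i) x‖ ≤ 2 * L := by simpa using norm_grad_le (lip_vv h.lip i) x
  have h4 : |vv u i x| / r ≤ 2 * L := (div_le_iff₀ hr).2 (h.abs_vv i hx)
  simp only [Pi.add_apply, Pi.mul_apply]
  rw [Real.norm_of_nonneg (by positivity)]
  gcongr

theorem er_bound (I : Intg m L) {CP : ℝ} (hCP : 0 ≤ CP) : ∃ C > 0, ∀ (u : ι → E m → ℝ)
    (Ψ g : E m → E m) (r ρ δ D : ℝ), Centre I u Ψ g r ρ CP δ D →
      ∫ x in ball 0 r, er u g r x ≤ C * δ * D := by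
  refine ⟨2 * Fintype.card ι + 1 + (1 + L) + CP, by positivity, fun u Ψ g r ρ δ D h => ?_⟩
  have hr := h.r_pos
  have hδ := h.δ_pos
  have i1 : IntegrableOn (fun x => ‖g x‖ ^ 2) (ball 0 r) :=
    (h.mem.integrable_norm_pow two_ne_zero).integrableOn
  have i2 := intOn_En (s := Finset.univ) (lip_vv h.lip) 0 0 r 2
  have i3 := intOn_En (s := Finset.univ) (lip_vv h.lip) 0 0 r 3
  have i4 := intOn_Ht (s := Finset.univ) (lip_vv h.lip) 0 0 r
  have j1 := i1.const_mul (2 * Fintype.card ι / δ)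
  have j2 := i2.const_mul δ
  have j3 := i3.const_mul ((1 + L) / δ)
  have j4 := i4.const_mul (δ / r ^ 2)
  have h1 : ∫ x in ball 0 r, er u g r x ≤ ∫ x in ball 0 r,
      (2 * Fintype.card ι / δ * ‖g x‖ ^ 2 + δ * ∑ i, ‖gradient (vv u i) x - 0‖ ^ 2 +
        (1 + L) / δ * ∑ i, ‖gradient (vv u i) x - 0‖ ^ 3 + δ / r ^ 2 * ∑ i, (vv u i x - 0) ^ 2) := by
    refine setIntegral_mono h.er_int (((j1.add j2).add j3).add j4) fun x => ?_
    have e : 2 * Fintype.card ι / δ * ‖g x‖ ^ 2 = ∑ _i : ι, 2 / δ * ‖g x‖ ^ 2 := by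
      rw [Finset.sum_const, Finset.card_univ, nsmul_eq_mul]
      ring
    simp only [er, e, Finset.mul_sum, ← Finset.sum_add_distrib, sub_zero]
    refine Finset.sum_le_sum fun i _ => ?_
    have h3 : ‖gradient (vv u i) x‖ ≤ 2 * L := by simpa using norm_grad_le (lip_vv h.lip i) x
    have h4 : δ / r ^ 2 * vv u i x ^ 2 = δ * (|vv u i x| / r) ^ 2 := by
      rw [div_pow, sq_abs]
      ring
    rw [h4]
    exact young_ke hδ h.δ_le (norm_nonneg _) h3
  rw [integral_add ((j1.fun_add j2).fun_add j3) j4, integral_add (j1.fun_add j2) j3,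
    integral_add j1 j2, integral_const_mul, integral_const_mul, integral_const_mul, integral_const_mul] at h1
  have k1 := mul_le_mul_of_nonneg_left h.g2 (by positivity : 0 ≤ 2 * Fintype.card ι / δ)
  have k2 := mul_le_mul_of_nonneg_left h.v2 hδ.le
  have k3 := mul_le_mul_of_nonneg_left h.v3 (by positivity : 0 ≤ (1 + L) / δ)
  have k4 := mul_le_mul_of_nonneg_left h.v0 (by positivity : 0 ≤ δ / r ^ 2)
  refine h1.trans ((add_le_add (add_le_add (add_le_add k1 k2) k3) k4).trans (le_of_eq ?_))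
  field_simp

theorem Centre.abs_int_le (h : Centre I u Ψ g r ρ CP δ D) {φ f : E m → ℝ} {A B : ℝ}
    (hφ0 : ∀ x, x ∉ ball (0 : E m) r → φ x = 0) (hφ : ∀ x, |φ x| ≤ A) (hB : 0 ≤ B)
    (hf : ∀ᵐ x, x ∈ ball (0 : E m) r → |f x| ≤ B * er u g r x) :
    |∫ x, φ x * f x| ≤ A * B * ∫ x in ball 0 r, er u g r x := by
  have hA : 0 ≤ A := (abs_nonneg _).trans (hφ 0)
  rw [← integral_const_mul, ← integral_indicator measurableSet_ball, ← Real.norm_eq_abs]
  refine norm_integral_le_of_norm_le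
    ((integrable_indicator_iff measurableSet_ball).2 (h.er_int.const_mul _)) ?_
  filter_upwards [hf] with x hx
  by_cases hb : x ∈ ball (0 : E m) r
  · rw [indicator_of_mem hb, Real.norm_eq_abs, abs_mul, mul_assoc]
    exact mul_le_mul (hφ x) (hx hb) (abs_nonneg _) hA
  · rw [indicator_of_notMem hb, hφ0 x hb, zero_mul, norm_zero]

theorem meas_qI (I : Intg m L) (u : ι → E m → ℝ) : Measurable (qI I u) := by
  refine Finset.measurable_sum _ fun i _ => ?_
  have hc : Continuous fun z : E m × E m => I.A z.1 z.2 :=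
    (I.continuous_A.comp continuous_fst).clm_apply continuous_snd
  exact (hc.measurable.comp
    ((meas_grad (wav u)).prodMk (meas_grad (vv u i)))).inner (meas_grad (vv u i))

theorem meas_kI (I : Intg m L) (hL : ∀ i, LipschitzWith L (u i)) : Measurable (kI I u) := by
  exact ((measurable_mu I).comp ((meas_grad (wav u)).prodMk measurable_id)).mul
    (Finset.measurable_sum _ fun i _ => (lip_vv hL i).continuous.measurable.pow_const 2)

theorem qI_bounds (I : Intg m L) (hL : ∀ i, LipschitzWith L (u i)) (x : E m) :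
    0 ≤ qI I u x ∧ qI I u x ≤ I.Λ * ∑ i, ‖gradient (vv u i) x - 0‖ ^ 2 ∧
      ∑ i, ‖gradient (vv u i) x - 0‖ ^ 2 ≤ I.Λ * qI I u x := by
  have hp : ‖gradient (wav u) x‖ ≤ L + 1 := by linarith [norm_grad_le (lip_wav hL) x]
  simp only [qI, sub_zero, Finset.mul_sum]
  refine ⟨Finset.sum_nonneg fun i _ => I.A_pos _ _, Finset.sum_le_sum fun i _ => ?_,
    Finset.sum_le_sum fun i _ => I.A_coer _ _ hp⟩
  refine (real_inner_le_norm _ _).trans ?_
  rw [sq, ← mul_assoc]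
  exact mul_le_mul_of_nonneg_right (I.norm_A_le _ _) (norm_nonneg _)

theorem kI_bounds (I : Intg m L) (x : E m) :
    0 ≤ kI I u x ∧ kI I u x ≤ I.Λ * ∑ i, (vv u i x - 0) ^ 2 := by
  have h0 : 0 ≤ ∑ i, vv u i x ^ 2 := Finset.sum_nonneg fun i _ => sq_nonneg _
  simp only [kI, sub_zero]
  exact ⟨mul_nonneg (mu_nonneg I _ _) h0, mul_le_mul_of_nonneg_right (mu_le I _ _) h0⟩

theorem Centre.kI_sub (h : Centre I u Ψ g r ρ CP δ D) : ∀ᵐ x, x ∈ ball (0 : E m) r →
    |kI I u x - mu I (Ψ x) x * ∑ i, vv u i x ^ 2| ≤ 2 * L * I.Λ * r ^ 2 * er u g r x := by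
  have hr := h.r_pos
  have hΛ := I.Λ_pos
  filter_upwards [h.ae_facts] with x h1 hx
  have h0 : 0 ≤ ∑ i, vv u i x ^ 2 := Finset.sum_nonneg fun i _ => sq_nonneg _
  have h2 := mu_lip I (Ψ x) (gradient (wav u) x) x
  rw [(h1 hx).2.1, abs_sub_comm] at h2
  rw [kI, ← sub_mul, abs_mul, abs_of_nonneg h0]
  refine (mul_le_mul_of_nonneg_right h2 h0).trans ?_
  rw [er, Finset.mul_sum, Finset.mul_sum]
  refine Finset.sum_le_sum fun i _ => ?_
  have h3 := h.abs_vv i hx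
  have h4 : I.Λ * ‖g x‖ * vv u i x ^ 2 ≤ 2 * L * I.Λ * r ^ 2 * (|vv u i x| / r * ‖g x‖) := by
    have e : 2 * L * I.Λ * r ^ 2 * (|vv u i x| / r * ‖g x‖) =
        I.Λ * ‖g x‖ * (|vv u i x| * (2 * L * r)) := by
      field_simp
    rw [e, ← sq_abs, sq]
    gcongr
  refine h4.trans (mul_le_mul_of_nonneg_left ?_ (by positivity))
  exact le_add_of_nonneg_left (by positivity)

theorem Centre.qI_sub (h : Centre I u Ψ g r ρ CP δ D) : ∀ᵐ x, x ∈ ball (0 : E m) r →
    |qI I u x - qC I u Ψ x| ≤ (2 * L + 2) * I.Λ * er u g r x := by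
  have hr := h.r_pos
  have hΛ := I.Λ_pos
  filter_upwards [h.ae_facts] with x h1 hx
  obtain ⟨-, h2, h3⟩ := h1 hx
  rw [qI, qC, ← Finset.sum_sub_distrib, er, Finset.mul_sum]
  refine (Finset.abs_sum_le_sum_abs _ _).trans (Finset.sum_le_sum fun i _ => ?_)
  have h4 : ‖gradient (vv u i) x‖ ≤ 2 * L := by simpa using norm_grad_le (lip_vv h.lip i) x
  rw [h3 i]
  refine (quad_gke I h2 h4).trans (mul_le_mul_of_nonneg_left ?_ (by positivity))
  rw [add_assoc, add_assoc]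
  exact le_add_of_nonneg_right (by positivity)

end Pool.Agent.Lib.MP_8daebb_an.LH
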