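import Pool.Agent.Lib.MP_8daebb_an.LH.GAlg

open MeasureTheory Metric Set Filter Topology
open scoped RealInnerProductSpace NNReal
open Pool.Agent.Lib.MP_8daebb_an.LG

namespace Pool.Agent.Lib.MP_8daebb_an.LH

variable {m : ℕ} {ι : Type}

/-! GK2P. The pointwise lower bound for the inner variation integrand. -/

theorem inner_pointwise {L : ℝ≥0} (I : Intg m L) {C₀ : ℝ} (hC₀ : 0 < C₀) : ∃ C > 0,
    ∀ (r χ ω : ℝ) (x P q Z : E m) (DZ DY B : E m →L[ℝ] E m), 0 < r → r ≤ 1 / 4 → ‖x‖ ≤ r →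
      ‖P‖ ≤ r → 0 ≤ χ → χ ≤ 1 → 0 ≤ ω → ω ≤ 3 → ‖Z‖ ≤ C₀ * r → ‖B‖ ≤ 1 →
      ‖DZ - ContinuousLinearMap.id ℝ (E m)‖ ≤ C₀ * r → ⟪Z, x⟫ = ‖x‖ ^ 2 →
      ⟪Z, q⟫ = ⟪I.A P q, x⟫ / mu I P x →
      (∀ v, DY v = χ • DZ v - (2 * ω / r ^ 2 * ⟪x, v⟫) • Z) →
      ⟪I.A P q, q⟫ / 2 * (m * χ - 2 * (‖x‖ ^ 2 / r ^ 2) * ω) - χ * ⟪I.A P q, q⟫ +
          2 * ω / r ^ 2 * (⟪I.A P q, x⟫ ^ 2 / mu I P x) - C * r * (χ * ⟪I.A P q, q⟫) -
          C * ‖q‖ ^ 3 ≤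
        (I.F (P + q) - I.F P - ⟪I.a P, q⟫) * trS DY - ⟪DY (I.a (P + q) - I.a P), q⟫ +
          ⟪I.a (P + q) - I.a P - I.A P q, B (χ • Z)⟫ := by
  have hΛ := I.Λ_pos
  refine ⟨(m / 2 + 2 * I.Λ ^ 2) * C₀ + I.Λ * (1 + 7 * C₀) * (m + 1), by positivity, ?_⟩
  intro r χ ω x P q Z DZ DY B hr hr4 hx hP hχ0 hχ1 hω0 hω3 hZ hB hDZ hZx hZq hDY
  have hQ0 := I.A_pos P q
  have hQ := I.A_coer P q (hP.trans (by linarith [L.coe_nonneg]))
  set D := DZ - ContinuousLinearMap.id ℝ (E m) with hD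
  have hDZv : ∀ v, DZ v = v + D v := fun v => by simp [hD]
  have hDn : ∀ v, ‖D v‖ ≤ C₀ * r * ‖v‖ := fun v =>
    (D.le_opNorm v).trans (mul_le_mul_of_nonneg_right hDZ (norm_nonneg _))
  have hK : ‖DY‖ ≤ 1 + 7 * C₀ := by
    refine ContinuousLinearMap.opNorm_le_bound _ (by positivity) fun v => ?_
    have hv := norm_nonneg v
    have h1 : ‖χ • DZ v‖ ≤ (1 + C₀) * ‖v‖ := by
      rw [norm_smul, Real.norm_eq_abs, abs_of_nonneg hχ0, hDZv]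
      have h2 := norm_add_le v (D v)
      have h3 := hDn v
      have h4 : C₀ * r * ‖v‖ ≤ C₀ * 1 * ‖v‖ := by gcongr; linarith
      calc χ * ‖v + D v‖ ≤ 1 * ‖v + D v‖ := by gcongr
        _ ≤ _ := by linarith
    have h2 : ‖(2 * ω / r ^ 2 * ⟪x, v⟫) • Z‖ ≤ 6 * C₀ * ‖v‖ := by
      rw [norm_smul, Real.norm_eq_abs, abs_mul, abs_of_nonneg (by positivity)]
      have h3 : |⟪x, v⟫| ≤ r * ‖v‖ := (abs_real_inner_le_norm x v).trans (by gcongr)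
      calc _ ≤ 2 * 3 / r ^ 2 * (r * ‖v‖) * (C₀ * r) := by gcongr
        _ = _ := by field_simp; ring
    rw [hDY]
    refine (norm_sub_le _ _).trans ?_
    linarith
  have htr : trS DY = χ * (m + trS D) - 2 * ω / r ^ 2 * ‖x‖ ^ 2 := by
    have e1 : DY = χ • (ContinuousLinearMap.id ℝ (E m) + D) +
        (-(2 * ω / r ^ 2)) • (innerSL ℝ x).smulRight Z := by
      ext1 v
      rw [hDY, hDZv]
      simp only [ContinuousLinearMap.add_apply, ContinuousLinearMap.smul_apply,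
        ContinuousLinearMap.id_apply, ContinuousLinearMap.smulRight_apply, innerSL_apply_apply,
        smul_smul, neg_mul, neg_smul, sub_eq_add_neg, ContinuousLinearMap.neg_apply]
    rw [e1, trS_add, trS_smul, trS_smul, trS_add, trS_id, trS_rankOne, real_inner_comm, hZx]
    ring
  set Q := ⟪I.A P q, q⟫ with hQdef
  set E2 := I.a (P + q) - I.a P - I.A P q with hE2
  have hE2n : ‖E2‖ ≤ I.Λ * ‖q‖ ^ 2 := I.a_taylor P q
  have hE1 := I.F_taylor P q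
  rw [← hQdef] at hE1
  set E1 := I.F (P + q) - I.F P - ⟪I.a P, q⟫ - Q / 2 with hE1def
  have e2 : I.F (P + q) - I.F P - ⟪I.a P, q⟫ = Q / 2 + E1 := by rw [hE1def]; ring
  have e3 : ⟪DY (I.a (P + q) - I.a P), q⟫ = χ * Q + χ * ⟪D (I.A P q), q⟫ -
      2 * ω / r ^ 2 * (⟪I.A P q, x⟫ ^ 2 / mu I P x) + ⟪DY E2, q⟫ := by
    have e4 : I.a (P + q) - I.a P = I.A P q + E2 := by rw [hE2]; abel
    rw [e4, map_add, inner_add_left, hDY (I.A P q), hDZv, inner_sub_left, real_inner_smul_left,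
      real_inner_smul_left, inner_add_left, hZq, real_inner_comm (I.A P q) x]
    ring
  have hq := norm_nonneg q
  have hm : (0 : ℝ) ≤ m := Nat.cast_nonneg _
  have b1 : |trS D| ≤ m * (C₀ * r) := (abs_trS_le D).trans (by gcongr)
  have b2 : |E1 * trS DY| ≤ I.Λ * ‖q‖ ^ 3 * (m * (1 + 7 * C₀)) := by
    rw [abs_mul]
    exact mul_le_mul hE1 ((abs_trS_le DY).trans (by gcongr)) (abs_nonneg _) (by positivity)
  have b3 : |⟪D (I.A P q), q⟫| ≤ C₀ * r * (I.Λ * (I.Λ * Q)) := by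
    refine (abs_real_inner_le_norm _ _).trans ?_
    have h1 := hDn (I.A P q)
    have h2 := I.norm_A_le P q
    calc _ ≤ C₀ * r * (I.Λ * ‖q‖) * ‖q‖ := by
          gcongr
          exact h1.trans (by gcongr)
      _ = C₀ * r * (I.Λ * ‖q‖ ^ 2) := by ring
      _ ≤ _ := by gcongr
  have b4 : |⟪DY E2, q⟫| ≤ I.Λ * ‖q‖ ^ 3 * (1 + 7 * C₀) := by
    refine (abs_real_inner_le_norm _ _).trans ?_
    calc _ ≤ (1 + 7 * C₀) * (I.Λ * ‖q‖ ^ 2) * ‖q‖ := by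
          gcongr
          exact (DY.le_opNorm E2).trans (by gcongr)
      _ = _ := by ring
  have b5 : |⟪E2, B (χ • Z)⟫| ≤ I.Λ * (I.Λ * Q) * (χ * (C₀ * r)) := by
    refine (abs_real_inner_le_norm _ _).trans ?_
    refine mul_le_mul (hE2n.trans (by gcongr)) ?_ (norm_nonneg _) (by positivity)
    refine (B.le_opNorm _).trans ?_
    rw [norm_smul, Real.norm_eq_abs, abs_of_nonneg hχ0]
    calc _ ≤ 1 * (χ * (C₀ * r)) := by gcongr
      _ = _ := one_mul _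
  have c1 : -(χ * Q / 2 * (m * (C₀ * r))) ≤ χ * Q / 2 * trS D := by
    have := mul_le_mul_of_nonneg_left (abs_le.mp b1).1 (by positivity : 0 ≤ χ * Q / 2)
    linarith
  have c3 : χ * ⟪D (I.A P q), q⟫ ≤ χ * (C₀ * r * (I.Λ * (I.Λ * Q))) :=
    mul_le_mul_of_nonneg_left (abs_le.mp b3).2 hχ0
  have c6 : 0 ≤ I.Λ * (1 + 7 * C₀) * (m + 1) * r * (χ * Q) := by positivity
  have c7 : 0 ≤ (m / 2 + 2 * I.Λ ^ 2) * C₀ * ‖q‖ ^ 3 := by positivity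
  have e5 : (Q / 2 + E1) * trS DY =
      Q / 2 * (χ * (m + trS D) - 2 * ω / r ^ 2 * ‖x‖ ^ 2) + E1 * trS DY := by
    rw [← htr]; ring
  have e6 : Q / 2 * (m * χ - 2 * (‖x‖ ^ 2 / r ^ 2) * ω) =
      Q / 2 * (χ * m - 2 * ω / r ^ 2 * ‖x‖ ^ 2) := by ring
  rw [e2, e3, e5, e6]
  linarith [(abs_le.mp b2).1, (abs_le.mp b4).2, (abs_le.mp b5).1]

end Pool.Agent.Lib.MP_8daebb_an.LH
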