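import Pool.Agent.Lib.MP_8daebb_an.LH.GStepA
import Pool.Agent.Lib.MP_8daebb_an.LH.GCacc
import Pool.Agent.Lib.MP_8daebb_an.LG.Scal
import Pool.Agent.Lib.MP_8daebb_an.LG.Step

open MeasureTheory Metric Set Filter Topology
open scoped RealInnerProductSpace NNReal
open Pool.Agent.Lib.MP_8daebb_an.LG

namespace Pool.Agent.Lib.MP_8daebb_an.LH

variable {m : ℕ} {ι : Type}

/-! GSTEP. One step of the quadratic excess decay. -/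

theorem trA_gstep {L : ℝ≥0} {I : Intg m L} {p : E m} {S : E m →L[ℝ] E m} (h : trA I p S = 0)
    (c : ℝ) : trA I p (c • S) = 0 := by
  unfold trA at h ⊢
  simp only [smul_apply, map_smul, real_inner_smul_left, ← Finset.mul_sum, h, mul_zero]

theorem step_unit {L : ℝ≥0} (I : Intg m L) : ∃ θ : ℝ, 0 < θ ∧ θ ≤ 1 / 8 ∧ ∃ ε₂ > 0, ∃ C > 0,
    ∀ (f : E m → ℝ) (Ξ : E m → E m) (p : E m) (S : E m →L[ℝ] E m) (EE G : ℝ),
      LocallyLipschitz f → Sym S → trA I p S = 0 → ‖p‖ ≤ ε₂ → ‖S‖ ≤ ε₂ → EE ≤ ε₂ ^ 2 →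
      G ≤ ε₂ ^ 2 → MemLp Ξ 2 (volume.restrict (ball 0 1)) → DivFree Ξ (ball 0 1) →
      ∫ y in ball 0 1, ‖gradient f y - p - S y‖ ^ 2 ≤ EE →
      ∫ y in ball 0 1, ‖Ξ y - I.ta (gradient f y)‖ ^ 2 ≤ G →
      ∃ (p' : E m) (S' : E m →L[ℝ] E m), Sym S' ∧ trA I p' S' = 0 ∧
        ‖p' - p‖ ≤ C * √EE ∧ ‖S' - S‖ ≤ C * (√EE + √G + ‖S‖ ^ 2) ∧
        ∫ y in ball 0 θ, ‖gradient f y - p' - S' y‖ ^ 2 ≤
          (θ ^ 3 / 2 * EE + C * (G + ‖S‖ ^ 4)) * θ ^ m := by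
  obtain ⟨Cc, hCc, HC⟩ := cacc_quad I
  obtain ⟨C₁, hC₁, H⟩ := step_height I
  obtain ⟨θ, hθ, hθ8, hθC⟩ : ∃ θ : ℝ, 0 < θ ∧ θ ≤ 1 / 8 ∧ 8 * Cc * C₁ * θ ≤ 1 := by
    refine ⟨min (1 / 8) (1 / (8 * Cc * C₁)), by positivity, min_le_left _ _, ?_⟩
    rw [mul_comm, ← le_div_iff₀ (by positivity)]
    exact min_le_right _ _
  obtain ⟨ε₂, hε₂, C, hC, H⟩ := H θ hθ hθ8 (θ ^ m * θ ^ 5 / (8 * Cc)) (by positivity)
  obtain ⟨ε, hε, e1, e2, e3⟩ : ∃ ε : ℝ, 0 < ε ∧ ε ≤ ε₂ ∧ 4 * (1 + C) * ε ≤ 1 ∧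
      108 * Cc * (1 + C) ^ 4 * ε ≤ 1 := by
    refine ⟨min ε₂ (min (1 / (4 * (1 + C))) (1 / (108 * Cc * (1 + C) ^ 4))), by positivity,
      min_le_left _ _, ?_, ?_⟩
    · rw [mul_comm, ← le_div_iff₀ (by positivity)]
      exact (min_le_right _ _).trans (min_le_left _ _)
    · rw [mul_comm, ← le_div_iff₀ (by positivity)]
      exact (min_le_right _ _).trans (min_le_right _ _)
  have hCC : C ≤ C + Cc * C / (θ ^ m * θ ^ 2) + Cc / θ ^ m + 27 * Cc * (1 + C) ^ 4 := by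
    have : 0 ≤ Cc * C / (θ ^ m * θ ^ 2) + Cc / θ ^ m + 27 * Cc * (1 + C) ^ 4 := by positivity
    linarith
  refine ⟨θ, hθ, hθ8, ε, hε, _, hC.trans_le hCC,
    fun f Ξ p S EE G hf hS htr hp hSε hEE hG hΞ hd hE hI => ?_⟩
  have hε1 : ε ≤ 1 := by nlinarith
  have hε2 : ε ^ 2 ≤ ε₂ ^ 2 := pow_le_pow_left₀ hε.le e1 2
  have hEE0 : 0 ≤ EE := (integral_nonneg fun y => by positivity).trans hE
  have hG0 : 0 ≤ G := (integral_nonneg fun y => by positivity).trans hI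
  obtain ⟨a, p', S', hS', htr', hp', hSS, hH⟩ := H f Ξ p S EE G hf hS htr (hp.trans e1)
    (hSε.trans e1) (hEE.trans hε2) (hG.trans hε2) hΞ hd hE hI
  have b1 : √EE ≤ ε := Real.sqrt_le_iff.2 ⟨hε.le, hEE⟩
  have b2 : √G ≤ ε := Real.sqrt_le_iff.2 ⟨hε.le, hG⟩
  have b3 := Real.sqrt_nonneg EE
  have b4 := Real.sqrt_nonneg G
  have b5 := norm_nonneg S
  have b6 : ‖S'‖ ≤ (1 + C) * (‖S‖ + √EE + √G) := by
    have h1 : ‖S'‖ ≤ ‖S‖ + ‖S' - S‖ := norm_le_norm_add_norm_sub' S' S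
    have h2 : ‖S‖ ^ 2 ≤ ‖S‖ := by nlinarith
    nlinarith
  have b7 : ‖p'‖ + 2 * θ * ‖S'‖ ≤ 1 / 2 := by
    have h1 : ‖p'‖ ≤ ‖p‖ + ‖p' - p‖ := norm_le_norm_add_norm_sub' p' p
    have h2 : C * √EE ≤ C * ε := by gcongr
    have h3 : ‖S'‖ ≤ (1 + C) * (ε + ε + ε) := b6.trans (by gcongr)
    have h4 : 2 * θ * ‖S'‖ ≤ 2 * (1 / 8) * ‖S'‖ := by gcongr
    nlinarith
  have b8 : ‖S'‖ ^ 4 ≤ 27 * (1 + C) ^ 4 * (‖S‖ ^ 4 + ε * EE + G) := by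
    have h1 : √EE ^ 4 ≤ ε * EE := by
      rw [show √EE ^ 4 = (√EE ^ 2) ^ 2 by ring, Real.sq_sqrt hEE0, sq]
      exact mul_le_mul_of_nonneg_right (hEE.trans (by nlinarith)) hEE0
    have h2 : √G ^ 4 ≤ G := by
      rw [show √G ^ 4 = (√G ^ 2) ^ 2 by ring, Real.sq_sqrt hG0, sq]
      exact mul_le_of_le_one_left hG0 (hG.trans (by nlinarith))
    calc ‖S'‖ ^ 4 ≤ ((1 + C) * (‖S‖ + √EE + √G)) ^ 4 := by gcongr
      _ = (1 + C) ^ 4 * (‖S‖ + √EE + √G) ^ 4 := mul_pow _ _ _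
      _ ≤ (1 + C) ^ 4 * (27 * (‖S‖ ^ 4 + √EE ^ 4 + √G ^ 4)) :=
        mul_le_mul_of_nonneg_left pow4_step (by positivity)
      _ ≤ (1 + C) ^ 4 * (27 * (‖S‖ ^ 4 + ε * EE + G)) := by gcongr
      _ = _ := by ring
  have hsub : ball (0 : E m) (2 * θ) ⊆ ball 0 1 := ball_subset_ball (by linarith)
  have hJ := HC f Ξ a p' S' θ hf hθ hS' htr' b7
    (hΞ.mono_measure (Measure.restrict_mono hsub le_rfl)) (hd.mono hsub)
  have hI' : ∫ y in ball 0 (2 * θ), ‖Ξ y - I.ta (gradient f y)‖ ^ 2 ≤ G := by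
    have h1 := hΞ.sub (I.memLp_ta (memLp_grad hf 0 1))
    exact (setIntegral_mono_set ((memLp_two_iff_integrable_sq_norm h1.1).1 h1)
      (Eventually.of_forall fun y => by positivity) hsub.eventuallyLE).trans hI
  rw [pow_add] at hH hJ
  refine ⟨p', S', hS', htr', hp'.trans (by gcongr), hSS.trans (by gcongr), ?_⟩
  exact num_step hCc hC hθ (by linarith) (by positivity) hθC hEE0 hG0 e3 b8 hH hI' hJ

theorem step {L : ℝ≥0} (I : Intg m L) : ∃ θ : ℝ, 0 < θ ∧ θ ≤ 1 / 8 ∧ ∃ ε₂ > 0, ∃ C > 0,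
    ∀ (f : E m → ℝ) (Ξ : E m → E m) (x : E m) (s : ℝ) (p : E m) (S : E m →L[ℝ] E m) (EE G : ℝ),
      LocallyLipschitz f → 0 < s → Sym S → trA I p S = 0 → ‖p‖ ≤ ε₂ → s * ‖S‖ ≤ ε₂ →
      EE ≤ ε₂ ^ 2 → G ≤ ε₂ ^ 2 →
      MemLp Ξ 2 (volume.restrict (ball x s)) → DivFree Ξ (ball x s) →
      ∫ y in ball x s, ‖gradient f y - p - S (y - x)‖ ^ 2 ≤ EE * s ^ m →
      ∫ y in ball x s, ‖Ξ y - I.ta (gradient f y)‖ ^ 2 ≤ G * s ^ m →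
      ∃ (p' : E m) (S' : E m →L[ℝ] E m), Sym S' ∧ trA I p' S' = 0 ∧
        ‖p' - p‖ ≤ C * √EE ∧ s * ‖S' - S‖ ≤ C * (√EE + √G + (s * ‖S‖) ^ 2) ∧
        ∫ y in ball x (θ * s), ‖gradient f y - p' - S' (y - x)‖ ^ 2 ≤
          (θ ^ 3 / 2 * EE + C * (G + (s * ‖S‖) ^ 4)) * (θ * s) ^ m := by
  obtain ⟨θ, hθ, hθ8, ε₂, hε₂, C, hC, H⟩ := step_unit I
  refine ⟨θ, hθ, hθ8, ε₂, hε₂, C, hC,
    fun f Ξ x s p S EE G hf hs hS htr hp hSε hEE hG hΞ hd hE hI => ?_⟩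
  have hn : ‖s • S‖ = s * ‖S‖ := by rw [norm_smul, Real.norm_of_nonneg hs.le]
  have hsm : 0 < s ^ m := pow_pos hs m
  have key : ∀ (q : E m) (T : E m →L[ℝ] E m) (r : ℝ),
      ∫ y in ball 0 r, ‖gradient (fun y => (f (x + s • y) - 0) / s) y - q - (s • T) y‖ ^ 2 =
        (∫ y in ball x (s * r), ‖gradient f y - q - T (y - x)‖ ^ 2) / s ^ m := by
    intro q T r
    rw [← setInt_scale _ x hs r]
    simp only [grad_scale f x 0 hs, add_sub_cancel_left, map_smul, smul_apply]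
  obtain ⟨p', S', hS', htr', hp', hSS, hJ⟩ := H (fun y => (f (x + s • y) - 0) / s)
    (fun y => Ξ (x + s • y)) p (s • S) EE G (locLip_scale hf x 0 s) (sym_step hS s)
    (trA_gstep htr s) hp (hn.trans_le hSε) hEE hG (memLp_scale hs (by rwa [mul_one]))
    (DivFree.scale hs (by rwa [mul_one])) (by rwa [key, mul_one, div_le_iff₀ hsm]) (by
      have h1 := setInt_scale (fun y => ‖Ξ y - I.ta (gradient f y)‖ ^ 2) x hs 1
      simp only [grad_scale f x 0 hs]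
      rwa [h1, mul_one, div_le_iff₀ hsm])
  have e : s • s⁻¹ • S' = S' := by rw [smul_smul, mul_inv_cancel₀ hs.ne', one_smul]
  rw [hn] at hSS hJ
  refine ⟨p', s⁻¹ • S', sym_step hS' _, trA_gstep htr' _, hp', le_trans (le_of_eq ?_) hSS, ?_⟩
  · rw [← Real.norm_of_nonneg hs.le, ← norm_smul, Real.norm_of_nonneg hs.le, smul_sub, e]
  · have h1 := key p' (s⁻¹ • S') θ
    rw [e] at h1
    rw [h1, div_le_iff₀ hsm, mul_comm s θ] at hJ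
    rw [mul_pow θ s m, ← mul_assoc]
    exact hJ

end Pool.Agent.Lib.MP_8daebb_an.LH
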