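import Pool.Agent.Lib.MP_8daebb_an.LH.GAlg
import Pool.Agent.Lib.MP_8daebb_an.LG.HA
import Pool.Agent.Lib.MP_8daebb_an.LG.SB
import Pool.Agent.Lib.MP_8daebb_an.LG.StepA

open MeasureTheory Metric Set Filter Topology
open scoped RealInnerProductSpace NNReal
open Pool.Agent.Lib.MP_8daebb_an.LG

namespace Pool.Agent.Lib.MP_8daebb_an.LH

variable {m : ℕ} {ι : Type}

/-! GSTEPA. The improved quadratic polynomial at unit scale. -/

theorem trace_gstepa {L : ℝ≥0} (I : Intg m L) (p p1 : E m) (S S1 : E m →L[ℝ] E m)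
    (h : LH.trA I p S = 0) (hp : I.Λ * ‖p + p1‖ ≤ 1 / 2) :
    ∃ μ : ℝ, LH.trA I (p + p1) (S + S1 - μ • ContinuousLinearMap.id ℝ (E m)) = 0 ∧
      |μ| ≤ 2 * I.Λ * ‖p1‖ * ‖S‖ + 2 * I.Λ * ‖p + p1‖ * ‖S1‖ + 2 * |trS S1| := by
  have hΛ := I.Λ_pos
  rcases Nat.eq_zero_or_pos m with hm | hm
  · subst hm
    refine ⟨0, by simp [LH.trA], ?_⟩
    rw [abs_zero]
    positivity
  have hm1 : (1 : ℝ) ≤ m := by exact_mod_cast hm
  set q := p + p1 with hq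
  set t : ℝ := ∑ b, ⟪I.A q (eb b), eb b⟫ with ht
  have ht1 : |t - m| ≤ m * (I.Λ * ‖q‖) := by
    have e1 : t - m = ∑ b, ⟪I.A q (eb b) - eb b, eb b⟫ := by
      simp_rw [inner_sub_left, Finset.sum_sub_distrib, real_inner_self_eq_norm_sq, norm_eb_stepa]
      simp [ht]
    rw [e1]
    refine abs_sum_eb_le (fun x => I.A q x - x) fun b => ?_
    simpa [norm_eb_stepa] using I.A_sub_self q (eb b)
  have ht2 : (m : ℝ) / 2 ≤ t := by
    have := (abs_le.1 ht1).1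
    nlinarith
  have ht0 : 0 < t := by linarith
  have hSb : ∀ (T : E m →L[ℝ] E m) (b : Fin m), ‖T (eb b)‖ ≤ ‖T‖ := fun T b => by
    simpa [norm_eb_stepa] using T.le_opNorm (eb b)
  have h1 : |LH.trA I q S| ≤ m * (I.Λ * ‖p1‖ * ‖S‖) := by
    have e1 : LH.trA I q S = ∑ b, ⟪I.A q (S (eb b)) - I.A p (S (eb b)), eb b⟫ := by
      simp_rw [inner_sub_left, Finset.sum_sub_distrib]
      have : ∑ b, ⟪I.A p (S (eb b)), eb b⟫ = 0 := h
      rw [this, sub_zero]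
      rfl
    rw [e1]
    refine abs_sum_eb_le (fun x => I.A q (S x) - I.A p (S x)) fun b => ?_
    refine (I.A_lip' q p _).trans ?_
    have : q - p = p1 := by rw [hq]; abel
    rw [this]
    exact mul_le_mul_of_nonneg_left (hSb S b) (by positivity)
  have h2 : |LH.trA I q S1 - trS S1| ≤ m * (I.Λ * ‖q‖ * ‖S1‖) := by
    have e1 : LH.trA I q S1 - trS S1 = ∑ b, ⟪I.A q (S1 (eb b)) - S1 (eb b), eb b⟫ := by
      simp_rw [inner_sub_left, Finset.sum_sub_distrib]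
      rfl
    rw [e1]
    refine abs_sum_eb_le (fun x => I.A q (S1 x) - S1 x) fun b => ?_
    exact (I.A_sub_self q _).trans (mul_le_mul_of_nonneg_left (hSb S1 b) (by positivity))
  refine ⟨(LH.trA I q S + LH.trA I q S1) / t, ?_, ?_⟩
  · have e1 : ∀ (μ : ℝ) (b : Fin m),
        I.A q ((S + S1 - μ • ContinuousLinearMap.id ℝ (E m)) (eb b)) =
          I.A q (S (eb b)) + I.A q (S1 (eb b)) + (-μ) • I.A q (eb b) := by
      intro μ b
      rw [← map_smul, ← map_add, ← map_add]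
      congr 1
      simp [sub_eq_add_neg]
    unfold LH.trA
    simp_rw [e1, inner_add_left, real_inner_smul_left, Finset.sum_add_distrib, ← Finset.mul_sum]
    rw [← ht]
    field_simp
    ring
  · rw [abs_div, abs_of_pos ht0, div_le_iff₀ ht0]
    have h3 : |LH.trA I q S + LH.trA I q S1| ≤
        |LH.trA I q S| + |LH.trA I q S1 - trS S1| + |trS S1| := by
      have := abs_add_le (LH.trA I q S) (LH.trA I q S1)
      have := abs_add_le (LH.trA I q S1 - trS S1) (trS S1)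
      rw [sub_add_cancel] at this
      linarith
    have h4 : 0 ≤ 2 * I.Λ * ‖p1‖ * ‖S‖ + 2 * I.Λ * ‖q‖ * ‖S1‖ + 2 * |trS S1| := by positivity
    have h5 := mul_le_mul_of_nonneg_left ht2 h4
    have h6 : |trS S1| ≤ |trS S1| * m := le_mul_of_one_le_right (abs_nonneg _) hm1
    nlinarith

theorem point_gstepa {L : ℝ≥0} (I : Intg m L) {p : E m} (hp : ‖p‖ ≤ 1 / 2) (g w X : E m) {s : ℝ}
    (hw : ‖w‖ ≤ s) :
    ‖g - (X - (I.a p + I.A p w))‖ ≤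
      I.Λ * ‖p‖ * ‖g‖ + 8 * I.Λ * ‖g‖ ^ 2 + 8 * I.Λ * s ^ 2 + ‖X - I.ta (p + (g + w))‖ := by
  have hΛ := I.Λ_pos
  have e1 : g - (X - (I.a p + I.A p w)) = -(I.A p g - g) +
      -(I.ta (p + (g + w)) - I.a p - I.A p (g + w)) + -(X - I.ta (p + (g + w))) := by
    rw [map_add]
    abel
  rw [e1]
  have h1 := I.A_sub_self p g
  have h2 := I.ta_taylor hp (g + w)
  have h3 : ‖g + w‖ ^ 2 ≤ 2 * ‖g‖ ^ 2 + 2 * s ^ 2 := by
    have h4 : ‖g + w‖ ≤ ‖g‖ + s := (norm_add_le g w).trans (by linarith)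
    have h5 := pow_le_pow_left₀ (norm_nonneg _) h4 2
    nlinarith [sq_nonneg (‖g‖ - s)]
  have h7 := mul_le_mul_of_nonneg_left h3 (show 0 ≤ 4 * I.Λ by positivity)
  have h6 := norm_add₃_le (a := -(I.A p g - g))
    (b := -(I.ta (p + (g + w)) - I.a p - I.A p (g + w))) (c := -(X - I.ta (p + (g + w))))
  simp only [norm_neg] at h6
  linarith

theorem intA_gstepa {L : ℝ≥0} (I : Intg m L) (p : E m) (S : E m →L[ℝ] E m) :
    IntegrableOn (fun y : E m => I.a p + I.A p (S y)) (ball 0 1) := by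
  have h1 : Continuous fun y : E m => I.A p (S y) := (I.A p).continuous.comp S.continuous
  have hcA : Continuous fun y : E m => I.a p + I.A p (S y) := continuous_const.add h1
  exact (hcA.continuousOn.integrableOn_compact (isCompact_closedBall 0 1)).mono_set
    ball_subset_closedBall

theorem field_gstepa {L : ℝ≥0} (I : Intg m L) {f k : E m → ℝ} {Ξ : E m → E m} {p : E m}
    {S : E m →L[ℝ] E m} {EE G : ℝ} (hf : LocallyLipschitz f) (hkl : LocallyLipschitz k)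
    (hgr : ∀ᵐ y, gradient k y = gradient f y - p - S y) (htr : LH.trA I p S = 0)
    (hp : ‖p‖ ≤ 1 / 2) (hΞ : MemLp Ξ 2 (volume.restrict (ball 0 1))) (hd : DivFree Ξ (ball 0 1))
    (hE : ∫ y in ball 0 1, ‖gradient f y - p - S y‖ ^ 2 ≤ EE)
    (hG : ∫ y in ball 0 1, ‖Ξ y - I.ta (gradient f y)‖ ^ 2 ≤ G) :
    ∃ F : E m → E m, IntegrableOn F (ball 0 1) ∧
      DivFree (fun y => gradient k y - F y) (ball 0 1) ∧
      ∫ y in ball 0 1, ‖gradient k y‖ ^ 2 ≤ EE ∧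
      ∫ y in ball 0 1, ‖F y‖ ≤
        I.Λ * ‖p‖ * (√(vb m) * √EE) + 8 * I.Λ * EE + 8 * I.Λ * ‖S‖ ^ 2 * vb m +
          √(vb m) * √G := by
  have hΛ := I.Λ_pos
  have : IsFiniteMeasure (volume.restrict (ball (0 : E m) 1)) :=
    isFiniteMeasure_restrict.2 measure_ball_lt_top.ne
  have hSy := normS_stepa S
  have hiA := intA_gstepa I p S
  have hiΞ : IntegrableOn Ξ (ball 0 1) := hΞ.integrable one_le_two
  have hmk : MemLp (gradient k) 2 (volume.restrict (ball 0 1)) := memLp_grad hkl 0 1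
  have hE' : ∫ y in ball 0 1, ‖gradient k y‖ ^ 2 ≤ EE := by
    refine le_trans (le_of_eq (integral_congr_ae (ae_restrict_of_ae ?_))) hE
    filter_upwards [hgr] with y hy
    rw [hy]
  have hmG : MemLp (fun y => Ξ y - I.ta (gradient f y)) 2 (volume.restrict (ball 0 1)) :=
    hΞ.sub (I.memLp_ta (memLp_grad hf 0 1))
  obtain ⟨i1, i2, i3⟩ := norm_int_stepa hmk hE'
  obtain ⟨-, j2, j3⟩ := norm_int_stepa hmG hG
  have hiF : IntegrableOn (fun y => gradient k y - (Ξ y - (I.a p + I.A p (S y)))) (ball 0 1) :=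
    (hmk.integrable one_le_two).sub (hiΞ.sub hiA)
  refine ⟨fun y => gradient k y - (Ξ y - (I.a p + I.A p (S y))), hiF, ?_, hE', ?_⟩
  · simp only [sub_sub_cancel]
    refine divFree_sub_stepa hiΞ hiA hd ?_
    have h1 := LH.divFree_affine I p 0 (I.a p) S htr (ball 0 1)
    simp only [sub_zero] at h1
    exact h1
  · have hc : IntegrableOn (fun _ : E m => 8 * I.Λ * ‖S‖ ^ 2) (ball 0 1) := integrable_const _
    have k1 : IntegrableOn (fun y => I.Λ * ‖p‖ * ‖gradient k y‖) (ball 0 1) := i2.const_mul _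
    have k2 : IntegrableOn (fun y => 8 * I.Λ * ‖gradient k y‖ ^ 2) (ball 0 1) := i1.const_mul _
    have k3 : IntegrableOn (fun y => I.Λ * ‖p‖ * ‖gradient k y‖ + 8 * I.Λ * ‖gradient k y‖ ^ 2)
        (ball 0 1) := k1.add k2
    have k4 : IntegrableOn (fun y => I.Λ * ‖p‖ * ‖gradient k y‖ + 8 * I.Λ * ‖gradient k y‖ ^ 2 +
        8 * I.Λ * ‖S‖ ^ 2) (ball 0 1) := k3.add hc
    have h1 : ∫ y in ball 0 1, ‖gradient k y - (Ξ y - (I.a p + I.A p (S y)))‖ ≤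
        ∫ y in ball 0 1, (I.Λ * ‖p‖ * ‖gradient k y‖ + 8 * I.Λ * ‖gradient k y‖ ^ 2 +
          8 * I.Λ * ‖S‖ ^ 2 + ‖Ξ y - I.ta (gradient f y)‖) := by
      refine integral_mono_ae hiF.norm (k4.add j2) ?_
      filter_upwards [ae_restrict_of_ae hgr, ae_restrict_mem measurableSet_ball] with y hy hy1
      have h2 := point_gstepa I hp (gradient k y) (S y) (Ξ y) (hSy y hy1)
      have h3 : p + (gradient k y + S y) = gradient f y := by rw [hy]; abel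
      rw [h3] at h2
      exact h2
    rw [integral_add k4 j2, integral_add k3 hc, integral_add k1 k2, integral_const_mul,
      integral_const_mul, setIntegral_const, vol_ball 0 one_pos, one_pow, mul_one,
      smul_eq_mul] at h1
    have h4 := mul_le_mul_of_nonneg_left i3 (show 0 ≤ I.Λ * ‖p‖ by positivity)
    have h5 := mul_le_mul_of_nonneg_left hE' (show 0 ≤ 8 * I.Λ by positivity)
    linarith

theorem arT_gstepa {Λ V sV ε e g s P : ℝ} (hΛ : 1 ≤ Λ) (hV : 0 ≤ V) (hsV : 0 ≤ sV) (hε : 0 ≤ ε)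
    (he : 0 ≤ e) (heε : e ≤ ε) (hg : 0 ≤ g) (hP : P ≤ ε) :
    Λ * P * (sV * e) + 8 * Λ * e ^ 2 + 8 * Λ * s ^ 2 * V + sV * g ≤
      Λ * (8 + 8 * V + sV) * (ε * e + s ^ 2 + g) := by
  have hΛ0 : 0 ≤ Λ := by linarith
  have h2 : P * (sV * e) ≤ ε * (sV * e) := mul_le_mul_of_nonneg_right hP (by positivity)
  have h3 : e ^ 2 ≤ ε * e := by nlinarith
  have h4 := mul_nonneg hV (mul_nonneg hε he)
  have h5 := mul_nonneg hV hg
  have h6 := mul_nonneg hsV (sq_nonneg s)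
  have h7 := mul_nonneg hsV hg
  have h8 := sq_nonneg s
  have h9 : P * (sV * e) + 8 * e ^ 2 + 8 * s ^ 2 * V + sV * g ≤
      (8 + 8 * V + sV) * (ε * e + s ^ 2 + g) := by linarith
  have h10 := mul_le_mul_of_nonneg_left h9 hΛ0
  have h11 := mul_le_mul_of_nonneg_right hΛ h7
  linarith

theorem arM_gstepa {Λ C₁ c₀ ε e X a s b q t : ℝ} (hΛ : 0 ≤ Λ) (hC₁ : 0 ≤ C₁) (hε : 0 ≤ ε)
    (he : 0 ≤ e) (hX : ε * e ≤ X) (ha : a ≤ C₁ * e) (hs0 : 0 ≤ s)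
    (hs : s ≤ ε) (hb0 : 0 ≤ b) (hb : b ≤ C₁ * e) (hq : q ≤ (1 + C₁) * ε)
    (ht : t ≤ C₁ * (c₀ * X)) :
    2 * Λ * a * s + 2 * Λ * q * b + 2 * t ≤
      (2 * Λ * C₁ + 2 * Λ * (1 + C₁) * C₁ + 2 * C₁ * c₀) * X := by
  have h1 : a * s ≤ C₁ * e * ε := mul_le_mul ha hs hs0 (by positivity)
  have h3 : q * b ≤ (1 + C₁) * ε * (C₁ * e) := mul_le_mul hq hb hb0 (by positivity)
  have h4 := mul_le_mul_of_nonneg_left hX hC₁
  have h5 := mul_le_mul_of_nonneg_left hX (show 0 ≤ (1 + C₁) * C₁ by positivity)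
  have h6 : a * s + q * b ≤ (C₁ + (1 + C₁) * C₁) * X := by linarith
  have h7 := mul_le_mul_of_nonneg_left h6 hΛ
  linarith

theorem step_height {L : ℝ≥0} (I : Intg m L) : ∃ C₁ > 0, ∀ θ : ℝ, 0 < θ → θ ≤ 1 / 8 →
    ∀ δ > 0, ∃ ε₂ > 0, ∃ C > 0,
    ∀ (f : E m → ℝ) (Ξ : E m → E m) (p : E m) (S : E m →L[ℝ] E m) (EE G : ℝ),
      LocallyLipschitz f → Sym S → trA I p S = 0 → ‖p‖ ≤ ε₂ → ‖S‖ ≤ ε₂ → EE ≤ ε₂ ^ 2 →
      G ≤ ε₂ ^ 2 → MemLp Ξ 2 (volume.restrict (ball 0 1)) → DivFree Ξ (ball 0 1) →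
      ∫ y in ball 0 1, ‖gradient f y - p - S y‖ ^ 2 ≤ EE →
      ∫ y in ball 0 1, ‖Ξ y - I.ta (gradient f y)‖ ^ 2 ≤ G →
      ∃ (a : ℝ) (p' : E m) (S' : E m →L[ℝ] E m), Sym S' ∧ trA I p' S' = 0 ∧
        ‖p' - p‖ ≤ C * √EE ∧ ‖S' - S‖ ≤ C * (√EE + √G + ‖S‖ ^ 2) ∧
        ∫ y in ball 0 (2 * θ), (f y - (a + ⟪p', y⟫ + ⟪S' y, y⟫ / 2)) ^ 2 ≤
          C₁ * θ ^ (m + 6) * EE + δ * EE + C * (G + ‖S‖ ^ 4) := by
  obtain ⟨C₁, hC₁, H⟩ := harm_approx m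
  refine ⟨2 * C₁, by positivity, fun θ hθ hθ1 δ hδ => ?_⟩
  obtain ⟨C₂, hC₂, H⟩ := H θ hθ hθ1 (δ / 4) (by positivity)
  have hΛ := I.Λ_pos
  have hΛ1 := I.one_le
  have hV := vb_pos m
  have hsV := Real.sqrt_nonneg (vb m)
  obtain ⟨c₀, hc₀⟩ : ∃ c₀ : ℝ, c₀ = I.Λ * (8 + 8 * vb m + √(vb m)) := ⟨_, rfl⟩
  have hc₀p : 0 < c₀ := by rw [hc₀]; positivity
  obtain ⟨c₁, hc₁⟩ : ∃ c₁ : ℝ, c₁ = 2 * I.Λ * C₁ + 2 * I.Λ * (1 + C₁) * C₁ + 2 * C₁ * c₀ :=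
    ⟨_, rfl⟩
  have hc₁p : 0 < c₁ := by rw [hc₁]; positivity
  obtain ⟨c₂, hc₂⟩ : ∃ c₂ : ℝ, c₂ = 3 * (2 * C₂ * c₀ ^ 2 + vb m * c₁ ^ 2) := ⟨_, rfl⟩
  have hc₂p : 0 < c₂ := by rw [hc₂]; positivity
  obtain ⟨ε, hε, hε1, hε2⟩ :
      ∃ ε : ℝ, 0 < ε ∧ I.Λ * (1 + C₁) * ε ≤ 1 / 2 ∧ c₂ * ε ≤ δ / 2 := by
    refine ⟨min (1 / 2 / (I.Λ * (1 + C₁))) (δ / 2 / c₂), by positivity, ?_, ?_⟩
    · rw [← le_div_iff₀' (by positivity)]
      exact min_le_left _ _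
    · rw [← le_div_iff₀' hc₂p]
      exact min_le_right _ _
  have hεh : ε ≤ 1 / 2 := by
    have h1 : (1 + C₁) * ε ≤ I.Λ * ((1 + C₁) * ε) := le_mul_of_one_le_left (by positivity) hΛ1
    linarith [mul_pos hC₁ hε]
  refine ⟨ε, hε, C₁ + c₁ + c₂, by positivity, ?_⟩
  intro f Ξ p S EE G hf hS htr hp hSε hEε _ hΞ hd hE hG
  have hE0 : 0 ≤ EE := le_trans (integral_nonneg fun y => by positivity) hE
  have hG0 : 0 ≤ G := le_trans (integral_nonneg fun y => by positivity) hG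
  have hkl : LocallyLipschitz fun y => f y - (0 + ⟪p, y⟫ + ⟪S y, y⟫ / 2) :=
    hf.sub (locLip_quad_stepa 0 p S)
  obtain ⟨F, hF, hdF, hE', hT⟩ :=
    field_gstepa I hf hkl (grad_stepa hf hS) htr (hp.trans hεh) hΞ hd hE hG
  obtain ⟨e, he0, rfl⟩ : ∃ e : ℝ, 0 ≤ e ∧ EE = e ^ 2 :=
    ⟨√EE, Real.sqrt_nonneg _, (Real.sq_sqrt hE0).symm⟩
  obtain ⟨g, hg0, rfl⟩ : ∃ g : ℝ, 0 ≤ g ∧ G = g ^ 2 :=
    ⟨√G, Real.sqrt_nonneg _, (Real.sq_sqrt hG0).symm⟩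
  rw [Real.sqrt_sq he0, Real.sqrt_sq hg0] at hT ⊢
  have heε : e ≤ ε := (pow_le_pow_iff_left₀ he0 hε.le two_ne_zero).1 hEε
  have hT' : ∫ y in ball 0 1, ‖F y‖ ≤ c₀ * (ε * e + ‖S‖ ^ 2 + g) := by
    rw [hc₀]
    exact hT.trans (arT_gstepa hΛ1 hV.le hsV hε.le he0 heε hg0 hp)
  obtain ⟨a, p1, S1, hS1, hp1, hS1n, htr1, hH⟩ := H _ F _ _ hkl hF hdF hE' hT'
  rw [Real.sqrt_sq he0] at hp1 hS1n
  have hC₁e : C₁ * e ≤ C₁ * ε := mul_le_mul_of_nonneg_left heε hC₁.le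
  have hq : ‖p + p1‖ ≤ (1 + C₁) * ε := (norm_add_le _ _).trans (by linarith)
  have hq' : I.Λ * ‖p + p1‖ ≤ 1 / 2 := by
    have := mul_le_mul_of_nonneg_left hq hΛ.le
    linarith
  obtain ⟨μ, hμ0, hμ⟩ := trace_gstepa I p p1 S S1 htr hq'
  have hμ' : |μ| ≤ c₁ * (ε * e + ‖S‖ ^ 2 + g) := by
    rw [hc₁]
    exact hμ.trans (arM_gstepa hΛ.le hC₁.le hε.le he0 (by linarith [sq_nonneg ‖S‖]) hp1
      (norm_nonneg _) hSε (norm_nonneg _) hS1n hq htr1)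
  refine ⟨a, p + p1, S + S1 - μ • ContinuousLinearMap.id ℝ (E m), sym_stepa hS hS1 μ, hμ0,
    ?_, ?_, ?_⟩
  · rw [add_sub_cancel_left]
    linarith [mul_nonneg hc₁p.le he0, mul_nonneg hc₂p.le he0]
  · exact (nrm_stepa S S1 μ).trans
      ((add_le_add hS1n hμ').trans (arS_stepa hC₁.le hc₁p.le hc₂p.le hεh he0 hg0))
  · simp_rw [split_stepa S S1 μ a _ p p1]
    have hcont : Continuous fun y : E m =>
        f y - (0 + ⟪p, y⟫ + ⟪S y, y⟫ / 2) - (a + ⟪p1, y⟫ + ⟪S1 y, y⟫ / 2) :=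
      hkl.continuous.sub (locLip_quad_stepa a p1 S1).continuous
    refine (shift_stepa hcont μ (by positivity) (by linarith)).trans ?_
    rw [hc₂] at hε2 ⊢
    exact arH_stepa hC₁.le hC₂.le hV.le hc₁p.le hε.le hεh hε2 hμ' hH

end Pool.Agent.Lib.MP_8daebb_an.LH
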