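import Pool.Agent.Lib.MP_8daebb_an.LH.VDef
import Pool.Agent.Lib.MP_8daebb_an.LG.Lip
import Pool.Agent.Lib.MP_8daebb_an.LG.Alg

open MeasureTheory Metric Set Filter Topology
open scoped RealInnerProductSpace NNReal ContDiff
open Pool.Agent.Lib.MP_8daebb_an.LG

namespace Pool.Agent.Lib.MP_8daebb_an.LH

variable {m N : ℕ} {X : Type} [NormedAddCommGroup X] [InnerProductSpace ℝ X]
  [FiniteDimensional ℝ X] [MeasurableSpace X] [BorelSpace X]
  {V : Measure (X × (X →L[ℝ] X))} {x₀ ν : X} {κ : E m →ₗᵢ[ℝ] X} {R : ℝ} {u : Fin N → E m → ℝ}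
  {L : ℝ≥0}

/-! V0. The measure of a sum of graphs. -/

/-- The standing hypotheses: all sheets pass through the base point. -/
structure MG (V : Measure (X × (X →L[ℝ] X))) (x₀ : X) (κ : E m →ₗᵢ[ℝ] X) (ν : X) (R : ℝ)
    (L : ℝ≥0) (u : Fin N → E m → ℝ) : Prop where
  dim : Module.finrank ℝ X = m + 1
  unit : ‖ν‖ = 1
  orth : ∀ q, ⟪ν, κ q⟫ = 0
  R_pos : 0 < R
  lip : ∀ i, LipschitzWith L (u i)
  sum : IsSumOfGraphs V x₀ κ ν R u

omit [FiniteDimensional ℝ X] [MeasurableSpace X] [BorelSpace X] in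
theorem v0_sq (hν : ‖ν‖ = 1) (ho : ∀ q, ⟪ν, κ q⟫ = 0) (a : E m) (t : ℝ) :
    ‖κ a + t • ν‖ ^ 2 = ‖a‖ ^ 2 + t ^ 2 := by
  rw [norm_add_sq_real, real_inner_smul_right, real_inner_comm, ho, norm_smul, hν,
    LinearIsometry.norm_map, Real.norm_eq_abs, mul_one, sq_abs]
  ring

theorem norm_graphPt_sub (hν : ‖ν‖ = 1) (ho : ∀ q, ⟪ν, κ q⟫ = 0) (f g : E m → ℝ) (x y : E m) :
    ‖graphPt x₀ κ ν f x - graphPt x₀ κ ν g y‖ ^ 2 = ‖x - y‖ ^ 2 + (f x - g y) ^ 2 := by
  rw [← v0_sq hν ho, graphPt, graphPt, map_sub, sub_smul]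
  congr 2
  abel

theorem norm_graphPt (hν : ‖ν‖ = 1) (ho : ∀ q, ⟪ν, κ q⟫ = 0) (f : E m → ℝ) (x : E m) :
    ‖graphPt x₀ κ ν f x - x₀‖ ^ 2 = ‖x‖ ^ 2 + f x ^ 2 := by
  rw [← v0_sq hν ho, graphPt]
  congr 2
  abel

theorem continuous_graphPt {f : E m → ℝ} (hf : Continuous f) : Continuous (graphPt x₀ κ ν f) := by
  exact (continuous_const.add κ.continuous).add (hf.smul continuous_const)

theorem tanProj_apply (hν : ‖ν‖ = 1) (ho : ∀ q, ⟪ν, κ q⟫ = 0) (q : E m) (y : X) :
    tanProj κ ν q y = y - ((1 + ‖q‖ ^ 2)⁻¹ * ⟪ν - κ q, y⟫) • (ν - κ q) := by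
  have e : ‖ν - κ q‖ ^ 2 = 1 + ‖q‖ ^ 2 := by
    rw [norm_sub_sq_real, ho, hν, LinearIsometry.norm_map]
    ring
  rw [tanProj, Submodule.starProjection_orthogonal_val, Submodule.starProjection_singleton, e,
    div_eq_inv_mul]
  rfl

theorem continuous_tanProj (hν : ‖ν‖ = 1) (ho : ∀ q, ⟪ν, κ q⟫ = 0) :
    Continuous (tanProj κ ν : E m → X →L[ℝ] X) := by
  refine continuous_clm_apply.2 fun y => ?_
  simp only [tanProj_apply hν ho]
  have h1 : Continuous fun q : E m => ν - κ q := continuous_const.sub κ.continuous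
  have h2 : Continuous fun q : E m => (1 + ‖q‖ ^ 2)⁻¹ :=
    (continuous_const.add (continuous_norm.pow 2)).inv₀ fun q =>
      (show (0 : ℝ) < 1 + ‖q‖ ^ 2 by positivity).ne'
  exact continuous_const.sub ((h2.mul (h1.inner continuous_const)).smul h1)

theorem measurable_graphLift (hν : ‖ν‖ = 1) (ho : ∀ q, ⟪ν, κ q⟫ = 0) {f : E m → ℝ}
    (hf : Continuous f) :
    Measurable fun x => (graphPt x₀ κ ν f x, tanProj κ ν (gradient f x)) := by
  exact (continuous_graphPt hf).measurable.prodMk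
    ((continuous_tanProj hν ho).measurable.comp (meas_grad f))

/-- Every vector splits into a horizontal and a vertical part. -/
theorem MG.split (h : MG V x₀ κ ν R L u) (y : X) : ∃ x : E m, y = κ x + ⟪ν, y⟫ • ν := by
  have hν : ν ≠ 0 := fun h0 => by simpa [h0] using h.unit
  haveI : Fact (Module.finrank ℝ X = m + 1) := ⟨h.dim⟩
  have e : LinearMap.range κ.toLinearMap = (ℝ ∙ ν)ᗮ := by
    refine Submodule.eq_of_le_of_finrank_eq ?_ ?_
    · rintro _ ⟨q, rfl⟩
      exact Submodule.mem_orthogonal_singleton_iff_inner_right.2 (h.orth q)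
    · rw [Submodule.finrank_orthogonal_span_singleton (n := m) hν,
        LinearMap.finrank_range_of_inj κ.injective, finrank_euclideanSpace_fin]
  have h1 : y - ⟪ν, y⟫ • ν ∈ LinearMap.range κ.toLinearMap := by
    rw [e, Submodule.mem_orthogonal_singleton_iff_inner_right, inner_sub_right,
      real_inner_smul_right, real_inner_self_eq_norm_sq, h.unit]
    ring
  obtain ⟨x, hx⟩ := h1
  exact ⟨x, by rw [← sub_eq_iff_eq_add]; exact hx.symm⟩

omit [FiniteDimensional ℝ X] in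
theorem v0_meas : MeasurableSet {z : X × (X →L[ℝ] X) | z.1 ∈ ball x₀ R} :=
  measurable_fst measurableSet_ball

theorem v0_measW (f : E m → ℝ) : Measurable fun x => W (gradient f x) :=
  contDiff_W.continuous.measurable.comp (meas_grad f)

theorem v0_pre (h : MG V x₀ κ ν R L u) (f : E m → ℝ) {x : E m}
    (hx : graphPt x₀ κ ν f x ∈ ball x₀ R) : x ∈ ball (0 : E m) R := by
  rw [mem_ball_iff_norm] at hx
  rw [mem_ball_zero_iff]
  refine lt_of_le_of_lt (le_of_sq_le_sq ?_ (norm_nonneg _)) hx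
  rw [norm_graphPt h.unit h.orth]
  linarith [sq_nonneg (f x)]

theorem v0_fin (h : MG V x₀ κ ν R L u) (i : Fin N) {T : Set (E m)} (hT : T ⊆ ball 0 R) :
    ∫⁻ x in T, ENNReal.ofReal (W (gradient (u i) x)) ≠ ⊤ := by
  refine ne_top_of_le_ne_top (b := ∫⁻ _ in T, ENNReal.ofReal (WL L)) ?_
    (lintegral_mono fun x => ENNReal.ofReal_le_ofReal (W_le_WL (norm_grad_le (h.lip i) x)))
  rw [setLIntegral_const]
  exact ENNReal.mul_ne_top ENNReal.ofReal_ne_top
    (ne_top_of_le_ne_top measure_ball_lt_top.ne (measure_mono hT))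

theorem MG.weight (h : MG V x₀ κ ν R L u) {S : Set X} (hS : MeasurableSet S)
    (hSR : S ⊆ ball x₀ R) :
    V.fst S = ∑ i, ∫⁻ x in graphPt x₀ κ ν (u i) ⁻¹' S, ENNReal.ofReal (W (gradient (u i) x)) := by
  have h1 : (Prod.fst ⁻¹' S : Set (X × (X →L[ℝ] X))) ⊆ {z | z.1 ∈ ball x₀ R} :=
    fun z hz => hSR hz
  have h2 := congrArg (fun μ : Measure (X × (X →L[ℝ] X)) => μ (Prod.fst ⁻¹' S)) h.sum
  simp only [restrictBall] at h2
  rw [Measure.restrict_eq_self _ h1, Measure.restrict_eq_self _ h1] at h2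
  rw [Measure.fst_apply hS, h2, sumOfGraphs, Measure.finsetSum_apply]
  refine Finset.sum_congr rfl fun i _ => ?_
  have hc := (h.lip i).continuous
  rw [graphVarifold, Measure.map_apply (measurable_graphLift h.unit h.orth hc) (measurable_fst hS),
    areaMeasure]
  exact withDensity_apply _ ((continuous_graphPt hc).measurable hS)

theorem MG.weight_real (h : MG V x₀ κ ν R L u) {S : Set X} (hS : MeasurableSet S)
    (hSR : S ⊆ ball x₀ R) : V.fst S ≠ ⊤ ∧
      (V.fst S).toReal = ∑ i, ∫ x in graphPt x₀ κ ν (u i) ⁻¹' S, W (gradient (u i) x) := by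
  have h1 : ∀ i, ∫⁻ x in graphPt x₀ κ ν (u i) ⁻¹' S, ENNReal.ofReal (W (gradient (u i) x)) ≠ ⊤ :=
    fun i => v0_fin h i fun x hx => v0_pre h (u i) (hSR hx)
  rw [h.weight hS hSR]
  refine ⟨ENNReal.sum_ne_top.2 fun i _ => h1 i, ?_⟩
  rw [ENNReal.toReal_sum fun i _ => h1 i]
  refine Finset.sum_congr rfl fun i _ => ?_
  exact (integral_eq_lintegral_of_nonneg_ae (Eventually.of_forall fun x => (W_pos_alga _).le)
    (v0_measW (u i)).aestronglyMeasurable).symm

theorem MG.vol_le_weight (h : MG V x₀ κ ν R L u) {S : Set X} (hSR : S ⊆ ball x₀ R) (i : Fin N) :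
    volume (graphPt x₀ κ ν (u i) ⁻¹' S) ≤ V.fst S := by
  have hT : MeasurableSet (toMeasurable V.fst S ∩ ball x₀ R) :=
    (measurableSet_toMeasurable _ _).inter measurableSet_ball
  calc volume (graphPt x₀ κ ν (u i) ⁻¹' S)
      ≤ volume (graphPt x₀ κ ν (u i) ⁻¹' (toMeasurable V.fst S ∩ ball x₀ R)) :=
        measure_mono (preimage_mono (subset_inter (subset_toMeasurable _ _) hSR))
    _ ≤ ∫⁻ x in graphPt x₀ κ ν (u i) ⁻¹' (toMeasurable V.fst S ∩ ball x₀ R),
          ENNReal.ofReal (W (gradient (u i) x)) := by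
        rw [← setLIntegral_one]
        exact lintegral_mono fun x => ENNReal.one_le_ofReal.2 (one_le_W _)
    _ ≤ V.fst (toMeasurable V.fst S ∩ ball x₀ R) := by
        rw [h.weight hT inter_subset_right]
        exact Finset.single_le_sum (f := fun i => ∫⁻ x in graphPt x₀ κ ν (u i) ⁻¹'
          (toMeasurable V.fst S ∩ ball x₀ R), ENNReal.ofReal (W (gradient (u i) x)))
          (fun _ _ => bot_le) (Finset.mem_univ i)
    _ ≤ V.fst (toMeasurable V.fst S) := measure_mono inter_subset_left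
    _ = V.fst S := measure_toMeasurable S

theorem MG.integral (h : MG V x₀ κ ν R L u) {φ : X × (X →L[ℝ] X) → ℝ} (hφ : Continuous φ)
    (h0 : ∀ z, z.1 ∉ ball x₀ R → φ z = 0) :
    ∫ z, φ z ∂V = ∑ i, ∫ x, W (gradient (u i) x) *
      φ (graphPt x₀ κ ν (u i) x, tanProj κ ν (gradient (u i) x)) := by
  have hm := fun i => measurable_graphLift (x₀ := x₀) h.unit h.orth (h.lip i).continuous
  obtain ⟨C, hC⟩ := ((isCompact_closedBall x₀ R).prod
    (isCompact_closedBall (0 : X →L[ℝ] X) 1)).exists_bound_of_continuousOn hφ.continuousOn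
  have hi : ∀ i, Integrable φ (graphVarifold x₀ κ ν (u i)) := fun i => by
    rw [graphVarifold, integrable_map_measure hφ.aestronglyMeasurable (hm i).aemeasurable]
    have hs : MeasurableSet (graphPt x₀ κ ν (u i) ⁻¹' ball x₀ R) :=
      (continuous_graphPt (h.lip i).continuous).measurable measurableSet_ball
    refine IntegrableOn.integrable_of_forall_notMem_eq_zero
      (s := graphPt x₀ κ ν (u i) ⁻¹' ball x₀ R) ?_ fun x hx => h0 _ hx
    refine Measure.integrableOn_of_bounded (M := C) ?_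
      (hφ.measurable.comp (hm i)).aestronglyMeasurable ?_
    · rw [areaMeasure, withDensity_apply _ hs]
      exact v0_fin h i fun x hx => v0_pre h (u i) hx
    · refine (ae_restrict_iff' hs).2 (Eventually.of_forall fun x hx => hC _ ⟨?_, ?_⟩)
      · exact ball_subset_closedBall hx
      · exact mem_closedBall_zero_iff.2 (Submodule.starProjection_norm_le _)
  have h1 : ∀ μ : Measure (X × (X →L[ℝ] X)), ∫ z, φ z ∂(restrictBall μ x₀ R) = ∫ z, φ z ∂μ :=
    fun μ => setIntegral_eq_integral_of_forall_compl_eq_zero h0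
  rw [← h1, h.sum, h1, sumOfGraphs, integral_finsetSum_measure fun i _ => hi i]
  refine Finset.sum_congr rfl fun i _ => ?_
  rw [graphVarifold, integral_map (hm i).aemeasurable hφ.aestronglyMeasurable, areaMeasure]
  refine (integral_withDensity_eq_integral_toReal_smul (v0_measW (u i)).ennreal_ofReal
    (Eventually.of_forall fun _ => ENNReal.ofReal_lt_top) _).trans ?_
  simp only [ENNReal.toReal_ofReal (W_pos_alga _).le, smul_eq_mul]

theorem MG.mono (h : MG V x₀ κ ν R L u) {R' : ℝ} (hR' : 0 < R') (hle : R' ≤ R) :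
    MG V x₀ κ ν R' L u := by
  refine ⟨h.dim, h.unit, h.orth, hR', h.lip, ?_⟩
  have h1 : ∀ μ : Measure (X × (X →L[ℝ] X)),
      restrictBall μ x₀ R' = restrictBall (restrictBall μ x₀ R) x₀ R' := fun μ =>
    (Measure.restrict_restrict_of_subset (s := {z : X × (X →L[ℝ] X) | z.1 ∈ ball x₀ R'})
      (t := {z | z.1 ∈ ball x₀ R}) fun z hz => ball_subset_ball hle hz).symm
  have h2 : restrictBall V x₀ R = _ := h.sum
  rw [IsSumOfGraphs, h1 V, h2, ← h1]

end Pool.Agent.Lib.MP_8daebb_an.LH
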