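import Pool.Agent.Lib.MP_8daebb_an.LH.V0

open MeasureTheory Metric Set Filter Topology
open scoped RealInnerProductSpace NNReal ContDiff
open Pool.Agent.Lib.MP_8daebb_an.LG

namespace Pool.Agent.Lib.MP_8daebb_an.LH

variable {m N : ℕ} {X : Type} [NormedAddCommGroup X] [InnerProductSpace ℝ X]
  [FiniteDimensional ℝ X] [MeasurableSpace X] [BorelSpace X]
  {V : Measure (X × (X →L[ℝ] X))} {x₀ ν : X} {κ : E m →ₗᵢ[ℝ] X} {R : ℝ} {u : Fin N → E m → ℝ}
  {L : ℝ≥0}

/-! V1. Removing the sheets that do not pass through the base point. -/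

theorem restrict_sum_v1 {α ι : Type*} [MeasurableSpace α] (s : Finset ι) (μ : ι → Measure α)
    (S : Set α) : (∑ i ∈ s, μ i).restrict S = ∑ i ∈ s, (μ i).restrict S := by
  classical
  induction s using Finset.induction_on with
  | empty => simp
  | insert a s ha ih => rw [Finset.sum_insert ha, Finset.sum_insert ha, Measure.restrict_add, ih]

theorem miss_v1 (h : MG V x₀ κ ν R L u) (j : Fin N) :
    ∃ ρ : ℝ, 0 < ρ ∧ (u j 0 ≠ 0 → ∀ x, graphPt x₀ κ ν (u j) x ∉ ball x₀ ρ) := by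
  by_cases hj : u j 0 = 0
  · exact ⟨1, one_pos, fun h' => absurd hj h'⟩
  have hL : (0 : ℝ) < L + 1 := by positivity
  have hpos : 0 < |u j 0| / (L + 1) := div_pos (abs_pos.2 hj) hL
  refine ⟨|u j 0| / (L + 1), hpos, fun _ x hx => ?_⟩
  set ρ := |u j 0| / (L + 1) with hρ
  have h1 : ‖graphPt x₀ κ ν (u j) x - x₀‖ < ρ := by rwa [mem_ball, dist_eq_norm] at hx
  have h2 : ‖x‖ ^ 2 + u j x ^ 2 < ρ ^ 2 := by
    rw [← norm_graphPt (x₀ := x₀) h.unit h.orth (u j) x]
    exact pow_lt_pow_left₀ h1 (norm_nonneg _) two_ne_zero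
  have h3 : ‖x‖ < ρ :=
    lt_of_pow_lt_pow_left₀ 2 hpos.le (by nlinarith [sq_nonneg (u j x)])
  have h4 : |u j x| < ρ :=
    lt_of_pow_lt_pow_left₀ 2 hpos.le (by rw [sq_abs]; nlinarith [sq_nonneg ‖x‖])
  have h5 : |u j 0 - u j x| ≤ L * ‖x‖ := by
    have := (h.lip j).dist_le_mul 0 x
    rwa [Real.dist_eq, dist_zero_left] at this
  have h6 : |u j 0| ≤ |u j x| + L * ‖x‖ := by
    have := abs_sub_abs_le_abs_sub (u j 0) (u j x)
    linarith
  have h7 : |u j 0| = ρ * (L + 1) := by rw [hρ]; field_simp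
  have h8 : (L : ℝ) * ‖x‖ ≤ L * ρ := mul_le_mul_of_nonneg_left h3.le L.2
  nlinarith

theorem MG.reduce (h : MG V x₀ κ ν R L u) (hx : x₀ ∈ V.fst.support) :
    ∃ (Q : ℕ) (R' : ℝ) (u' : Fin Q → E m → ℝ), 0 < Q ∧ MG V x₀ κ ν R' L u' ∧ ∀ i, u' i 0 = 0 := by
  classical
  choose ρ hρ hmiss using miss_v1 h
  obtain ⟨R', ⟨hR'0, hR'R⟩, hR'ρ⟩ : ∃ r : ℝ, r ∈ Ioc 0 R ∧ ∀ j, r ≤ ρ j := by
    have h1 : ∀ᶠ r in 𝓝[>] (0 : ℝ), r ∈ Ioc 0 R := Ioc_mem_nhdsGT h.R_pos
    have h2 : ∀ᶠ r in 𝓝[>] (0 : ℝ), ∀ j, r ≤ ρ j :=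
      eventually_all.2 fun j => mem_of_superset (Ioc_mem_nhdsGT (hρ j)) fun r hr => hr.2
    exact (h1.and h2).exists
  have hm := h.mono hR'0 hR'R
  set s : Finset (Fin N) := Finset.univ.filter fun i => u i 0 = 0 with hs
  have hS : MeasurableSet {z : X × (X →L[ℝ] X) | z.1 ∈ ball x₀ R'} :=
    measurable_fst measurableSet_ball
  have hzero : ∀ j, u j 0 ≠ 0 →
      (graphVarifold x₀ κ ν (u j)).restrict {z | z.1 ∈ ball x₀ R'} = 0 := by
    intro j hj
    rw [Measure.restrict_eq_zero, graphVarifold,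
      Measure.map_apply (measurable_graphLift h.unit h.orth (h.lip j).continuous) hS]
    have : (fun x => (graphPt x₀ κ ν (u j) x, tanProj κ ν (gradient (u j) x))) ⁻¹'
        {z : X × (X →L[ℝ] X) | z.1 ∈ ball x₀ R'} = ∅ := by
      refine eq_empty_of_forall_notMem fun x hx' => hmiss j hj x ?_
      exact ball_subset_ball (hR'ρ j) hx'
    rw [this, measure_empty]
  have hsum : restrictBall V x₀ R' =
      ∑ j ∈ s, (graphVarifold x₀ κ ν (u j)).restrict {z | z.1 ∈ ball x₀ R'} := by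
    have := hm.sum
    unfold IsSumOfGraphs at this
    rw [this, restrictBall, sumOfGraphs, restrict_sum_v1]
    symm
    refine Finset.sum_subset (Finset.subset_univ _) fun j _ hj => hzero j ?_
    simpa [hs] using hj
  refine ⟨s.card, R', fun i => u (s.equivFin.symm i), ?_, ?_, ?_⟩
  · rw [Finset.card_pos]
    by_contra hne
    rw [Finset.not_nonempty_iff_eq_empty] at hne
    rw [hne, Finset.sum_empty, restrictBall, Measure.restrict_eq_zero] at hsum
    have hpos := (Measure.mem_support_iff_forall x₀).1 hx (ball x₀ R') (ball_mem_nhds x₀ hR'0)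
    rw [Measure.fst_apply measurableSet_ball] at hpos
    exact hpos.ne' hsum
  · refine ⟨h.dim, h.unit, h.orth, hR'0, fun i => h.lip _, ?_⟩
    unfold IsSumOfGraphs
    rw [hsum, restrictBall, sumOfGraphs, restrict_sum_v1, ← Finset.sum_coe_sort s]
    exact (Equiv.sum_comp s.equivFin.symm fun j : s =>
      (graphVarifold x₀ κ ν (u j)).restrict {z | z.1 ∈ ball x₀ R'}).symm
  · intro i
    exact (Finset.mem_filter.1 (s.equivFin.symm i).2).2

end Pool.Agent.Lib.MP_8daebb_an.LH
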