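import Pool.Agent.Lib.MP_8daebb_an.LH.V0
import Pool.Agent.Lib.MP_8daebb_an.LG.Bridge

open MeasureTheory Metric Set Filter Topology
open scoped RealInnerProductSpace NNReal ContDiff
open Pool.Agent.Lib.MP_8daebb_an.LG

namespace Pool.Agent.Lib.MP_8daebb_an.LH

variable {m N : ℕ} {X : Type} [NormedAddCommGroup X] [InnerProductSpace ℝ X]
  [FiniteDimensional ℝ X] [MeasurableSpace X] [BorelSpace X]
  {V : Measure (X × (X →L[ℝ] X))} {x₀ ν : X} {κ : E m →ₗᵢ[ℝ] X} {R : ℝ} {u : Fin N → E m → ℝ}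
  {L : ℝ≥0}

/-! V2. Stationarity in graph form. -/

omit [MeasurableSpace X] [BorelSpace X] in
theorem continuous_tanDiv_v2 {Z : X → X} (hZ : ContDiff ℝ 1 Z) : Continuous (tanDiv Z) := by
  have h1 : Continuous fun A : X →L[ℝ] X => LinearMap.trace ℝ X (A : X →ₗ[ℝ] X) :=
    ((LinearMap.trace ℝ X).comp (ContinuousLinearMap.coeLM ℝ)).continuous_of_finiteDimensional
  exact h1.comp (continuous_snd.clm_comp ((hZ.continuous_fderiv one_ne_zero).comp continuous_fst))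

theorem MG.equiv_v2 (h : MG V x₀ κ ν R L u) :
    ∃ Φ : (E m × ℝ) ≃L[ℝ] X, ∀ w, Φ w = κ w.1 + w.2 • ν := by
  let Φ₀ : (E m × ℝ) →ₗ[ℝ] X := κ.toLinearMap.coprod (LinearMap.toSpanSingleton ℝ X ν)
  have e : ∀ w : E m × ℝ, Φ₀ w = κ w.1 + w.2 • ν := fun w => rfl
  have h1 : Function.Injective Φ₀ := by
    refine (injective_iff_map_eq_zero Φ₀).2 fun w hw => ?_
    rw [e] at hw
    have h2 : w.2 = 0 := by
      have := congrArg (fun y => ⟪ν, y⟫) hw
      simpa only [inner_add_right, h.orth, real_inner_smul_right, real_inner_self_eq_norm_sq,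
        h.unit, one_pow, mul_one, zero_add, inner_zero_right] using this
    rw [h2, zero_smul, add_zero] at hw
    exact Prod.ext (κ.injective (hw.trans κ.map_zero.symm)) h2
  have h2 : Function.Surjective Φ₀ := fun y => by
    obtain ⟨x, hx⟩ := h.split y
    exact ⟨(x, ⟪ν, y⟫), hx.symm⟩
  exact ⟨(LinearEquiv.ofBijective Φ₀ ⟨h1, h2⟩).toContinuousLinearEquiv, e⟩

theorem trace_v2 (hν : ‖ν‖ = 1) (ho : ∀ q, ⟪ν, κ q⟫ = 0) {Φ : (E m × ℝ) ≃L[ℝ] X}
    (hΦ : ∀ w, Φ w = κ w.1 + w.2 • ν) (q : E m) (A : (E m × ℝ) →L[ℝ] (E m × ℝ)) :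
    W q * LinearMap.trace ℝ X (((tanProj κ ν q).comp ((Φ : (E m × ℝ) →L[ℝ] X).comp
      (A.comp (Φ.symm : X →L[ℝ] (E m × ℝ)))) : X →L[ℝ] X) : X →ₗ[ℝ] X) = firstVar q A := by
  set B : X →L[ℝ] X := (Φ : (E m × ℝ) →L[ℝ] X).comp (A.comp (Φ.symm : X →L[ℝ] (E m × ℝ)))
    with hB
  have e1 : (((tanProj κ ν q).comp B : X →L[ℝ] X) : X →ₗ[ℝ] X) = (B : X →ₗ[ℝ] X) -
      (1 + ‖q‖ ^ 2)⁻¹ • (((innerSL ℝ (ν - κ q)).comp B : X →L[ℝ] ℝ) : X →ₗ[ℝ] ℝ).smulRight
        (ν - κ q) := by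
    ext y
    simp only [ContinuousLinearMap.coe_coe, ContinuousLinearMap.comp_apply, tanProj_apply hν ho,
      LinearMap.sub_apply, LinearMap.smul_apply, LinearMap.smulRight_apply, innerSL_apply_apply,
      mul_smul]
  have e2 : (B : X →ₗ[ℝ] X) = Φ.toLinearEquiv.conj (A : (E m × ℝ) →ₗ[ℝ] (E m × ℝ)) := by
    ext y
    rfl
  have e3 : ν - κ q = Φ (-q, 1) := by
    rw [hΦ, map_neg, one_smul]
    abel
  have e4 : B (ν - κ q) = Φ (A (-q, 1)) := by
    rw [e3, hB]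
    simp
  have e5 : ⟪ν - κ q, B (ν - κ q)⟫ = ⟪(A (-q, 1)).1, -q⟫ + (A (-q, 1)).2 := by
    rw [e4, hΦ]
    simp only [inner_sub_left, inner_add_right, ho, real_inner_smul_right,
      real_inner_self_eq_norm_sq, hν, LinearIsometry.inner_map_map, real_inner_comm ν (κ q),
      inner_neg_right, real_inner_comm q]
    ring
  rw [e1, map_sub, map_smul, LinearMap.trace_smulRight, e2, LinearMap.trace_conj']
  simp only [ContinuousLinearMap.coe_coe, ContinuousLinearMap.comp_apply, innerSL_apply_apply, e5,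
    smul_eq_mul, firstVar, W]
  ring

theorem MG.stationary (h : MG V x₀ κ ν R L u) (h0 : ∀ i, u i 0 = 0) {U : Set X}
    (hV : IsStationaryVarifold m U V) (hU : ball x₀ R ⊆ U) :
    IsStationaryGraph u (ball 0 (R / (L + 2))) := by
  intro Xf hX hXc hXs
  have hL : (0 : ℝ) ≤ L := L.coe_nonneg
  set R' : ℝ := R / (L + 2) with hR'
  have R0 : 0 < R' := div_pos h.R_pos (by linarith)
  have hRR : R = (L + 2) * R' := by rw [hR']; field_simp
  let θ : ContDiffBump (0 : ℝ) := ⟨(L + 1 / 2) * R', (L + 3 / 4) * R', by positivity, by nlinarith⟩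
  obtain ⟨Φ, hΦ⟩ := h.equiv_v2
  set Y : E m × ℝ → E m × ℝ := fun w => θ w.2 • Xf w with hY
  have hY1 : ContDiff ℝ 1 Y := (θ.contDiff.comp contDiff_snd).smul hX
  have hYs : tsupport Y ⊆ tsupport Xf := tsupport_smul_subset_right _ _
  have hYs' : tsupport Y ⊆ Prod.snd ⁻¹' tsupport θ :=
    (tsupport_smul_subset_left _ _).trans (tsupport_comp_subset_preimage θ continuous_snd)
  have hYc : HasCompactSupport Y := hXc.isCompact.of_isClosed_subset (isClosed_tsupport _) hYs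
  have hYX : ∀ i x, Y =ᶠ[𝓝 (x, u i x)] Xf := fun i x => by
    by_cases hx : x ∈ ball (0 : E m) R'
    · have h1 : |u i x| ≤ L * ‖x‖ := by
        have := (h.lip i).dist_le_mul x 0
        rwa [h0 i, Real.dist_eq, sub_zero, dist_zero_right] at this
      have h2 : u i x ∈ ball (0 : ℝ) θ.rIn := by
        rw [mem_ball_zero_iff, Real.norm_eq_abs]
        have h3 := mem_ball_zero_iff.1 hx
        change _ < (L + 1 / 2) * R'
        nlinarith
      have h3 : ∀ᶠ w in 𝓝 (x, u i x), θ w.2 = 1 :=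
        (continuous_snd.tendsto (x, u i x)).eventually (θ.eventuallyEq_one_of_mem_ball h2)
      filter_upwards [h3] with w hw
      rw [hY]
      simp only [hw, one_smul]
    · have h1 : (x, u i x) ∉ tsupport Xf := fun h1 => hx (hXs h1).1
      filter_upwards [notMem_tsupport_iff_eventuallyEq.1 h1] with w hw
      rw [hY]
      simp only [hw, Pi.zero_apply, smul_zero]
  let e : X ≃ₜ (E m × ℝ) := (Homeomorph.subRight x₀).trans Φ.symm.toHomeomorph
  set Z : X → X := fun y => Φ (Y (Φ.symm (y - x₀))) with hZ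
  have hZ1 : ContDiff ℝ 1 Z :=
    Φ.contDiff.comp (hY1.comp (Φ.symm.contDiff.comp (contDiff_id.sub contDiff_const)))
  have hZc : HasCompactSupport Z := (hYc.comp_homeomorph e).comp_left (g := Φ) (map_zero Φ)
  have hZs : tsupport Z ⊆ ball x₀ R := by
    intro y hy
    have h1 : y ∈ tsupport (Y ∘ e) := tsupport_comp_subset (g := Φ) (map_zero Φ) (Y ∘ e) hy
    have h2 : Φ.symm (y - x₀) ∈ tsupport Y := tsupport_comp_subset_preimage Y e.continuous h1
    have h3 := mem_ball_zero_iff.1 (hXs (hYs h2)).1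
    have h4 := hYs' h2
    rw [mem_preimage, θ.tsupport_eq, mem_closedBall_zero_iff] at h4
    change _ ≤ (L + 3 / 4) * R' at h4
    have h5 := hΦ (Φ.symm (y - x₀))
    rw [Φ.apply_symm_apply] at h5
    rw [mem_ball_iff_norm, h5]
    refine (norm_add_le _ _).trans_lt ?_
    rw [κ.norm_map, norm_smul, h.unit, mul_one, hRR]
    linarith
  have key := h.integral (continuous_tanDiv_v2 hZ1) fun z hz => by
    have h1 : fderiv ℝ Z z.1 = 0 := by
      rw [(notMem_tsupport_iff_eventuallyEq.1 fun h1 => hz (hZs h1)).fderiv_eq]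
      exact fderiv_const_apply 0
    rw [tanDiv, h1, ContinuousLinearMap.comp_zero, ContinuousLinearMap.toLinearMap_zero, map_zero]
  rw [hV.stationary Z hZ1 hZc (hZs.trans hU)] at key
  refine Eq.trans (Finset.sum_congr rfl fun i _ => integral_congr_ae (ae_of_all _ fun x => ?_))
    key.symm
  have h1 : Φ.symm (graphPt x₀ κ ν (u i) x - x₀) = (x, u i x) := by
    rw [Φ.symm_apply_eq, hΦ, graphPt]
    abel
  have h2 : HasFDerivAt Y (fderiv ℝ Xf (x, u i x)) (Φ.symm (graphPt x₀ κ ν (u i) x - x₀)) := by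
    rw [h1]
    exact (hX.differentiable one_ne_zero _).hasFDerivAt.congr_of_eventuallyEq (hYX i x)
  have h3 : HasFDerivAt (fun y => Φ.symm (y - x₀)) (Φ.symm : X →L[ℝ] (E m × ℝ))
      (graphPt x₀ κ ν (u i) x) :=
    Φ.symm.hasFDerivAt.comp (graphPt x₀ κ ν (u i) x)
      ((hasFDerivAt_id (graphPt x₀ κ ν (u i) x)).sub_const x₀)
  have h5 := HasFDerivAt.comp (f := fun y => Φ.symm (y - x₀)) (graphPt x₀ κ ν (u i) x) h2 h3
  have h4 : fderiv ℝ Z (graphPt x₀ κ ν (u i) x) = (Φ : (E m × ℝ) →L[ℝ] X).comp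
      ((fderiv ℝ Xf (x, u i x)).comp (Φ.symm : X →L[ℝ] (E m × ℝ))) :=
    (Φ.hasFDerivAt.comp (graphPt x₀ κ ν (u i) x) h5).fderiv
  simp only [tanDiv, h4]
  exact (trace_v2 h.unit h.orth hΦ _ _).symm

end Pool.Agent.Lib.MP_8daebb_an.LH
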