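import Pool.Agent.Lib.MP_8daebb_an.LH.V0
import Pool.Agent.Lib.MP_8daebb_an.LG.Prop

open MeasureTheory Metric Set Filter Topology
open scoped RealInnerProductSpace NNReal ContDiff
open Pool.Agent.Lib.MP_8daebb_an.LG

namespace Pool.Agent.Lib.MP_8daebb_an.LH

variable {m N : ℕ} {X : Type} [NormedAddCommGroup X] [InnerProductSpace ℝ X]
  [FiniteDimensional ℝ X] [MeasurableSpace X] [BorelSpace X]
  {V : Measure (X × (X →L[ℝ] X))} {x₀ ν : X} {κ : E m →ₗᵢ[ℝ] X} {R : ℝ} {u : Fin N → E m → ℝ}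
  {L : ℝ≥0}

/-! V3. A flat tangent cone gives a common gradient. -/

omit [MeasurableSpace X] [BorelSpace X] in
theorem normal_v3 (hd : Module.finrank ℝ X = m + 1) (ι : E m →ₗᵢ[ℝ] X) :
    ∃ n : X, n ≠ 0 ∧ ∀ p, ⟪ι p, n⟫ = 0 := by
  have h1 : Module.finrank ℝ (LinearMap.range ι.toLinearMap) = m := by
    rw [LinearMap.finrank_range_of_inj ι.injective]
    simp
  have h2 := Submodule.finrank_add_finrank_orthogonal (LinearMap.range ι.toLinearMap)
  have h3 : (LinearMap.range ι.toLinearMap)ᗮ ≠ ⊥ := by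
    intro h
    rw [h, finrank_bot] at h2
    omega
  obtain ⟨n, hn, hn0⟩ := Submodule.exists_mem_ne_zero_of_ne_bot h3
  exact ⟨n, hn0, fun p => hn _ ⟨p, rfl⟩⟩

/-- The test function. -/
noncomputable def phi_v3 (n : X) (A : ℝ) (y : X) : ℝ := ⟪y, n⟫ ^ 2 * max (A - ‖y‖) 0

omit [FiniteDimensional ℝ X] [MeasurableSpace X] [BorelSpace X] in
theorem cont_v3 (n : X) (A : ℝ) : Continuous (phi_v3 n A) := by
  unfold phi_v3
  fun_prop

omit [FiniteDimensional ℝ X] [MeasurableSpace X] [BorelSpace X] in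
theorem zero_v3 (n : X) {A : ℝ} {y : X} (h : A ≤ ‖y‖) : phi_v3 n A y = 0 := by
  unfold phi_v3
  rw [max_eq_right (by linarith), mul_zero]

omit [FiniteDimensional ℝ X] [MeasurableSpace X] [BorelSpace X] in
theorem nonneg_v3 (n : X) (A : ℝ) (y : X) : 0 ≤ phi_v3 n A y :=
  mul_nonneg (sq_nonneg _) (le_max_right _ _)

theorem est_v3 (h : MG V x₀ κ ν R L u) (h0 : ∀ i, u i 0 = 0) (n : X) (i : Fin N) {r : ℝ}
    (hr : 0 < r) (hrR : (L + 2) * r ≤ R) :
    (∫ x in ball 0 r, ⟪graphPt x₀ κ ν (u i) x - x₀, n⟫ ^ 2) / r ^ 2 ≤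
      ∫ y, phi_v3 n (L + 2) (r⁻¹ • (y - x₀)) ∂V.fst := by
  have hL : (0 : ℝ) ≤ L := L.coe_nonneg
  have hc : Continuous fun y : X => phi_v3 n (L + 2) (r⁻¹ • (y - x₀)) :=
    (cont_v3 n _).comp (by fun_prop)
  have hz : ∀ y : X, (L + 2) * r ≤ ‖y - x₀‖ → phi_v3 n (L + 2) (r⁻¹ • (y - x₀)) = 0 := by
    intro y hy
    refine zero_v3 n ?_
    rw [norm_smul, norm_inv, Real.norm_of_nonneg hr.le, inv_mul_eq_div, le_div_iff₀ hr]
    exact hy
  have e1 : ∫ y, phi_v3 n (L + 2) (r⁻¹ • (y - x₀)) ∂V.fst =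
      ∫ z, phi_v3 n (L + 2) (r⁻¹ • (z.1 - x₀)) ∂V := by
    rw [Measure.fst, integral_map measurable_fst.aemeasurable hc.aestronglyMeasurable]
  have e2 := h.integral (φ := fun z => phi_v3 n (L + 2) (r⁻¹ • (z.1 - x₀)))
    (hc.comp continuous_fst) fun z hz' => hz z.1 (hrR.trans (by
      rw [mem_ball_iff_norm, not_lt] at hz'
      exact hz'))
  rw [e1, e2]
  have hW : ∀ j x, 0 ≤ W (gradient (u j) x) := fun j x => zero_le_one.trans (one_le_W _)
  refine le_trans ?_ (Finset.single_le_sum (f := fun j => ∫ x, W (gradient (u j) x) *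
    phi_v3 n (L + 2) (r⁻¹ • (graphPt x₀ κ ν (u j) x - x₀)))
    (fun j _ => integral_nonneg fun x => mul_nonneg (hW j x) (nonneg_v3 _ _ _))
    (Finset.mem_univ i))
  have hG : Continuous (graphPt x₀ κ ν (u i)) := continuous_graphPt (h.lip i).continuous
  have hn : ∀ x, ‖graphPt x₀ κ ν (u i) x - x₀‖ ^ 2 = ‖x‖ ^ 2 + u i x ^ 2 :=
    norm_graphPt h.unit h.orth (u i)
  have hint : Integrable fun x => W (gradient (u i) x) *
      phi_v3 n (L + 2) (r⁻¹ • (graphPt x₀ κ ν (u i) x - x₀)) := by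
    have := int_cut (c := (0 : E m)) (r := (L + 2) * r) (by positivity)
      (φ := fun x => phi_v3 n (L + 2) (r⁻¹ • (graphPt x₀ κ ν (u i) x - x₀)))
      (f := fun x => W (gradient (u i) x)) (hc.comp hG) (fun x hx => hz _ (by
        rw [mem_ball_zero_iff, not_lt] at hx
        refine hx.trans ((le_of_pow_le_pow_left₀ two_ne_zero (norm_nonneg _) ?_))
        rw [hn]
        linarith [sq_nonneg (u i x)]))
      (contDiff_W.continuous.measurable.comp (meas_grad _)).aestronglyMeasurable (C := WL L)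
      (Eventually.of_forall fun x _ => by
        rw [abs_of_nonneg (hW i x)]
        exact W_le_WL (norm_grad_le (h.lip i) x))
    simpa only [mul_comm] using this
  rw [← integral_div]
  refine le_trans ?_ (setIntegral_le_integral (s := ball 0 r) hint
    (Eventually.of_forall fun x => mul_nonneg (hW i x) (nonneg_v3 _ _ _)))
  refine setIntegral_mono_on ?_ hint.integrableOn measurableSet_ball fun x hx => ?_
  · exact ((Continuous.continuousOn (by fun_prop)).integrableOn_compact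
      (isCompact_closedBall (0 : E m) r)).mono_set ball_subset_closedBall
  · rw [mem_ball_zero_iff] at hx
    have h1 : |u i x| ≤ L * ‖x‖ := by
      have := (h.lip i).dist_le_mul x 0
      rwa [h0 i, dist_zero_right, dist_zero_right, Real.norm_eq_abs] at this
    have h2 : u i x ^ 2 ≤ (L * ‖x‖) ^ 2 := by
      rw [← sq_abs]
      exact pow_le_pow_left₀ (abs_nonneg _) h1 2
    have h3 : ‖graphPt x₀ κ ν (u i) x - x₀‖ ≤ (L + 1) * ‖x‖ := by
      refine le_of_pow_le_pow_left₀ two_ne_zero (by positivity) ?_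
      rw [hn]
      nlinarith [mul_nonneg hL (sq_nonneg ‖x‖)]
    have h4 : ‖r⁻¹ • (graphPt x₀ κ ν (u i) x - x₀)‖ ≤ L + 1 := by
      rw [norm_smul, norm_inv, Real.norm_of_nonneg hr.le, inv_mul_eq_div, div_le_iff₀ hr]
      exact h3.trans (mul_le_mul_of_nonneg_left hx.le (by positivity))
    have h5 : (1 : ℝ) ≤ max (L + 2 - ‖r⁻¹ • (graphPt x₀ κ ν (u i) x - x₀)‖) 0 :=
      le_max_of_le_left (by linarith)
    have h6 : ⟪r⁻¹ • (graphPt x₀ κ ν (u i) x - x₀), n⟫ ^ 2 =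
        ⟪graphPt x₀ κ ν (u i) x - x₀, n⟫ ^ 2 / r ^ 2 := by
      rw [real_inner_smul_left]
      field_simp
    unfold phi_v3
    rw [← h6]
    exact le_trans (le_mul_of_one_le_right (sq_nonneg _) h5)
      (le_mul_of_one_le_left (mul_nonneg (sq_nonneg _) (le_max_right _ _)) (one_le_W _))

theorem little_v3 (h : MG V x₀ κ ν R L u) (h0 : ∀ i, u i 0 = 0) {Θ : ℝ} {ι : E m →ₗᵢ[ℝ] X}
    (ht : HasFlatTangent m V.fst x₀ Θ ι) {n : X} (hn : ∀ p, ⟪ι p, n⟫ = 0) (i : Fin N) :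
    (fun x => ⟪graphPt x₀ κ ν (u i) x - x₀, n⟫) =o[𝓝 0] fun x : E m => x := by
  have hL : (0 : ℝ) ≤ L := L.coe_nonneg
  have hcs : HasCompactSupport (phi_v3 n (L + 2)) :=
    HasCompactSupport.intro (isCompact_closedBall (0 : X) (L + 2)) fun y hy => zero_v3 n (by
      rw [mem_closedBall_zero_iff, not_le] at hy
      exact hy.le)
  have h1 := ht _ (cont_v3 n (L + 2)) hcs
  have e : ∀ p, phi_v3 n (L + 2) (ι p) = 0 := fun p => by simp [phi_v3, hn p]
  simp only [e, integral_zero, mul_zero] at h1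
  have hlip : LipschitzWith ((1 + L) * ‖n‖₊) fun x => ⟪graphPt x₀ κ ν (u i) x - x₀, n⟫ := by
    refine LipschitzWith.of_dist_le_mul fun x y => ?_
    rw [Real.dist_eq, ← inner_sub_left, sub_sub_sub_cancel_right]
    refine (abs_real_inner_le_norm _ _).trans ?_
    have h2 : ‖graphPt x₀ κ ν (u i) x - graphPt x₀ κ ν (u i) y‖ ≤ (1 + L) * dist x y := by
      refine le_of_pow_le_pow_left₀ two_ne_zero (by positivity) ?_
      rw [norm_graphPt_sub h.unit h.orth, ← dist_eq_norm, ← sq_abs (u i x - u i y),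
        ← Real.dist_eq]
      have h3 := pow_le_pow_left₀ dist_nonneg ((h.lip i).dist_le_mul x y) 2
      nlinarith [mul_nonneg hL (sq_nonneg (dist x y))]
    push_cast
    calc _ ≤ (1 + L) * dist x y * ‖n‖ := mul_le_mul_of_nonneg_right h2 (norm_nonneg _)
      _ = _ := by ring
  have hg0 : ⟪graphPt x₀ κ ν (u i) 0 - x₀, n⟫ = 0 := by simp [graphPt, h0 i]
  obtain ⟨K, hK⟩ : ∃ K : ℝ≥0, K = (1 + L) * ‖n‖₊ := ⟨_, rfl⟩
  rw [← hK] at hlip
  obtain ⟨C, hC, HC⟩ := lip_interp m K (B := K + 1) (by positivity)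
  rw [Asymptotics.isLittleO_iff]
  intro ε hε
  have h2 : ∀ᶠ r in 𝓝[>] (0 : ℝ), (∫ y, phi_v3 n (L + 2) (r⁻¹ • (y - x₀)) ∂V.fst) / r ^ m <
      (ε / 2) ^ (m + 2) / C := h1.eventually (gt_mem_nhds (by positivity))
  obtain ⟨δ, hδ, h3⟩ := mem_nhdsGT_iff_exists_Ioo_subset.mp h2
  have hδ0 : 0 < δ := hδ
  have hR := h.R_pos
  filter_upwards [ball_mem_nhds (0 : E m) (show 0 < min δ (R / (L + 2)) / 2 by positivity)]
    with x hx
  rw [mem_ball_zero_iff] at hx
  rcases eq_or_ne x 0 with rfl | hx0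
  · simp [hg0]
  have hxp : 0 < ‖x‖ := norm_pos_iff.mpr hx0
  have hr : 0 < 2 * ‖x‖ := by positivity
  have h4 : 2 * ‖x‖ < δ := by linarith [min_le_left δ (R / (L + 2))]
  have h5 : (L + 2) * (2 * ‖x‖) ≤ R := by
    have : 2 * ‖x‖ ≤ R / (L + 2) := by linarith [min_le_right δ (R / (L + 2))]
    rwa [le_div_iff₀ (by positivity), mul_comm] at this
  have h6 := est_v3 h h0 n i hr h5
  have h7 : (∫ y, phi_v3 n (L + 2) ((2 * ‖x‖)⁻¹ • (y - x₀)) ∂V.fst) / (2 * ‖x‖) ^ m <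
      (ε / 2) ^ (m + 2) / C := h3 ⟨hr, h4⟩
  have h8 := HC _ hlip 0 (2 * ‖x‖) hr x (by rw [mem_ball_zero_iff]; linarith) (by
    have := hlip.dist_le_mul x 0
    rw [hg0, dist_zero_right, dist_zero_right, Real.norm_eq_abs] at this
    nlinarith [K.coe_nonneg])
  have h9 : (|⟪graphPt x₀ κ ν (u i) x - x₀, n⟫| / (2 * ‖x‖)) ^ (m + 2) ≤ (ε / 2) ^ (m + 2) := by
    refine h8.trans ?_
    rw [lt_div_iff₀ hC] at h7
    refine le_trans ?_ h7.le
    rw [mul_div_assoc, mul_comm C, div_right_comm]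
    gcongr
  have h10 := le_of_pow_le_pow_left₀ (by omega) (by positivity) h9
  rw [div_le_iff₀ hr] at h10
  rw [Real.norm_eq_abs]
  linarith

theorem MG.gradient (h : MG V x₀ κ ν R L u) (h0 : ∀ i, u i 0 = 0) (hN : 0 < N) {Θ : ℝ}
    {ι : E m →ₗᵢ[ℝ] X} (ht : HasFlatTangent m V.fst x₀ Θ ι) :
    ∃ p : E m, ∀ i, HasGradientAt (u i) p 0 := by
  obtain ⟨n, hn0, hn⟩ := normal_v3 h.dim ι
  obtain ⟨b, hb⟩ := h.split n
  obtain ⟨a, ha⟩ : ∃ a : ℝ, a = ⟪ν, n⟫ := ⟨_, rfl⟩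
  have e : ∀ i x, ⟪graphPt x₀ κ ν (u i) x - x₀, n⟫ = ⟪b, x⟫ + a * u i x := fun i x => by
    have e1 : ⟪κ x, n⟫ = ⟪b, x⟫ := by
      rw [hb, inner_add_right, real_inner_smul_right, real_inner_comm ν, h.orth, mul_zero, add_zero,
        LinearIsometry.inner_map_map, real_inner_comm]
    rw [graphPt, add_assoc, add_sub_cancel_left, inner_add_left, real_inner_smul_left, e1, ha,
      mul_comm]
  have hl : ∀ i, (fun x => ⟪b, x⟫ + a * u i x) =o[𝓝 0] fun x : E m => x := fun i => by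
    simpa only [e] using little_v3 h h0 ht hn i
  have ha0 : a ≠ 0 := by
    intro h1
    have h2 := hl ⟨0, hN⟩
    simp only [h1, zero_mul, add_zero] at h2
    have h3 : HasFDerivAt (fun x : E m => ⟪b, x⟫) (0 : E m →L[ℝ] ℝ) 0 := by
      rw [hasFDerivAt_iff_isLittleO_nhds_zero]
      simpa using h2
    have h4 : HasFDerivAt (fun x : E m => ⟪b, x⟫) (innerSL ℝ b) 0 := (innerSL ℝ b).hasFDerivAt
    have h5 : ⟪b, b⟫ = 0 := by
      have := congrArg (fun T : E m →L[ℝ] ℝ => T b) (h4.unique h3)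
      simpa using this
    rw [inner_self_eq_zero] at h5
    apply hn0
    rw [hb, ← ha, h1, h5]
    simp
  refine ⟨-(a⁻¹ • b), fun i => ?_⟩
  rw [hasGradientAt_iff_hasFDerivAt, hasFDerivAt_iff_isLittleO_nhds_zero]
  refine ((hl i).const_mul_left a⁻¹).congr_left fun x => ?_
  simp only [zero_add, h0 i, sub_zero, InnerProductSpace.toDual_apply_apply, inner_neg_left,
    real_inner_smul_left]
  field_simp
  ring

end Pool.Agent.Lib.MP_8daebb_an.LH
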