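import Pool.Agent.Lib.MP_8daebb_an.LH.V0
import Pool.Agent.Lib.MP_8daebb_an.LH.BLin

open MeasureTheory Metric Set Filter Topology
open scoped RealInnerProductSpace NNReal ContDiff
open Pool.Agent.Lib.MP_8daebb_an.LG

namespace Pool.Agent.Lib.MP_8daebb_an.LH

variable {m N : ℕ} {X : Type} [NormedAddCommGroup X] [InnerProductSpace ℝ X]
  [FiniteDimensional ℝ X] [MeasurableSpace X] [BorelSpace X]
  {V : Measure (X × (X →L[ℝ] X))} {x₀ ν : X} {κ : E m →ₗᵢ[ℝ] X} {R : ℝ} {u : Fin N → E m → ℝ}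
  {L : ℝ≥0}

/-! V4. The density at the base point is at least the number of sheets. -/

/-- Convexity of the area element. -/
theorem W_conv_v4 (p q : E m) : W p + ⟪q - p, p⟫ / W p ≤ W q := by
  have hp := W_pos_alga p
  have hq := W_pos_alga q
  have h1 : 1 + ⟪q, p⟫ ≤ W q * W p := by
    have h2 : ⟪q, p⟫ ≤ ‖q‖ * ‖p‖ := real_inner_le_norm q p
    have h3 : 1 + ‖q‖ * ‖p‖ ≤ W q * W p := by
      refine (abs_le_of_sq_le_sq' ?_ (by positivity)).2
      rw [mul_pow, W_sq, W_sq]
      nlinarith [sq_nonneg (‖q‖ - ‖p‖)]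
    linarith
  rw [inner_sub_left, real_inner_self_eq_norm_sq, add_div' _ _ _ hp.ne', div_le_iff₀ hp]
  have := W_sq p
  nlinarith

theorem norm_le_TI_v4 (p x : E m) : ‖x‖ ≤ ‖TI p x‖ := by
  have := norm_TT_le p (TI p x)
  rwa [TT_TI] at this

/-- The cut-off function adapted to the plane of slope `p`. -/
noncomputable def cut_v4 (p : E m) (t δ : ℝ) (x : E m) : ℝ :=
  max 0 (min 1 ((t - ‖TI p x‖) / (δ * t)))

theorem cut_nonneg_v4 (p : E m) (t δ : ℝ) (x : E m) : 0 ≤ cut_v4 p t δ x := le_max_left _ _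

theorem cut_le_one_v4 (p : E m) (t δ : ℝ) (x : E m) : cut_v4 p t δ x ≤ 1 :=
  max_le zero_le_one (min_le_left _ _)

theorem cut_eq_zero_v4 (p : E m) {t δ : ℝ} (ht : 0 < t) (hδ : 0 < δ) {x : E m}
    (hx : t ≤ ‖TI p x‖) : cut_v4 p t δ x = 0 := by
  unfold cut_v4
  refine max_eq_left ((min_le_right _ _).trans ?_)
  exact div_nonpos_of_nonpos_of_nonneg (by linarith) (by positivity)

theorem cut_eq_one_v4 (p : E m) {t δ : ℝ} (ht : 0 < t) (hδ : 0 < δ) {x : E m}
    (hx : ‖TI p x‖ ≤ (1 - δ) * t) : cut_v4 p t δ x = 1 := by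
  unfold cut_v4
  rw [min_eq_left, max_eq_right zero_le_one]
  rw [le_div_iff₀ (by positivity)]
  linarith

theorem cut_lip_v4 (p : E m) {t δ : ℝ} (ht : 0 < t) (hδ : 0 < δ) :
    LipschitzWith (W p / (δ * t)).toNNReal (cut_v4 p t δ) := by
  have h : LipschitzWith (W p / (δ * t)).toNNReal fun x => (t - ‖TI p x‖) / (δ * t) := by
    refine LipschitzWith.of_dist_le' fun x y => ?_
    have hd : 0 < δ * t := by positivity
    rw [Real.dist_eq, dist_eq_norm, ← sub_div, abs_div, abs_of_pos hd, div_mul_eq_mul_div]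
    refine div_le_div_of_nonneg_right ?_ hd.le
    have h1 : t - ‖TI p x‖ - (t - ‖TI p y‖) = ‖TI p y‖ - ‖TI p x‖ := by ring
    rw [h1, abs_sub_comm]
    refine (abs_norm_sub_norm_le _ _).trans ?_
    rw [← map_sub]
    exact norm_TI_le p _
  exact (h.const_min 1).const_max 0

theorem cut_supp_v4 (p : E m) {t δ : ℝ} (ht : 0 < t) (hδ : 0 < δ) :
    tsupport (cut_v4 p t δ) ⊆ closedBall 0 t := by
  refine closure_minimal (fun x hx => ?_) isClosed_closedBall
  by_contra hc
  rw [mem_closedBall_zero_iff, not_le] at hc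
  exact hx (cut_eq_zero_v4 p ht hδ (hc.le.trans (norm_le_TI_v4 p x)))

theorem cut_int_v4 (p : E m) {t δ : ℝ} (ht : 0 < t) (hδ : 0 < δ) (hδ1 : δ < 1) :
    vb m * ((1 - δ) * t) ^ m ≤ W p * ∫ x, cut_v4 p t δ x := by
  have hr : 0 < (1 - δ) * t := mul_pos (by linarith) ht
  rw [← int_lc _ p 0, ← vol_ball 0 hr, ← integral_indicator_one measurableSet_ball]
  have hc : Continuous fun x => cut_v4 p t δ (0 + TT p x) :=
    (cut_lip_v4 p ht hδ).continuous.comp (continuous_const.add (TT p).continuous)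
  refine integral_mono ?_ ?_ fun x => ?_
  · exact (integrable_indicator_iff measurableSet_ball).2
      (integrableOn_const measure_ball_lt_top.ne)
  · refine int_of_compact hc.aestronglyMeasurable (isCompact_closedBall 0 t) (C := 1)
      (Eventually.of_forall fun x _ => ?_) (Eventually.of_forall fun x hx => ?_)
    · rw [Real.norm_eq_abs, abs_of_nonneg (cut_nonneg_v4 _ _ _ _)]
      exact cut_le_one_v4 _ _ _ _
    · rw [mem_closedBall_zero_iff, not_le] at hx
      refine cut_eq_zero_v4 p ht hδ ?_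
      rw [zero_add, TI_TT]
      exact hx.le
  · by_cases hx : x ∈ ball (0 : E m) ((1 - δ) * t)
    · rw [indicator_of_mem hx]
      refine (cut_eq_one_v4 p ht hδ ?_).ge
      rw [zero_add, TI_TT]
      exact (mem_ball_zero_iff.1 hx).le
    · rw [indicator_of_notMem hx]
      exact cut_nonneg_v4 _ _ _ _

theorem grad_inner_v4 (p x : E m) : HasGradientAt (fun y : E m => ⟪p, y⟫) p x := by
  rw [hasGradientAt_iff_hasFDerivAt]
  exact (innerSL ℝ p).hasFDerivAt

/-- Integration by parts against the cut-off function. -/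
theorem parts_v4 {f : E m → ℝ} (hf : LipschitzWith L f) (p : E m) {t δ η : ℝ} (ht : 0 < t)
    (hδ : 0 < δ) (hη : 0 ≤ η) (hg : ∀ x, ‖x‖ ≤ t → |f x - ⟪p, x⟫| ≤ η * t) :
    Integrable (fun x => cut_v4 p t δ x * ⟪gradient f x - p, p⟫) ∧
      -(vb m * (2 * t) ^ m * (η * ‖p‖ * W p / δ)) ≤
        ∫ x, cut_v4 p t δ x * ⟪gradient f x - p, p⟫ := by
  have hχ := cut_lip_v4 p ht hδ
  have hW := W_pos_alga p
  have hgl : LocallyLipschitz fun x : E m => f x - ⟪p, x⟫ :=
    (hf.sub (innerSL ℝ p).lipschitz).locallyLipschitz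
  have hI1 : Integrable (fun x => cut_v4 p t δ x * ⟪gradient f x - p, p⟫) := by
    refine int_of_compact ?_ (isCompact_closedBall 0 t) (C := 1 * ((L + ‖p‖) * ‖p‖))
      (Eventually.of_forall fun x _ => ?_) (Eventually.of_forall fun x hx => ?_)
    · exact (hχ.continuous.measurable.mul
        (((meas_grad f).sub measurable_const).inner measurable_const)).aestronglyMeasurable
    · rw [norm_mul]
      refine mul_le_mul ?_ ?_ (norm_nonneg _) zero_le_one
      · rw [Real.norm_eq_abs, abs_of_nonneg (cut_nonneg_v4 _ _ _ _)]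
        exact cut_le_one_v4 _ _ _ _
      · refine (norm_inner_le_norm _ _).trans (mul_le_mul_of_nonneg_right ?_ (norm_nonneg _))
        exact (norm_sub_le _ _).trans (add_le_add (norm_grad_le hf x) le_rfl)
    · rw [image_eq_zero_of_notMem_tsupport fun h => hx (cut_supp_v4 p ht hδ h), zero_mul]
  have hb : ∀ x, ‖(f x - ⟪p, x⟫) * ⟪gradient (cut_v4 p t δ) x, p⟫‖ ≤
      (ball (0 : E m) (2 * t)).indicator (fun _ => η * ‖p‖ * W p / δ) x := by
    intro x
    by_cases hx : x ∈ closedBall (0 : E m) t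
    · rw [indicator_of_mem (closedBall_subset_ball (by linarith) hx), norm_mul]
      have h1 : ‖f x - ⟪p, x⟫‖ ≤ η * t := hg x (mem_closedBall_zero_iff.1 hx)
      have h2 : ‖⟪gradient (cut_v4 p t δ) x, p⟫‖ ≤ W p / (δ * t) * ‖p‖ := by
        refine (norm_inner_le_norm _ _).trans (mul_le_mul_of_nonneg_right ?_ (norm_nonneg _))
        refine (norm_grad_le hχ x).trans (le_of_eq ?_)
        exact Real.coe_toNNReal _ (by positivity)
      refine (mul_le_mul h1 h2 (norm_nonneg _) (by positivity)).trans (le_of_eq ?_)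
      field_simp
    · rw [grad_eq_zero_of_notMem fun h => hx (cut_supp_v4 p ht hδ h), inner_zero_left, mul_zero,
        norm_zero]
      exact indicator_nonneg (fun _ _ => by positivity) _
  have hIb : Integrable ((ball (0 : E m) (2 * t)).indicator fun _ => η * ‖p‖ * W p / δ) :=
    (integrable_indicator_iff measurableSet_ball).2 (integrableOn_const measure_ball_lt_top.ne)
  have hI2 : Integrable fun x => (f x - ⟪p, x⟫) * ⟪gradient (cut_v4 p t δ) x, p⟫ := by
    refine hIb.mono' ?_ (Eventually.of_forall hb)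
    exact (hgl.continuous.measurable.mul
      ((meas_grad _).inner measurable_const)).aestronglyMeasurable
  have hz := integral_grad_eq_zero (locLip_mul hχ.locallyLipschitz hgl)
    (HasCompactSupport.mul_right
      ((isCompact_closedBall 0 t).of_isClosed_subset (isClosed_tsupport _)
        (cut_supp_v4 p ht hδ))) p
  have he : ∫ x, ⟪gradient (fun y => cut_v4 p t δ y * (f y - ⟪p, y⟫)) x, p⟫ =
      ∫ x, (cut_v4 p t δ x * ⟪gradient f x - p, p⟫ +
        (f x - ⟪p, x⟫) * ⟪gradient (cut_v4 p t δ) x, p⟫) := by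
    refine integral_congr_ae ?_
    filter_upwards [locLip_ae_diff hχ.locallyLipschitz, locLip_ae_diff hf.locallyLipschitz]
      with x h1 h2
    have h3 := grad_inner_v4 p x
    rw [grad_mul h1 (h2.fun_sub h3.differentiableAt), grad_sub h2 h3.differentiableAt, h3.gradient,
      inner_add_left, real_inner_smul_left, real_inner_smul_left]
  rw [he, integral_add hI1 hI2] at hz
  refine ⟨hI1, ?_⟩
  have h4 := norm_integral_le_of_norm_le hIb (Eventually.of_forall hb)
  rw [integral_indicator_const _ measurableSet_ball, vol_ball 0 (by positivity), smul_eq_mul,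
    Real.norm_eq_abs] at h4
  linarith [le_abs_self (∫ x, (f x - ⟪p, x⟫) * ⟪gradient (cut_v4 p t δ) x, p⟫)]

/-- The area of one sheet. -/
theorem sheet_v4 {f : E m → ℝ} (hf : LipschitzWith L f) (p : E m) {t δ η ρ : ℝ} (ht : 0 < t)
    (hδ : 0 < δ) (hδ1 : δ < 1) (hη : 0 ≤ η) (hg : ∀ x, ‖x‖ ≤ t → |f x - ⟪p, x⟫| ≤ η * t)
    {S : Set (E m)} (hS : MeasurableSet S) (hSb : S ⊆ ball 0 ρ)
    (hsub : ∀ x, ‖TI p x‖ < t → x ∈ S) :
    vb m * t ^ m * ((1 - δ) ^ m - 2 ^ m * (η * ‖p‖ / δ)) ≤ ∫ x in S, W (gradient f x) := by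
  obtain ⟨hI, hP⟩ := parts_v4 hf p ht hδ hη hg
  have hW := W_pos_alga p
  have hχ := cut_lip_v4 p ht hδ
  have hIχ : Integrable (cut_v4 p t δ) :=
    hχ.continuous.integrable_of_hasCompactSupport
      ((isCompact_closedBall 0 t).of_isClosed_subset (isClosed_tsupport _) (cut_supp_v4 p ht hδ))
  have hIW : IntegrableOn (fun x => W (gradient f x)) S := by
    refine IntegrableOn.mono_set (intOn_ball (C := WL L) ?_ (Eventually.of_forall fun x _ => ?_))
      hSb
    · exact (contDiff_W.continuous.measurable.comp (meas_grad f)).aestronglyMeasurable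
    · rw [Real.norm_eq_abs, abs_of_pos (W_pos_alga _)]
      exact W_le_WL (norm_grad_le hf x)
  have h1 : ∫ x, (W p * cut_v4 p t δ x + (W p)⁻¹ * (cut_v4 p t δ x * ⟪gradient f x - p, p⟫)) ≤
      ∫ x in S, W (gradient f x) := by
    rw [← integral_indicator hS]
    refine integral_mono ((hIχ.const_mul _).add (hI.const_mul _))
      ((integrable_indicator_iff hS).2 hIW) fun x => ?_
    have h2 : W p * cut_v4 p t δ x + (W p)⁻¹ * (cut_v4 p t δ x * ⟪gradient f x - p, p⟫) =
        cut_v4 p t δ x * (W p + ⟪gradient f x - p, p⟫ / W p) := by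
      field_simp
    refine h2.trans_le ((mul_le_mul_of_nonneg_left (W_conv_v4 p _) (cut_nonneg_v4 _ _ _ _)).trans ?_)
    by_cases hx : x ∈ S
    · rw [indicator_of_mem hx]
      exact mul_le_of_le_one_left (W_pos_alga _).le (cut_le_one_v4 _ _ _ _)
    · rw [indicator_of_notMem hx, cut_eq_zero_v4 p ht hδ (not_lt.1 fun h => hx (hsub x h)),
        zero_mul]
  rw [integral_add (hIχ.const_mul _) (hI.const_mul _), integral_const_mul, integral_const_mul] at h1
  have h3 := cut_int_v4 p ht hδ hδ1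
  have h4 := mul_le_mul_of_nonneg_left hP (inv_nonneg.2 hW.le)
  have h5 : (W p)⁻¹ * -(vb m * (2 * t) ^ m * (η * ‖p‖ * W p / δ)) =
      -(vb m * t ^ m * (2 ^ m * (η * ‖p‖ / δ))) := by
    rw [mul_pow]
    field_simp
  rw [h5] at h4
  rw [mul_pow] at h3
  linarith

theorem MG.le_density (h : MG V x₀ κ ν R L u) (h0 : ∀ i, u i 0 = 0) {p : E m}
    (hp : ∀ i, HasGradientAt (u i) p 0) {Θ : ℝ} (hd : HasDensity m V.fst x₀ Θ) : (N : ℝ) ≤ Θ := by
  have hv := vb_pos m
  have key : ∀ δ : ℝ, 0 < δ → δ < 1 →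
      N * (((1 - δ) ^ m - 2 ^ m * (δ * ‖p‖)) / (1 + δ ^ 2) ^ m) ≤ Θ := by
    intro δ hδ hδ1
    have hη : 0 < δ ^ 2 := by positivity
    have ho : ∀ᶠ x in 𝓝 (0 : E m), ∀ i, |u i x - ⟪p, x⟫| ≤ δ ^ 2 * ‖x‖ := by
      refine eventually_all.2 fun i => ?_
      have h1 := (hasGradientAt_iff_isLittleO.1 (hp i)).def hη
      simpa [h0 i] using h1
    obtain ⟨ε, hε, hεo⟩ := Metric.eventually_nhds_iff.1 ho
    refine ge_of_tendsto hd ?_
    filter_upwards [Ioo_mem_nhdsGT (lt_min hε h.R_pos)] with r hr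
    have hr0 : 0 < r := hr.1
    have hrε : r < ε := hr.2.trans_le (min_le_left _ _)
    have hrR : r < R := hr.2.trans_le (min_le_right _ _)
    have h1η : 0 < 1 + δ ^ 2 := by positivity
    set t := r / (1 + δ ^ 2) with htdef
    have ht : 0 < t := by positivity
    have htr : t + δ ^ 2 * t = r := by
      rw [htdef]
      field_simp
    have htε : t < ε := by nlinarith [mul_pos hη ht]
    have hg : ∀ i x, ‖x‖ ≤ t → |u i x - ⟪p, x⟫| ≤ δ ^ 2 * t := fun i x hx =>
      (hεo (by rw [dist_zero_right]; linarith) i).trans (mul_le_mul_of_nonneg_left hx hη.le)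
    have hs : ∀ i, vb m * t ^ m * ((1 - δ) ^ m - 2 ^ m * (δ ^ 2 * ‖p‖ / δ)) ≤
        ∫ x in graphPt x₀ κ ν (u i) ⁻¹' ball x₀ r, W (gradient (u i) x) := by
      intro i
      refine sheet_v4 (h.lip i) p (ρ := r) ht hδ hδ1 hη.le (hg i)
        ((continuous_graphPt (h.lip i).continuous).measurable measurableSet_ball)
        (fun x hx => ?_) fun x hx => ?_
      · rw [mem_preimage, mem_ball, dist_eq_norm] at hx
        have h2 := norm_graphPt (x₀ := x₀) h.unit h.orth (u i) x
        rw [mem_ball_zero_iff]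
        refine lt_of_le_of_lt (abs_le_of_sq_le_sq' ?_ (norm_nonneg _)).2 hx
        nlinarith [sq_nonneg (u i x)]
      · rw [mem_preimage, mem_ball, dist_eq_norm]
        have h2 := norm_graphPt (x₀ := x₀) h.unit h.orth (u i) x
        have h3 := norm_TI_sq p x
        have h4 := hg i x ((norm_le_TI_v4 p x).trans hx.le)
        have h5 : |⟪p, x⟫| ≤ ‖TI p x‖ :=
          abs_le_of_sq_le_sq (by nlinarith [sq_nonneg ‖x‖]) (norm_nonneg _)
        have h6 : ‖graphPt x₀ κ ν (u i) x - x₀‖ ≤ ‖TI p x‖ + |u i x - ⟪p, x⟫| := by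
          refine (abs_le_of_sq_le_sq' ?_ (by positivity)).2
          have h7 : ⟪p, x⟫ * (u i x - ⟪p, x⟫) ≤ ‖TI p x‖ * |u i x - ⟪p, x⟫| := by
            refine (le_abs_self _).trans ?_
            rw [abs_mul]
            exact mul_le_mul_of_nonneg_right h5 (abs_nonneg _)
          have h8 := sq_abs (u i x - ⟪p, x⟫)
          nlinarith
        linarith
    rw [(h.weight_real measurableSet_ball (ball_subset_ball hrR.le)).2]
    have hsum := Finset.sum_le_sum fun i (_ : i ∈ Finset.univ) => hs i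
    rw [Finset.sum_const, Finset.card_univ, Fintype.card_fin, nsmul_eq_mul] at hsum
    have hom : omega m = vb m := rfl
    rw [hom, le_div_iff₀ (by positivity)]
    refine le_trans (le_of_eq ?_) hsum
    rw [htdef, div_pow]
    field_simp
  have hc : Continuous fun δ : ℝ =>
      (N : ℝ) * (((1 - δ) ^ m - 2 ^ m * (δ * ‖p‖)) / (1 + δ ^ 2) ^ m) := by
    refine continuous_const.mul (Continuous.div (by fun_prop) (by fun_prop) fun δ => ?_)
    positivity
  have hl := (hc.tendsto 0).mono_left (nhdsWithin_le_nhds (s := Ioi 0))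
  simp only [sub_zero, one_pow, zero_mul, mul_zero, ne_eq, OfNat.ofNat_ne_zero, not_false_eq_true,
    zero_pow, add_zero, div_one, mul_one] at hl
  refine le_of_tendsto hl ?_
  filter_upwards [Ioo_mem_nhdsGT (zero_lt_one' ℝ)] with δ hδ
  exact key δ hδ.1 hδ.2

end Pool.Agent.Lib.MP_8daebb_an.LH
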