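import Pool.Agent.Lib.MP_8daebb_an.LH.V0
import Pool.Agent.Lib.MP_8daebb_an.LH.BLin
import Pool.Agent.Lib.MP_8daebb_an.LG.Vit

open MeasureTheory Metric Set Filter Topology
open scoped RealInnerProductSpace NNReal ContDiff
open Pool.Agent.Lib.MP_8daebb_an.LG

namespace Pool.Agent.Lib.MP_8daebb_an.LH

variable {m N : ℕ} {X : Type} [NormedAddCommGroup X] [InnerProductSpace ℝ X]
  [FiniteDimensional ℝ X] [MeasurableSpace X] [BorelSpace X]
  {V : Measure (X × (X →L[ℝ] X))} {x₀ ν : X} {κ : E m →ₗᵢ[ℝ] X} {R : ℝ} {u : Fin N → E m → ℝ}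
  {L : ℝ≥0}

/-! V5. The density is at most the number of sheets through the point, almost everywhere. -/

theorem W_le_add_v5 (a b : E m) : W a ≤ W b + ‖a - b‖ := by
  have h1 : ‖a‖ ≤ ‖b‖ + ‖a - b‖ := by
    have : a = b + (a - b) := by abel
    calc ‖a‖ = ‖b + (a - b)‖ := by rw [← this]
      _ ≤ ‖b‖ + ‖a - b‖ := norm_add_le _ _
  have hb := norm_le_W b
  have hW := one_le_W b
  have h0 : 0 ≤ W b + ‖a - b‖ := by positivity
  refine (abs_le_of_sq_le_sq' ?_ h0).2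
  rw [W_sq, add_sq, W_sq]
  have h2 : ‖a‖ ^ 2 ≤ (‖b‖ + ‖a - b‖) ^ 2 := pow_le_pow_left₀ (norm_nonneg _) h1 2
  nlinarith [norm_nonneg (a - b), mul_le_mul_of_nonneg_right hb (norm_nonneg (a - b))]

theorem tilt_v5 {n d e a r δ : ℝ} (hn : 0 ≤ n) (hr : 0 < r) (hδ : 0 ≤ δ) (ha : 0 ≤ a)
    (h : n ^ 2 + d ^ 2 < r ^ 2) (he : |e| ≤ δ * n) (h2 : a ^ 2 = n ^ 2 + (d - e) ^ 2) :
    a < (1 + δ) * r := by
  have hnr : n < r := lt_of_pow_lt_pow_left₀ 2 hr.le (by nlinarith [sq_nonneg d])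
  have hdr : |d| < r := lt_of_pow_lt_pow_left₀ 2 hr.le (by rw [sq_abs]; nlinarith [sq_nonneg n])
  have he' : |e| ≤ δ * r := he.trans (mul_le_mul_of_nonneg_left hnr.le hδ)
  have h3 : -(d * e) ≤ r * (δ * r) := by
    calc -(d * e) ≤ |d * e| := neg_le_abs _
      _ = |d| * |e| := abs_mul _ _
      _ ≤ r * (δ * r) := mul_le_mul hdr.le he' (abs_nonneg _) hr.le
  have h4 : e ^ 2 ≤ (δ * r) ^ 2 := by
    rw [← sq_abs e]; exact pow_le_pow_left₀ (abs_nonneg _) he' 2
  refine lt_of_pow_lt_pow_left₀ 2 (by positivity) ?_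
  nlinarith

theorem vol_ell_v5 (q x : E m) {s : ℝ} (hs : 0 < s) :
    volume {y | ‖TI q (y - x)‖ < s} ≠ ⊤ ∧
      W q * volume.real {y | ‖TI q (y - x)‖ < s} = vb m * s ^ m := by
  have h1 := vol_lc {y | ‖TI q (y - x)‖ < s} q x
  have h2 : {z | x + TT q z ∈ {y | ‖TI q (y - x)‖ < s}} = ball (0 : E m) s := by
    ext z
    simp only [mem_setOf_eq, add_sub_cancel_left, TI_TT, mem_ball_zero_iff]
  rw [h2] at h1
  have hW : 0 < W q := lt_of_lt_of_le one_pos (one_le_W q)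
  constructor
  · intro h
    rw [h, ENNReal.mul_top (by simpa using hW)] at h1
    exact measure_ball_lt_top.ne h1
  · rw [← vol_ball (0 : E m) hs, measureReal_def, measureReal_def, h1, ENNReal.toReal_mul,
      ENNReal.toReal_ofReal hW.le]

theorem pre_sub_v5 (hν : ‖ν‖ = 1) (ho : ∀ q, ⟪ν, κ q⟫ = 0) (f g : E m → ℝ) (x : E m) {r : ℝ}
    {y : E m} (hy : y ∈ graphPt x₀ κ ν g ⁻¹' ball (graphPt x₀ κ ν f x) r) :
    ‖y - x‖ ^ 2 + (g y - f x) ^ 2 < r ^ 2 ∧ ‖y - x‖ < r ∧ |g y - f x| < r := by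
  have h1 : ‖graphPt x₀ κ ν g y - graphPt x₀ κ ν f x‖ < r := by
    rwa [mem_preimage, mem_ball, dist_eq_norm] at hy
  have hr : 0 < r := lt_of_le_of_lt (norm_nonneg _) h1
  have h2 : ‖y - x‖ ^ 2 + (g y - f x) ^ 2 < r ^ 2 := by
    rw [← norm_graphPt_sub (x₀ := x₀) hν ho g f y x]
    exact pow_lt_pow_left₀ h1 (norm_nonneg _) two_ne_zero
  refine ⟨h2, lt_of_pow_lt_pow_left₀ 2 hr.le (by nlinarith [sq_nonneg (g y - f x)]),
    lt_of_pow_lt_pow_left₀ 2 hr.le (by rw [sq_abs]; nlinarith [sq_nonneg ‖y - x‖])⟩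

theorem exists_delta_v5 (m : ℕ) {η : ℝ} (hη : 0 < η) : ∃ δ > 0, (1 + δ) ^ m ≤ 1 + η := by
  have hc : Tendsto (fun δ : ℝ => (1 + δ) ^ m) (𝓝[>] 0) (𝓝 ((1 + 0) ^ m)) :=
    (Continuous.tendsto (by fun_prop) 0).mono_left nhdsWithin_le_nhds
  have h1 : ∀ᶠ δ : ℝ in 𝓝[>] 0, (1 + δ) ^ m < 1 + η :=
    hc.eventually (gt_mem_nhds (by simpa using hη))
  obtain ⟨δ, h2, h3⟩ := (h1.and self_mem_nhdsWithin).exists
  exact ⟨δ, h3, h2.le⟩

/-- The area of one graph in a small ball about one of its points. -/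
theorem ae_area_le (hν : ‖ν‖ = 1) (ho : ∀ q, ⟪ν, κ q⟫ = 0) {f : E m → ℝ} (hf : LipschitzWith L f) :
    ∀ᵐ x, ∀ η > 0, ∀ᶠ r in 𝓝[>] (0 : ℝ),
      ∫ y in graphPt x₀ κ ν f ⁻¹' ball (graphPt x₀ κ ν f x) r, W (gradient f y) ≤
        (1 + η) * (vb m * r ^ m) := by
  have hgm : AEStronglyMeasurable (gradient f) volume := (meas_grad f).aestronglyMeasurable
  have hloc : LocallyIntegrable (gradient f) := by
    intro x
    exact ⟨ball x 1, ball_mem_nhds x one_pos,
      intOn_ball hgm (C := L) (Eventually.of_forall fun y _ => norm_grad_le hf y)⟩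
  filter_upwards [locLip_ae_diff hf.locallyLipschitz, ae_lebesgue_norm hloc] with x hx hleb η hη
  set q := gradient f x with hq
  obtain ⟨δ, hδ, hδm⟩ := exists_delta_v5 m (half_pos hη)
  have hvb := vb_pos m
  have hlo := (hx.hasFDerivAt.isLittleO.bound hδ)
  obtain ⟨ρ, hρ, hρb⟩ := Metric.eventually_nhds_iff.1 hlo
  have he : ∀ᶠ r : ℝ in 𝓝[>] 0, (∫ y in ball x r, ‖gradient f y - q‖) / r ^ m < η / 2 * vb m :=
    hleb.eventually (gt_mem_nhds (by positivity))
  have hρe : ∀ᶠ r : ℝ in 𝓝[>] 0, r < ρ := nhdsWithin_le_nhds (gt_mem_nhds hρ)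
  filter_upwards [he, hρe, self_mem_nhdsWithin] with r her hrρ hr
  have hr : 0 < r := hr
  have hrm : 0 < r ^ m := pow_pos hr m
  set S := graphPt x₀ κ ν f ⁻¹' ball (graphPt x₀ κ ν f x) r with hS
  have hSb : S ⊆ ball x r := fun y hy => by
    rw [mem_ball, dist_eq_norm]; exact (pre_sub_v5 hν ho f f x hy).2.1
  have hST : S ⊆ {y | ‖TI q (y - x)‖ < (1 + δ) * r} := fun y hy => by
    obtain ⟨h1, h2, -⟩ := pre_sub_v5 hν ho f f x hy
    have h3 := hρb (y := y) (by rw [dist_eq_norm]; exact h2.trans hrρ)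
    rw [Real.norm_eq_abs, ← inner_grad] at h3
    refine tilt_v5 (norm_nonneg _) hr hδ.le (norm_nonneg _) h1 h3 ?_
    rw [norm_TI_sq]; ring
  obtain ⟨hTf, hTv⟩ := vol_ell_v5 q x (s := (1 + δ) * r) (by positivity)
  have hW : 0 < W q := lt_of_lt_of_le one_pos (one_le_W q)
  have hiN : IntegrableOn (fun y => ‖gradient f y - q‖) (ball x r) :=
    intOn_ball (hgm.sub aestronglyMeasurable_const).norm (C := L + ‖q‖)
      (Eventually.of_forall fun y _ => by
        rw [norm_norm]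
        exact (norm_sub_le _ _).trans (add_le_add (norm_grad_le hf y) le_rfl))
  have hiW : IntegrableOn (fun y => W (gradient f y)) (ball x r) :=
    intOn_ball (contDiff_W.continuous.comp_aestronglyMeasurable hgm) (C := WL L)
      (Eventually.of_forall fun y _ => by
        rw [Real.norm_eq_abs, abs_of_pos (lt_of_lt_of_le one_pos (one_le_W _))]
        exact W_le_WL (norm_grad_le hf y))
  have hSf : volume S ≠ ⊤ := ((measure_mono hSb).trans_lt measure_ball_lt_top).ne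
  haveI : IsFiniteMeasure (volume.restrict S) :=
    ⟨by rw [Measure.restrict_apply_univ]; exact hSf.lt_top⟩
  have h1 : ∫ y in S, W (gradient f y) ≤ ∫ y in S, (W q + ‖gradient f y - q‖) :=
    integral_mono (hiW.mono_set hSb) ((integrable_const _).add (hiN.mono_set hSb))
      fun y => W_le_add_v5 _ _
  rw [integral_add (integrable_const _) (hiN.mono_set hSb), setIntegral_const, smul_eq_mul] at h1
  have h2 : ∫ y in S, ‖gradient f y - q‖ ≤ ∫ y in ball x r, ‖gradient f y - q‖ :=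
    setIntegral_mono_set hiN (Eventually.of_forall fun _ => norm_nonneg _) hSb.eventuallyLE
  have h3 : volume.real S ≤ volume.real {y | ‖TI q (y - x)‖ < (1 + δ) * r} :=
    measureReal_mono hST hTf
  have h4 : volume.real S * W q ≤ (1 + η / 2) * (vb m * r ^ m) := by
    calc volume.real S * W q ≤ volume.real {y | ‖TI q (y - x)‖ < (1 + δ) * r} * W q :=
          mul_le_mul_of_nonneg_right h3 hW.le
      _ = (1 + δ) ^ m * (vb m * r ^ m) := by rw [mul_comm, hTv, mul_pow]; ring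
      _ ≤ (1 + η / 2) * (vb m * r ^ m) := mul_le_mul_of_nonneg_right hδm (by positivity)
  rw [div_lt_iff₀ hrm] at her
  nlinarith

theorem empty_v5 (hν : ‖ν‖ = 1) (ho : ∀ q, ⟪ν, κ q⟫ = 0) {f g : E m → ℝ} (hg : LipschitzWith L g)
    {x : E m} (hx : g x ≠ f x) :
    ∀ᶠ r in 𝓝[>] (0 : ℝ), graphPt x₀ κ ν g ⁻¹' ball (graphPt x₀ κ ν f x) r = ∅ := by
  have hd : 0 < |g x - f x| := abs_pos.2 (sub_ne_zero.2 hx)
  have hL : (0 : ℝ) < L + 1 := by positivity
  have hρe : ∀ᶠ r : ℝ in 𝓝[>] 0, r < |g x - f x| / (L + 1) :=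
    nhdsWithin_le_nhds (gt_mem_nhds (div_pos hd hL))
  filter_upwards [hρe] with r hr
  refine eq_empty_of_forall_notMem fun y hy => ?_
  obtain ⟨-, h2, h3⟩ := pre_sub_v5 hν ho f g x hy
  have h4 : |g x - g y| ≤ L * ‖y - x‖ := by
    have := hg.dist_le_mul x y
    rwa [Real.dist_eq, dist_comm, dist_eq_norm] at this
  have h5 : |g x - f x| ≤ |g x - g y| + |g y - f x| := abs_sub_le _ _ _
  have h6 : (L : ℝ) * ‖y - x‖ ≤ L * r := mul_le_mul_of_nonneg_left h2.le L.2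
  rw [lt_div_iff₀ hL] at hr
  nlinarith

theorem MG.density_le (h : MG V x₀ κ ν R L u) : ∀ᵐ x, ∀ i, graphPt x₀ κ ν (u i) x ∈ ball x₀ R →
    (∃ j, u j x ≠ u i x) → ∀ θ : ℝ, HasDensity m V.fst (graphPt x₀ κ ν (u i) x) θ →
      θ ≤ (N : ℝ) - 1 := by
  classical
  have hall := ae_all_iff.2 fun j : Fin N => ae_area_le (x₀ := x₀) h.unit h.orth (h.lip j)
  filter_upwards [hall] with x hx i hi hj θ hθ
  obtain ⟨j₀, hj₀⟩ := hj
  set P := graphPt x₀ κ ν (u i) x with hP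
  have hvb := vb_pos m
  have hN : (0 : ℝ) ≤ (N : ℝ) - 1 := by
    have : (1 : ℝ) ≤ N := by exact_mod_cast Nat.succ_le_of_lt (Fin.pos i)
    linarith
  have key : ∀ η > 0, θ ≤ (1 + η) * ((N : ℝ) - 1) := by
    intro η hη
    have e1 : ∀ j, ∀ᶠ r in 𝓝[>] (0 : ℝ), ∫ y in graphPt x₀ κ ν (u j) ⁻¹' ball P r,
        W (gradient (u j) y) ≤ if j = j₀ then 0 else (1 + η) * (vb m * r ^ m) := by
      intro j
      by_cases hji : u j x = u i x
      · have hne : j ≠ j₀ := fun e => hj₀ (e ▸ hji)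
        have hPj : P = graphPt x₀ κ ν (u j) x := by simp only [hP, graphPt, hji]
        simp only [if_neg hne, hPj]
        exact hx j η hη
      · filter_upwards [empty_v5 (x₀ := x₀) h.unit h.orth (h.lip j) hji, self_mem_nhdsWithin]
          with r hr hr0
        have hr0 : 0 < r := hr0
        rw [hr, Measure.restrict_empty, integral_zero_measure]
        split_ifs
        · exact le_rfl
        · positivity
    obtain ⟨ρ, hρ, hρb⟩ := Metric.isOpen_iff.1 isOpen_ball P hi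
    have hρe : ∀ᶠ r : ℝ in 𝓝[>] 0, r < ρ := nhdsWithin_le_nhds (gt_mem_nhds hρ)
    refine le_of_tendsto hθ ?_
    filter_upwards [eventually_all.2 e1, hρe, self_mem_nhdsWithin] with r hr hrρ hr0
    have hr0 : 0 < r := hr0
    have hV : 0 < vb m * r ^ m := mul_pos hvb (pow_pos hr0 m)
    have hom : omega m = vb m := rfl
    rw [(h.weight_real measurableSet_ball ((ball_subset_ball hrρ.le).trans hρb)).2, hom,
      div_le_iff₀ hV]
    refine (Finset.sum_le_sum fun j _ => hr j).trans (le_of_eq ?_)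
    rw [Finset.sum_ite, Finset.sum_const_zero, zero_add, Finset.sum_const, nsmul_eq_mul,
      Finset.filter_ne' Finset.univ j₀, Finset.card_erase_of_mem (Finset.mem_univ _),
      Finset.card_univ, Fintype.card_fin, Nat.cast_sub (Nat.succ_le_of_lt (Fin.pos i))]
    push_cast
    ring
  have hc : Tendsto (fun η : ℝ => (1 + η) * ((N : ℝ) - 1)) (𝓝[>] 0) (𝓝 ((1 + 0) * ((N : ℝ) - 1))) :=
    (Continuous.tendsto (by fun_prop) 0).mono_left nhdsWithin_le_nhds
  have := ge_of_tendsto hc (by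
    filter_upwards [self_mem_nhdsWithin] with η hη
    exact key η hη)
  simpa using this

end Pool.Agent.Lib.MP_8daebb_an.LH
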