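import Pool.Agent.Lib.MP_8daebb_an.LH.V5

open MeasureTheory Metric Set Filter Topology
open scoped RealInnerProductSpace NNReal ContDiff
open Pool.Agent.Lib.MP_8daebb_an.LG

namespace Pool.Agent.Lib.MP_8daebb_an.LH

variable {m N : ℕ} {X : Type} [NormedAddCommGroup X] [InnerProductSpace ℝ X]
  [FiniteDimensional ℝ X] [MeasurableSpace X] [BorelSpace X]
  {V : Measure (X × (X →L[ℝ] X))} {x₀ ν : X} {κ : E m →ₗᵢ[ℝ] X} {R : ℝ} {u : Fin N → E m → ℝ}
  {L : ℝ≥0}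

/-! V6. The density condition in graph form, and the support. -/

theorem graph_dist_le_v6 (hν : ‖ν‖ = 1) (ho : ∀ q, ⟪ν, κ q⟫ = 0) {f : E m → ℝ}
    (hf : LipschitzWith L f) (x y : E m) :
    ‖graphPt x₀ κ ν f x - graphPt x₀ κ ν f y‖ ≤ (L + 1) * ‖x - y‖ := by
  have h1 := norm_graphPt_sub (x₀ := x₀) hν ho f f x y
  have h2 : |f x - f y| ≤ L * ‖x - y‖ := by
    have := hf.dist_le_mul x y
    rwa [Real.dist_eq, dist_eq_norm] at this
  have h3 : (f x - f y) ^ 2 ≤ (L * ‖x - y‖) ^ 2 := by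
    rw [← sq_abs]
    exact pow_le_pow_left₀ (abs_nonneg _) h2 2
  have hL := L.coe_nonneg
  have h4 : 0 ≤ (L : ℝ) * ‖x - y‖ ^ 2 := by positivity
  refine abs_le_of_sq_le_sq' ?_ (by positivity) |>.2
  nlinarith

theorem le_graph_dist_v6 (hν : ‖ν‖ = 1) (ho : ∀ q, ⟪ν, κ q⟫ = 0) (f : E m → ℝ) (x y : E m) :
    ‖x - y‖ ≤ ‖graphPt x₀ κ ν f x - graphPt x₀ κ ν f y‖ := by
  have h1 := norm_graphPt_sub (x₀ := x₀) hν ho f f x y
  refine abs_le_of_sq_le_sq' ?_ (norm_nonneg _) |>.2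
  nlinarith [sq_nonneg (f x - f y)]

theorem base_mem_v6 (hν : ‖ν‖ = 1) (ho : ∀ q, ⟪ν, κ q⟫ = 0) (f : E m → ℝ) {x : E m} {ρ : ℝ}
    (hx : graphPt x₀ κ ν f x ∈ ball x₀ ρ) : ‖x‖ < ρ := by
  have h1 := norm_graphPt (x₀ := x₀) hν ho f x
  have h2 : ‖x‖ ≤ ‖graphPt x₀ κ ν f x - x₀‖ := by
    refine abs_le_of_sq_le_sq' ?_ (norm_nonneg _) |>.2
    nlinarith [sq_nonneg (f x)]
  rw [mem_ball, dist_eq_norm] at hx
  exact h2.trans_lt hx

theorem closed_graph_v6 (hν : ‖ν‖ = 1) (ho : ∀ q, ⟪ν, κ q⟫ = 0) {f : E m → ℝ}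
    (hf : LipschitzWith L f) : IsClosed (range (graphPt x₀ κ ν f)) := by
  have h1 : AntilipschitzWith 1 (graphPt x₀ κ ν f) := by
    refine AntilipschitzWith.of_le_mul_dist fun x y => ?_
    rw [dist_eq_norm, dist_eq_norm, NNReal.coe_one, one_mul]
    exact le_graph_dist_v6 hν ho f x y
  have h2 : LipschitzWith (L + 1) (graphPt x₀ κ ν f) := by
    refine LipschitzWith.of_dist_le_mul fun x y => ?_
    rw [dist_eq_norm, dist_eq_norm, NNReal.coe_add, NNReal.coe_one]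
    exact graph_dist_le_v6 hν ho hf x y
  exact h1.isClosed_range h2.uniformContinuous

theorem MG.bad_le_v6 (h : MG V x₀ κ ν R L u) (h0 : ∀ i, u i 0 = 0) (hN : 0 < N) {Θ : ℝ}
    (hΘ : (N : ℝ) ≤ Θ) {r : ℝ} (hr : (L + 1) * r ≤ R) :
    volume.real ({x | ∃ i j, u i x ≠ u j x} ∩ ball 0 r) ≤
      (V.fst ({x | ¬HasDensity m V.fst x Θ} ∩ ball x₀ ((L + 1) * r))).toReal := by
  have hsub : {x | ¬HasDensity m V.fst x Θ} ∩ ball x₀ ((L + 1) * r) ⊆ ball x₀ R :=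
    inter_subset_right.trans (ball_subset_ball hr)
  have hfin : V.fst ({x | ¬HasDensity m V.fst x Θ} ∩ ball x₀ ((L + 1) * r)) ≠ ⊤ :=
    ne_top_of_le_ne_top (h.weight_real measurableSet_ball subset_rfl).1 (measure_mono hsub)
  refine ENNReal.toReal_mono hfin (le_trans (measure_mono_ae ?_) (h.vol_le_weight hsub ⟨0, hN⟩))
  filter_upwards [h.density_le] with x hx hxb
  obtain ⟨⟨i, j, hij⟩, hxr⟩ := hxb
  have hxr' : ‖x‖ < r := mem_ball_zero_iff.mp hxr
  have hball : graphPt x₀ κ ν (u ⟨0, hN⟩) x ∈ ball x₀ ((L + 1) * r) := by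
    have h1 := graph_dist_le_v6 (x₀ := x₀) h.unit h.orth (h.lip ⟨0, hN⟩) x 0
    have h2 : graphPt x₀ κ ν (u ⟨0, hN⟩) 0 = x₀ := by simp [graphPt, h0]
    rw [h2, sub_zero] at h1
    rw [mem_ball, dist_eq_norm]
    exact h1.trans_lt (mul_lt_mul_of_pos_left hxr' (by positivity))
  refine ⟨fun hd => ?_, hball⟩
  have hne : ∃ j, u j x ≠ u ⟨0, hN⟩ x := by
    by_contra hc
    push Not at hc
    exact hij ((hc i).trans (hc j).symm)
  have := hx ⟨0, hN⟩ (ball_subset_ball hr hball) hne Θ hd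
  linarith

theorem MG.density_cond (h : MG V x₀ κ ν R L u) (h0 : ∀ i, u i 0 = 0) (hN : 0 < N) {Θ : ℝ}
    (hΘ : (N : ℝ) ≤ Θ) (hbad : DensityCondition m V.fst x₀ Θ) :
    Tendsto (fun r : ℝ => volume.real ({x | ∃ i j, u i x ≠ u j x} ∩ ball 0 r) / r ^ m)
      (𝓝[>] 0) (𝓝 0) := by
  have hc : (0 : ℝ) < L + 1 := by positivity
  have ht : Tendsto (fun r : ℝ => ((L : ℝ) + 1) * r) (𝓝[>] 0) (𝓝[>] 0) := by
    refine tendsto_nhdsWithin_iff.mpr ⟨?_, ?_⟩
    · have h1 : Tendsto (fun r : ℝ => ((L : ℝ) + 1) * r) (𝓝 0) (𝓝 (((L : ℝ) + 1) * 0)) :=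
        (continuous_const.mul continuous_id).tendsto 0
      rw [mul_zero] at h1
      exact h1.mono_left nhdsWithin_le_nhds
    · filter_upwards [self_mem_nhdsWithin] with r hr
      exact mul_pos hc hr
  have h2 := (Tendsto.comp hbad ht).const_mul (((L : ℝ) + 1) ^ m)
  rw [mul_zero] at h2
  refine squeeze_zero' ?_ ?_ h2
  · filter_upwards [self_mem_nhdsWithin] with r hr
    have hr' : 0 < r := hr
    exact div_nonneg measureReal_nonneg (by positivity)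
  · filter_upwards [Ioo_mem_nhdsGT (div_pos h.R_pos hc)] with r hr
    have hr0 : 0 < r := hr.1
    have hr1 : ((L : ℝ) + 1) * r ≤ R := by
      have := (lt_div_iff₀ hc).mp hr.2
      linarith
    have h3 := h.bad_le_v6 h0 hN hΘ hr1
    have e : ((L : ℝ) + 1) ^ m *
        ((V.fst ({x | ¬HasDensity m V.fst x Θ} ∩ ball x₀ ((L + 1) * r))).toReal /
          (((L : ℝ) + 1) * r) ^ m) =
        (V.fst ({x | ¬HasDensity m V.fst x Θ} ∩ ball x₀ ((L + 1) * r))).toReal / r ^ m := by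
      rw [mul_pow]
      field_simp
    simp only [Function.comp_apply]
    rw [e]
    exact div_le_div_of_nonneg_right h3 (by positivity)

theorem exists_smooth_ext_v6 {r : ℝ} (hr : 0 < r) {w : E m → ℝ}
    (hw : ContDiffOn ℝ ∞ w (ball 0 r)) :
    ∃ g : E m → ℝ, ContDiff ℝ ∞ g ∧ ∀ p : E m, ‖p‖ < r / 2 → g p = w p := by
  let χ : ContDiffBump (0 : E m) := ⟨r / 2, 3 * r / 4, by positivity, by linarith⟩
  refine ⟨fun p => χ p * w p, contDiff_iff_contDiffAt.mpr fun p => ?_, fun p hp => ?_⟩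
  · by_cases hp : p ∈ ball (0 : E m) r
    · exact χ.contDiff.contDiffAt.mul (hw.contDiffAt (isOpen_ball.mem_nhds hp))
    · have h1 : p ∉ tsupport χ := by
        rw [χ.tsupport_eq]
        intro h2
        refine hp (closedBall_subset_ball ?_ h2)
        show 3 * r / 4 < r
        linarith
      have h3 : (fun p => χ p * w p) =ᶠ[𝓝 p] fun _ => 0 := by
        filter_upwards [notMem_tsupport_iff_eventuallyEq.mp h1] with q hq
        rw [hq]
        simp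
      exact contDiffAt_const.congr_of_eventuallyEq h3
  · have h1 : χ p = 1 := χ.one_of_mem_closedBall (mem_closedBall_zero_iff.mpr hp.le)
    simp [h1]

theorem MG.graph_mem_support_v6 (h : MG V x₀ κ ν R L u) (i : Fin N) {p : E m}
    (hp : graphPt x₀ κ ν (u i) p ∈ ball x₀ R) : graphPt x₀ κ ν (u i) p ∈ V.fst.support := by
  refine (Measure.mem_support_iff_forall _).mpr fun U hU => ?_
  have h1 : U ∩ ball x₀ R ∈ 𝓝 (graphPt x₀ κ ν (u i) p) :=
    inter_mem hU (isOpen_ball.mem_nhds hp)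
  have h2 : graphPt x₀ κ ν (u i) ⁻¹' (U ∩ ball x₀ R) ∈ 𝓝 p :=
    (continuous_graphPt (h.lip i).continuous).continuousAt.preimage_mem_nhds h1
  exact (Measure.measure_pos_of_mem_nhds volume h2).trans_le
    ((h.vol_le_weight inter_subset_right i).trans (measure_mono inter_subset_left))

theorem MG.support_subset_v6 (h : MG V x₀ κ ν R L u) (i₀ : Fin N) {ρ : ℝ} (hρ : ρ ≤ R)
    (he : ∀ i x, ‖x‖ < ρ → u i x = u i₀ x) {y : X} (hy : y ∈ V.fst.support)
    (hyb : y ∈ ball x₀ ρ) : y ∈ range (graphPt x₀ κ ν (u i₀)) := by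
  by_contra hc
  have hO : IsOpen ((range (graphPt x₀ κ ν (u i₀)))ᶜ ∩ ball x₀ ρ) :=
    (closed_graph_v6 h.unit h.orth (h.lip i₀)).isOpen_compl.inter isOpen_ball
  have hpos := (Measure.mem_support_iff_forall _).mp hy _ (hO.mem_nhds ⟨hc, hyb⟩)
  rw [h.weight hO.measurableSet (inter_subset_right.trans (ball_subset_ball hρ))] at hpos
  refine hpos.ne' (Finset.sum_eq_zero fun i _ => ?_)
  have hem : graphPt x₀ κ ν (u i) ⁻¹' ((range (graphPt x₀ κ ν (u i₀)))ᶜ ∩ ball x₀ ρ) = ∅ := by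
    refine eq_empty_of_forall_notMem fun x hx => hx.1 ⟨x, ?_⟩
    have h1 := he i x (base_mem_v6 h.unit h.orth (u i) hx.2)
    simp only [graphPt, h1]
  rw [hem]
  simp

theorem MG.smoothGraphNear (h : MG V x₀ κ ν R L u) (hN : 0 < N) {r : ℝ} (hr : 0 < r)
    {w : E m → ℝ} (hw : ContDiffOn ℝ ∞ w (ball 0 r)) (he : ∀ i, EqOn (u i) w (ball 0 r)) :
    SmoothGraphNear V.fst.support x₀ κ := by
  obtain ⟨g, hg, hgw⟩ := exists_smooth_ext_v6 hr hw
  have hu : ∀ i (x : E m), ‖x‖ < min (r / 2) R → u i x = g x := by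
    intro i x hx
    have h1 : ‖x‖ < r / 2 := hx.trans_le (min_le_left _ _)
    rw [hgw x h1]
    exact he i (mem_ball_zero_iff.mpr (by linarith))
  refine ⟨min (r / 2) R, lt_min (by positivity) h.R_pos, fun p => g p • ν,
    hg.smul contDiff_const, fun p q => by rw [real_inner_smul_left, h.orth, mul_zero], ?_⟩
  ext y
  constructor
  · rintro ⟨hy, hyb⟩
    obtain ⟨x, rfl⟩ := h.support_subset_v6 ⟨0, hN⟩ (min_le_right _ _)
      (fun i x hx => (hu i x hx).trans (hu _ x hx).symm) hy hyb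
    refine ⟨⟨x, ?_⟩, hyb⟩
    simp only [graphPt, hu _ x (base_mem_v6 h.unit h.orth _ hyb)]
  · rintro ⟨⟨x, rfl⟩, hyb⟩
    have hyb' : graphPt x₀ κ ν g x ∈ ball x₀ (min (r / 2) R) := hyb
    have e : graphPt x₀ κ ν g x = graphPt x₀ κ ν (u ⟨0, hN⟩) x := by
      simp only [graphPt, hu _ x (base_mem_v6 h.unit h.orth g hyb')]
    refine ⟨?_, hyb⟩
    show graphPt x₀ κ ν g x ∈ V.fst.support
    rw [e] at hyb' ⊢
    exact h.graph_mem_support_v6 _ (ball_subset_ball (min_le_right _ _) hyb')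

end Pool.Agent.Lib.MP_8daebb_an.LH
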