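import Pool.Agent.Lib.MP_8daebb_an.Setting

/-! Varifolds that are Lipschitz multigraphs of codimension one near a point. -/

open MeasureTheory Metric Set
open scoped RealInnerProductSpace NNReal

namespace Pool.Agent.Lib.MP_8daebb_an

variable {H E : Type} [NormedAddCommGroup H] [InnerProductSpace ℝ H] [NormedAddCommGroup E]
  [InnerProductSpace ℝ E]

/-- The point of the graph of `f` over `x₀ + κ(H)` in the direction `ν`. -/
noncomputable def graphPt (x₀ : E) (κ : H →ₗᵢ[ℝ] E) (ν : E) (f : H → ℝ) (x : H) : E :=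
  x₀ + κ x + f x • ν

/-- The orthogonal projection onto the tangent plane of a graph of slope `q`, that is onto the
orthogonal complement of the normal `ν - κ q`. -/
noncomputable def tanProj [FiniteDimensional ℝ E] (κ : H →ₗᵢ[ℝ] E) (ν : E) (q : H) : E →L[ℝ] E :=
  (ℝ ∙ (ν - κ q))ᗮ.starProjection

variable [FiniteDimensional ℝ H] [MeasurableSpace H] [BorelSpace H]

/-- The area measure of the graph of `f`, on the base. -/
noncomputable def areaMeasure (f : H → ℝ) : Measure H :=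
  volume.withDensity fun x => ENNReal.ofReal √(1 + ‖gradient f x‖ ^ 2)

variable [FiniteDimensional ℝ E] [MeasurableSpace E] [BorelSpace E]

/-- The multiplicity one varifold of the graph of `f`. -/
noncomputable def graphVarifold (x₀ : E) (κ : H →ₗᵢ[ℝ] E) (ν : E) (f : H → ℝ) :
    Measure (E × (E →L[ℝ] E)) :=
  (areaMeasure f).map fun x => (graphPt x₀ κ ν f x, tanProj κ ν (gradient f x))

/-- The sum of the varifolds of the graphs of the functions `u i`. -/
noncomputable def sumOfGraphs (x₀ : E) (κ : H →ₗᵢ[ℝ] E) (ν : E) {N : ℕ} (u : Fin N → H → ℝ) :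
    Measure (E × (E →L[ℝ] E)) :=
  ∑ i, graphVarifold x₀ κ ν (u i)

omit [FiniteDimensional ℝ E] in
/-- The part of a varifold over the ball `B_R(x₀)`. -/
noncomputable def restrictBall (V : Measure (E × (E →L[ℝ] E))) (x₀ : E) (R : ℝ) :
    Measure (E × (E →L[ℝ] E)) :=
  V.restrict {z | z.1 ∈ ball x₀ R}

/-- In the ball `B_R(x₀)` the varifold `V` is the sum of the graphs of the functions `u i`. -/
def IsSumOfGraphs (V : Measure (E × (E →L[ℝ] E))) (x₀ : E) (κ : H →ₗᵢ[ℝ] E) (ν : E) (R : ℝ)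
    {N : ℕ} (u : Fin N → H → ℝ) : Prop :=
  restrictBall V x₀ R = restrictBall (sumOfGraphs x₀ κ ν u) x₀ R

/-- Near `x₀` the varifold `V` is a finite sum of Lipschitz graphs over `x₀ + κ(H)`. -/
def IsLipMultigraphNear (V : Measure (E × (E →L[ℝ] E))) (x₀ : E) (κ : H →ₗᵢ[ℝ] E) : Prop :=
  ∃ (ν : E) (R : ℝ) (N : ℕ) (L : ℝ≥0) (u : Fin N → H → ℝ), ‖ν‖ = 1 ∧ (∀ q, ⟪ν, κ q⟫ = 0) ∧
    0 < R ∧ (∀ i, LipschitzWith L (u i)) ∧ IsSumOfGraphs V x₀ κ ν R u

end Pool.Agent.Lib.MP_8daebb_an
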