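import Pool.Agent.Lib.MP_8daebb_an.LH.V1
import Pool.Agent.Lib.MP_8daebb_an.LH.V2
import Pool.Agent.Lib.MP_8daebb_an.LH.V3
import Pool.Agent.Lib.MP_8daebb_an.LH.V4
import Pool.Agent.Lib.MP_8daebb_an.LH.V6
import Pool.Agent.Lib.MP_8daebb_an.LH.BFin

open MeasureTheory Metric Set Filter Topology
open scoped RealInnerProductSpace NNReal ContDiff
open Pool.Agent.Lib.MP_8daebb_an.LG

namespace Pool.Agent.Lib.MP_8daebb_an.LH

variable {m N : ℕ} {X : Type} [NormedAddCommGroup X] [InnerProductSpace ℝ X]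
  [FiniteDimensional ℝ X] [MeasurableSpace X] [BorelSpace X]
  {V : Measure (X × (X →L[ℝ] X))} {x₀ ν : X} {κ : E m →ₗᵢ[ℝ] X} {R : ℝ} {u : Fin N → E m → ℝ}
  {L : ℝ≥0}

/-! VMAIN. The theorem in the wording of the question. -/

theorem regular_of_multigraph (hX : Module.finrank ℝ X = m + 1) {U : Set X} (hU : IsOpen U)
    (hV : IsStationaryVarifold m U V) (hx₀ : x₀ ∈ U) (hx₀s : x₀ ∈ V.fst.support) {Θ : ℝ}
    (hd : HasDensity m V.fst x₀ Θ) {ι : E m →ₗᵢ[ℝ] X} (ht : HasFlatTangent m V.fst x₀ Θ ι)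
    (hbad : DensityCondition m V.fst x₀ Θ) (hg : IsLipMultigraphNear V x₀ κ) :
    SmoothGraphNear V.fst.support x₀ κ := by
  obtain ⟨ν, R, N, L, u, hν, ho, hR, hL, hs⟩ := hg
  obtain ⟨Q, R', u', hQ, h', h0⟩ := (⟨hX, hν, ho, hR, hL, hs⟩ : MG V x₀ κ ν R L u).reduce hx₀s
  obtain ⟨δ, hδ, hδU⟩ := Metric.isOpen_iff.1 hU x₀ hx₀
  have h := h'.mono (lt_min h'.R_pos hδ) (min_le_left _ _)
  have hst := h.stationary h0 hV ((ball_subset_ball (min_le_right _ _)).trans hδU)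
  obtain ⟨p, hp⟩ := h.gradient h0 hQ ht
  have hdc := h.density_cond h0 hQ (h.le_density h0 hp hd) hbad
  have : Nonempty (Fin Q) := ⟨⟨0, hQ⟩⟩
  have hpos : 0 < min R' δ / ((L : ℝ) + 2) := div_pos h.R_pos (by positivity)
  obtain ⟨r, hr, w, hw, he⟩ := general h.lip hpos
    (stat_of_stationaryGraph h.lip isOpen_ball hst) h0 hp hdc
  exact h.smoothGraphNear hQ hr hw he

end Pool.Agent.Lib.MP_8daebb_an.LH
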